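import Mathlib
import Pool.Agent.Lib.MP_8f66f0_al_Hier.Defs

/-! Group actions on 2-complexes (Theorem 2D, note 3304).

Lists: the head of a list of beads is the LAST factor (as in `Hier.wd`). -/

set_option autoImplicit false

namespace Pool.Agent.Cx2

open Pool.Agent.Wald

/-- A connected graph `Γ` with an invariant orientation of the edges, and 2-cells `C`: the
corners of the cell `c` are, in cyclic order, `bv c` (the base corner) and the list `rs c`. The
group `G` acts; that `bv`, `rs` and the orientation are compatible with the action means that an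
element which maps an edge or a 2-cell to itself fixes it pointwise. -/
structure Cx (G V C : Type) [Group G] [MulAction G V] [MulAction G C] where
  Γ : SimpleGraph V
  conn : Γ.Connected
  adj_smul : ∀ (g : G) (u v : V), Γ.Adj u v → Γ.Adj (g • u) (g • v)
  ori : V → V → Prop
  ori_or : ∀ u v, Γ.Adj u v → ori u v ∨ ori v u
  ori_adj : ∀ u v, ori u v → Γ.Adj u v
  ori_anti : ∀ u v, ori u v → ¬ ori v u
  ori_smul : ∀ (g : G) (u v : V), ori u v → ori (g • u) (g • v)
  bv : C → V
  rs : C → List V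
  bv_smul : ∀ (g : G) (c : C), bv (g • c) = g • bv c
  rs_smul : ∀ (g : G) (c : C), rs (g • c) = (rs c).map fun v => g • v
  bd_adj : ∀ c, List.IsChain Γ.Adj (bv c :: (rs c ++ [bv c]))

variable {G V C : Type} [Group G] [MulAction G V] [MulAction G C] (X : Cx G V C)

/-- The oriented edges. -/
def Cx.E : Type := {p : V × V // X.ori p.1 p.2}

instance : MulAction G X.E where
  smul g e := ⟨(g • e.1.1, g • e.1.2), X.ori_smul g _ _ e.2⟩
  one_smul _ := Subtype.ext (Prod.ext (one_smul G _) (one_smul G _))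
  mul_smul g h _ := Subtype.ext (Prod.ext (mul_smul g h _) (mul_smul g h _))

/-- The free group on the oriented edges. -/
abbrev Cx.FG : Type := FreeGroup X.E

/-- The action of `G` on the free group. -/
def Cx.φ : G →* MulAut X.FG where
  toFun g := FreeGroup.freeGroupCongr (MulAction.toPerm g)
  map_one' := by
    ext x
    rw [FreeGroup.freeGroupCongr_apply, MulAut.one_apply]
    have h : (⇑(MulAction.toPerm (1 : G)) : X.E → X.E) = id := by
      funext e
      exact one_smul G e
    rw [h, FreeGroup.map.id]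
  map_mul' g h := by
    ext x
    rw [MulAut.mul_apply, FreeGroup.freeGroupCongr_apply, FreeGroup.freeGroupCongr_apply,
      FreeGroup.freeGroupCongr_apply, FreeGroup.map.comp]
    have h' : (⇑(MulAction.toPerm (g * h)) : X.E → X.E) =
        ⇑(MulAction.toPerm g) ∘ ⇑(MulAction.toPerm h) := by
      funext e
      exact mul_smul g h e
    rw [h']

theorem Cx.φ_of (g : G) (e : X.E) : X.φ g (FreeGroup.of e) = FreeGroup.of (g • e) := by
  change FreeGroup.freeGroupCongr (MulAction.toPerm g) (FreeGroup.of e) = _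
  rw [FreeGroup.freeGroupCongr_apply, FreeGroup.map.of]
  rfl

open Classical in
/-- The element of an edge `u → v` of the graph. -/
noncomputable def Cx.ε (u v : V) : X.FG :=
  if h : X.ori u v then FreeGroup.of ⟨(u, v), h⟩
  else if h : X.ori v u then (FreeGroup.of ⟨(v, u), h⟩)⁻¹ else 1

theorem Cx.ε_ori {u v : V} (h : X.ori u v) : X.ε u v = FreeGroup.of ⟨(u, v), h⟩ := by
  unfold Cx.ε
  rw [dif_pos h]

theorem Cx.ε_ori' {u v : V} (h : X.ori v u) : X.ε u v = (FreeGroup.of ⟨(v, u), h⟩)⁻¹ := by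
  unfold Cx.ε
  rw [dif_neg (X.ori_anti _ _ h), dif_pos h]

theorem Cx.ε_inv (u v : V) : X.ε v u = (X.ε u v)⁻¹ := by
  by_cases h : X.ori u v
  · rw [X.ε_ori h, X.ε_ori' h]
  · by_cases h' : X.ori v u
    · rw [X.ε_ori h', X.ε_ori' h', inv_inv]
    · unfold Cx.ε
      rw [dif_neg h', dif_neg h, dif_neg h, dif_neg h', inv_one]

theorem Cx.ori_smul_iff (g : G) (u v : V) : X.ori (g • u) (g • v) ↔ X.ori u v := by
  refine ⟨fun h => ?_, X.ori_smul g u v⟩
  have h1 := X.ori_smul g⁻¹ _ _ h
  rwa [inv_smul_smul, inv_smul_smul] at h1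

theorem Cx.φ_ε (g : G) (u v : V) : X.φ g (X.ε u v) = X.ε (g • u) (g • v) := by
  by_cases h : X.ori u v
  · rw [X.ε_ori h, X.ε_ori (X.ori_smul g _ _ h), X.φ_of]
    rfl
  · by_cases h' : X.ori v u
    · rw [X.ε_ori' h', X.ε_ori' (X.ori_smul g _ _ h'), map_inv, X.φ_of]
      rfl
    · unfold Cx.ε
      rw [dif_neg h, dif_neg h', dif_neg (fun h1 => h ((X.ori_smul_iff g u v).1 h1)),
        dif_neg (fun h1 => h' ((X.ori_smul_iff g v u).1 h1)), map_one]

/-- The value of a walk. -/
noncomputable def Cx.val : ∀ {u v : V}, X.Γ.Walk u v → X.FG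
  | _, _, .nil => 1
  | _, _, .cons (u := u) (v := w) _ p => X.ε u w * Cx.val p

@[simp] theorem Cx.val_nil (u : V) : X.val (SimpleGraph.Walk.nil : X.Γ.Walk u u) = 1 := rfl

@[simp] theorem Cx.val_cons {u v w : V} (h : X.Γ.Adj u v) (p : X.Γ.Walk v w) :
    X.val (SimpleGraph.Walk.cons h p) = X.ε u v * X.val p := rfl

theorem Cx.val_append {u v w : V} (p : X.Γ.Walk u v) (q : X.Γ.Walk v w) :
    X.val (p.append q) = X.val p * X.val q := by
  induction p with
  | nil => rw [SimpleGraph.Walk.nil_append, Cx.val_nil, one_mul]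
  | cons h p ih => rw [SimpleGraph.Walk.cons_append, Cx.val_cons, Cx.val_cons, ih, mul_assoc]

theorem Cx.val_reverse {u v : V} (p : X.Γ.Walk u v) : X.val p.reverse = (X.val p)⁻¹ := by
  induction p with
  | nil => rw [SimpleGraph.Walk.reverse_nil, Cx.val_nil, inv_one]
  | cons h p ih =>
    rw [SimpleGraph.Walk.reverse_cons, X.val_append, Cx.val_cons, Cx.val_cons, Cx.val_nil,
      mul_one, ih, X.ε_inv, mul_inv_rev]

/-- The translate of a walk. -/
def Cx.sw (g : G) : ∀ {u v : V}, X.Γ.Walk u v → X.Γ.Walk (g • u) (g • v)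
  | _, _, .nil => .nil
  | _, _, .cons h p => .cons (X.adj_smul g _ _ h) (Cx.sw g p)

theorem Cx.sw_length (g : G) {u v : V} (p : X.Γ.Walk u v) : (X.sw g p).length = p.length := by
  induction p with
  | nil => rfl
  | cons h p ih =>
    change (X.sw g p).length + 1 = p.length + 1
    rw [ih]

theorem Cx.val_sw (g : G) {u v : V} (p : X.Γ.Walk u v) : X.val (X.sw g p) = X.φ g (X.val p) := by
  induction p with
  | nil => exact (map_one _).symm
  | cons h p ih =>
    change X.ε _ _ * X.val (X.sw g p) = X.φ g (X.ε _ _ * X.val p)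
    rw [ih, map_mul, X.φ_ε]

/-- `w` is (the value of) a path from `u` to `v`. -/
def Cx.IsP (u v : V) (w : X.FG) : Prop := ∃ p : X.Γ.Walk u v, X.val p = w

theorem Cx.isP_one (u : V) : X.IsP u u 1 := ⟨.nil, rfl⟩

theorem Cx.IsP.mul {X : Cx G V C} {u v w : V} {x y : X.FG} (hx : X.IsP u v x)
    (hy : X.IsP v w y) : X.IsP u w (x * y) := by
  obtain ⟨p, rfl⟩ := hx
  obtain ⟨q, rfl⟩ := hy
  exact ⟨p.append q, X.val_append p q⟩

theorem Cx.IsP.inv {X : Cx G V C} {u v : V} {x : X.FG} (hx : X.IsP u v x) :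
    X.IsP v u x⁻¹ := by
  obtain ⟨p, rfl⟩ := hx
  exact ⟨p.reverse, X.val_reverse p⟩

theorem Cx.IsP.smul {X : Cx G V C} {u v : V} {x : X.FG} (hx : X.IsP u v x) (g : G) :
    X.IsP (g • u) (g • v) (X.φ g x) := by
  obtain ⟨p, rfl⟩ := hx
  exact ⟨X.sw g p, X.val_sw g p⟩

theorem Cx.isP_ε {u v : V} (h : X.Γ.Adj u v) : X.IsP u v (X.ε u v) :=
  ⟨.cons h .nil, by rw [Cx.val_cons, Cx.val_nil, mul_one]⟩

/-- The value of the closed path `u → x₁ → ⋯ → x_n → b`. -/
noncomputable def Cx.cy (b : V) : V → List V → X.FG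
  | u, [] => X.ε u b
  | u, x :: l => X.ε u x * Cx.cy b x l

theorem Cx.isP_cy (b : V) (l : List V) : ∀ u : V, List.IsChain X.Γ.Adj (u :: (l ++ [b])) →
    X.IsP u b (X.cy b u l) := by
  induction l with
  | nil =>
    intro u h
    rw [List.nil_append, List.isChain_cons_cons] at h
    exact X.isP_ε h.1
  | cons x l ih =>
    intro u h
    rw [List.cons_append, List.isChain_cons_cons] at h
    exact (X.isP_ε h.1).mul (ih x h.2)

theorem Cx.φ_cy (g : G) (b : V) (l : List V) : ∀ u : V,
    X.φ g (X.cy b u l) = X.cy (g • b) (g • u) (l.map fun v => g • v) := by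
  induction l with
  | nil => exact fun u => X.φ_ε g u b
  | cons x l ih =>
    intro u
    change X.φ g (X.ε u x * X.cy b x l) = X.ε (g • u) (g • x) * X.cy (g • b) (g • x) _
    rw [map_mul, X.φ_ε, ih]

/-- The boundary of the cell `c`, a closed path at `bv c`. -/
noncomputable def Cx.r (c : C) : X.FG := X.cy (X.bv c) (X.bv c) (X.rs c)

theorem Cx.isP_r (c : C) : X.IsP (X.bv c) (X.bv c) (X.r c) := X.isP_cy _ _ _ (X.bd_adj c)

theorem Cx.φ_r (g : G) (c : C) : X.φ g (X.r c) = X.r (g • c) := by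
  unfold Cx.r
  rw [X.φ_cy, X.bv_smul, X.rs_smul]

/-- `c` is a triangle with the corners `a`, `b`, `m` (in any order). -/
def Cx.IsTri (c : C) (a b m : V) : Prop :=
  (X.bv c = a ∧ (X.rs c = [b, m] ∨ X.rs c = [m, b])) ∨
  (X.bv c = b ∧ (X.rs c = [a, m] ∨ X.rs c = [m, a])) ∨
  (X.bv c = m ∧ (X.rs c = [a, b] ∨ X.rs c = [b, a]))

/-- `c` is a square with the corners `a`, `b`, `m`, `n` in this cyclic order. -/
def Cx.IsSq (c : C) (a b m n : V) : Prop :=
  (X.bv c = a ∧ (X.rs c = [b, m, n] ∨ X.rs c = [n, m, b])) ∨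
  (X.bv c = b ∧ (X.rs c = [m, n, a] ∨ X.rs c = [a, n, m])) ∨
  (X.bv c = m ∧ (X.rs c = [n, a, b] ∨ X.rs c = [b, a, n])) ∨
  (X.bv c = n ∧ (X.rs c = [a, b, m] ∨ X.rs c = [m, b, a]))

/-- `u` is a down-neighbour of `v`, seen from `o`. -/
def Cx.Dn (o v u : V) : Prop := X.Γ.Adj v u ∧ X.Γ.dist o u + 1 = X.Γ.dist o v

/-- A triangle with one farthest corner `v`. -/
def Cx.PA (o : V) (c : C) (v u u' : V) : Prop :=
  X.IsTri c v u u' ∧ X.Dn o v u ∧ X.Dn o v u' ∧ u ≠ u'

/-- A triangle with two farthest corners `u`, `u'`. -/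
def Cx.PB (o : V) (c : C) (x u u' : V) : Prop :=
  X.IsTri c x u u' ∧ X.Dn o u x ∧ X.Dn o u' x ∧ u ≠ u'

/-- A square with the farthest corner `v` and the nearest corner `x`. -/
def Cx.PS (o : V) (c : C) (v u x u' : V) : Prop :=
  X.IsSq c v u x u' ∧ X.Dn o v u ∧ X.Dn o v u' ∧ X.Dn o u x ∧ X.Dn o u' x ∧ u ≠ u'

/-- `v` is the farthest corner of `c`, and `u`, `u'` are its neighbours in `c`. -/
def Cx.Top (o : V) (c : C) (v u u' : V) : Prop :=
  X.PA o c v u u' ∨ ∃ x, X.PS o c v u x u'

/-- The metric conditions: the complex is 2-dimensional as seen from every vertex `o`. -/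
structure Cx.Met : Prop where
  two : ∀ o v u u' u'', X.Dn o v u → X.Dn o v u' → X.Dn o v u'' → u = u' ∨ u = u'' ∨ u' = u''
  top : ∀ o v u u', X.Dn o v u → X.Dn o v u' → u ≠ u' → ∃ c, X.Top o c v u u'
  top_uniq : ∀ o v u u' w w' c c', X.Top o c v u u' → X.Top o c' v w w' → c = c'
  hor : ∀ o u u', X.Γ.Adj u u' → X.Γ.dist o u = X.Γ.dist o u' → ∃ c x, X.PB o c x u u'
  hor_uniq : ∀ o u u' x x' c c', X.PB o c x u u' → X.PB o c' x' u u' → c = c'
  pat : ∀ o c, (∃ v u u', X.Top o c v u u') ∨ ∃ x u u', X.PB o c x u u'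

/-- The part of the metric conditions used for the generation: quadrangles (`qc`) and triangles
(`tc`) can be filled by cells. -/
structure Cx.Wm : Prop where
  qc : ∀ o v u u', X.Dn o v u → X.Dn o v u' → u ≠ u' →
    (∃ c x, X.PS o c v u x u') ∨ ∃ c c' x, X.PA o c v u u' ∧ X.PB o c' x u u'
  tc : ∀ o u u', X.Γ.Adj u u' → X.Γ.dist o u = X.Γ.dist o u' → ∃ c x, X.PB o c x u u'

/-- Equivariant geodesics. -/
structure Cx.Geo where
  γ : V → V → X.FG
  geo : ∀ u v, ∃ p : X.Γ.Walk u v, p.length = X.Γ.dist u v ∧ X.val p = γ u v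
  smul : ∀ (g : G) (u v : V), γ (g • u) (g • v) = X.φ g (γ u v)

/-- The chain of an element of a free group. -/
noncomputable def chain (k : Type) [CommRing k] {E : Type} (x : FreeGroup E) : E →₀ k :=
  Multiplicative.toAdd (FreeGroup.lift (fun e : E =>
    Multiplicative.ofAdd (Finsupp.single e (1 : k))) x)

/-- The products `⋯ γ r^n (r - 1)`; `g none c` is the path from the origin to the cell `c`,
`g (some c) c'` the path from `c` to `c'`. -/
noncomputable def PM (k : Type) [CommRing k] {E C : Type} (r : C → FreeGroup E)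
    (g : Option C → C → FreeGroup E) : List (C × ℤ) → MonoidAlgebra k (FreeGroup E)
  | [] => 1
  | (c, n) :: L => PM k r g L * (MonoidAlgebra.of k _ (g (L.head?.map Prod.fst) c) *
      MonoidAlgebra.of k _ (r c ^ n) * (MonoidAlgebra.of k _ (r c) - 1))

/-- The chains of the boundaries of the cells are linearly independent (`H_2 = 0`). -/
def Cx.Ind (k : Type) [CommRing k] : Prop := LinearIndependent k fun c => chain k (X.r c)

section Group

/-- The group of all pairs of an element of the free group and an element of `G`. -/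
abbrev Cx.HH : Type := X.FG ⋊[X.φ] G

/-- The fundamental group of the graph of groups: the pairs of a path from `o` to `g o` and
`g ∈ G`. -/
def Cx.G1 (o : V) : Subgroup X.HH where
  carrier := {h | X.IsP o (h.right • o) h.left}
  one_mem' := by
    change X.IsP o ((1 : G) • o) 1
    rw [one_smul]
    exact X.isP_one o
  mul_mem' := by
    intro a b ha hb
    change X.IsP o ((a.right * b.right) • o) (a.left * X.φ a.right b.left)
    rw [mul_smul]
    exact Cx.IsP.mul ha (Cx.IsP.smul hb a.right)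
  inv_mem' := by
    intro a ha
    change X.IsP o (a.right⁻¹ • o) (X.φ a.right⁻¹ a.left⁻¹)
    have h := (Cx.IsP.inv ha).smul a.right⁻¹
    rwa [inv_smul_smul] at h

theorem Cx.mem_G1 {o : V} {h : X.HH} : h ∈ X.G1 o ↔ X.IsP o (h.right • o) h.left := Iff.rfl

/-- The normal subgroup which kills the boundaries of the cells in `K`. -/
def Cx.NK (K : Set C) (o : V) : Subgroup (X.G1 o) :=
  Subgroup.normalClosure {x | ∃ c ∈ K, ∃ w : X.FG, X.IsP o (X.bv c) w ∧
    (x : X.HH) = SemidirectProduct.inl (w * X.r c * w⁻¹)}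

instance (K : Set C) (o : V) : (X.NK K o).Normal := Subgroup.normalClosure_normal

/-- The fundamental group of the complex of groups with the cells in `K`. -/
abbrev Cx.GK (K : Set C) (o : V) : Type := X.G1 o ⧸ X.NK K o

theorem Cx.NK_mono {K K' : Set C} (h : K ⊆ K') (o : V) : X.NK K o ≤ X.NK K' o := by
  refine Subgroup.normalClosure_mono ?_
  rintro x ⟨c, hc, w, hw⟩
  exact ⟨c, h hc, w, hw⟩

/-- The projection. -/
def Cx.prK {K K' : Set C} (h : K ⊆ K') (o : V) : X.GK K o →* X.GK K' o :=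
  QuotientGroup.map _ _ (MonoidHom.id _) (X.NK_mono h o)

/-- The homomorphism to `G`. -/
def Cx.q (K : Set C) (o : V) : X.GK K o →* G :=
  QuotientGroup.lift _ ((SemidirectProduct.rightHom : X.HH →* G).comp (X.G1 o).subtype) (by
    refine Subgroup.normalClosure_le_normal ?_
    rintro x ⟨c, _, w, _, hx⟩
    change SemidirectProduct.rightHom (x : X.HH) = 1
    rw [hx, SemidirectProduct.rightHom_inl])

end Group

end Pool.Agent.Cx2
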