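import Pool.Agent.Lib.MP_8f66f0_al_Cx.SpecD
import Pool.Agent.Lib.MP_8f66f0_al_Tree.AllK
import Pool.Agent.Lib.MP_8f66f0_al_Tree.Hd

/-! Restriction of the action along a homomorphism. -/

set_option autoImplicit false

namespace Pool.Agent.Cx2

open Pool.Agent.Wald Pool.Agent.Hier Pool.Agent.WaldL Pool.Agent.Ind Pool.Agent.TreeC

variable {G V C : Type} [Group G] [MulAction G V] [MulAction G C]

/-- The complex with the action of `G'` through `f`. -/
@[reducible] def Cx.comp (X : Cx G V C) {G' : Type} [Group G'] (f : G' →* G) :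
    @Cx G' V C _ (MulAction.compHom V f) (MulAction.compHom C f) :=
  let _ := MulAction.compHom V f
  let _ := MulAction.compHom C f
  { Γ := X.Γ
    conn := X.conn
    adj_smul := fun g => X.adj_smul (f g)
    ori := X.ori
    ori_or := X.ori_or
    ori_adj := X.ori_adj
    ori_anti := X.ori_anti
    ori_smul := fun g => X.ori_smul (f g)
    bv := X.bv
    rs := X.rs
    bv_smul := fun g => X.bv_smul (f g)
    rs_smul := fun g => X.rs_smul (f g)
    bd_adj := X.bd_adj }

theorem Cx.comp_met (X : Cx G V C) (hX : X.Met) {G' : Type} [Group G'] (f : G' →* G) :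
    @Cx.Met G' V C _ (MulAction.compHom V f) (MulAction.compHom C f) (X.comp f) :=
  let _ := MulAction.compHom V f
  let _ := MulAction.compHom C f
  { two := hX.two
    top := hX.top
    top_uniq := hX.top_uniq
    hor := hX.hor
    hor_uniq := hX.hor_uniq
    pat := hX.pat }

/-- `KS` for a group which acts through `f`, if the preimages of the stabilizers are
hereditarily in `KS`. -/
theorem Cx.ks_comp (h1 : S_wm) (h2 : S_geo) (h3 : S_ch) (h4 : S_gen) (h5 : S_orb) (h6 : S_res)
    (X : Cx G V C) (hX : X.Met) {G' : Type} [Group G'] (f : G' →* G)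
    (hv : ∀ v : V, Hd KS ((MulAction.stabilizer G v).comap f)) : KS G' := by
  let _ := MulAction.compHom V f
  let _ := MulAction.compHom C f
  have hM := X.comp_met hX f
  have hg := h2 G' V C (X.comp f) hM
  have hG := h4 G' V C (X.comp f) (h1 G' V C (X.comp f) hM)
  have hv' : ∀ v : V, Hd KS (MulAction.stabilizer G' v) := fun v => hv v
  exact ⟨h5 G' V C (X.comp f) hg hG (fun k _ _ => h3 G' V C (X.comp f) hM k) hv',
    h6 G' V C (X.comp f) hg hG (h3 G' V C (X.comp f) hM ℤ) hv'⟩

/-- Subgroups of the preimage of a subgroup. -/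
private theorem comp_hd {G₁ G₂ : Type} [Group G₁] [Group G₂] (f : G₁ →* G₂) (K : Subgroup G₂)
    (H : Subgroup G₁) (h : Hd KS (K.comap f)) : Hd KS (K.comap (f.comp H.subtype)) := by
  have h1 : TClv (Hd KS) := hd KS ks_tcl
  have h2 : ((K.comap (f.comp H.subtype)).map H.subtype) ≤ K.comap f := by
    rintro _ ⟨x, hx, rfl⟩
    exact hx
  have e : (K.comap (f.comp H.subtype)) ≃*
      ((K.comap (f.comp H.subtype)).map H.subtype).subgroupOf (K.comap f) :=
    ((K.comap (f.comp H.subtype)).equivMapOfInjective H.subtype H.subtype_injective).trans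
      (Subgroup.subgroupOfEquivOfLe h2).symm
  exact h1.iso _ _ e.symm (h1.sub _ _ h)

/-- **Theorem 2D** for the class `Hd KS`, with the action through a homomorphism. -/
theorem Cx.hd_comp (h1 : S_wm) (h2 : S_geo) (h3 : S_ch) (h4 : S_gen) (h5 : S_orb) (h6 : S_res)
    (X : Cx G V C) (hX : X.Met) {G' : Type} [Group G'] (f : G' →* G)
    (hv : ∀ v : V, Hd KS ((MulAction.stabilizer G v).comap f)) : Hd KS G' := fun H =>
  X.ks_comp h1 h2 h3 h4 h5 h6 hX (f.comp H.subtype) fun v => comp_hd f _ H (hv v)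

theorem main2 (h1 : S_wm) (h2 : S_geo) (h3 : S_ch) (h4 : S_gen) (h5 : S_orb) (h6 : S_res) :
    S_main := fun G V C _ _ _ X hX hv =>
  X.hd_comp h1 h2 h3 h4 h5 h6 hX (MonoidHom.id G) hv

end Pool.Agent.Cx2
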