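import Pool.Agent.Lib.MP_8f66f0_al_Cx.SpecE

/-! E3: the action on the tree. -/

set_option autoImplicit false

namespace Pool.Agent.Cx2

open Pool.Agent.Wald Pool.Agent.TreeC

theorem act : S_act := by
  intro G V C _ _ _ X o
  refine ⟨?_, ?_, ?_⟩
  · intro h x y hxy
    refine ⟨X.adj_smul _ _ _ hxy.1, ?_⟩
    change h.1.left * X.φ h.1.right y.1.1 =
      h.1.left * X.φ h.1.right x.1.1 * X.ε (h.1.right • x.1.2) (h.1.right • y.1.2)
    rw [hxy.2, map_mul, X.φ_ε, mul_assoc]
  · rintro h x y hxy ⟨hx, hy⟩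
    have e1 : h.1.right • x.1.2 = y.1.2 := congrArg (fun z : X.W o => z.1.2) hx
    have e2 : h.1.right • y.1.2 = x.1.2 := congrArg (fun z : X.W o => z.1.2) hy
    rcases X.ori_or _ _ hxy.1 with ho | ho
    · have h1 := X.ori_smul h.1.right _ _ ho
      rw [e1, e2] at h1
      exact X.ori_anti _ _ ho h1
    · have h1 := X.ori_smul h.1.right _ _ ho
      rw [e1, e2] at h1
      exact X.ori_anti _ _ ho h1
  · intro x
    have fix : ∀ h : MulAction.stabilizer (X.G1 o) x, h.1 • x = x := fun h => h.2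
    let f : MulAction.stabilizer (X.G1 o) x →* MulAction.stabilizer G x.1.2 :=
      { toFun := fun h => ⟨h.1.1.right, congrArg (fun z : X.W o => z.1.2) (fix h)⟩
        map_one' := rfl
        map_mul' := fun _ _ => rfl }
    refine ⟨MulEquiv.ofBijective f ⟨?_, ?_⟩⟩
    · intro h h' hh
      have e : h.1.1.right = h'.1.1.right := congrArg Subtype.val hh
      have a1 : h.1.1.left * X.φ h.1.1.right x.1.1 = x.1.1 :=
        congrArg (fun z : X.W o => z.1.1) (fix h)
      have a2 : h'.1.1.left * X.φ h'.1.1.right x.1.1 = x.1.1 :=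
        congrArg (fun z : X.W o => z.1.1) (fix h')
      rw [e] at a1
      have el : h.1.1.left = h'.1.1.left := mul_right_cancel (a1.trans a2.symm)
      exact Subtype.ext (Subtype.ext (SemidirectProduct.ext el e))
    · intro g
      have hg : g.1 • x.1.2 = x.1.2 := g.2
      have hm : X.IsP o (g.1 • o) (x.1.1 * (X.φ g.1 x.1.1)⁻¹) := by
        have h1 := (Cx.IsP.smul x.2 g.1).inv
        rw [hg] at h1
        exact Cx.IsP.mul x.2 h1
      refine ⟨⟨⟨⟨x.1.1 * (X.φ g.1 x.1.1)⁻¹, g.1⟩, hm⟩, ?_⟩, ?_⟩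
      · rw [MulAction.mem_stabilizer_iff]
        refine Subtype.ext (Prod.ext ?_ hg)
        change x.1.1 * (X.φ g.1 x.1.1)⁻¹ * X.φ g.1 x.1.1 = x.1.1
        rw [inv_mul_cancel_right]
      · exact Subtype.ext rfl

end Pool.Agent.Cx2
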