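import Pool.Agent.Lib.MP_8f66f0_al_Cx.SpecD
import Pool.Agent.Lib.MP_8f66f0_al_Tree.AllK
import Pool.Agent.Lib.MP_8f66f0_al_Tree.Ab
import Pool.Agent.Lib.MP_8f66f0_al_Tree.Hd

/-! D3: the group `D × ℤ`. -/

set_option autoImplicit false

namespace Pool.Agent.Cx2

open Pool.Agent.Wald Pool.Agent.WaldL Pool.Agent.TreeC

theorem dz : S_dz := by
  intro D _ hD
  have h1 : TClv (Hd KS) := hd KS ks_tcl
  have h2 : TCl (Hd KS) :=
    ⟨h1.triv, h1.iso, h1.directed, fun G V _ _ _ 𝓗 hH hx _ => h1.tree G V 𝓗 hH hx⟩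
  have e : D ≃* (MonoidHom.snd D (Multiplicative ℤ)).ker :=
    { toFun := fun d => ⟨(d, 1), rfl⟩
      invFun := fun x => x.1.1
      left_inv := fun _ => rfl
      right_inv := fun x => Subtype.ext (Prod.ext rfl (MonoidHom.mem_ker.1 x.2).symm)
      map_mul' := fun a b => Subtype.ext (Prod.ext rfl (mul_one 1).symm) }
  have h3 : Hd KS (D × Multiplicative ℤ) := h2.ext_int _ (h1.iso _ _ e hD)
  exact ks_tcl.iso _ _ Subgroup.topEquiv (h3 ⊤)

end Pool.Agent.Cx2
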