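import Pool.Agent.Lib.MP_8f66f0_al_Cx.SpecD
import Pool.Agent.Lib.MP_8f66f0_al_Tree.AllK
import Pool.Agent.Lib.MP_8f66f0_al_Tree.Hd
import Pool.Agent.Lib.MP_8f66f0_al_Hier.Colim

/-! Part F: induction on the orbits of cells (`S_orb`). -/

set_option autoImplicit false

namespace Pool.Agent.Cx2

open Pool.Agent.Wald Pool.Agent.Hier Pool.Agent.WaldL Pool.Agent.Ind Pool.Agent.TreeC

private theorem orbOne : S_One := fun _ _ _ hL G _ _ => whTL_one hL G

private theorem orbIso {G G' : Type} [Group G] [Group G'] (e : G ≃* G') (h : KK G) : KK G' :=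
  kk_iso orbOne e h

/-- The pull back of an invariant along a ring homomorphism. -/
private def orbPull {Λ Λ' : Type} [Ring Λ] [Ring Λ'] (φ : Λ →+* Λ') {K : Type} [CommGroup K]
    (κ : K1Fun Λ' K) : K1Fun Λ K where
  f := fun {n} _ _ A => κ.f (A.map φ)
  mul := fun {n} _ _ A B hA hB => by
    rw [Matrix.map_mul]
    exact κ.mul _ _ (hA.map φ.mapMatrix) (hB.map φ.mapMatrix)
  reindex := fun {n m} _ _ _ _ e A hA => by
    have h := κ.reindex e (A.map φ) (hA.map φ.mapMatrix)
    exact h
  tri := fun {n m} _ _ _ _ A B D hA hD => by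
    rw [Matrix.fromBlocks_map, Matrix.map_zero _ (map_zero φ)]
    exact κ.tri _ _ _ (hA.map φ.mapMatrix) (hD.map φ.mapMatrix)

/-- `WhTL` passes along homomorphisms of groups with `KT`. -/
private theorem orbPass {LL H H' : Type} [CommRing LL] [Group H] [Group H'] (f : H →* H')
    (h : KT (MonoidAlgebra.mapDomainAlgHom LL LL f :
      MonoidAlgebra LL H →+* MonoidAlgebra LL H')) (hH : WhTL LL H) : WhTL LL H' := by
  intro K _ κ hκ n _ _ A hA
  refine h K κ ?_ n A hA
  intro m _ _ B hB
  refine hH K (orbPull (MonoidAlgebra.mapDomainAlgHom LL LL f :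
    MonoidAlgebra LL H →+* MonoidAlgebra LL H') κ) ?_ m B hB
  intro g u
  have h4 : (Matrix.of fun _ _ : Fin 1 => (MonoidAlgebra.single g (u : LL))).map
      (MonoidAlgebra.mapDomainAlgHom LL LL f : MonoidAlgebra LL H →+* MonoidAlgebra LL H') =
      Matrix.of fun _ _ : Fin 1 => MonoidAlgebra.single (f g) (u : LL) := by
    apply Matrix.ext; intro a b
    exact MonoidAlgebra.mapDomain_single
  change κ.f _ = 1
  rw [h4]
  exact hκ _ _

section

variable {G V C : Type} [Group G] [MulAction G V] [MulAction G C] (X : Cx G V C)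

/-- The union of the orbits of the elements of `S`. -/
private def orbK (G : Type) {C : Type} [Group G] [MulAction G C] (S : Finset C) : Set C :=
  {x | ∃ c ∈ S, x ∈ MulAction.orbit G c}

private theorem orbK_mono {S T : Finset C} (h : S ≤ T) : orbK G S ⊆ orbK G T := by
  rintro x ⟨c, hc, hx⟩
  exact ⟨c, h hc, hx⟩

private theorem orbK_inv (S : Finset C) (g : G) : ∀ c ∈ orbK G S, g • c ∈ orbK G S := by
  rintro x ⟨c, hc, h, rfl⟩
  exact ⟨c, hc, g * h, by simp only; rw [mul_smul]⟩

private theorem orbK_insert [DecidableEq C] (S : Finset C) (f : C) :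
    orbK G (insert f S) = orbK G S ∪ MulAction.orbit G f := by
  ext x
  constructor
  · rintro ⟨c, hc, hx⟩
    rcases Finset.mem_insert.1 hc with rfl | hc
    · exact Or.inr hx
    · exact Or.inl ⟨c, hc, hx⟩
  · rintro (⟨c, hc, hx⟩ | hx)
    · exact ⟨c, Finset.mem_insert_of_mem hc, hx⟩
    · exact ⟨f, Finset.mem_insert_self _ _, hx⟩

private theorem orbStab (c : C) :
    MulAction.stabilizer G c ≤ MulAction.stabilizer G (X.bv c) := by
  intro g hg
  rw [MulAction.mem_stabilizer_iff] at *
  rw [← X.bv_smul, hg]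

private theorem orbHd {G : Type} [Group G] {H L : Subgroup G} (hHL : H ≤ L)
    (hL : Hd KS L) : Hd KS H :=
  (hd KS ks_tcl).iso _ _ (Subgroup.subgroupOfEquivOfLe hHL)
    ((hd KS ks_tcl).sub _ (H.subgroupOf L) hL)

private theorem orbTop {G : Type} [Group G] (h : Hd KS G) : KK G :=
  orbIso Subgroup.topEquiv (h ⊤).1

private theorem orbBase (K : Set C) (hK : K = ∅) (o : V) (h : KK (X.G1 o)) :
    KK (X.GK K o) := by
  subst hK
  have h1 : X.NK (∅ : Set C) o = ⊥ := by
    unfold Cx.NK
    have : {x : X.G1 o | ∃ c ∈ (∅ : Set C), ∃ w : X.FG, X.IsP o (X.bv c) w ∧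
      (x : X.HH) = SemidirectProduct.inl (w * X.r c * w⁻¹)} = ∅ := by
      ext x
      simp
    rw [this]
    exact Subgroup.normalClosure_empty
  refine orbIso ?_ h
  refine (QuotientGroup.quotientBot (G := X.G1 o)).symm.trans ?_
  exact QuotientGroup.quotientMulEquivOfEq h1.symm

/-- `KK` for the groups with finitely many orbits of cells killed. -/
private theorem orbFin (h1 : S_stp) (h2 : S_bpt) (h4 : S_go) (h5 : S_dz) (hg : Nonempty X.Geo)
    (hP : X.GenP) (hI : ∀ (k : Type) [CommRing k] [IsDomain k], X.Ind k)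
    (hv : ∀ v : V, Hd KS (MulAction.stabilizer G v)) (S : Finset C) :
    ∀ o : V, KK (X.GK (orbK G S) o) := by
  classical
  induction S using Finset.induction_on with
  | empty =>
    intro o
    refine orbBase X _ ?_ o (orbTop (h4 (Hd KS) (hd KS ks_tcl) G V C X o hv))
    ext x
    simp [orbK]
  | insert f S _ ih =>
    by_cases hf : f ∈ orbK G S
    · have he : orbK G (insert f S) = orbK G S := by
        rw [orbK_insert, Set.union_eq_left]
        rintro x ⟨g, rfl⟩
        exact orbK_inv S g f hf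
      intro o
      rw [he]
      exact ih o
    · intro o
      rw [orbK_insert]
      obtain ⟨e⟩ := h2 G V C X (orbK G S ∪ MulAction.orbit G f) (X.bv f) o
      refine orbIso e ?_
      intro LL _ _ hLL
      have hT := h1 G V C X hg hP LL hLL (hI LL) (orbK G S) f (fun g => orbK_inv S g) hf
        (h5 _ (orbHd (orbStab X f) (hv (X.bv f))))
      exact orbPass _ hT (ih (X.bv f) LL hLL)

/-- The union of the kernels. -/
private def orbN (o : V) : Subgroup (X.G1 o) where
  carrier := {x | ∃ S : Finset C, x ∈ X.NK (orbK G S) o}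
  one_mem' := ⟨∅, one_mem _⟩
  mul_mem' := by
    classical
    rintro a b ⟨S, hS⟩ ⟨T, hT⟩
    exact ⟨S ∪ T, mul_mem (X.NK_mono (orbK_mono Finset.subset_union_left) o hS)
      (X.NK_mono (orbK_mono Finset.subset_union_right) o hT)⟩
  inv_mem' := by
    rintro a ⟨S, hS⟩
    exact ⟨S, inv_mem hS⟩

private theorem orbN_normal (o : V) : (orbN X o).Normal := by
  constructor
  rintro n ⟨S, hS⟩ g
  exact ⟨S, (inferInstance : (X.NK (orbK G S) o).Normal).conj_mem n hS g⟩

private theorem orbN_univ (o : V) : X.NK Set.univ o ≤ orbN X o := by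
  haveI := orbN_normal X o
  refine Subgroup.normalClosure_le_normal ?_
  rintro x ⟨c, -, w, hw⟩
  refine ⟨{c}, Subgroup.subset_normalClosure ⟨c, ?_, w, hw⟩⟩
  exact ⟨c, Finset.mem_singleton_self c, MulAction.mem_orbit_self c⟩

end

section

variable {G V C : Type} [Group G] [MulAction G V] [MulAction G C] (X : Cx G V C)

private theorem orb_prK {K K' : Set C} (h : K ⊆ K') (o : V) (y : X.G1 o) :
    X.prK h o (QuotientGroup.mk y) = QuotientGroup.mk y := rfl

private theorem orb_qmk {K : Set C} (o : V) (y : X.G1 o) :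
    X.q K o (QuotientGroup.mk y) = (y : X.HH).right := rfl

private theorem orb_h1 (o : V) (i j : Finset C) (h : i ≤ j) (x : X.GK (orbK G i) o) :
    X.q (orbK G j) o (X.prK (orbK_mono h) o x) = X.q (orbK G i) o x := by
  obtain ⟨y, rfl⟩ := QuotientGroup.mk_surjective x
  rw [orb_prK, orb_qmk, orb_qmk]

private theorem orb_h2 (o : V) (i j k : Finset C) (h : i ≤ j) (h' : j ≤ k)
    (x : X.GK (orbK G i) o) :
    X.prK (orbK_mono h') o (X.prK (orbK_mono h) o x) = X.prK (orbK_mono (h.trans h')) o x := by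
  obtain ⟨y, rfl⟩ := QuotientGroup.mk_surjective x
  rw [orb_prK, orb_prK, orb_prK]

private theorem orb_h3 (o : V) (hU : Function.Bijective (X.q Set.univ o)) (g : G) :
    ∃ i, ∃ x, X.q (orbK G i) o x = g := by
  obtain ⟨x, hx⟩ := hU.2 g
  obtain ⟨y, rfl⟩ := QuotientGroup.mk_surjective x
  refine ⟨∅, QuotientGroup.mk y, ?_⟩
  rw [orb_qmk] at hx ⊢
  exact hx

private theorem orb_h4 [DecidableEq C] (o : V) (hU : Function.Bijective (X.q Set.univ o))
    (i : Finset C) (x : X.GK (orbK G i) o) (hx : X.q (orbK G i) o x = 1) :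
    ∃ j, ∃ h : i ≤ j, X.prK (orbK_mono h) o x = 1 := by
  obtain ⟨y, rfl⟩ := QuotientGroup.mk_surjective x
  have h6 : X.q Set.univ o (QuotientGroup.mk y) = 1 := by
    rw [orb_qmk] at hx ⊢
    exact hx
  have h7 : (QuotientGroup.mk y : X.GK Set.univ o) = 1 :=
    hU.1 (h6.trans (map_one _).symm)
  rw [QuotientGroup.eq_one_iff] at h7
  obtain ⟨S, hS⟩ := orbN_univ X o h7
  refine ⟨i ∪ S, Finset.subset_union_left, ?_⟩
  rw [orb_prK, QuotientGroup.eq_one_iff]
  exact X.NK_mono (orbK_mono Finset.subset_union_right) o hS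

end

/-- F3: induction on the orbits. -/
theorem orb (h1 : S_stp) (h2 : S_bpt) (h3 : S_uni) (h4 : S_go) (h5 : S_dz) : S_orb := by
  classical
  intro G V C _ _ _ X hg hP hI hv
  obtain ⟨o⟩ := X.conn.nonempty
  have hU := h3 G V C X hP o
  exact kk_colim (ι := Finset C) (H := fun S => X.GK (orbK G S) o)
    (fun i j h => X.prK (orbK_mono h) o) (fun i => X.q (orbK G i) o)
    (fun i j h x => orb_h1 X o i j h x) (fun i j k h h' x => orb_h2 X o i j k h h' x)
    (fun g => orb_h3 X o hU g) (fun i x hx => orb_h4 X o hU i x hx)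
    (fun i => orbFin X h1 h2 h4 h5 hg hP hI hv i o)

end Pool.Agent.Cx2
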