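import Pool.Agent.Lib.MP_8f66f0_al_Cx.SpecD
import Pool.Agent.Lib.MP_8f66f0_al_HierZ.All
import Pool.Agent.Lib.MP_8f66f0_al_Tree.AllK

/-! Part F4: the resolution of the trivial module by the chains of the 2-complex. -/

set_option autoImplicit false

namespace Pool.Agent.Cx2

open Pool.Agent.Wald Pool.Agent.Hier Pool.Agent.TreeC

section Perm

/-- The permutation module of a set. -/
private def ResM (Y : Type) : Type := Y →₀ ℤ

private noncomputable instance (Y : Type) : AddCommGroup (ResM Y) :=
  inferInstanceAs (AddCommGroup (Y →₀ ℤ))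

private theorem res_one (G Y : Type) [Group G] [MulAction G Y] (x : Y →₀ ℤ) :
    Finsupp.mapDomain (fun y => (1 : G) • y) x = x := by
  have h : (fun y : Y => (1 : G) • y) = id := funext fun y => one_smul G y
  rw [h]
  exact Finsupp.mapDomain_id

private theorem res_mul (G Y : Type) [Group G] [MulAction G Y] (g h : G) (x : Y →₀ ℤ) :
    Finsupp.mapDomain (fun y => (g * h) • y) x =
      Finsupp.mapDomain (fun y => g • y) (Finsupp.mapDomain (fun y => h • y) x) := by
  rw [← Finsupp.mapDomain_comp]
  congr 1
  funext y
  exact mul_smul g h y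

private noncomputable instance (G Y : Type) [Group G] [MulAction G Y] :
    DistribMulAction G (ResM Y) where
  smul g x := Finsupp.mapDomain (fun y => g • y) (x : Y →₀ ℤ)
  one_smul x := res_one G Y x
  mul_smul g h x := res_mul G Y g h x
  smul_zero _ := Finsupp.mapDomain_zero
  smul_add _ _ _ := Finsupp.mapDomain_add

private theorem res_perm (G Y : Type) [Group G] [MulAction G Y] (𝒞 : Subgroup G → Prop)
    (h : ∀ y : Y, 𝒞 (MulAction.stabilizer G y)) : IsPermP G (ResM Y) 𝒞 := by
  refine ⟨Y, inferInstance, (Finsupp.basisSingleOne : Module.Basis Y ℤ (Y →₀ ℤ)), ?_, h⟩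
  intro g y
  change (Finsupp.basisSingleOne (g • y) : Y →₀ ℤ) =
    Finsupp.mapDomain (fun y => g • y) (Finsupp.basisSingleOne y : Y →₀ ℤ)
  rw [Finsupp.coe_basisSingleOne, Finsupp.mapDomain_single]

end Perm

section Chain

variable {G V C : Type} [Group G] [MulAction G V] [MulAction G C] (X : Cx G V C)

private theorem res_ch_one {E : Type} : chain ℤ (1 : FreeGroup E) = 0 := by
  unfold chain
  rw [map_one]
  rfl

private theorem res_ch_mul {E : Type} (x y : FreeGroup E) :
    chain ℤ (x * y) = chain ℤ x + chain ℤ y := by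
  unfold chain
  rw [map_mul]
  rfl

private theorem res_ch_inv {E : Type} (x : FreeGroup E) : chain ℤ x⁻¹ = -chain ℤ x := by
  unfold chain
  rw [map_inv]
  rfl

private theorem res_ch_of {E : Type} (e : E) :
    chain ℤ (FreeGroup.of e) = Finsupp.single e 1 := by
  unfold chain
  rw [FreeGroup.lift_apply_of]
  rfl

private theorem res_ch_smul (g : G) (x : X.FG) :
    chain ℤ (X.φ g x) = Finsupp.mapDomain (fun e : X.E => g • e) (chain ℤ x) := by
  refine FreeGroup.induction_on x ?_ ?_ ?_ ?_
  · rw [map_one, res_ch_one, Finsupp.mapDomain_zero]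
  · intro e
    rw [X.φ_of, res_ch_of, res_ch_of, Finsupp.mapDomain_single]
  · intro e h
    rw [map_inv, res_ch_inv, res_ch_inv, h]
    exact (map_neg (Finsupp.lmapDomain ℤ ℤ (fun e : X.E => g • e)) _).symm
  · intro x y hx hy
    rw [map_mul, res_ch_mul, res_ch_mul, hx, hy, Finsupp.mapDomain_add]

/-- The boundary of the cells. -/
private noncomputable def resI : (C →₀ ℤ) →ₗ[ℤ] (X.E →₀ ℤ) :=
  Finsupp.linearCombination ℤ fun c => chain ℤ (X.r c)

/-- The boundary of the edges. -/
private noncomputable def resD : (X.E →₀ ℤ) →ₗ[ℤ] (V →₀ ℤ) :=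
  Finsupp.linearCombination ℤ fun e : X.E =>
    (Finsupp.single e.1.2 1 - Finsupp.single e.1.1 1 : V →₀ ℤ)

/-- The augmentation. -/
private noncomputable def resA (V : Type) : (V →₀ ℤ) →ₗ[ℤ] ℤ :=
  Finsupp.linearCombination ℤ fun _ => (1 : ℤ)

private theorem resI_single (c : C) : resI X (Finsupp.single c 1) = chain ℤ (X.r c) := by
  unfold resI
  rw [Finsupp.linearCombination_single, one_smul]

private theorem resD_single (e : X.E) : resD X (Finsupp.single e 1) =
    Finsupp.single e.1.2 1 - Finsupp.single e.1.1 1 := by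
  unfold resD
  rw [Finsupp.linearCombination_single, one_smul]

private theorem resA_single (v : V) : resA V (Finsupp.single v 1) = 1 := by
  unfold resA
  rw [Finsupp.linearCombination_single, one_smul]

private theorem res_D_edge (u v : V) (h : X.Γ.Adj u v) :
    resD X (chain ℤ (X.ε u v)) = Finsupp.single v 1 - Finsupp.single u 1 := by
  rcases X.ori_or u v h with h | h
  · let e : X.E := ⟨(u, v), h⟩
    have h1 : X.ε u v = FreeGroup.of e := X.ε_ori h
    rw [h1, res_ch_of, resD_single]
  · let e : X.E := ⟨(v, u), h⟩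
    have h1 : X.ε u v = (FreeGroup.of e)⁻¹ := X.ε_ori' h
    rw [h1, res_ch_inv, res_ch_of, map_neg, resD_single, neg_sub]

private theorem res_D_walk {u v : V} (p : X.Γ.Walk u v) :
    resD X (chain ℤ (X.val p)) = Finsupp.single v 1 - Finsupp.single u 1 := by
  induction p with
  | nil =>
    rw [Cx.val_nil, res_ch_one, map_zero, sub_self]
  | cons h p ih =>
    rw [Cx.val_cons, res_ch_mul, map_add, res_D_edge X _ _ h, ih]
    abel

/-- Two walks with the same end points. -/
private theorem res_two (hX : X.GenP) {u v : V} (p p' : X.Γ.Walk u v) :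
    chain ℤ (X.val p) - chain ℤ (X.val p') ∈ LinearMap.range (resI X) := by
  let A : Type := (X.E →₀ ℤ) ⧸ LinearMap.range (resI X)
  let m : (X.E →₀ ℤ) →+ A := (Submodule.mkQ (LinearMap.range (resI X))).toAddMonoidHom
  let j0 : X.FG →* Multiplicative A :=
    { toFun := fun x => Multiplicative.ofAdd (m (chain ℤ x))
      map_one' := by
        rw [res_ch_one, map_zero]
        rfl
      map_mul' := fun x y => by
        rw [res_ch_mul, map_add]
        rfl }
  let j : X.FG →* MonoidAlgebra ℤ (Multiplicative A) := (MonoidAlgebra.of ℤ _).comp j0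
  have hr : ∀ c, j (X.r c) = 1 := by
    intro c
    have h1 : m (chain ℤ (X.r c)) = 0 := by
      change Submodule.mkQ (LinearMap.range (resI X)) (chain ℤ (X.r c)) = 0
      rw [Submodule.mkQ_apply, Submodule.Quotient.mk_eq_zero]
      exact ⟨Finsupp.single c 1, resI_single X c⟩
    change MonoidAlgebra.of ℤ (Multiplicative A) (Multiplicative.ofAdd (m (chain ℤ (X.r c)))) = 1
    rw [h1]
    exact map_one _
  have hr' : ∀ c, j (X.r c)⁻¹ = 1 := by
    intro c
    have h1 : j (X.r c)⁻¹ * j (X.r c) = 1 := by
      rw [← map_mul, inv_mul_cancel, map_one]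
    rwa [hr c, mul_one] at h1
  have key := hX (MonoidAlgebra ℤ (Multiplicative A)) j (fun u v => AddSubgroup.zmultiples
    (j (X.val (X.conn.exists_walk_length_eq_dist u v).choose))) ⟨fun o v =>
      ⟨_, (X.conn.exists_walk_length_eq_dist o v).choose_spec,
        AddSubgroup.mem_zmultiples _⟩, fun o c v a b _ _ => by
          rw [hr, sub_self, mul_zero, zero_mul]
          exact AddSubgroup.zero_mem _, fun o c v a b _ _ => by
          rw [hr', sub_self, mul_zero, zero_mul]
          exact AddSubgroup.zero_mem _⟩
  have h1 : ∀ q : X.Γ.Walk u v, m (chain ℤ (X.val q)) =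
      m (chain ℤ (X.val (X.conn.exists_walk_length_eq_dist u v).choose)) := by
    intro q
    obtain ⟨n, hn⟩ := AddSubgroup.mem_zmultiples_iff.1 (key u v q)
    by_contra hne
    have h2 := congrArg (fun z : MonoidAlgebra ℤ (Multiplicative A) =>
      z.coeff (Multiplicative.ofAdd (m (chain ℤ (X.val q))))) hn
    change (n • MonoidAlgebra.single (Multiplicative.ofAdd
      (m (chain ℤ (X.val (X.conn.exists_walk_length_eq_dist u v).choose)))) (1 : ℤ) :
        MonoidAlgebra ℤ (Multiplicative A)).coeff _ =
      (MonoidAlgebra.single (Multiplicative.ofAdd (m (chain ℤ (X.val q)))) (1 : ℤ) :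
        MonoidAlgebra ℤ (Multiplicative A)).coeff _ at h2
    rw [MonoidAlgebra.smul_single, MonoidAlgebra.coeff_single, MonoidAlgebra.coeff_single,
      Finsupp.single_eq_same, Finsupp.single_eq_of_ne
        (fun h => hne (Multiplicative.ofAdd.injective h))] at h2
    exact zero_ne_one h2
  have h2 : m (chain ℤ (X.val p) - chain ℤ (X.val p')) = 0 := by
    rw [map_sub, h1 p, h1 p', sub_self]
  change Submodule.mkQ (LinearMap.range (resI X)) _ = 0 at h2
  rwa [Submodule.mkQ_apply, Submodule.Quotient.mk_eq_zero] at h2

/-- The walks from a base point. -/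
private noncomputable def resQ (o v : V) : X.Γ.Walk o v :=
  (X.conn.preconnected o v).some

private noncomputable def resT (o : V) : (V →₀ ℤ) →ₗ[ℤ] (X.E →₀ ℤ) :=
  Finsupp.linearCombination ℤ fun v => chain ℤ (X.val (resQ X o v))

private theorem resT_single (o v : V) : resT X o (Finsupp.single v 1) =
    chain ℤ (X.val (resQ X o v)) := by
  unfold resT
  rw [Finsupp.linearCombination_single, one_smul]

private theorem res_DT (o : V) (x : V →₀ ℤ) :
    resD X (resT X o x) = x - resA V x • Finsupp.single o 1 := by
  have h : (resD X).comp (resT X o) = LinearMap.id -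
      (LinearMap.toSpanSingleton ℤ (V →₀ ℤ) (Finsupp.single o 1)).comp (resA V) := by
    refine Finsupp.lhom_ext' fun v => LinearMap.ext_ring ?_
    change resD X (resT X o (Finsupp.single v 1)) = Finsupp.single v 1 -
      resA V (Finsupp.single v 1) • Finsupp.single o 1
    rw [resT_single, res_D_walk, resA_single, one_smul]
  exact LinearMap.congr_fun h x

private theorem res_TD (hX : X.GenP) (o : V) (z : X.E →₀ ℤ) :
    z - resT X o (resD X z) ∈ LinearMap.range (resI X) := by
  induction z using Finsupp.induction_linear with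
  | zero =>
    rw [map_zero, map_zero, sub_zero]
    exact Submodule.zero_mem _
  | add x y hx hy =>
    have h : x + y - resT X o (resD X (x + y)) = (x - resT X o (resD X x)) +
        (y - resT X o (resD X y)) := by
      rw [map_add, map_add]
      abel
    rw [h]
    exact Submodule.add_mem _ hx hy
  | single e n =>
    have h1 : (Finsupp.single e n : X.E →₀ ℤ) = n • Finsupp.single e 1 := by
      rw [Finsupp.smul_single, smul_eq_mul, mul_one]
    rw [h1, map_smul, map_smul, ← smul_sub]
    refine Submodule.smul_mem _ n ?_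
    have hadj : X.Γ.Adj e.1.1 e.1.2 := X.ori_adj _ _ e.2
    have h2 := res_two X hX ((resQ X o e.1.1).append (.cons hadj .nil)) (resQ X o e.1.2)
    have h4 : X.ε e.1.1 e.1.2 = FreeGroup.of e := X.ε_ori e.2
    rw [X.val_append, Cx.val_cons, Cx.val_nil, mul_one, res_ch_mul, h4, res_ch_of] at h2
    have h3 : (Finsupp.single e 1 : X.E →₀ ℤ) - resT X o (resD X (Finsupp.single e 1)) =
        chain ℤ (X.val (resQ X o e.1.1)) + Finsupp.single e 1 -
          chain ℤ (X.val (resQ X o e.1.2)) := by
      rw [resD_single, map_sub, resT_single, resT_single]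
      abel
    rw [h3]
    exact h2

private theorem res_ker (hX : X.GenP) (o : V) (z : X.E →₀ ℤ) (h : resD X z = 0) :
    ∃ y, resI X y = z := by
  have h2 := res_TD X hX o z
  rw [h, map_zero, sub_zero] at h2
  exact h2

private theorem res_A_surj (o : V) (n : ℤ) : ∃ x : V →₀ ℤ, resA V x = n := by
  refine ⟨n • Finsupp.single o 1, ?_⟩
  rw [map_smul, resA_single, smul_eq_mul, mul_one]

end Chain

section Equiv

variable {G V C : Type} [Group G] [MulAction G V] [MulAction G C] (X : Cx G V C)

private theorem res_I_smul (g : G) (x : C →₀ ℤ) :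
    resI X (Finsupp.mapDomain (fun c => g • c) x) =
      Finsupp.mapDomain (fun e : X.E => g • e) (resI X x) := by
  have h : (resI X).comp (Finsupp.lmapDomain ℤ ℤ (fun c : C => g • c)) =
      (Finsupp.lmapDomain ℤ ℤ (fun e : X.E => g • e)).comp (resI X) := by
    refine Finsupp.lhom_ext' fun c => LinearMap.ext_ring ?_
    change resI X (Finsupp.mapDomain (fun c => g • c) (Finsupp.single c 1)) =
      Finsupp.mapDomain (fun e : X.E => g • e) (resI X (Finsupp.single c 1))
    rw [Finsupp.mapDomain_single, resI_single, resI_single, ← X.φ_r, res_ch_smul]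
  exact LinearMap.congr_fun h x

private theorem res_D_smul (g : G) (x : X.E →₀ ℤ) :
    resD X (Finsupp.mapDomain (fun e : X.E => g • e) x) =
      Finsupp.mapDomain (fun v => g • v) (resD X x) := by
  have h : (resD X).comp (Finsupp.lmapDomain ℤ ℤ (fun e : X.E => g • e)) =
      (Finsupp.lmapDomain ℤ ℤ (fun v : V => g • v)).comp (resD X) := by
    refine Finsupp.lhom_ext' fun e => LinearMap.ext_ring ?_
    change resD X (Finsupp.mapDomain (fun e : X.E => g • e) (Finsupp.single e 1)) =
      Finsupp.lmapDomain ℤ ℤ (fun v : V => g • v) (resD X (Finsupp.single e 1))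
    rw [Finsupp.mapDomain_single, resD_single, resD_single, map_sub, Finsupp.lmapDomain_apply,
      Finsupp.lmapDomain_apply, Finsupp.mapDomain_single, Finsupp.mapDomain_single]
    rfl
  exact LinearMap.congr_fun h x

private theorem res_A_smul (g : G) (x : V →₀ ℤ) :
    resA V (Finsupp.mapDomain (fun v => g • v) x) = resA V x := by
  have h : (resA V).comp (Finsupp.lmapDomain ℤ ℤ (fun v : V => g • v)) = resA V := by
    refine Finsupp.lhom_ext' fun v => LinearMap.ext_ring ?_
    change resA V (Finsupp.mapDomain (fun v => g • v) (Finsupp.single v 1)) =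
      resA V (Finsupp.single v 1)
    rw [Finsupp.mapDomain_single, resA_single, resA_single]
  exact LinearMap.congr_fun h x

/-- The kernel of the augmentation. -/
private def ResK (V : Type) : Type := LinearMap.ker (resA V)

private noncomputable instance (V : Type) : AddCommGroup (ResK V) :=
  inferInstanceAs (AddCommGroup (LinearMap.ker (resA V)))

private noncomputable instance : DistribMulAction G (ResK V) where
  smul g x := ⟨Finsupp.mapDomain (fun v => g • v) x.1, by
    rw [LinearMap.mem_ker, res_A_smul]
    exact x.2⟩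
  one_smul x := Subtype.ext (res_one G V x.1)
  mul_smul g h x := Subtype.ext (res_mul G V g h x.1)
  smul_zero g := Subtype.ext
    (Finsupp.mapDomain_zero (f := fun v : V => g • v) : _ = (0 : V →₀ ℤ))
  smul_add _ _ _ := Subtype.ext Finsupp.mapDomain_add

private theorem res_exP (hX : X.GenP) (hI : X.Ind ℤ) (𝒞 : Subgroup G → Prop)
    (hV : ∀ v : V, 𝒞 (MulAction.stabilizer G v)) (hE : ∀ e : X.E, 𝒞 (MulAction.stabilizer G e))
    (hC : ∀ c : C, 𝒞 (MulAction.stabilizer G c)) : ExP G 𝒞 2 (TrivZ G) := by
  obtain ⟨o⟩ := X.conn.nonempty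
  refine ⟨ResM V, ResK V, inferInstance, inferInstance, inferInstance, inferInstance,
    { toFun := fun x => x.1
      map_smul' := fun g x => rfl
      map_zero' := rfl
      map_add' := fun x y => rfl },
    { toFun := fun x => resA V x
      map_smul' := fun g x => res_A_smul g x
      map_zero' := map_zero (resA V)
      map_add' := map_add (resA V) }, ?_, ?_, ?_, res_perm G V 𝒞 hV, ?_⟩
  · exact fun x y h => Subtype.ext h
  · intro x
    exact ⟨fun h => ⟨⟨x, h⟩, rfl⟩, fun ⟨y, hy⟩ => by rw [← hy]; exact y.2⟩
  · exact fun n => res_A_surj o n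
  refine ⟨ResM X.E, ResM C, inferInstance, inferInstance, inferInstance, inferInstance,
    { toFun := fun x => resI X x
      map_smul' := fun g x => res_I_smul X g x
      map_zero' := map_zero (resI X)
      map_add' := map_add (resI X) },
    { toFun := fun x => ⟨resD X x, by
        have h : (resA V).comp (resD X) = 0 := by
          refine Finsupp.lhom_ext' fun e => LinearMap.ext_ring ?_
          change resA V (resD X (Finsupp.single e 1)) = 0
          rw [resD_single, map_sub, resA_single, resA_single, sub_self]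
        exact LinearMap.congr_fun h x⟩
      map_smul' := fun g x => Subtype.ext (res_D_smul X g x)
      map_zero' := Subtype.ext (map_zero (resD X))
      map_add' := fun x y => Subtype.ext (map_add (resD X) x y) }, ?_, ?_, ?_,
    res_perm G X.E 𝒞 hE, res_perm G C 𝒞 hC⟩
  · exact hI
  · intro x
    constructor
    · exact fun h => res_ker X hX o x (congrArg Subtype.val h)
    · rintro ⟨y, rfl⟩
      refine Subtype.ext ?_
      change resD X (resI X y) = 0
      have h : (resD X).comp (resI X) = 0 := by
        refine Finsupp.lhom_ext' fun c => LinearMap.ext_ring ?_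
        change resD X (resI X (Finsupp.single c 1)) = 0
        obtain ⟨p, hp⟩ := X.isP_r c
        rw [resI_single, ← hp, res_D_walk, sub_self]
      exact LinearMap.congr_fun h y
  · rintro ⟨x, hx⟩
    refine ⟨resT X o x, Subtype.ext ?_⟩
    change resD X (resT X o x) = x
    rw [LinearMap.mem_ker] at hx
    rw [res_DT, hx, zero_smul, sub_zero]

end Equiv

/-- `S_uni` is not needed. -/
theorem res0 : S_res := by
  intro G V C _ _ _ X _ hX hI hV
  have hle : ∀ (K : Subgroup G) (v : V), K ≤ MulAction.stabilizer G v → SS K := by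
    intro K v h
    exact ss_iso (Subgroup.subgroupOfEquivOfLe h) (hV v (K.subgroupOf _)).2
  refine ss_exp (fun K => SS K) (fun K h => h) 2 (res_exP X hX hI _ ?_ ?_ ?_)
  · exact fun v => hle _ v le_rfl
  · intro e
    refine hle _ e.1.1 fun g hg => ?_
    exact congrArg (fun e : X.E => e.1.1) hg
  · intro c
    refine hle _ (X.bv c) fun g hg => ?_
    rw [MulAction.mem_stabilizer_iff] at hg ⊢
    rw [← X.bv_smul, hg]

theorem res (_ : S_uni) : S_res := res0

end Pool.Agent.Cx2
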