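import Pool.Agent.Lib.MP_8f66f0_al_Cx.SpecD

/-! D4: killing one orbit of cells. -/

set_option autoImplicit false

namespace Pool.Agent.Cx2

open Pool.Agent.Wald Pool.Agent.Hier Pool.Agent.WaldL Pool.Agent.Ind Pool.Agent.TreeC

private theorem stp_gr {LL D L : Type} [CommRing LL] [Group D] [Ring L] [Algebra LL L]
    (ρ : D × Multiplicative ℤ →* L) (d : D) :
    gr LL (ρ.comp (MonoidHom.inl D (Multiplicative ℤ))) (MonoidAlgebra.single d 1) =
      ρ (d, 1) := by
  refine (MonoidAlgebra.lift_single _ _ _).trans ?_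
  rw [one_smul]
  rfl

theorem stp (h1 : S_blo) (h2 : S_psf) (h3 : S_patch2) : S_stp := by
  intro G V C _ _ _ X hγ hW LL _ _ hL hI K f hK hf hS
  obtain ⟨L, ρ, β, b, eps, hB, e1, e2, e3, e4⟩ := h1 G V C X hγ hW LL hI K f hK hf
  have hP : ProjSF L := h2 LL (MulAction.stabilizer G f) L β ρ b hL hB hS.2 hS.1
  refine h3 LL (MulAction.stabilizer G f) L (MonoidAlgebra LL (X.GK K (X.bv f)))
    (MonoidAlgebra LL (X.GK (K ∪ MulAction.orbit G f) (X.bv f)))
    (ρ.comp (MonoidHom.inl (MulAction.stabilizer G f) (Multiplicative ℤ))) eps L.val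
    (MonoidAlgebra.mapDomainAlgHom LL LL
      (X.prK (Set.subset_union_left (s := K) (t := MulAction.orbit G f)) (X.bv f)))
    ?_ hP Subtype.val_injective ?_ e2 e3 e4
  · intro x
    induction x using MonoidAlgebra.induction_on with
    | of d =>
      rw [MonoidAlgebra.of_apply]
      exact (congrArg eps (stp_gr ρ d)).trans (e1 d)
    | add x y hx hy => rw [map_add, map_add, hx, hy]
    | smul c x hx => rw [map_smul, map_smul, hx]
  · intro y
    induction y using MonoidAlgebra.induction_on with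
    | of d =>
      obtain ⟨d', rfl⟩ : ∃ d', X.prK (Set.subset_union_left (s := K) (t := MulAction.orbit G f))
          (X.bv f) d' = d := by
        obtain ⟨z, rfl⟩ := QuotientGroup.mk_surjective d
        exact ⟨QuotientGroup.mk z, rfl⟩
      refine ⟨MonoidAlgebra.single d' 1, ?_⟩
      rw [MonoidAlgebra.mapDomainAlgHom_apply, MonoidAlgebra.mapDomain_single]
      rfl
    | add x y hx hy =>
      obtain ⟨x', rfl⟩ := hx
      obtain ⟨y', rfl⟩ := hy
      exact ⟨x' + y', map_add _ _ _⟩
    | smul c x hx =>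
      obtain ⟨x', rfl⟩ := hx
      exact ⟨c • x', map_smul _ _ _⟩

end Pool.Agent.Cx2
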