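import Pool.Agent.Lib.MP_8f66f0_al_Cx.AllC
import Pool.Agent.Lib.MP_8f66f0_al_Cx.Dz
import Pool.Agent.Lib.MP_8f66f0_al_Cx.Stp
import Pool.Agent.Lib.MP_8f66f0_al_Cx.Orb
import Pool.Agent.Lib.MP_8f66f0_al_Cx.Res

/-! Theorem 2D. -/

set_option autoImplicit false

namespace Pool.Agent.Cx2

theorem all_stp : S_stp := stp all_blo all_psf all_patch

theorem all_orb : S_orb := orb all_stp bpt all_uni all_go dz

theorem all_res : S_res := res all_uni

/-- **Theorem 2D.** -/
theorem main : S_main := main2 wm geo ch all_gen all_orb all_res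

end Pool.Agent.Cx2
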