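import Pool.Agent.Lib.MP_8f66f0_al_Cx.SpecD

/-! Change of the base point. -/

set_option autoImplicit false

namespace Pool.Agent.Cx2

section Bpt

variable {G V C : Type} [Group G] [MulAction G V] [MulAction G C] {X : Cx G V C} {o o' : V}

private theorem bpt_mem {w : X.FG} (hw : X.IsP o o' w) {h : X.HH} (hh : h ∈ X.G1 o) :
    (SemidirectProduct.inl w : X.HH)⁻¹ * h * SemidirectProduct.inl w ∈ X.G1 o' := by
  rw [X.mem_G1] at hh ⊢
  have h1 : ((SemidirectProduct.inl w : X.HH)⁻¹ * h * SemidirectProduct.inl w).right =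
      h.right := by
    simp only [SemidirectProduct.mul_right, SemidirectProduct.inv_right,
      SemidirectProduct.right_inl, inv_one, one_mul, mul_one]
  have h2 : ((SemidirectProduct.inl w : X.HH)⁻¹ * h * SemidirectProduct.inl w).left =
      w⁻¹ * h.left * X.φ h.right w := by
    simp only [SemidirectProduct.mul_right, SemidirectProduct.inv_right,
      SemidirectProduct.right_inl, inv_one, one_mul, SemidirectProduct.mul_left,
      SemidirectProduct.inv_left, SemidirectProduct.left_inl, map_one, MulAut.one_apply]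
  rw [h1, h2]
  exact (hw.inv.mul hh).mul (hw.smul h.right)

/-- The conjugation. -/
private def bptF {w : X.FG} (hw : X.IsP o o' w) : X.G1 o →* X.G1 o' where
  toFun h := ⟨(SemidirectProduct.inl w : X.HH)⁻¹ * h.1 * SemidirectProduct.inl w,
    bpt_mem hw h.2⟩
  map_one' := by
    refine Subtype.ext ?_
    change (SemidirectProduct.inl w : X.HH)⁻¹ * 1 * SemidirectProduct.inl w = 1
    group
  map_mul' a b := by
    refine Subtype.ext ?_
    change (SemidirectProduct.inl w : X.HH)⁻¹ * (a.1 * b.1) * SemidirectProduct.inl w =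
      (SemidirectProduct.inl w : X.HH)⁻¹ * a.1 * SemidirectProduct.inl w *
        ((SemidirectProduct.inl w : X.HH)⁻¹ * b.1 * SemidirectProduct.inl w)
    group

private theorem bptF_inv {w : X.FG} (hw : X.IsP o o' w) (hw' : X.IsP o' o w⁻¹) (h : X.G1 o) :
    bptF hw' (bptF hw h) = h := by
  refine Subtype.ext ?_
  change (SemidirectProduct.inl w⁻¹ : X.HH)⁻¹ *
    ((SemidirectProduct.inl w : X.HH)⁻¹ * h.1 * SemidirectProduct.inl w) *
    SemidirectProduct.inl w⁻¹ = h.1
  rw [map_inv]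
  group

private theorem bptF_inv' {w : X.FG} (hw : X.IsP o o' w) (hw' : X.IsP o' o w⁻¹) (h : X.G1 o') :
    bptF hw (bptF hw' h) = h := by
  refine Subtype.ext ?_
  change (SemidirectProduct.inl w : X.HH)⁻¹ *
    ((SemidirectProduct.inl w⁻¹ : X.HH)⁻¹ * h.1 * SemidirectProduct.inl w⁻¹) *
    SemidirectProduct.inl w = h.1
  rw [map_inv]
  group

private def bptE {w : X.FG} (hw : X.IsP o o' w) : X.G1 o ≃* X.G1 o' :=
  { bptF hw with
    invFun := bptF hw.inv
    left_inv := bptF_inv hw hw.inv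
    right_inv := bptF_inv' hw hw.inv }

private theorem bpt_gen {w : X.FG} (hw : X.IsP o o' w) (K : Set C) (x : X.G1 o)
    (hx : ∃ c ∈ K, ∃ w : X.FG, X.IsP o (X.bv c) w ∧
      (x : X.HH) = SemidirectProduct.inl (w * X.r c * w⁻¹)) :
    ∃ c ∈ K, ∃ w : X.FG, X.IsP o' (X.bv c) w ∧
      (bptE hw x : X.HH) = SemidirectProduct.inl (w * X.r c * w⁻¹) := by
  obtain ⟨c, hc, w', hw', hx⟩ := hx
  refine ⟨c, hc, w⁻¹ * w', hw.inv.mul hw', ?_⟩
  change (SemidirectProduct.inl w : X.HH)⁻¹ * x.1 * SemidirectProduct.inl w = _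
  rw [hx, ← map_inv, ← map_mul, ← map_mul]
  congr 1
  group

private theorem bpt_map {w : X.FG} (hw : X.IsP o o' w) (K : Set C) :
    (X.NK K o).map (bptE hw : X.G1 o →* X.G1 o') = X.NK K o' := by
  unfold Cx.NK
  rw [Subgroup.map_normalClosure _ (bptE hw : X.G1 o →* X.G1 o') (bptE hw).surjective]
  congr 1
  ext y
  constructor
  · rintro ⟨x, hx, rfl⟩
    exact bpt_gen hw K x hx
  · intro hy
    refine ⟨bptE hw.inv y, bpt_gen hw.inv K y hy, ?_⟩
    exact bptF_inv' hw hw.inv y

end Bpt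

theorem bpt : S_bpt := by
  intro G V C _ _ _ X K o o'
  obtain ⟨p⟩ := X.conn.preconnected o o'
  have hw : X.IsP o o' (X.val p) := ⟨p, rfl⟩
  exact ⟨QuotientGroup.congr _ _ (bptE hw) (bpt_map hw K)⟩

end Pool.Agent.Cx2
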