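import Pool.Agent.Lib.MP_8f66f0_al_Cx.MgExpd

/-!
MP_8f66f0_al, Theorem 2D, module Indep (helper13): THEOREM (INDEP). If the chains of the loops
`r c` are linearly independent, then the beaded words `PM` are linearly independent in the group
algebra of the free group over a domain; and the triangular criterion for the chains.
-/

set_option autoImplicit false

namespace Pool.Agent.Cx2

namespace Mg

open Finset

theorem bt_map {F C A B : Type*} [Ring F] (g : Option C → C → F) (β : Option C → F)
    (v : C → B → F) (h : A → B) (s : Option C) (l : List (C × A)) :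
    bt g β v s (l.map fun x => (x.1, h x.2)) = bt g β (fun c a => v c (h a)) s l := by
  induction l generalizing s with
  | nil => rfl
  | cons x l ih => rw [List.map_cons, bt, bt, ih]

theorem exists_conv {C : Type*} (N : ℕ) (l : List (C × ℤ)) (h : ∀ x ∈ l, |x.2| ≤ N) :
    ∃ l' : List (C × ExpN N), l'.map (fun x => (x.1, x.2.1)) = l := by
  induction l with
  | nil => exact ⟨[], rfl⟩
  | cons x l ih =>
    obtain ⟨l', hl'⟩ := ih fun y hy => h y (List.mem_cons_of_mem _ hy)
    exact ⟨(x.1, ⟨x.2, h x List.mem_cons_self⟩) :: l', by rw [List.map_cons, hl']⟩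

/-- The beads `r ^ n (r - 1)`. -/
noncomputable def bv (k : Type) [CommRing k] {E C : Type} (r : C → FreeGroup E) (c : C) (n : ℤ) :
    MonoidAlgebra k (FreeGroup E) :=
  MonoidAlgebra.of k _ (r c ^ n) * (MonoidAlgebra.of k _ (r c) - 1)

theorem vb_eq {K : Type} [Field K] {E C : Type} (r : C → FreeGroup E) (N : ℕ) (c : C)
    (n : ExpN N) : bv K r c n.1 = ∑ j, mu K N n j • vb r N (2 * N + 1) c j := by
  have h0 := n.2
  rw [abs_le] at h0
  have h1 := mu_pol K N (MonoidAlgebra.of K (FreeGroup E) (r c)) n
  have h2 : MonoidAlgebra.of K (FreeGroup E) (r c ^ (-(N : ℤ))) *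
      MonoidAlgebra.of K (FreeGroup E) (r c) ^ ((N : ℤ) + n.1).toNat =
      MonoidAlgebra.of K (FreeGroup E) (r c ^ n.1) := by
    rw [← map_pow, ← map_mul, ← zpow_natCast, ← zpow_add]
    congr 2
    omega
  rw [bv, ← h2, h1, mul_assoc, Finset.sum_mul, Finset.mul_sum]
  refine Finset.sum_congr rfl fun j _ => ?_
  rw [vb, smul_mul_assoc, mul_smul_comm, pow_succ]

/-- INDEP over a field, for the words in the other order. -/
theorem indep_field {K : Type} [Field K] {E C : Type} (r : C → FreeGroup E)
    (hr : LinearIndependent K (fun c => chain K (r c)))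
    (g : Option C → C → FreeGroup E) (β : Option C → FreeGroup E) (s : Option C) :
    LinearIndependent K (fun l : {l : List (C × ℤ) // (l.map Prod.fst).IsChain (· ≠ ·)} =>
      bt (fun s c => MonoidAlgebra.of K (FreeGroup E) (g s c))
        (fun s => MonoidAlgebra.of K (FreeGroup E) (β s)) (bv K r) s l.1) := by
  classical
  rw [linearIndependent_iff']
  intro S a ha l0 hl0
  obtain ⟨N, hN⟩ : ∃ N : ℕ, ∀ l ∈ S, ∀ x ∈ l.1, |x.2| ≤ (N : ℤ) := by
    have h1 : ∀ l : List (C × ℤ), ∃ N : ℕ, ∀ x ∈ l, |x.2| ≤ (N : ℤ) := by
      intro l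
      induction l with
      | nil => exact ⟨0, fun x hx => absurd hx (by simp)⟩
      | cons y l ih =>
        obtain ⟨N, hN⟩ := ih
        refine ⟨N + y.2.natAbs, fun x hx => ?_⟩
        rcases List.mem_cons.1 hx with rfl | h
        · push_cast
          rw [← Int.natCast_natAbs]
          omega
        · have := hN x h
          push_cast
          have h3 : (0 : ℤ) ≤ |y.2| := abs_nonneg _
          omega
    choose N hN using h1
    refine ⟨∑ l ∈ S, N l.1, fun l hl x hx => (hN l.1 x hx).trans ?_⟩
    have : N l.1 ≤ ∑ l ∈ S, N l.1 := Finset.single_le_sum (f := fun l => N l.1)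
      (fun i _ => Nat.zero_le _) hl
    exact_mod_cast this
  have h2 : ∀ l : {l : List (C × ℤ) // (l.map Prod.fst).IsChain (· ≠ ·)},
      ∃ l' : List (C × ExpN N), l ∈ S → l'.map (fun x => (x.1, x.2.1)) = l.1 := by
    intro l
    by_cases hl : l ∈ S
    · obtain ⟨l', h⟩ := exists_conv N l.1 (fun x hx => hN l hl x hx)
      exact ⟨l', fun _ => h⟩
    · exact ⟨[], fun h => absurd h hl⟩
  choose cv hcv using h2
  obtain ⟨ν, hν⟩ := exists_nu K N
  set z : List (C × Fin (2 * N + 1)) →₀ K := ∑ l ∈ S, a l • tr (mu K N) (cv l) with hz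
  have hz0 : z = 0 := by
    refine vb_indep r hr g β N (2 * N + 1) s z (fun l hl => ?_) ?_
    · obtain ⟨l1, hl1, h3⟩ := Finset.mem_biUnion.1 (Finsupp.support_finsetSum hl)
      have h4 := tr_supp (mu K N) (cv l1) l (Finsupp.support_smul h3)
      have h5 := hcv l1 hl1
      have h6 : (cv l1).map Prod.fst = l1.1.map Prod.fst := by
        rw [← h5, List.map_map]
        rfl
      rw [h4, h6]
      exact l1.2
    · rw [hz, map_sum]
      rw [← ha]
      refine Finset.sum_congr rfl fun l hl => ?_
      rw [map_smul]
      congr 1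
      rw [lc_tr (mu K N) _ _ (fun c (n : ExpN N) => bv K r c n.1) _ (cv l)
        (fun x _ => vb_eq r N x.1 x.2) s, ← hcv l hl]
      exact (bt_map _ _ (bv K r) (fun n : ExpN N => n.1) s (cv l)).symm
  have h7 := congrArg (Finsupp.linearCombination K (tr (C := C) ν)) hz0
  rw [hz, map_sum, map_zero] at h7
  have h8 : ∀ l ∈ S, Finsupp.linearCombination K (tr (C := C) ν) (a l • tr (mu K N) (cv l)) =
      a l • Finsupp.single (cv l) 1 := by
    intro l _
    rw [map_smul, tr_tr (mu K N) ν hν]
  rw [Finset.sum_congr rfl h8] at h7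
  have h9 := congrArg (fun f => f (cv l0)) h7
  simp only [Finsupp.coe_zero, Pi.zero_apply] at h9
  rw [Finsupp.finsetSum_apply, Finset.sum_eq_single l0] at h9
  · simpa using h9
  · intro l hl hne
    have h10 : cv l ≠ cv l0 := by
      intro h
      refine hne (Subtype.ext ?_)
      rw [← hcv l hl, ← hcv l0 hl0, h]
    rw [Finsupp.smul_apply, Finsupp.single_apply, if_neg h10, smul_zero]
  · intro h
    exact absurd hl0 h

/-- The last state. -/
def lst {C A : Type*} (s : Option C) (l : List (C × A)) : Option C :=
  match l.getLast? with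
  | some x => some x.1
  | none => s

theorem bt_append {F C A : Type*} [Ring F] (g : Option C → C → F) (v : C → A → F)
    (l : List (C × A)) (x : C × A) : ∀ s : Option C,
    bt g (fun _ => 1) v s (l ++ [x]) =
      bt g (fun _ => 1) v s l * (g (lst s l) x.1 * v x.1 x.2) := by
  induction l with
  | nil =>
    intro s
    rw [List.nil_append, bt, bt, bt, mul_one, one_mul]
    rfl
  | cons y l ih =>
    intro s
    rw [List.cons_append, bt, bt, ih]
    have h : lst s (y :: l) = lst (some y.1) l := by
      unfold lst
      cases l with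
      | nil => rfl
      | cons z l =>
        rw [List.getLast?_cons_cons, List.getLast?_eq_some_getLast (List.cons_ne_nil z l)]
    rw [h]
    simp only [mul_assoc]

theorem pm_eq (k : Type) [CommRing k] {E C : Type} (r : C → FreeGroup E)
    (g : Option C → C → FreeGroup E) (l : List (C × ℤ)) :
    PM k r g l = bt (fun s c => MonoidAlgebra.of k (FreeGroup E) (g s c)) (fun _ => 1) (bv k r)
      none l.reverse := by
  induction l with
  | nil => rfl
  | cons x l ih =>
    obtain ⟨c, n⟩ := x
    rw [PM, List.reverse_cons, bt_append, ih]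
    have h : lst none l.reverse = l.head?.map Prod.fst := by
      unfold lst
      rw [List.getLast?_reverse]
      cases l.head? <;> rfl
    rw [h, bv]
    simp only [mul_assoc]

end Mg

/-- **INDEP.** If the chains of the loops `r c` are linearly independent, the words `PM` are
linearly independent in the group algebra of the free group. -/
theorem indep {k E C : Type} [CommRing k] [IsDomain k] (r : C → FreeGroup E)
    (g : Option C → C → FreeGroup E) (h : LinearIndependent k (fun c => chain k (r c))) :
    LinearIndependent k (fun L : {L : List (C × ℤ) // L.IsChain (fun a b => a.1 ≠ b.1)} =>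
      PM k r g L.1) := by
  classical
  set K := FractionRing k
  have hinj : Function.Injective (algebraMap k K) := IsFractionRing.injective k K
  have h1 : ∀ x : FreeGroup E, chain K x =
      Finsupp.mapRange.linearMap (Algebra.linearMap k K) (chain k x) := by
    intro x
    induction x using FreeGroup.induction_on with
    | C1 => rw [Mg.chain_one, Mg.chain_one, map_zero]
    | of e =>
      rw [Mg.chain_of, Mg.chain_of]
      simp
    | inv_of e h => rw [Mg.chain_inv, Mg.chain_inv, h, map_neg]
    | mul x y hx hy => rw [Mg.chain_mul, Mg.chain_mul, hx, hy, map_add]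
  have h2 : LinearIndependent k (fun c => chain K (r c)) := by
    have h3 : (fun c => chain K (r c)) =
        (Finsupp.mapRange.linearMap (Algebra.linearMap k K) : (E →₀ k) →ₗ[k] (E →₀ K)) ∘
          fun c => chain k (r c) := by
      funext c
      exact h1 (r c)
    rw [h3]
    refine h.map' _ (LinearMap.ker_eq_bot.2 ?_)
    exact Finsupp.mapRange_injective (Algebra.linearMap k K) (map_zero _) hinj
  have h4 : LinearIndependent K (fun c => chain K (r c)) :=
    (LinearIndependent.iff_fractionRing k K).1 h2
  have h5 := Mg.indep_field r h4 g (fun _ => 1) none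
  set Ψ : MonoidAlgebra k (FreeGroup E) →+* MonoidAlgebra K (FreeGroup E) :=
    MonoidAlgebra.mapRingHom (FreeGroup E) (algebraMap k K) with hΨ
  have h6 : ∀ x : FreeGroup E, Ψ (MonoidAlgebra.of k _ x) = MonoidAlgebra.of K _ x := by
    intro x
    rw [hΨ, MonoidAlgebra.of_apply, MonoidAlgebra.of_apply, MonoidAlgebra.mapRingHom_single,
      map_one]
  have h7 : ∀ l : List (C × ℤ), Ψ (PM k r g l) = PM K r g l := by
    intro l
    induction l with
    | nil => rw [PM, PM, map_one]
    | cons x l ih =>
      obtain ⟨c, n⟩ := x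
      rw [PM, PM, map_mul, map_mul, map_mul, map_sub, map_one, h6, h6, h6, ih]
  have hrev : ∀ l : List (C × ℤ), l.IsChain (fun a b => a.1 ≠ b.1) →
      (l.reverse.map Prod.fst).IsChain (· ≠ ·) := by
    intro l hl
    rw [List.map_reverse, List.isChain_reverse, List.isChain_map]
    exact hl.imp fun a b hab => fun h => hab h.symm
  rw [linearIndependent_iff'] at h5 ⊢
  intro S a ha l hl
  refine hinj ?_
  rw [map_zero]
  let T : {L : List (C × ℤ) // L.IsChain (fun a b => a.1 ≠ b.1)} →
      {l : List (C × ℤ) // (l.map Prod.fst).IsChain (· ≠ ·)} :=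
    fun L => ⟨L.1.reverse, hrev L.1 L.2⟩
  have hT : Function.Injective T := fun L L' hLL => Subtype.ext
    (List.reverse_injective (congrArg Subtype.val hLL))
  have h8 := congrArg Ψ ha
  rw [map_sum, map_zero] at h8
  have h9 : LinearIndependent K (fun L : {L : List (C × ℤ) // L.IsChain (fun a b => a.1 ≠ b.1)} =>
      PM K r g L.1) := by
    have h10 := (Mg.indep_field r h4 g (fun _ => 1) none).comp T hT
    have h11 : (fun L : {L : List (C × ℤ) // L.IsChain (fun a b => a.1 ≠ b.1)} =>
        PM K r g L.1) = (fun l : {l : List (C × ℤ) // (l.map Prod.fst).IsChain (· ≠ ·)} =>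
        Mg.bt (fun s c => MonoidAlgebra.of K (FreeGroup E) (g s c))
        (fun _ => MonoidAlgebra.of K (FreeGroup E) 1) (Mg.bv K r) none l.1) ∘ T := by
      funext L
      rw [Mg.pm_eq, map_one]
      rfl
    rw [h11]
    exact h10
  rw [linearIndependent_iff'] at h9
  refine h9 S (fun l => algebraMap k K (a l)) ?_ l hl
  rw [← h8]
  refine Finset.sum_congr rfl fun l _ => ?_
  rw [Algebra.smul_def, Algebra.smul_def, map_mul, h7]
  congr 1
  rw [hΨ, MonoidAlgebra.coe_algebraMap, MonoidAlgebra.coe_algebraMap]
  simp [MonoidAlgebra.mapRingHom_single]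

/-- The triangular criterion for the chains: every cell `c` has a leading edge, on which its chain
is `±1`, and which occurs only in the chains of cells of larger rank. -/
theorem chain_indep {k E C : Type} [CommRing k] (r : C → FreeGroup E)
    (lead : C → E) (rank : C → ℕ)
    (h1 : ∀ c, chain k (r c) (lead c) = 1 ∨ chain k (r c) (lead c) = -1)
    (h2 : ∀ c c', c ≠ c' → chain k (r c') (lead c) ≠ 0 → rank c < rank c') :
    LinearIndependent k (fun c => chain k (r c)) := by
  classical
  rw [linearIndependent_iff']
  intro S a ha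
  by_contra hne
  push Not at hne
  obtain ⟨c1, hc1, ha1⟩ := hne
  obtain ⟨c, hc, hmax⟩ := Finset.exists_max_image (S.filter fun c => a c ≠ 0) rank
    ⟨c1, Finset.mem_filter.2 ⟨hc1, ha1⟩⟩
  rw [Finset.mem_filter] at hc
  have h3 := congrArg (fun x => x (lead c)) ha
  simp only [Finsupp.coe_zero, Pi.zero_apply] at h3
  rw [Finsupp.finsetSum_apply, Finset.sum_eq_single c] at h3
  · rw [Finsupp.smul_apply, smul_eq_mul] at h3
    rcases h1 c with h | h
    · rw [h, mul_one] at h3
      exact hc.2 h3
    · rw [h, mul_neg, mul_one, neg_eq_zero] at h3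
      exact hc.2 h3
  · intro c' hc' hne'
    rw [Finsupp.smul_apply, smul_eq_mul]
    by_cases h4 : a c' = 0
    · rw [h4, zero_mul]
    · by_cases h5 : chain k (r c') (lead c) = 0
      · rw [h5, mul_zero]
      · have h6 := h2 c c' hne'.symm h5
        have h7 := hmax c' (Finset.mem_filter.2 ⟨hc', h4⟩)
        omega
  · intro h
    exact absurd hc.1 h

end Pool.Agent.Cx2
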