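import Pool.Agent.Lib.MP_8f66f0_al_Cx.SpecA
import Pool.Agent.Lib.MP_8f66f0_al_Cx.Indep

/-! Part A6: independence of the boundaries. -/

set_option autoImplicit false

namespace Pool.Agent.Cx2

section

variable {G V C : Type} [Group G] [MulAction G V] [MulAction G C] {X : Cx G V C}
  (k : Type) [CommRing k]

open Classical in
/-- The coefficient of the edge `e` in the chain of the edge from `u` to `v`. -/
private noncomputable def chf (e : X.E) (u v : V) : k :=
  (if e.1 = (u, v) then 1 else 0) - (if e.1 = (v, u) then 1 else 0)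

private theorem ch_anti (e : X.E) (u v : V) : chf k e v u = - chf k e u v := by
  unfold chf
  rw [neg_sub]

private theorem ch_ε (e : X.E) (u v : V) : chain k (X.ε u v) e = chf k e u v := by
  classical
  unfold chf
  by_cases h : X.ori u v
  · obtain ⟨e', he', he''⟩ : ∃ e' : X.E, e'.1 = (u, v) ∧ X.ε u v = FreeGroup.of e' :=
      ⟨⟨(u, v), h⟩, rfl, X.ε_ori h⟩
    rw [he'', Mg.chain_of, Finsupp.single_apply]
    have h1 : e.1 ≠ (v, u) := by
      intro h1
      have h2 := e.2
      rw [h1] at h2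
      exact X.ori_anti _ _ h h2
    rw [if_neg h1, sub_zero]
    by_cases h3 : e.1 = (u, v)
    · have h5 : e' = e := Subtype.ext (he'.trans h3.symm)
      rw [if_pos h3, if_pos h5]
    · rw [if_neg h3, if_neg fun h4 => h3 (by rw [← h4]; exact he')]
  · by_cases h' : X.ori v u
    · obtain ⟨e', he', he''⟩ : ∃ e' : X.E, e'.1 = (v, u) ∧ X.ε u v = (FreeGroup.of e')⁻¹ :=
        ⟨⟨(v, u), h'⟩, rfl, X.ε_ori' h'⟩
      rw [he'', Mg.chain_inv, Mg.chain_of, Finsupp.neg_apply, Finsupp.single_apply]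
      have h1 : e.1 ≠ (u, v) := by
        intro h1
        have h2 := e.2
        rw [h1] at h2
        exact X.ori_anti _ _ h' h2
      rw [if_neg h1, zero_sub]
      by_cases h3 : e.1 = (v, u)
      · have h5 : e' = e := Subtype.ext (he'.trans h3.symm)
        rw [if_pos h3, if_pos h5]
      · rw [if_neg h3, if_neg fun h4 => h3 (by rw [← h4]; exact he')]
    · have h1 : e.1 ≠ (u, v) := by
        intro h1
        have h2 := e.2
        rw [h1] at h2
        exact h h2
      have h2 : e.1 ≠ (v, u) := by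
        intro h1
        have h2 := e.2
        rw [h1] at h2
        exact h' h2
      unfold Cx.ε
      rw [dif_neg h, dif_neg h', Mg.chain_one, if_neg h1, if_neg h2, sub_zero]
      rfl

private theorem ch_r3 {c : C} {p q s : V} (hb : X.bv c = p) (hr : X.rs c = [q, s]) (e : X.E) :
    chain k (X.r c) e = chf k e p q + (chf k e q s + chf k e s p) := by
  have h : X.r c = X.ε p q * (X.ε q s * X.ε s p) := by
    unfold Cx.r
    rw [hb, hr]
    rfl
  rw [h, Mg.chain_mul, Mg.chain_mul, Finsupp.add_apply, Finsupp.add_apply, ch_ε, ch_ε, ch_ε]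

private theorem ch_r4 {c : C} {p q s t : V} (hb : X.bv c = p) (hr : X.rs c = [q, s, t])
    (e : X.E) :
    chain k (X.r c) e = chf k e p q + (chf k e q s + (chf k e s t + chf k e t p)) := by
  have h : X.r c = X.ε p q * (X.ε q s * (X.ε s t * X.ε t p)) := by
    unfold Cx.r
    rw [hb, hr]
    rfl
  rw [h, Mg.chain_mul, Mg.chain_mul, Mg.chain_mul, Finsupp.add_apply, Finsupp.add_apply,
    Finsupp.add_apply, ch_ε, ch_ε, ch_ε, ch_ε]

private theorem ch_tri {c : C} {a b m : V} (h : X.IsTri c a b m) (e : X.E) :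
    chain k (X.r c) e = chf k e a b + chf k e b m + chf k e m a ∨
      chain k (X.r c) e = -(chf k e a b + chf k e b m + chf k e m a) := by
  rcases h with ⟨hb, hr | hr⟩ | ⟨hb, hr | hr⟩ | ⟨hb, hr | hr⟩
  · left
    rw [ch_r3 k hb hr]
    ring
  · right
    rw [ch_r3 k hb hr, ch_anti k e m a, ch_anti k e b m, ch_anti k e a b]
    ring
  · right
    rw [ch_r3 k hb hr, ch_anti k e a b, ch_anti k e m a, ch_anti k e b m]
    ring
  · left
    rw [ch_r3 k hb hr]
    ring
  · left
    rw [ch_r3 k hb hr]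
    ring
  · right
    rw [ch_r3 k hb hr, ch_anti k e a b, ch_anti k e m a, ch_anti k e b m]
    ring

private theorem ch_sq {c : C} {a b m n : V} (h : X.IsSq c a b m n) (e : X.E) :
    chain k (X.r c) e = chf k e a b + chf k e b m + chf k e m n + chf k e n a ∨
      chain k (X.r c) e = -(chf k e a b + chf k e b m + chf k e m n + chf k e n a) := by
  rcases h with ⟨hb, hr | hr⟩ | ⟨hb, hr | hr⟩ | ⟨hb, hr | hr⟩ | ⟨hb, hr | hr⟩
  · left
    rw [ch_r4 k hb hr]
    ring
  · right
    rw [ch_r4 k hb hr, ch_anti k e n a, ch_anti k e m n, ch_anti k e b m, ch_anti k e a b]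
    ring
  · left
    rw [ch_r4 k hb hr]
    ring
  · right
    rw [ch_r4 k hb hr, ch_anti k e n a, ch_anti k e m n, ch_anti k e b m, ch_anti k e a b]
    ring
  · left
    rw [ch_r4 k hb hr]
    ring
  · right
    rw [ch_r4 k hb hr, ch_anti k e n a, ch_anti k e m n, ch_anti k e b m, ch_anti k e a b]
    ring
  · left
    rw [ch_r4 k hb hr]
    ring
  · right
    rw [ch_r4 k hb hr, ch_anti k e n a, ch_anti k e m n, ch_anti k e b m, ch_anti k e a b]
    ring

/-- `e` is the edge `{u, v}`. -/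
private def chE (e : X.E) (u v : V) : Prop := e.1 = (u, v) ∨ e.1 = (v, u)

private theorem ch_zero {e : X.E} {u v : V} (h : ¬ chE e u v) : chf k e u v = 0 := by
  classical
  unfold chE at h
  push Not at h
  unfold chf
  rw [if_neg h.1, if_neg h.2, sub_zero]

private theorem ch_unit {e : X.E} {u v : V} (huv : u ≠ v) (h : chE e u v) :
    chf k e u v = 1 ∨ chf k e u v = -1 := by
  classical
  unfold chf
  rcases h with h | h
  · left
    rw [if_pos h, if_neg, sub_zero]
    rw [h]
    exact fun h' => huv (Prod.ext_iff.1 h').1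
  · right
    rw [if_neg, if_pos h, zero_sub]
    rw [h]
    exact fun h' => huv (Prod.ext_iff.1 h').2

private theorem chE_eq {e : X.E} {u v a b : V} (h : chE e u v) (h' : chE e a b) :
    (u = a ∧ v = b) ∨ (u = b ∧ v = a) := by
  rcases h with h | h <;> rcases h' with h' | h' <;> rw [h] at h' <;>
    simp only [Prod.mk.injEq] at h'
  · exact Or.inl h'
  · exact Or.inr h'
  · exact Or.inr ⟨h'.2, h'.1⟩
  · exact Or.inl ⟨h'.2, h'.1⟩

private theorem ch_ex {u v : V} (h : X.Γ.Adj u v) : ∃ e : X.E, chE e u v := by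
  rcases X.ori_or u v h with h | h
  · exact ⟨⟨(u, v), h⟩, Or.inl rfl⟩
  · exact ⟨⟨(v, u), h⟩, Or.inr rfl⟩

private theorem ch_tri_ne {c : C} {a b m : V} (h : X.IsTri c a b m) {e : X.E}
    (he : chain k (X.r c) e ≠ 0) : chE e a b ∨ chE e b m ∨ chE e m a := by
  by_contra hn
  push Not at hn
  apply he
  rcases ch_tri k h e with h1 | h1 <;>
    rw [h1, ch_zero k hn.1, ch_zero k hn.2.1, ch_zero k hn.2.2] <;> simp

private theorem ch_sq_ne {c : C} {a b m n : V} (h : X.IsSq c a b m n) {e : X.E}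
    (he : chain k (X.r c) e ≠ 0) : chE e a b ∨ chE e b m ∨ chE e m n ∨ chE e n a := by
  by_contra hn
  push Not at hn
  apply he
  rcases ch_sq k h e with h1 | h1 <;>
    rw [h1, ch_zero k hn.1, ch_zero k hn.2.1, ch_zero k hn.2.2.1, ch_zero k hn.2.2.2] <;> simp

private theorem ch_tri_unit {c : C} {a b m : V} (h : X.IsTri c a b m) (hab : a ≠ b)
    (ham : a ≠ m) (hbm : b ≠ m) {e : X.E} (he : chE e a b) :
    chain k (X.r c) e = 1 ∨ chain k (X.r c) e = -1 := by
  have h1 : ¬ chE e b m := by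
    intro h1
    rcases chE_eq he h1 with h2 | h2
    · exact hab h2.1
    · exact ham h2.1
  have h2 : ¬ chE e m a := by
    intro h1
    rcases chE_eq he h1 with h2 | h2
    · exact ham h2.1
    · exact hbm h2.2
  rcases ch_tri k h e with h3 | h3 <;> rw [h3, ch_zero k h1, ch_zero k h2] <;>
    rcases ch_unit k hab he with h4 | h4 <;> rw [h4] <;> simp

private theorem ch_sq_unit {c : C} {a b m n : V} (h : X.IsSq c a b m n) (hab : a ≠ b)
    (ham : a ≠ m) (hbm : b ≠ m) (hbn : b ≠ n) {e : X.E} (he : chE e a b) :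
    chain k (X.r c) e = 1 ∨ chain k (X.r c) e = -1 := by
  have h1 : ¬ chE e b m := by
    intro h1
    rcases chE_eq he h1 with h2 | h2
    · exact hab h2.1
    · exact ham h2.1
  have h2 : ¬ chE e m n := by
    intro h1
    rcases chE_eq he h1 with h2 | h2
    · exact ham h2.1
    · exact hbm h2.2
  have h2' : ¬ chE e n a := by
    intro h1
    rcases chE_eq he h1 with h2 | h2
    · exact hab h2.2.symm
    · exact hbn h2.2
  rcases ch_sq k h e with h3 | h3 <;> rw [h3, ch_zero k h1, ch_zero k h2, ch_zero k h2'] <;>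
    rcases ch_unit k hab he with h4 | h4 <;> rw [h4] <;> simp

/-- The leading edge and the rank. -/
private def chL (o : V) (c : C) (e : X.E) (r : ℕ) : Prop :=
  (∃ v u u', X.Top o c v u u' ∧ chE e v u ∧ r = 2 * X.Γ.dist o v) ∨
    ∃ x u u', X.PB o c x u u' ∧ chE e u u' ∧ r = 2 * X.Γ.dist o u + 1

private theorem ch_Top_adj {o v u u' : V} {c : C} (h : X.Top o c v u u') :
    X.Dn o v u ∧ X.Dn o v u' ∧ u ≠ u' := by
  rcases h with ⟨-, h1, h2, h3⟩ | ⟨x, -, h1, h2, -, -, h3⟩
  · exact ⟨h1, h2, h3⟩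
  · exact ⟨h1, h2, h3⟩

end

theorem ch : S_ch := by
  intro G V C _ _ _ X hX k _
  obtain ⟨o⟩ := X.conn.nonempty
  have hadj : ∀ (c : C) (a b m : V), X.IsTri c a b m → X.Γ.Adj b m := by
    intro c a b m h
    have hc := X.bd_adj c
    rcases h with ⟨hb, hr | hr⟩ | ⟨hb, hr | hr⟩ | ⟨hb, hr | hr⟩ <;> rw [hb, hr] at hc <;>
      simp only [List.cons_append, List.nil_append, List.isChain_cons_cons] at hc
    · exact hc.2.1
    · exact hc.2.1.symm
    · exact hc.2.2.1.symm
    · exact hc.1
    · exact hc.2.2.1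
    · exact hc.1.symm
  have hex : ∀ c, ∃ (e : X.E) (r : ℕ), chL o c e r := by
    intro c
    rcases hX.pat o c with ⟨v, u, u', h⟩ | ⟨x, u, u', h⟩
    · obtain ⟨e, he⟩ := ch_ex (ch_Top_adj h).1.1
      exact ⟨e, _, Or.inl ⟨v, u, u', h, he, rfl⟩⟩
    · obtain ⟨e, he⟩ := ch_ex (hadj c x u u' h.1)
      exact ⟨e, _, Or.inr ⟨x, u, u', h, he, rfl⟩⟩
  choose lead rank hL using hex
  refine chain_indep (k := k) (fun c => X.r c) lead rank (fun c => ?_) (fun c c' hne hc => ?_)
  · rcases hL c with ⟨v, u, u', h, he, -⟩ | ⟨x, u, u', h, he, -⟩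
    · rcases h with ⟨h, h1, h2, h3⟩ | ⟨x, h, h1, h2, h4, h5, h3⟩
      · exact ch_tri_unit k h h1.1.ne h2.1.ne h3 he
      · refine ch_sq_unit k h h1.1.ne ?_ h4.1.ne h3 he
        intro hvx
        have e1 := h1.2
        have e2 := h4.2
        rw [hvx] at e1
        omega
    · obtain ⟨h, h1, h2, h3⟩ := h
      have h' : X.IsTri c u u' x := by
        unfold Cx.IsTri at h ⊢
        tauto
      exact ch_tri_unit k h' h3 h1.1.ne h2.1.ne he
  · -- the ranks
    rcases hL c with ⟨v, u, u', h, he, hr⟩ | ⟨x, u, u', h, he, hr⟩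
    · have hd := (ch_Top_adj h).1.2
      rcases hL c' with ⟨w, t, t', h', he', hr'⟩ | ⟨x', t, t', h', he', hr'⟩
      · have hw : v ≠ w := by
          rintro rfl
          exact hne (hX.top_uniq o v u u' t t' c c' h h')
        rcases h' with ⟨h', h1, h2, h3⟩ | ⟨x, h', h1, h2, h4, h5, h3⟩
        · have e1 := h1.2
          have e2 := h2.2
          rcases ch_tri_ne k h' hc with h6 | h6 | h6 <;>
            rcases chE_eq he h6 with ⟨rfl, rfl⟩ | ⟨rfl, rfl⟩ <;> first
            | exact absurd rfl hw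
            | omega
        · have e1 := h1.2
          have e2 := h2.2
          have e3 := h4.2
          have e4 := h5.2
          rcases ch_sq_ne k h' hc with h6 | h6 | h6 | h6 <;>
            rcases chE_eq he h6 with ⟨rfl, rfl⟩ | ⟨rfl, rfl⟩ <;> first
            | exact absurd rfl hw
            | omega
      · obtain ⟨h', h1, h2, h3⟩ := h'
        have e1 := h1.2
        have e2 := h2.2
        rcases ch_tri_ne k h' hc with h6 | h6 | h6 <;>
          rcases chE_eq he h6 with ⟨rfl, rfl⟩ | ⟨rfl, rfl⟩ <;> omega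
    · obtain ⟨g, g1, g2, g3⟩ := h
      have d1 := g1.2
      have d2 := g2.2
      rcases hL c' with ⟨w, t, t', h', he', hr'⟩ | ⟨x', t, t', h', he', hr'⟩
      · rcases h' with ⟨h', h1, h2, h3⟩ | ⟨x, h', h1, h2, h4, h5, h3⟩
        · have e1 := h1.2
          have e2 := h2.2
          rcases ch_tri_ne k h' hc with h6 | h6 | h6 <;>
            rcases chE_eq he h6 with ⟨rfl, rfl⟩ | ⟨rfl, rfl⟩ <;> omega
        · have e1 := h1.2
          have e2 := h2.2
          have e3 := h4.2
          have e4 := h5.2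
          rcases ch_sq_ne k h' hc with h6 | h6 | h6 | h6 <;>
            rcases chE_eq he h6 with ⟨rfl, rfl⟩ | ⟨rfl, rfl⟩ <;> omega
      · have hPB : ∀ a b, X.PB o c' x' a b → X.PB o c' x' b a := by
          rintro a b ⟨k1, k2, k3, k4⟩
          refine ⟨?_, k3, k2, k4.symm⟩
          unfold Cx.IsTri at k1 ⊢
          tauto
        have h'' := h'
        obtain ⟨h', h1, h2, h3⟩ := h'
        have e1 := h1.2
        have e2 := h2.2
        rcases ch_tri_ne k h' hc with h6 | h6 | h6
        · rcases chE_eq he h6 with ⟨rfl, rfl⟩ | ⟨rfl, rfl⟩ <;> omega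
        · rcases chE_eq he h6 with ⟨rfl, rfl⟩ | ⟨rfl, rfl⟩
          · exact absurd (hX.hor_uniq o u u' x x' c c' ⟨g, g1, g2, g3⟩ h'') hne
          · exact absurd (hX.hor_uniq o u u' x x' c c' ⟨g, g1, g2, g3⟩ (hPB _ _ h'')) hne
        · rcases chE_eq he h6 with ⟨rfl, rfl⟩ | ⟨rfl, rfl⟩ <;> omega

end Pool.Agent.Cx2
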