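import Pool.Agent.Lib.MP_8f66f0_al_Cx.SpecC

/-! Part C: the combinatorics of the codes (`S_cod`). -/

set_option autoImplicit false

namespace Pool.Agent.Cx2

section Cod

variable {G C : Type} [Group G] [MulAction G C]

private theorem codHead (f : C) (d : G) (n : ℤ) (u : List (List (C × ℤ) × G × ℤ)) :
    ∃ (m : ℤ) (L : List (C × ℤ)), (cod f d n u).1 = ((cod f d n u).2 • f, m) :: L := by
  cases u with
  | nil => exact ⟨n, [], rfl⟩
  | cons x u => exact ⟨x.2.2, _, rfl⟩

private theorem codSm (h : G) (l : List (C × ℤ)) (hl : Ch l) : Ch (sm h l) := by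
  unfold Ch sm at *
  rw [List.isChain_map]
  refine hl.imp ?_
  intro a b hab hh
  exact hab (MulAction.injective h hh)

private theorem codSmInj (h : G) : Function.Injective (sm (C := C) h) := by
  intro l l' hll
  unfold sm at hll
  refine List.map_injective_iff.2 ?_ hll
  intro a b hab
  simp only [Prod.mk.injEq] at hab
  exact Prod.ext (MulAction.injective h hab.1) hab.2

private theorem codSplit {α : Type} (p : α → Prop) :
    ∀ (l l' L L' : List α) (a b : α), (∀ x ∈ l, p x) → (∀ x ∈ l', p x) → ¬ p a → ¬ p b →
      l ++ a :: L = l' ++ b :: L' → l = l' ∧ a :: L = b :: L' := by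
  intro l
  induction l with
  | nil =>
    intro l' L L' a b _ hl' ha _ h
    cases l' with
    | nil => exact ⟨rfl, by simpa using h⟩
    | cons c l' =>
      simp only [List.nil_append, List.cons_append, List.cons.injEq] at h
      exact absurd (h.1 ▸ hl' c (List.mem_cons_self ..)) ha
  | cons c l ih =>
    intro l' L L' a b hl hl' ha hb h
    cases l' with
    | nil =>
      simp only [List.nil_append, List.cons_append, List.cons.injEq] at h
      exact absurd (h.1 ▸ hl c (List.mem_cons_self ..)) hb
    | cons c' l' =>
      simp only [List.cons_append, List.cons.injEq] at h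
      obtain ⟨h1, h2⟩ := ih l' L L' a b (fun x hx => hl x (List.mem_cons_of_mem _ hx))
        (fun x hx => hl' x (List.mem_cons_of_mem _ hx)) ha hb h.2
      exact ⟨by rw [h.1, h1], h2⟩

private theorem codCh (K : Set C) (f : C) (rp : G → G)
    (hK : ∀ (g : G), ∀ c ∈ K, g • c ∈ K) (hf : f ∉ K) (d : G) (n : ℤ)
    (u : List (List (C × ℤ) × G × ℤ)) (hu : ∀ x ∈ u, IsLet f K rp x) :
    Ch (cod f d n u).1 ∧ ∀ a ∈ (cod f d n u).1, a.1 ∉ K := by
  have hK' : ∀ (g : G) (c : C), g • c ∈ K → c ∈ K := by
    intro g c hc
    have := hK g⁻¹ _ hc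
    rwa [inv_smul_smul] at this
  induction u with
  | nil =>
    refine ⟨?_, ?_⟩
    · unfold Ch
      simp [cod]
    · intro a ha
      simp only [cod, List.mem_singleton] at ha
      subst ha
      exact fun h => hf (hK' _ _ h)
  | cons x u ih =>
    obtain ⟨ih1, ih2⟩ := ih (fun y hy => hu y (List.mem_cons_of_mem _ hy))
    obtain ⟨hx1, hx2, hx3, hx4⟩ := hu x (List.mem_cons_self ..)
    obtain ⟨m, L, hL⟩ := codHead f d n u
    set h := (cod f d n u).2 with hh
    refine ⟨?_, ?_⟩
    · have hc : Ch (sm h x.1 ++ (cod f d n u).1) := by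
        unfold Ch at *
        rw [List.isChain_append]
        refine ⟨codSm h _ hx1, ih1, ?_⟩
        intro a ha b hb
        rw [hL] at hb
        simp only [List.head?_cons, Option.mem_def, Option.some.injEq] at hb
        subst hb
        have ha' : a ∈ sm h x.1 := List.mem_of_getLast? ha
        unfold sm at ha'
        rw [List.mem_map] at ha'
        obtain ⟨c, hc, rfl⟩ := ha'
        intro he
        simp only at he
        exact (hx2 c hc).2 ⟨1, (one_smul G f).trans (MulAction.injective h he).symm⟩
      unfold Ch at *
      simp only [cod]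
      rw [List.isChain_cons]
      refine ⟨?_, hc⟩
      intro b hb
      simp only
      cases hl : x.1 with
      | nil =>
        rw [hl] at hb
        simp only [sm, List.map_nil, List.nil_append] at hb
        rw [hL] at hb
        simp only [List.head?_cons, Option.mem_def, Option.some.injEq] at hb
        subst hb
        simp only
        intro he
        refine hx4 ⟨hl, ?_⟩
        rw [MulAction.mem_stabilizer_iff]
        rw [mul_smul] at he
        exact MulAction.injective _ he
      | cons c l =>
        rw [hl] at hb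
        simp only [sm, List.map_cons, List.cons_append, List.head?_cons, Option.mem_def,
          Option.some.injEq] at hb
        subst hb
        simp only
        intro he
        rw [mul_smul] at he
        have := MulAction.injective _ he
        exact (hx2 c (by rw [hl]; exact List.mem_cons_self ..)).2 ⟨x.2.1, this⟩
    · intro a ha
      simp only [cod, List.mem_cons, List.mem_append] at ha
      rcases ha with rfl | ha | ha
      · exact fun h' => hf (hK' _ _ h')
      · unfold sm at ha
        rw [List.mem_map] at ha
        obtain ⟨c, hc, rfl⟩ := ha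
        exact fun h' => (hx2 c hc).1 (hK' _ _ h')
      · exact ih2 a ha

private theorem codInj (K : Set C) (f : C) (rp : G → G) (hrp : IsRp f rp) (d d' : G)
    (n n' : ℤ) (u : List (List (C × ℤ) × G × ℤ)) :
    ∀ u' : List (List (C × ℤ) × G × ℤ), (∀ x ∈ u, IsLet f K rp x) →
      (∀ x ∈ u', IsLet f K rp x) → cod f d n u = cod f d' n' u' → d = d' ∧ n = n' ∧ u = u' := by
  induction u with
  | nil =>
    intro u' _ _ he
    cases u' with
    | nil =>
      simp only [cod, Prod.mk.injEq, List.cons.injEq] at he
      exact ⟨he.2, he.1.1.2, rfl⟩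
    | cons x' u' =>
      exfalso
      obtain ⟨m, L, hL⟩ := codHead f d' n' u'
      simp only [cod, Prod.mk.injEq, List.cons.injEq] at he
      have := he.1.2
      rw [hL] at this
      simp at this
  | cons x u ih =>
    intro u' hu hu' he
    cases u' with
    | nil =>
      exfalso
      obtain ⟨m, L, hL⟩ := codHead f d n u
      simp only [cod, Prod.mk.injEq, List.cons.injEq] at he
      have := he.1.2
      rw [hL] at this
      simp at this
    | cons x' u' =>
      obtain ⟨m, L, hL⟩ := codHead f d n u
      obtain ⟨m', L', hL'⟩ := codHead f d' n' u'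
      obtain ⟨hx1, hx2, hx3, hx4⟩ := hu x (List.mem_cons_self ..)
      obtain ⟨hx1', hx2', hx3', hx4'⟩ := hu' x' (List.mem_cons_self ..)
      simp only [cod, Prod.mk.injEq, List.cons.injEq] at he
      obtain ⟨⟨⟨_, hm⟩, ht⟩, hg⟩ := he
      set h := (cod f d n u).2 with hh
      set h' := (cod f d' n' u').2 with hh'
      rw [hL, hL'] at ht
      have key := codSplit (fun a : C × ℤ => a.1 ∉ MulAction.orbit G f) (sm h x.1) (sm h' x'.1)
        L L' (h • f, m) (h' • f, m') ?_ ?_ ?_ ?_ ht
      · obtain ⟨k1, k2⟩ := key
        have hLL : (cod f d n u).1 = (cod f d' n' u').1 := by rw [hL, hL', k2]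
        simp only [List.cons.injEq, Prod.mk.injEq] at k2
        have hst : h⁻¹ * h' ∈ MulAction.stabilizer G f := by
          rw [MulAction.mem_stabilizer_iff, mul_smul, ← k2.1.1, inv_smul_smul]
        have hgg : x.2.1 = (h⁻¹ * h') * x'.2.1 := by
          rw [mul_assoc, ← hg, inv_mul_cancel_left]
        have hg2 : x.2.1 = x'.2.1 := by
          rw [← hx3, hgg, hrp.eq _ hst, hx3']
        have hh2 : h = h' := by
          rw [hg2] at hg
          exact mul_right_cancel hg
        have hl2 : x.1 = x'.1 := by
          rw [← hh2] at k1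
          exact codSmInj h k1
        obtain ⟨e1, e2, e3⟩ := ih u' (fun y hy => hu y (List.mem_cons_of_mem _ hy))
          (fun y hy => hu' y (List.mem_cons_of_mem _ hy)) (Prod.ext hLL hh2)
        refine ⟨e1, e2, ?_⟩
        rw [e3]
        congr 1
        exact Prod.ext hl2 (Prod.ext hg2 hm)
      · intro a ha
        unfold sm at ha
        rw [List.mem_map] at ha
        obtain ⟨c, hc, rfl⟩ := ha
        rintro ⟨q, hq⟩
        simp only at hq
        refine (hx2 c hc).2 ⟨h⁻¹ * q, ?_⟩
        simp only
        rw [mul_smul, hq, inv_smul_smul]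
      · intro a ha
        unfold sm at ha
        rw [List.mem_map] at ha
        obtain ⟨c, hc, rfl⟩ := ha
        rintro ⟨q, hq⟩
        simp only at hq
        refine (hx2' c hc).2 ⟨h'⁻¹ * q, ?_⟩
        simp only
        rw [mul_smul, hq, inv_smul_smul]
      · exact fun hn => hn ⟨h, rfl⟩
      · exact fun hn => hn ⟨h', rfl⟩

end Cod

/-- C7: the combinatorics of the codes. -/
theorem cod_all : S_cod := by
  intro G C _ _ K f rp hrp hK hf
  refine ⟨fun d n u hu => codCh K f rp hK hf d n u hu, ?_⟩
  intro d d' n n' u u' _ _ hu hu' he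
  exact codInj K f rp hrp d d' n n' u u' hu hu' he

end Pool.Agent.Cx2
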