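import Pool.Agent.Lib.MP_8f66f0_al_Cx.Fml

/-! C8 (Frm). The formula. (helper36) -/

set_option autoImplicit false

namespace Pool.Agent.Cx2

open Pool.Agent.Wald Pool.Agent.Hier

section

variable {G V C : Type} [Group G] [MulAction G V] [MulAction G C] (X : Cx G V C)
  (k : Type) [CommRing k]

private theorem frm_en (f : C) (d : G) (n : ℤ) (u : List (List (C × ℤ) × G × ℤ)) (o : V) :
    X.en o (cod f d n u).1 = (cod f d n u).2 • X.bv f := by
  cases u with
  | nil => exact X.bv_smul d f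
  | cons x u => exact X.bv_smul _ f

private theorem frm_main (h1 : S_pp) (γ : X.Geo) (f : C) (d : G) (n : ℤ)
    (hd : d ∈ MulAction.stabilizer G f) (u : List (List (C × ℤ) × G × ℤ)) :
    Cx.wo k f γ d n u * (X.pa k (X.r f) - 1) =
      X.io k (Cx.PP k γ (X.bv f) (cod f d n u).1) * X.sg k (cod f d n u).2 := by
  obtain ⟨hc, ha, he, hs, hγ, -, -⟩ := h1 G V C X γ k
  have hio : ∀ m : ℤ, X.pa k (X.r f ^ m) * (X.pa k (X.r f) - 1) =
      X.io k (MonoidAlgebra.of k _ (X.r f ^ m) * (MonoidAlgebra.of k _ (X.r f) - 1)) := by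
    intro m
    rw [map_mul, map_sub, map_one, fml_io_of, fml_io_of]
  have hac : ∀ (g : G) (m : ℤ), X.ac k g (MonoidAlgebra.of k _ (X.r f ^ m) *
      (MonoidAlgebra.of k _ (X.r f) - 1)) = MonoidAlgebra.of k _ (X.r (g • f) ^ m) *
        (MonoidAlgebra.of k _ (X.r (g • f)) - 1) := by
    intro g m
    rw [map_mul, map_sub, map_one, fml_ac_of, fml_ac_of, map_zpow, X.φ_r]
  induction u with
  | nil =>
    have e1 : Cx.wo k f γ d n [] * (X.pa k (X.r f) - 1) =
        X.sg k d * (X.pa k (X.r f ^ n) * (X.pa k (X.r f) - 1)) := by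
      unfold Cx.wo
      rw [show wd (Cx.lv k f γ) [] = 1 from rfl, mul_one, mul_assoc]
    rw [e1, hio, fml_sg_io, hac]
    have e2 : (cod f d n []) = ([(d • f, n)], d) := rfl
    rw [e2, hc]
    have e3 : Cx.PP k γ (X.bv f) [] = 1 := rfl
    have e4 : X.en (X.bv f) ([] : List (C × ℤ)) = X.bv f := rfl
    rw [e3, e4, X.bv_smul, fml_stab_bv X f d hd, hγ, map_one, one_mul, one_mul]
  | cons x u ih =>
    obtain ⟨l, g, m⟩ := x
    set L' := (cod f d n u).1 with hL'
    set h := (cod f d n u).2 with hh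
    have e1 : cod f d n ((l, g, m) :: u) = ((((h * g) • f, m) :: (sm h l ++ L')), h * g) := rfl
    have e2 : Cx.wo k f γ d n ((l, g, m) :: u) * (X.pa k (X.r f) - 1) =
        Cx.wo k f γ d n u * (X.pa k (X.r f) - 1) *
          (X.io k (Cx.PP k γ (X.bv f) l *
            MonoidAlgebra.of k _ (γ.γ (X.en (X.bv f) l) (g • X.bv f))) *
          (X.sg k g * (X.pa k (X.r f ^ m) * (X.pa k (X.r f) - 1)))) := by
      unfold Cx.wo
      rw [show wd (Cx.lv k f γ) ((l, g, m) :: u) = wd (Cx.lv k f γ) u *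
        Cx.lv k f γ (l, g, m) from rfl]
      unfold Cx.lv
      rw [map_mul, fml_io_of]
      simp only [mul_assoc]
    rw [e2, ih, hio, fml_sg_io, hac]
    have e3 : ∀ a b c : MonoidAlgebra k X.FG,
        X.io k a * X.sg k h * (X.io k b * (X.io k c * X.sg k g)) =
        X.io k (a * X.ac k h b * X.ac k h c) * X.sg k (h * g) := by
      intro a b c
      rw [map_mul, map_mul, fml_sg_mul]
      have f1 := fml_sg_io X k h b
      have f2 := fml_sg_io X k h c
      calc X.io k a * X.sg k h * (X.io k b * (X.io k c * X.sg k g))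
          = X.io k a * (X.sg k h * X.io k b) * (X.io k c * X.sg k g) := by
            simp only [mul_assoc]
        _ = X.io k a * (X.io k (X.ac k h b)) * (X.sg k h * X.io k c) * X.sg k g := by
            rw [f1]
            simp only [mul_assoc]
        _ = _ := by
            rw [f2]
            simp only [mul_assoc]
    rw [e3, e1]
    congr 2
    have e4 : X.en (X.bv f) (sm h l ++ L') = h • X.en (X.bv f) l := by
      rw [he, hL', frm_en, ← hh]
      exact (hs h (X.bv f) l).2
    have e5 : Cx.PP k γ (X.bv f) (sm h l ++ L') =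
        Cx.PP k γ (X.bv f) L' * X.ac k h (Cx.PP k γ (X.bv f) l) := by
      rw [ha, (hs h (X.bv f) l).1, hL', frm_en, ← hh]
    have e6 : γ.γ (h • X.en (X.bv f) l) ((h * g) • X.bv f) =
        X.φ h (γ.γ (X.en (X.bv f) l) (g • X.bv f)) := by
      rw [mul_smul, γ.smul]
    have e7 : X.ac k h (MonoidAlgebra.of k _ (X.r (g • f) ^ m) *
        (MonoidAlgebra.of k _ (X.r (g • f)) - 1)) = MonoidAlgebra.of k _ (X.r ((h * g) • f) ^ m) *
        (MonoidAlgebra.of k _ (X.r ((h * g) • f)) - 1) := by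
      rw [map_mul, map_sub, map_one, fml_ac_of, fml_ac_of, map_zpow, X.φ_r, mul_smul]
    rw [hc, e4, e5, X.bv_smul, e6, e7, map_mul, fml_ac_of]
    simp only [mul_assoc]

end

theorem frm (h1 : S_pp) (_h2 : S_hh) : S_frm := by
  intro G V C _ _ _ X γ k _ f d n u hd
  exact frm_main X k h1 γ f d n hd u

end Pool.Agent.Cx2
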