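import Pool.Agent.Lib.MP_8f66f0_al_Cx.SpecA

/-! A2: two geodesics continued by the same walk. -/

set_option autoImplicit false

namespace Pool.Agent.Cx2

section

variable {G V C : Type} [Group G] [MulAction G V] [MulAction G C] (X : Cx G V C)

/-- The last edge of a walk of positive length. -/
private theorem gd_last {o u : V} (p : X.Γ.Walk o u) : ∀ d : ℕ, p.length = d + 1 →
    ∃ (w : V) (q : X.Γ.Walk o w), X.Γ.Adj w u ∧ q.length = d ∧ X.val p = X.val q * X.ε w u := by
  induction p with
  | nil =>
    intro d h
    exact absurd h (Nat.succ_ne_zero d).symm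
  | cons h' p ih =>
    intro d h
    rw [SimpleGraph.Walk.length_cons] at h
    rcases Nat.eq_zero_or_pos d with hd | hd
    · subst hd
      have h0 : p.length = 0 := by omega
      have he := SimpleGraph.Walk.eq_of_length_eq_zero h0
      subst he
      have hp : p = SimpleGraph.Walk.nil := (SimpleGraph.Walk.length_eq_zero_iff.1 h0).eq_nil
      refine ⟨_, SimpleGraph.Walk.nil, h', rfl, ?_⟩
      rw [hp, Cx.val_cons, Cx.val_nil, Cx.val_nil, mul_one, one_mul]
    · obtain ⟨e, rfl⟩ : ∃ e, d = e + 1 := ⟨d - 1, by omega⟩
      obtain ⟨w, q, hw, hq, hv⟩ := ih e (by omega)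
      refine ⟨w, SimpleGraph.Walk.cons h' q, hw, ?_, ?_⟩
      · rw [SimpleGraph.Walk.length_cons, hq]
      · rw [Cx.val_cons, Cx.val_cons, hv, mul_assoc]

private theorem gd_tri_perm {c : C} {a b m : V} (h : X.IsTri c a b m) : X.IsTri c b m a := by
  unfold Cx.IsTri at *
  tauto

private theorem gd_sq_perm {c : C} {a b m n : V} (h : X.IsSq c a b m n) : X.IsSq c m b a n := by
  unfold Cx.IsSq at *
  tauto

private theorem gd_tri_adj {c : C} {a b m : V} (h : X.IsTri c a b m) : X.Γ.Adj b m := by
  have hb := X.bd_adj c
  rcases h with ⟨h1, h2 | h2⟩ | ⟨h1, h2 | h2⟩ | ⟨h1, h2 | h2⟩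
  all_goals
    rw [h1, h2] at hb
    simp only [List.cons_append, List.nil_append, List.isChain_cons_cons] at hb
  · exact hb.2.1
  · exact hb.2.1.symm
  · exact hb.2.2.1.symm
  · exact hb.1
  · exact hb.2.2.1
  · exact hb.1.symm

end

theorem gd (h : S_mv) : S_gd := by
  intro G V C _ _ _ X hW R _ j B hB n hL
  obtain ⟨-, hsq, htri⟩ := h G V C X R j B hB n hL
  have key : ∀ d : ℕ, ∀ (o u v : V) (p p' : X.Γ.Walk o u) (y : X.Γ.Walk u v),
      X.Γ.dist o u = d → p.length = d → p'.length = d → p.length + y.length = n →
      (j (X.val p * X.val y) ∈ B o v ↔ j (X.val p' * X.val y) ∈ B o v) := by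
    intro d
    induction d with
    | zero =>
      intro o u v p p' y _ hp hp' _
      have he := SimpleGraph.Walk.eq_of_length_eq_zero hp
      subst he
      rw [(SimpleGraph.Walk.length_eq_zero_iff.1 hp).eq_nil,
        (SimpleGraph.Walk.length_eq_zero_iff.1 hp').eq_nil]
    | succ d ih =>
      intro o u v p p' y hd hp hp' hn
      obtain ⟨w, q, hw, hq, hv⟩ := gd_last X p d hp
      obtain ⟨w', q', hw', hq', hv'⟩ := gd_last X p' d hp'
      have hdist : ∀ {a : V} (r : X.Γ.Walk o a), X.Γ.Adj a u → r.length = d →
          X.Γ.dist o a = d := by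
        intro a r ha hr
        have h1 : X.Γ.dist o a ≤ d := by
          rw [← hr]
          exact SimpleGraph.dist_le r
        obtain ⟨s, hs⟩ := X.conn.exists_walk_length_eq_dist o a
        have h2 : X.Γ.dist o u ≤ (s.append (SimpleGraph.Walk.cons ha .nil)).length :=
          SimpleGraph.dist_le _
        rw [SimpleGraph.Walk.length_append, SimpleGraph.Walk.length_cons,
          SimpleGraph.Walk.length_nil, hs] at h2
        omega
      have hdw := hdist q hw hq
      have hdw' := hdist q' hw' hq'
      by_cases hww : w = w'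
      · subst hww
        have h1 := ih o w v q q' (SimpleGraph.Walk.cons hw y) hdw hq hq' (by
          rw [SimpleGraph.Walk.length_cons]
          omega)
        rw [Cx.val_cons, ← mul_assoc, ← mul_assoc, ← hv, ← hv'] at h1
        exact h1
      · -- continuation of a geodesic to `x` by `w` and by `w'`
        have hstep : ∀ (x : V) (g : X.Γ.Walk o x), g.length + 1 = d →
            ∀ (a : V) (r : X.Γ.Walk o a) (_ : X.Γ.Adj x a) (ha : X.Γ.Adj a u), r.length = d →
            (j (X.val r * X.ε a u * X.val y) ∈ B o v ↔
              j (X.val g * X.ε x a * X.ε a u * X.val y) ∈ B o v) := by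
          intro x g hg a r hxa ha hr
          have h1 := ih o a v r (g.append (SimpleGraph.Walk.cons hxa .nil))
            (SimpleGraph.Walk.cons ha y) (hdist r ha hr) hr (by
              rw [SimpleGraph.Walk.length_append, SimpleGraph.Walk.length_cons,
                SimpleGraph.Walk.length_nil]
              omega) (by
              rw [SimpleGraph.Walk.length_cons]
              omega)
          rw [Cx.val_append, Cx.val_cons, Cx.val_cons, Cx.val_nil, mul_one, ← mul_assoc,
            ← mul_assoc] at h1
          exact h1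
        have hDw : X.Dn o u w := ⟨hw.symm, by omega⟩
        have hDw' : X.Dn o u w' := ⟨hw'.symm, by omega⟩
        rw [hv, hv']
        rcases hW.qc o u w w' hDw hDw' hww with ⟨c, x, hc⟩ | ⟨c, c', x, hc, hc'⟩
        · obtain ⟨hs, _, _, hx, hx', _⟩ := hc
          obtain ⟨g, hg⟩ := X.conn.exists_walk_length_eq_dist o x
          have hxd := hx.2
          have e1 := hstep x g (by omega) w q hx.1.symm hw hq
          have e2 := hstep x g (by omega) w' q' hx'.1.symm hw' hq'
          have e3 := hsq o x w u w' v c g y (gd_sq_perm X hs) hx.1.symm hw hx'.1.symm hw' (by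
            omega)
          exact e1.trans (e3.trans e2.symm)
        · obtain ⟨ht, _, _, _⟩ := hc
          obtain ⟨ht', hx, hx', _⟩ := hc'
          obtain ⟨g, hg⟩ := X.conn.exists_walk_length_eq_dist o x
          have hxd := hx.2
          have e1 := hstep x g (by omega) w q hx.1.symm hw hq
          have e2 := hstep x g (by omega) w' q' hx'.1.symm hw' hq'
          have e3 := htri o x w w' u v c' c g y ht' (gd_tri_perm X ht) hx.1.symm hw
            hx'.1.symm hw' (gd_tri_adj X ht') (by omega)
          exact e1.trans (e3.trans e2.symm)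
  intro o u v p p' y hp hp' hn
  exact key _ o u v p p' y rfl hp hp' hn

end Pool.Agent.Cx2
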