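import Pool.Agent.Lib.MP_8f66f0_al_Cx.SpecA

/-! Generation: all walks are in `B`. -/

set_option autoImplicit false

namespace Pool.Agent.Cx2

private theorem gen_split {G V C : Type} [Group G] [MulAction G V] [MulAction G C]
    (X : Cx G V C) (o : V) : ∀ {w v : V} (f : X.Γ.Walk w v) (p0 : X.Γ.Walk o w),
    p0.length = X.Γ.dist o w → (p0.length + f.length = X.Γ.dist o v) ∨
      ∃ (u u' : V) (p : X.Γ.Walk o u) (_ : X.Γ.Adj u u') (y : X.Γ.Walk u' v),
        p.length = X.Γ.dist o u ∧ X.Γ.dist o u' ≠ X.Γ.dist o u + 1 ∧
        X.val p * (X.ε u u' * X.val y) = X.val p0 * X.val f ∧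
        p.length + 1 + y.length = p0.length + f.length := by
  intro w v f
  induction f with
  | nil => exact fun p0 h0 => Or.inl (by simpa using h0)
  | @cons w w' v h f ih =>
    intro p0 h0
    by_cases hd : X.Γ.dist o w' = X.Γ.dist o w + 1
    · have hl : (p0.append (SimpleGraph.Walk.cons h SimpleGraph.Walk.nil)).length =
          X.Γ.dist o w' := by
        rw [SimpleGraph.Walk.length_append, h0, hd]
        rfl
      rcases ih (p0.append (SimpleGraph.Walk.cons h SimpleGraph.Walk.nil)) hl with h1 | h1
      · left
        rw [← h1, SimpleGraph.Walk.length_append, SimpleGraph.Walk.length_cons,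
          SimpleGraph.Walk.length_cons, SimpleGraph.Walk.length_nil]
        omega
      · right
        obtain ⟨u, u', p, hu, y, hp, hne, hv, hlen⟩ := h1
        refine ⟨u, u', p, hu, y, hp, hne, ?_, ?_⟩
        · rw [hv, X.val_append, X.val_cons, X.val_nil, X.val_cons, mul_one, mul_assoc]
        · rw [hlen, SimpleGraph.Walk.length_append, SimpleGraph.Walk.length_cons,
            SimpleGraph.Walk.length_cons, SimpleGraph.Walk.length_nil]
          omega
    · right
      refine ⟨w, w', p0, h, f, h0, hd, ?_, ?_⟩
      · rw [X.val_cons]
      · rw [SimpleGraph.Walk.length_cons]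
        omega

theorem gen (h1 : S_mv) (h2 : S_gd) : S_gen := by
  intro G V C _ _ _ X hW R _ j B hB
  have main : ∀ n : ℕ, X.Lt j B n := by
    intro n
    induction n with
    | zero => exact fun o v p hp => absurd hp (Nat.not_lt_zero _)
    | succ n ih =>
      intro o v f hf
      rcases Nat.lt_succ_iff_lt_or_eq.1 hf with hf | hf
      · exact ih o v f hf
      · rcases gen_split X o f SimpleGraph.Walk.nil (by
          rw [SimpleGraph.Walk.length_nil, SimpleGraph.dist_self]) with hg | hg
        · rw [SimpleGraph.Walk.length_nil, zero_add] at hg
          obtain ⟨p', hp', hp'B⟩ := hB.geo o v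
          have h := h2 G V C X hW R j B hB n ih o v v f p' SimpleGraph.Walk.nil hg hp' (by
            rw [SimpleGraph.Walk.length_nil]; omega)
          rw [X.val_nil, mul_one, mul_one] at h
          exact h.2 hp'B
        · obtain ⟨u, u', p, hu, y, hp, hne, hv, hlen⟩ := hg
          rw [X.val_nil, one_mul] at hv
          rw [SimpleGraph.Walk.length_nil, zero_add] at hlen
          rw [← hv, ← X.val_cons hu y]
          have hlc : p.length + (SimpleGraph.Walk.cons hu y).length = n := by
            rw [SimpleGraph.Walk.length_cons]; omega
          obtain ⟨q', hq'⟩ := X.conn.exists_walk_length_eq_dist o u'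
          have b1 : X.Γ.dist o u' ≤ X.Γ.dist o u + 1 := by
            have := SimpleGraph.dist_le (p.append (SimpleGraph.Walk.cons hu SimpleGraph.Walk.nil))
            rw [SimpleGraph.Walk.length_append, SimpleGraph.Walk.length_cons,
              SimpleGraph.Walk.length_nil] at this
            omega
          have b2 : X.Γ.dist o u ≤ X.Γ.dist o u' + 1 := by
            have := SimpleGraph.dist_le
              (q'.append (SimpleGraph.Walk.cons hu.symm SimpleGraph.Walk.nil))
            rw [SimpleGraph.Walk.length_append, SimpleGraph.Walk.length_cons,
              SimpleGraph.Walk.length_nil] at this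
            omega
          by_cases hc : X.Γ.dist o u' + 1 = X.Γ.dist o u
          · have hl : (q'.append (SimpleGraph.Walk.cons hu.symm SimpleGraph.Walk.nil)).length =
                X.Γ.dist o u := by
              rw [SimpleGraph.Walk.length_append, SimpleGraph.Walk.length_cons,
                SimpleGraph.Walk.length_nil]
              omega
            have h := h2 G V C X hW R j B hB n ih o u v p _ (SimpleGraph.Walk.cons hu y) hp hl hlc
            refine h.2 ?_
            have e : X.val (q'.append (SimpleGraph.Walk.cons hu.symm SimpleGraph.Walk.nil)) *
                X.val (SimpleGraph.Walk.cons hu y) = X.val (q'.append y) := by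
              rw [X.val_append, X.val_append, X.val_cons, X.val_cons, X.val_nil, X.ε_inv u u']
              group
            rw [e]
            refine ih o v _ ?_
            rw [SimpleGraph.Walk.length_append]
            omega
          · have hc' : X.Γ.dist o u = X.Γ.dist o u' := by omega
            obtain ⟨c, x, hT, hx, hx', _⟩ := hW.tc o u u' hu hc'
            obtain ⟨hxa, hxd⟩ := hx
            obtain ⟨hxa', hxd'⟩ := hx'
            obtain ⟨q, hq⟩ := X.conn.exists_walk_length_eq_dist o x
            have hl : (q.append (SimpleGraph.Walk.cons hxa.symm SimpleGraph.Walk.nil)).length =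
                X.Γ.dist o u := by
              rw [SimpleGraph.Walk.length_append, SimpleGraph.Walk.length_cons,
                SimpleGraph.Walk.length_nil]
              omega
            have h := h2 G V C X hW R j B hB n ih o u v p _ (SimpleGraph.Walk.cons hu y) hp hl hlc
            refine h.2 ?_
            have e : X.val (q.append (SimpleGraph.Walk.cons hxa.symm SimpleGraph.Walk.nil)) *
                X.val (SimpleGraph.Walk.cons hu y) =
                X.val q * X.ε x u * X.ε u u' * X.val y := by
              rw [X.val_append, X.val_cons, X.val_cons, X.val_nil]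
              group
            rw [e]
            refine ((h1 G V C X R j B hB n ih).1 o x u u' v c q y hT hxa.symm hu hxa'.symm
              (by omega)).2 ?_
            have e' : X.val q * X.ε x u' * X.val y =
                X.val (q.append (SimpleGraph.Walk.cons hxa'.symm y)) := by
              rw [X.val_append, X.val_cons, mul_assoc]
            rw [e']
            refine ih o v _ ?_
            rw [SimpleGraph.Walk.length_append, SimpleGraph.Walk.length_cons]
            omega
  intro o v p
  exact main (p.length + 1) o v p (Nat.lt_succ_self _)

end Pool.Agent.Cx2
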