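import Pool.Agent.Lib.MP_8f66f0_al_Cx.SpecA

/-! Equivariant geodesics. -/

set_option autoImplicit false

namespace Pool.Agent.Cx2

section

variable {G V C : Type} [Group G] [MulAction G V] [MulAction G C] (X : Cx G V C)

private theorem geo_dist_le (g : G) (u v : V) : X.Γ.dist (g • u) (g • v) ≤ X.Γ.dist u v := by
  obtain ⟨p, hp⟩ := X.conn.exists_walk_length_eq_dist u v
  rw [← hp, ← X.sw_length g p]
  exact X.Γ.dist_le _

private theorem geo_dist (g : G) (u v : V) : X.Γ.dist (g • u) (g • v) = X.Γ.dist u v := by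
  refine le_antisymm (geo_dist_le X g u v) ?_
  have h := geo_dist_le X g⁻¹ (g • u) (g • v)
  rwa [inv_smul_smul, inv_smul_smul] at h

private theorem geo_Dn (g : G) {o v u : V} (h : X.Dn o v u) : X.Dn (g • o) (g • v) (g • u) :=
  ⟨X.adj_smul g _ _ h.1, by rw [geo_dist, geo_dist]; exact h.2⟩

private theorem geo_IsTri (g : G) {c : C} {a b m : V} (h : X.IsTri c a b m) :
    X.IsTri (g • c) (g • a) (g • b) (g • m) := by
  unfold Cx.IsTri at h ⊢
  rw [X.bv_smul, X.rs_smul]
  rcases h with ⟨h2, h3 | h3⟩ | ⟨h2, h3 | h3⟩ | ⟨h2, h3 | h3⟩ <;> rw [h2, h3] <;>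
    simp only [List.map_cons, List.map_nil, true_or, or_true, and_true]

private theorem geo_IsSq (g : G) {c : C} {a b m n : V} (h : X.IsSq c a b m n) :
    X.IsSq (g • c) (g • a) (g • b) (g • m) (g • n) := by
  unfold Cx.IsSq at h ⊢
  rw [X.bv_smul, X.rs_smul]
  rcases h with ⟨h2, h3 | h3⟩ | ⟨h2, h3 | h3⟩ | ⟨h2, h3 | h3⟩ | ⟨h2, h3 | h3⟩ <;> rw [h2, h3] <;>
    simp only [List.map_cons, List.map_nil, true_or, or_true, and_true]

private theorem geo_Top (g : G) {o v u u' : V} {c : C} (h : X.Top o c v u u') :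
    X.Top (g • o) (g • c) (g • v) (g • u) (g • u') := by
  rcases h with ⟨h1, h2, h3, h4⟩ | ⟨x, h1, h2, h3, h4, h5, h6⟩
  · exact Or.inl ⟨geo_IsTri X g h1, geo_Dn X g h2, geo_Dn X g h3,
      fun h => h4 (smul_left_cancel g h)⟩
  · exact Or.inr ⟨g • x, geo_IsSq X g h1, geo_Dn X g h2, geo_Dn X g h3, geo_Dn X g h4,
      geo_Dn X g h5, fun h => h6 (smul_left_cancel g h)⟩

private theorem geo_corner {o v u u' : V} {c : C} (h : X.Top o c v u u') :
    u = X.bv c ∨ u ∈ X.rs c := by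
  rcases h with ⟨h1, -⟩ | ⟨x, h1, -⟩
  · rcases h1 with ⟨h2, h3 | h3⟩ | ⟨h2, h3 | h3⟩ | ⟨h2, h3 | h3⟩ <;> rw [h2, h3] <;> simp
  · rcases h1 with ⟨h2, h3 | h3⟩ | ⟨h2, h3 | h3⟩ | ⟨h2, h3 | h3⟩ | ⟨h2, h3 | h3⟩ <;>
      rw [h2, h3] <;> simp

private theorem geo_fix (hX : X.Met) (g : G) {o v u : V} (ho : g • o = o) (hv : g • v = v)
    (hu : X.Dn o v u) : g • u = u := by
  by_contra hne
  have h1 := geo_Dn X g hu
  rw [ho, hv] at h1
  have h2 := geo_Dn X g h1
  rw [ho, hv] at h2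
  obtain ⟨c, hc⟩ := hX.top o v u (g • u) hu h1 (fun h => hne h.symm)
  have h3 := geo_Top X g hc
  rw [ho, hv] at h3
  have h4 : g • c = c := (hX.top_uniq o v _ _ _ _ _ _ hc h3).symm
  rcases geo_corner X hc with h5 | h5
  · apply hne
    rw [h5, ← X.bv_smul, h4]
  · have h6 := X.rs_smul g c
    rw [h4] at h6
    have h7 : (X.rs c).map (fun v => g • v) = (X.rs c).map id := by
      rw [List.map_id]
      exact h6.symm
    exact hne (List.map_inj_left.1 h7 u h5)

private theorem geo_walk (hX : X.Met) (g : G) : ∀ {o v : V} (p : X.Γ.Walk o v),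
    p.length = X.Γ.dist o v → g • o = o → g • v = v → X.φ g (X.val p) = X.val p := by
  intro o v p
  induction p with
  | nil => intro _ _ _; exact map_one _
  | @cons u v' w h p ih =>
    intro hl ho hw
    rw [SimpleGraph.Walk.length_cons] at hl
    have h1 : X.Γ.dist v' w ≤ p.length := X.Γ.dist_le p
    have h2 : X.Γ.dist u w ≤ X.Γ.dist v' w + 1 := by
      obtain ⟨q, hq⟩ := X.conn.exists_walk_length_eq_dist v' w
      have := X.Γ.dist_le (SimpleGraph.Walk.cons h q)
      rw [SimpleGraph.Walk.length_cons, hq] at this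
      exact this
    have h3 : p.length = X.Γ.dist v' w := by omega
    have h4 : g • v' = v' := by
      refine geo_fix X hX g hw ho ⟨h, ?_⟩
      rw [X.Γ.dist_comm (u := w) (v := v'), X.Γ.dist_comm (u := w) (v := u)]
      omega
    rw [Cx.val_cons, map_mul, X.φ_ε, ho, h4, ih h3 h4 hw]

private theorem geo_tr (g : G) {u₀ v₀ u v : V} (h1 : g • u₀ = u) (h2 : g • v₀ = v)
    (p : X.Γ.Walk u₀ v₀) (hp : p.length = X.Γ.dist u₀ v₀) :
    ∃ q : X.Γ.Walk u v, q.length = X.Γ.dist u v ∧ X.val q = X.φ g (X.val p) := by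
  subst h1 h2
  exact ⟨X.sw g p, by rw [X.sw_length, hp, geo_dist], X.val_sw g p⟩

end

theorem geo : S_geo := by
  intro G V C _ _ _ X hX
  classical
  have hW : ∀ x : V × V, ∃ p : X.Γ.Walk x.1 x.2, p.length = X.Γ.dist x.1 x.2 :=
    fun x => X.conn.exists_walk_length_eq_dist x.1 x.2
  choose W hWl using hW
  obtain ⟨rep, hr1, hr2⟩ : ∃ rep : V × V → V × V, (∀ x, ∃ g : G, g • rep x = x) ∧
      ∀ (g : G) x, rep (g • x) = rep x := by
    refine ⟨fun x => (Quotient.mk (MulAction.orbitRel G (V × V)) x).out, fun x => ?_,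
      fun g x => ?_⟩
    · have h1 : (MulAction.orbitRel G (V × V))
          (Quotient.mk (MulAction.orbitRel G (V × V)) x).out x := Quotient.mk_out x
      obtain ⟨g, hg⟩ := MulAction.mem_orbit_iff.1 (MulAction.orbitRel_apply.1 h1)
      refine ⟨g⁻¹, ?_⟩
      change g⁻¹ • (Quotient.mk (MulAction.orbitRel G (V × V)) x).out = x
      rw [← hg, inv_smul_smul]
    · have h1 : Quotient.mk (MulAction.orbitRel G (V × V)) (g • x) =
          Quotient.mk (MulAction.orbitRel G (V × V)) x :=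
        Quotient.sound (MulAction.orbitRel_apply.2 (MulAction.mem_orbit x g))
      change (Quotient.mk (MulAction.orbitRel G (V × V)) (g • x)).out = _
      rw [h1]
  choose elt helt using hr1
  refine ⟨⟨fun u v => X.φ (elt (u, v)) (X.val (W (rep (u, v)))), fun u v => ?_,
    fun g u v => ?_⟩⟩
  · have h1 := helt (u, v)
    exact geo_tr X _ (congrArg Prod.fst h1) (congrArg Prod.snd h1) _ (hWl _)
  · have h0 : (g • u, g • v) = g • (u, v) := rfl
    change X.φ (elt (g • u, g • v)) (X.val (W (rep (g • u, g • v)))) =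
      X.φ g (X.φ (elt (u, v)) (X.val (W (rep (u, v)))))
    have h1 := helt (g • (u, v))
    rw [hr2] at h1
    rw [h0, hr2]
    have h2 := helt (u, v)
    have h3 : ((elt (g • (u, v)))⁻¹ * (g * elt (u, v))) • rep (u, v) = rep (u, v) := by
      rw [mul_smul, mul_smul, h2]
      nth_rewrite 2 [← h1]
      rw [inv_smul_smul]
    have h4 := geo_walk X hX _ (W (rep (u, v))) (hWl _) (congrArg Prod.fst h3)
      (congrArg Prod.snd h3)
    rw [map_mul, map_mul, map_inv, MulAut.mul_apply, MulAut.mul_apply] at h4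
    have h5 := congrArg (X.φ (elt (g • (u, v)))) h4
    rw [MulAut.apply_inv_self] at h5
    exact h5.symm

end Pool.Agent.Cx2
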