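import Pool.Agent.Lib.MP_8f66f0_al_Cx.SpecC

/-! Part C4 (Hh), helper73: the algebra of `HH`. -/

set_option autoImplicit false

namespace Pool.Agent.Cx2

open Pool.Agent.Wald Pool.Agent.Hier

section

variable {G V C : Type} [Group G] [MulAction G V] [MulAction G C] (X : Cx G V C)
  (k : Type) [CommRing k]

private theorem hh_io_of (w : X.FG) : X.io k (MonoidAlgebra.of k _ w) = X.pa k w := by
  unfold Cx.io Cx.pa
  rw [MonoidAlgebra.mapDomainAlgHom_apply, MonoidAlgebra.of_apply, MonoidAlgebra.of_apply,
    MonoidAlgebra.mapDomain_single]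

private theorem hh_ac_of (g : G) (w : X.FG) :
    X.ac k g (MonoidAlgebra.of k _ w) = MonoidAlgebra.of k _ (X.φ g w) := by
  unfold Cx.ac
  rw [MonoidAlgebra.mapDomainAlgHom_apply, MonoidAlgebra.of_apply, MonoidAlgebra.of_apply,
    MonoidAlgebra.mapDomain_single]
  rfl

private theorem hh_sg_pa (g : G) (w : X.FG) :
    X.sg k g * X.pa k w = X.pa k (X.φ g w) * X.sg k g := by
  unfold Cx.sg Cx.pa
  rw [← map_mul, ← map_mul, SemidirectProduct.inl_aut, mul_assoc, ← map_mul, inv_mul_cancel,
    map_one, mul_one]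

private theorem hh_sg_io (g : G) (x : MonoidAlgebra k X.FG) :
    X.sg k g * X.io k x = X.io k (X.ac k g x) * X.sg k g := by
  induction x using MonoidAlgebra.induction_on with
  | of w => rw [hh_ac_of, hh_io_of, hh_io_of, hh_sg_pa]
  | add x y hx hy => rw [map_add, map_add, map_add, mul_add, add_mul, hx, hy]
  | smul r x hx => rw [map_smul, map_smul, map_smul, mul_smul_comm, smul_mul_assoc, hx]

open Classical in
/-- The coefficient of `s_g`. -/
private noncomputable def hh_cf (g : G) : MonoidAlgebra k X.HH →ₗ[k] MonoidAlgebra k X.FG :=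
  (Finsupp.lsum k fun h : X.HH =>
    if h.right = g then
      LinearMap.toSpanSingleton k _ (MonoidAlgebra.of k X.FG h.left)
    else 0) ∘ₗ (MonoidAlgebra.coeffLinearEquiv k).toLinearMap

open Classical in
private theorem hh_cf_of (g : G) (h : X.HH) : hh_cf X k g (MonoidAlgebra.of k _ h) =
    if h.right = g then MonoidAlgebra.of k X.FG h.left else 0 := by
  unfold hh_cf
  rw [LinearMap.comp_apply, MonoidAlgebra.of_apply, LinearEquiv.coe_coe,
    MonoidAlgebra.coeffLinearEquiv_apply, MonoidAlgebra.coeff_single, Finsupp.lsum_single]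
  split_ifs with h1
  · rw [LinearMap.toSpanSingleton_apply, one_smul]
  · rfl

open Classical in
private theorem hh_cf_io (g g' : G) (x : MonoidAlgebra k X.FG) :
    hh_cf X k g (X.io k x * X.sg k g') = if g' = g then x else 0 := by
  induction x using MonoidAlgebra.induction_on with
  | of w =>
    rw [hh_io_of]
    unfold Cx.pa Cx.sg
    rw [← map_mul, hh_cf_of]
    have h1 : ((SemidirectProduct.inl w : X.HH) * SemidirectProduct.inr g').right = g' := by
      rw [SemidirectProduct.mul_right, SemidirectProduct.right_inl, SemidirectProduct.right_inr,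
        one_mul]
    have h2 : ((SemidirectProduct.inl w : X.HH) * SemidirectProduct.inr g').left = w := by
      rw [SemidirectProduct.mul_left, SemidirectProduct.left_inl, SemidirectProduct.left_inr,
        map_one, mul_one]
    rw [h1, h2]
  | add x y hx hy =>
    rw [map_add, add_mul, map_add, hx, hy]
    split_ifs
    · rfl
    · rw [add_zero]
  | smul r x hx =>
    rw [map_smul, smul_mul_assoc, map_smul, hx]
    split_ifs
    · rfl
    · rw [smul_zero]

private theorem hh_ind {ι : Type} (P : ι → MonoidAlgebra k X.FG) (hP : LinearIndependent k P) :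
    LinearIndependent k fun p : ι × G => X.io k (P p.1) * X.sg k p.2 := by
  classical
  rw [linearIndependent_iff'] at hP ⊢
  intro s a hs p hp
  obtain ⟨L, g⟩ := p
  have h1 := congrArg (hh_cf X k g) hs
  rw [map_zero, map_sum] at h1
  have h2 : ∑ L ∈ (s.filter fun p => p.2 = g).image Prod.fst, a (L, g) • P L = 0 := by
    rw [Finset.sum_image, Finset.sum_filter]
    · refine Eq.trans (Finset.sum_congr rfl fun p _ => ?_) h1
      rw [map_smul, hh_cf_io]
      split_ifs with h3
      · subst h3
        rfl
      · rw [smul_zero]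
    · intro p hp q hq hpq
      have h3 := (Finset.mem_filter.1 (Finset.mem_coe.1 hp)).2
      have h4 := (Finset.mem_filter.1 (Finset.mem_coe.1 hq)).2
      exact Prod.ext hpq (h3.trans h4.symm)
  exact hP _ (fun L => a (L, g)) h2 L
    (Finset.mem_image.2 ⟨(L, g), Finset.mem_filter.2 ⟨hp, rfl⟩, rfl⟩)

end

theorem hh (h : S_indep) : S_hh := by
  intro G V C _ _ _ X γ k _ _
  refine ⟨hh_sg_io X k, ⟨?_, ?_⟩, ⟨?_, ?_⟩, hh_io_of X k, hh_ac_of X k, ?_⟩
  · unfold Cx.sg
    rw [map_one, map_one]
  · intro g g'
    unfold Cx.sg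
    rw [map_mul, map_mul]
  · unfold Cx.pa
    rw [map_one, map_one]
  · intro w w'
    unfold Cx.pa
    rw [map_mul, map_mul]
  · intro hI o
    exact hh_ind X k (fun L : {L : List (C × ℤ) // Ch L} => Cx.PP k γ o L.1)
      (h k X.E C X.r (Cx.gm γ o) hI)

end Pool.Agent.Cx2
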