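import Pool.Agent.Lib.MP_8f66f0_al_Cx.SpecA

/-! Part A1: three moves. -/

set_option autoImplicit false

namespace Pool.Agent.Cx2

section

variable {G V C : Type} [Group G] [MulAction G V] [MulAction G C] (X : Cx G V C)

/-- Walks with a given length and value. -/
private def mvP (k : ℕ) (u v : V) (w : X.FG) : Prop :=
  ∃ p : X.Γ.Walk u v, p.length = k ∧ X.val p = w

/-- `ℓ` is the boundary of `c` or its inverse. -/
private def mvL (c : C) (l : X.FG) : Prop := l = X.r c ∨ l = (X.r c)⁻¹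

variable {X}

private theorem mvP_mul {k l : ℕ} {u v w : V} {x y : X.FG} (hx : mvP X k u v x)
    (hy : mvP X l v w y) : mvP X (k + l) u w (x * y) := by
  obtain ⟨p, hp, rfl⟩ := hx
  obtain ⟨q, hq, rfl⟩ := hy
  exact ⟨p.append q, by rw [SimpleGraph.Walk.length_append, hp, hq], X.val_append p q⟩

private theorem mvP_ε {u v : V} (h : X.Γ.Adj u v) : mvP X 1 u v (X.ε u v) :=
  ⟨.cons h .nil, rfl, by rw [Cx.val_cons, Cx.val_nil, mul_one]⟩

private theorem mvP_zero {u v : V} {w : X.FG} (h : mvP X 0 u v w) : u = v ∧ w = 1 := by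
  obtain ⟨p, hp, rfl⟩ := h
  cases p with
  | nil => exact ⟨rfl, rfl⟩
  | cons h p => exact absurd hp (Nat.succ_ne_zero _)

private theorem mvL_inv {c : C} {l : X.FG} (h : mvL X c l) : mvL X c l⁻¹ := by
  rcases h with rfl | rfl
  · exact Or.inr rfl
  · left
    rw [inv_inv]

private theorem mv_r3 {c : C} {p q s : V} (hb : X.bv c = p) (hr : X.rs c = [q, s]) :
    X.r c = X.ε p q * (X.ε q s * X.ε s p) := by
  unfold Cx.r
  rw [hb, hr]
  rfl

private theorem mv_r4 {c : C} {p q s t : V} (hb : X.bv c = p) (hr : X.rs c = [q, s, t]) :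
    X.r c = X.ε p q * (X.ε q s * (X.ε s t * X.ε t p)) := by
  unfold Cx.r
  rw [hb, hr]
  rfl

private theorem mv_tri {c : C} {a b m : V} (h : X.IsTri c a b m) :
    (X.bv c = a ∧ ∃ l, mvL X c l ∧ X.ε a b * X.ε b m = l * X.ε a m) ∨
    (X.bv c = b ∧ ∃ l, mvL X c l ∧ X.ε a m = X.ε a b * l * X.ε b m) ∨
    (X.bv c = m ∧ ∃ l, mvL X c l ∧ X.ε a b * X.ε b m = X.ε a m * l) := by
  rcases h with ⟨hb, hr | hr⟩ | ⟨hb, hr | hr⟩ | ⟨hb, hr | hr⟩
  · refine Or.inl ⟨hb, _, Or.inl rfl, ?_⟩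
    rw [mv_r3 hb hr, X.ε_inv a m]
    group
  · refine Or.inl ⟨hb, _, Or.inr rfl, ?_⟩
    rw [mv_r3 hb hr, X.ε_inv b m, X.ε_inv a b]
    group
  · refine Or.inr (Or.inl ⟨hb, _, Or.inl rfl, ?_⟩)
    rw [mv_r3 hb hr, X.ε_inv a b, X.ε_inv b m]
    group
  · refine Or.inr (Or.inl ⟨hb, _, Or.inr rfl, ?_⟩)
    rw [mv_r3 hb hr, X.ε_inv a m]
    group
  · refine Or.inr (Or.inr ⟨hb, _, Or.inl rfl, ?_⟩)
    rw [mv_r3 hb hr, X.ε_inv a m]
    group
  · refine Or.inr (Or.inr ⟨hb, _, Or.inr rfl, ?_⟩)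
    rw [mv_r3 hb hr, X.ε_inv b m, X.ε_inv a b]
    group

private theorem mv_sq {c : C} {a b m n : V} (h : X.IsSq c a b m n) :
    (X.bv c = a ∧ ∃ l, mvL X c l ∧ X.ε a b * X.ε b m = l * (X.ε a n * X.ε n m)) ∨
    (X.bv c = b ∧ ∃ l, mvL X c l ∧ X.ε a n * X.ε n m = X.ε a b * l * X.ε b m) ∨
    (X.bv c = m ∧ ∃ l, mvL X c l ∧ X.ε a b * X.ε b m = X.ε a n * X.ε n m * l) ∨
    (X.bv c = n ∧ ∃ l, mvL X c l ∧ X.ε a b * X.ε b m = X.ε a n * l * X.ε n m) := by
  rcases h with ⟨hb, hr | hr⟩ | ⟨hb, hr | hr⟩ | ⟨hb, hr | hr⟩ | ⟨hb, hr | hr⟩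
  · refine Or.inl ⟨hb, _, Or.inl rfl, ?_⟩
    rw [mv_r4 hb hr, X.ε_inv a n, X.ε_inv n m]
    group
  · refine Or.inl ⟨hb, _, Or.inr rfl, ?_⟩
    rw [mv_r4 hb hr, X.ε_inv b m, X.ε_inv a b]
    group
  · refine Or.inr (Or.inl ⟨hb, _, Or.inr rfl, ?_⟩)
    rw [mv_r4 hb hr, X.ε_inv n m, X.ε_inv a n]
    group
  · refine Or.inr (Or.inl ⟨hb, _, Or.inl rfl, ?_⟩)
    rw [mv_r4 hb hr, X.ε_inv a b, X.ε_inv b m]
    group
  · refine Or.inr (Or.inr (Or.inl ⟨hb, _, Or.inl rfl, ?_⟩))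
    rw [mv_r4 hb hr, X.ε_inv n m, X.ε_inv a n]
    group
  · refine Or.inr (Or.inr (Or.inl ⟨hb, _, Or.inr rfl, ?_⟩))
    rw [mv_r4 hb hr, X.ε_inv b m, X.ε_inv a b]
    group
  · refine Or.inr (Or.inr (Or.inr ⟨hb, _, Or.inl rfl, ?_⟩))
    rw [mv_r4 hb hr, X.ε_inv a n, X.ε_inv n m]
    group
  · refine Or.inr (Or.inr (Or.inr ⟨hb, _, Or.inr rfl, ?_⟩))
    rw [mv_r4 hb hr, X.ε_inv b m, X.ε_inv a b]
    group

private theorem mv_sym1 {c : C} {a b m : V} (h : X.IsTri c a b m) : X.IsTri c a m b := by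
  unfold Cx.IsTri at *
  tauto

private theorem mv_sym2 {c : C} {a b m : V} (h : X.IsTri c a b m) : X.IsTri c b a m := by
  unfold Cx.IsTri at *
  tauto

variable {R : Type} [Ring R] {j : X.FG →* R} {B : V → V → AddSubgroup R}

private theorem mv_one (hB : X.Bd j B) (z : V) : (1 : R) ∈ B z z := by
  obtain ⟨p, hp, h⟩ := hB.geo z z
  rw [SimpleGraph.dist_self] at hp
  have h1 := (mvP_zero ⟨p, hp, rfl⟩).2
  rwa [h1, map_one] at h

private theorem mv_cell (hB : X.Bd j B) {c : C} {l : X.FG} (hl : mvL X c l) {o v : V} {a b : R}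
    (ha : a ∈ B o (X.bv c)) (hb : b ∈ B (X.bv c) v) : a * (j l - 1) * b ∈ B o v := by
  rcases hl with rfl | rfl
  · exact hB.cell o c v a b ha hb
  · exact hB.cell' o c v a b ha hb

/-- Crossing. -/
private theorem mv_cross (hB : X.Bd j B) {n : ℕ} (hn : X.Lt j B n) {c : C} {l : X.FG}
    (hl : mvL X c l) {o z v : V} (hz : X.bv c = z) {kx ky : ℕ} {x y : X.FG}
    (hx : mvP X kx o z x) (hy : mvP X ky z v y)
    (hk : (kx < n ∧ ky < n) ∨ kx = 0 ∨ ky = 0) :
    j (x * y) ∈ B o v ↔ j (x * l * y) ∈ B o v := by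
  subst hz
  rcases hk with ⟨h1, h2⟩ | rfl | rfl
  · obtain ⟨p, hp, rfl⟩ := hx
    obtain ⟨q, hq, rfl⟩ := hy
    have e : j (X.val p * l * X.val q) =
        j (X.val p) * (j l - 1) * j (X.val q) + j (X.val p * X.val q) := by
      simp only [map_mul]
      noncomm_ring
    rw [e]
    exact (AddSubgroup.add_mem_cancel_left _ (mv_cell hB hl (hn _ _ p (by omega))
      (hn _ _ q (by omega)))).symm
  · obtain ⟨rfl, rfl⟩ := mvP_zero hx
    have key : ∀ (l' y' : X.FG), mvL X c l' → j y' ∈ B (X.bv c) v → j (l' * y') ∈ B (X.bv c) v := by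
      intro l' y' hl' hy'
      have e : j (l' * y') = 1 * (j l' - 1) * j y' + j y' := by
        simp only [map_mul]
        noncomm_ring
      rw [e]
      exact AddSubgroup.add_mem _ (mv_cell hB hl' (mv_one hB _) hy') hy'
    rw [one_mul, one_mul]
    refine ⟨key l y hl, fun h => ?_⟩
    have h1 := key l⁻¹ (l * y) (mvL_inv hl) h
    rwa [inv_mul_cancel_left] at h1
  · obtain ⟨rfl, rfl⟩ := mvP_zero hy
    have key : ∀ (l' x' : X.FG), mvL X c l' → j x' ∈ B o (X.bv c) → j (x' * l') ∈ B o (X.bv c) := by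
      intro l' x' hl' hx'
      have e : j (x' * l') = j x' * (j l' - 1) * 1 + j x' := by
        simp only [map_mul]
        noncomm_ring
      rw [e]
      exact AddSubgroup.add_mem _ (mv_cell hB hl' hx' (mv_one hB _)) hx'
    rw [mul_one, mul_one]
    refine ⟨key l x hl, fun h => ?_⟩
    have h1 := key l⁻¹ (x * l) (mvL_inv hl) h
    rwa [mul_inv_cancel_right] at h1

/-- Both triangles have the base corner `b`. -/
private theorem mv_dbl (hB : X.Bd j B) {n : ℕ} (hn : X.Lt j B n) (h2 : 2 ≤ n) {c c' : C}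
    {a b m e : V} (hc : X.IsTri c a b m) (hc' : X.IsTri c' b m e) (hab : X.Γ.Adj a b)
    (hbe : X.Γ.Adj b e) (hbm : X.Γ.Adj b m) (hb : X.bv c = b)
    (hb' : X.bv c' = b) :
    j (X.ε a b * X.ε b e) ∈ B a e ↔ j (X.ε a m * X.ε m e) ∈ B a e := by
  obtain ⟨l, hl, e1⟩ : ∃ l, mvL X c l ∧ X.ε a m = X.ε a b * l * X.ε b m := by
    rcases mv_tri hc with h | h | h
    · exact absurd (h.1.symm.trans hb) hab.ne
    · exact h.2
    · exact absurd (hb.symm.trans h.1) hbm.ne
  obtain ⟨l', hl', e2⟩ : ∃ l, mvL X c' l ∧ X.ε b m * X.ε m e = l * X.ε b e := by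
    rcases mv_tri hc' with h | h | h
    · exact h.2
    · exact absurd (hb'.symm.trans h.1) hbm.ne
    · exact absurd (hb'.symm.trans h.1) hbe.ne
  obtain ⟨p, hp, ep⟩ := mvP_ε hab
  obtain ⟨q, hq, eq⟩ := mvP_ε hbe
  have m1 : j (X.ε a b) ∈ B a (X.bv c) := by
    rw [hb, ← ep]
    exact hn _ _ p (by omega)
  have m1' : j (X.ε a b) ∈ B a (X.bv c') := by
    rw [hb', ← ep]
    exact hn _ _ p (by omega)
  have m2 : j (X.ε b e) ∈ B (X.bv c) e := by
    rw [hb, ← eq]
    exact hn _ _ q (by omega)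
  have m2' : j (X.ε b e) ∈ B (X.bv c') e := by
    rw [hb', ← eq]
    exact hn _ _ q (by omega)
  have m3 : j (X.ε a b) * (j l - 1) * 1 ∈ B a (X.bv c') := by
    refine mv_cell hB hl m1 ?_
    rw [hb, hb']
    exact mv_one hB b
  have e3 : X.ε a m * X.ε m e = X.ε a b * l * l' * X.ε b e := by
    calc X.ε a m * X.ε m e = X.ε a b * l * (X.ε b m * X.ε m e) := by rw [e1, mul_assoc]
      _ = _ := by rw [e2]; group
  have e4 : j (X.ε a m * X.ε m e) = (j (X.ε a b) * (j l - 1) * j (X.ε b e) +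
      j (X.ε a b) * (j l' - 1) * j (X.ε b e) +
      (j (X.ε a b) * (j l - 1) * 1) * (j l' - 1) * j (X.ε b e)) +
      j (X.ε a b * X.ε b e) := by
    rw [e3]
    simp only [map_mul]
    noncomm_ring
  rw [e4]
  exact (AddSubgroup.add_mem_cancel_left _ (AddSubgroup.add_mem _ (AddSubgroup.add_mem _
    (mv_cell hB hl m1 m2) (mv_cell hB hl' m1' m2')) (mv_cell hB hl' m3 m2'))).symm

/-- Through `a, m, b, e`. -/
private theorem mv_thr (hB : X.Bd j B) {n : ℕ} (hn : X.Lt j B n) {c c' : C}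
    {o a b m e v : V} (hc : X.IsTri c a b m) (hc' : X.IsTri c' b m e) (hab : X.Γ.Adj a b)
    (hbe : X.Γ.Adj b e) (ham : X.Γ.Adj a m) (hme : X.Γ.Adj m e) (hbm : X.Γ.Adj b m)
    {kx ky : ℕ} {x y : X.FG} (hx : mvP X kx o a x) (hy : mvP X ky e v y) (hk : kx + 2 + ky = n)
    (h1 : X.bv c = m → kx ≠ 0) (h2 : X.bv c' = b → ky ≠ 0) :
    j (x * X.ε a b * X.ε b e * y) ∈ B o v ↔ j (x * X.ε a m * X.ε m e * y) ∈ B o v := by
  have s1 : j (x * X.ε a b * X.ε b e * y) ∈ B o v ↔
      j (x * X.ε a m * X.ε m b * X.ε b e * y) ∈ B o v := by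
    rcases mv_tri (mv_sym1 hc) with ⟨hb, l, hl, he⟩ | ⟨hb, l, hl, he⟩ | ⟨hb, l, hl, he⟩
    · have h3 := mv_cross hB hn hl hb hx (mvP_mul (mvP_ε hab) (mvP_mul (mvP_ε hbe) hy)) (by omega)
      have e1 : x * X.ε a b * X.ε b e * y = x * (X.ε a b * (X.ε b e * y)) := by group
      have e2 : x * X.ε a m * X.ε m b * X.ε b e * y = x * l * (X.ε a b * (X.ε b e * y)) := by
        calc x * X.ε a m * X.ε m b * X.ε b e * y =
            x * (X.ε a m * X.ε m b) * X.ε b e * y := by group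
          _ = _ := by rw [he]; group
      rw [e1, e2]
      exact h3
    · have hk0 := h1 hb
      have h3 := mv_cross hB hn hl hb (mvP_mul hx (mvP_ε ham))
        (mvP_mul (mvP_ε hbm.symm) (mvP_mul (mvP_ε hbe) hy)) (by omega)
      have e1 : x * X.ε a b * X.ε b e * y = x * X.ε a m * l * (X.ε m b * (X.ε b e * y)) := by
        rw [he]
        group
      have e2 : x * X.ε a m * X.ε m b * X.ε b e * y =
          x * X.ε a m * (X.ε m b * (X.ε b e * y)) := by group
      rw [e1, e2]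
      exact h3.symm
    · have h3 := mv_cross hB hn hl hb (mvP_mul hx (mvP_ε hab))
        (mvP_mul (mvP_ε hbe) hy) (by omega)
      have e1 : x * X.ε a b * X.ε b e * y = x * X.ε a b * (X.ε b e * y) := by group
      have e2 : x * X.ε a m * X.ε m b * X.ε b e * y = x * X.ε a b * l * (X.ε b e * y) := by
        calc x * X.ε a m * X.ε m b * X.ε b e * y =
            x * (X.ε a m * X.ε m b) * X.ε b e * y := by group
          _ = _ := by rw [he]; group
      rw [e1, e2]
      exact h3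
  have s2 : j (x * X.ε a m * X.ε m b * X.ε b e * y) ∈ B o v ↔
      j (x * X.ε a m * X.ε m e * y) ∈ B o v := by
    rcases mv_tri (mv_sym2 hc') with ⟨hb, l, hl, he⟩ | ⟨hb, l, hl, he⟩ | ⟨hb, l, hl, he⟩
    · have h3 := mv_cross hB hn hl hb (mvP_mul hx (mvP_ε ham))
        (mvP_mul (mvP_ε hme) hy) (by omega)
      have e1 : x * X.ε a m * X.ε m b * X.ε b e * y = x * X.ε a m * l * (X.ε m e * y) := by
        calc x * X.ε a m * X.ε m b * X.ε b e * y =
            x * X.ε a m * (X.ε m b * X.ε b e) * y := by group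
          _ = _ := by rw [he]; group
      have e2 : x * X.ε a m * X.ε m e * y = x * X.ε a m * (X.ε m e * y) := by group
      rw [e1, e2]
      exact h3.symm
    · have hk0 := h2 hb
      have h3 := mv_cross hB hn hl hb (mvP_mul (mvP_mul hx (mvP_ε ham)) (mvP_ε hbm.symm))
        (mvP_mul (mvP_ε hbe) hy) (by omega)
      have e1 : x * X.ε a m * X.ε m b * X.ε b e * y =
          x * X.ε a m * X.ε m b * (X.ε b e * y) := by group
      have e2 : x * X.ε a m * X.ε m e * y = x * X.ε a m * X.ε m b * l * (X.ε b e * y) := by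
        rw [he]
        group
      rw [e1, e2]
      exact h3
    · have h3 := mv_cross hB hn hl hb (mvP_mul (mvP_mul hx (mvP_ε ham)) (mvP_ε hme)) hy (by omega)
      have e1 : x * X.ε a m * X.ε m b * X.ε b e * y = x * X.ε a m * X.ε m e * l * y := by
        calc x * X.ε a m * X.ε m b * X.ε b e * y =
            x * X.ε a m * (X.ε m b * X.ε b e) * y := by group
          _ = _ := by rw [he]; group
      rw [e1]
      exact h3.symm
  exact s1.trans s2

private theorem mv3 (hB : X.Bd j B) {n : ℕ} (hn : X.Lt j B n) {c c' : C}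
    {o a b m e v : V} (hc : X.IsTri c a b m) (hc' : X.IsTri c' b m e) (hab : X.Γ.Adj a b)
    (hbe : X.Γ.Adj b e) (ham : X.Γ.Adj a m) (hme : X.Γ.Adj m e) (hbm : X.Γ.Adj b m)
    {kx ky : ℕ} {x y : X.FG} (hx : mvP X kx o a x) (hy : mvP X ky e v y)
    (hk : kx + 2 + ky = n) :
    j (x * X.ε a b * X.ε b e * y) ∈ B o v ↔ j (x * X.ε a m * X.ε m e * y) ∈ B o v := by
  by_cases h1 : (X.bv c = m → kx ≠ 0) ∧ (X.bv c' = b → ky ≠ 0)
  · exact mv_thr hB hn hc hc' hab hbe ham hme hbm hx hy hk h1.1 h1.2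
  by_cases h2 : (X.bv c = b → kx ≠ 0) ∧ (X.bv c' = m → ky ≠ 0)
  · exact (mv_thr hB hn (mv_sym1 hc) (mv_sym2 hc') ham hme hab hbe hbm.symm hx hy hk
      h2.1 h2.2).symm
  have hne := hbm.ne
  rcases not_and_or.1 h1 with g1 | g1 <;> rcases not_and_or.1 h2 with g2 | g2 <;>
    push Not at g1 g2
  · exact absurd (g2.1.symm.trans g1.1) hne
  · -- both `m`
    obtain ⟨b1, rfl⟩ := g1
    obtain ⟨b2, rfl⟩ := g2
    obtain ⟨rfl, rfl⟩ := mvP_zero hx
    obtain ⟨rfl, rfl⟩ := mvP_zero hy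
    rw [one_mul, one_mul, mul_one, mul_one]
    exact (mv_dbl hB hn (by omega) (mv_sym1 hc) (mv_sym2 hc') ham hme hbm.symm b1 b2).symm
  · obtain ⟨b1, rfl⟩ := g1
    obtain ⟨b2, rfl⟩ := g2
    obtain ⟨rfl, rfl⟩ := mvP_zero hx
    obtain ⟨rfl, rfl⟩ := mvP_zero hy
    rw [one_mul, one_mul, mul_one, mul_one]
    exact mv_dbl hB hn (by omega) hc hc' hab hbe hbm b2 b1
  · exact absurd (g1.1.symm.trans g2.1) hne

end

theorem mv : S_mv := by
  intro G V C _ _ _ X R _ j B hB n hn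
  refine ⟨?_, ?_, ?_⟩
  · intro o a b m v c x y hc hab hbm ham hk
    have hx : mvP X x.length o a (X.val x) := ⟨x, rfl, rfl⟩
    have hy : mvP X y.length m v (X.val y) := ⟨y, rfl, rfl⟩
    rcases mv_tri hc with ⟨hb, l, hl, he⟩ | ⟨hb, l, hl, he⟩ | ⟨hb, l, hl, he⟩
    · have h3 := mv_cross hB hn hl hb hx (mvP_mul (mvP_ε ham) hy) (by omega)
      have e1 : X.val x * X.ε a b * X.ε b m * X.val y = X.val x * l * (X.ε a m * X.val y) := by
        calc X.val x * X.ε a b * X.ε b m * X.val y =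
            X.val x * (X.ε a b * X.ε b m) * X.val y := by group
          _ = _ := by rw [he]; group
      rw [e1, mul_assoc (X.val x) (X.ε a m)]
      exact h3.symm
    · have h3 := mv_cross hB hn hl hb (mvP_mul hx (mvP_ε hab)) (mvP_mul (mvP_ε hbm) hy) (by omega)
      have e1 : X.val x * X.ε a m * X.val y = X.val x * X.ε a b * l * (X.ε b m * X.val y) := by
        rw [he]
        group
      rw [e1, mul_assoc (X.val x * X.ε a b) (X.ε b m)]
      exact h3
    · have h3 := mv_cross hB hn hl hb (mvP_mul hx (mvP_ε ham)) hy (by omega)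
      have e1 : X.val x * X.ε a b * X.ε b m * X.val y = X.val x * X.ε a m * l * X.val y := by
        calc X.val x * X.ε a b * X.ε b m * X.val y =
            X.val x * (X.ε a b * X.ε b m) * X.val y := by group
          _ = _ := by rw [he]; group
      rw [e1]
      exact h3.symm
  · intro o a b m b' v c x y hc hab hbm hab' hbm' hk
    have hx : mvP X x.length o a (X.val x) := ⟨x, rfl, rfl⟩
    have hy : mvP X y.length m v (X.val y) := ⟨y, rfl, rfl⟩
    rcases mv_sq hc with ⟨hb, l, hl, he⟩ | ⟨hb, l, hl, he⟩ | ⟨hb, l, hl, he⟩ | ⟨hb, l, hl, he⟩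
    · have h3 := mv_cross hB hn hl hb hx (mvP_mul (mvP_ε hab') (mvP_mul (mvP_ε hbm') hy))
        (by omega)
      have e1 : X.val x * X.ε a b * X.ε b m * X.val y =
          X.val x * l * (X.ε a b' * (X.ε b' m * X.val y)) := by
        calc X.val x * X.ε a b * X.ε b m * X.val y =
            X.val x * (X.ε a b * X.ε b m) * X.val y := by group
          _ = _ := by rw [he]; group
      have e2 : X.val x * X.ε a b' * X.ε b' m * X.val y =
          X.val x * (X.ε a b' * (X.ε b' m * X.val y)) := by group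
      rw [e1, e2]
      exact h3.symm
    · have h3 := mv_cross hB hn hl hb (mvP_mul hx (mvP_ε hab)) (mvP_mul (mvP_ε hbm) hy) (by omega)
      have e1 : X.val x * X.ε a b' * X.ε b' m * X.val y =
          X.val x * X.ε a b * l * (X.ε b m * X.val y) := by
        calc X.val x * X.ε a b' * X.ε b' m * X.val y =
            X.val x * (X.ε a b' * X.ε b' m) * X.val y := by group
          _ = _ := by rw [he]; group
      rw [e1, mul_assoc (X.val x * X.ε a b) (X.ε b m)]
      exact h3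
    · have h3 := mv_cross hB hn hl hb (mvP_mul (mvP_mul hx (mvP_ε hab')) (mvP_ε hbm')) hy
        (by omega)
      have e1 : X.val x * X.ε a b * X.ε b m * X.val y =
          X.val x * X.ε a b' * X.ε b' m * l * X.val y := by
        calc X.val x * X.ε a b * X.ε b m * X.val y =
            X.val x * (X.ε a b * X.ε b m) * X.val y := by group
          _ = _ := by rw [he]; group
      rw [e1]
      exact h3.symm
    · have h3 := mv_cross hB hn hl hb (mvP_mul hx (mvP_ε hab')) (mvP_mul (mvP_ε hbm') hy)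
        (by omega)
      have e1 : X.val x * X.ε a b * X.ε b m * X.val y =
          X.val x * X.ε a b' * l * (X.ε b' m * X.val y) := by
        calc X.val x * X.ε a b * X.ε b m * X.val y =
            X.val x * (X.ε a b * X.ε b m) * X.val y := by group
          _ = _ := by rw [he]; group
      rw [e1, mul_assoc (X.val x * X.ε a b') (X.ε b' m)]
      exact h3.symm
  · intro o a b m e v c c' x y hc hc' hab hbe ham hme hbm hk
    exact mv3 hB hn hc hc' hab hbe ham hme hbm ⟨x, rfl, rfl⟩ ⟨y, rfl, rfl⟩ hk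

end Pool.Agent.Cx2
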