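import Pool.Agent.Lib.MP_8f66f0_al_Cx.SpecE

/-! Walks without backtracking have nontrivial values. -/

set_option autoImplicit false

namespace Pool.Agent.Cx2

open Pool.Agent.Wald Pool.Agent.TreeC

section

variable {G V C : Type} [Group G] [MulAction G V] [MulAction G C] (X : Cx G V C)

open Classical in
/-- The letter of an edge. -/
private noncomputable def nbL (u w : V) (h : X.Γ.Adj u w) : X.E × Bool :=
  if h1 : X.ori u w then (⟨(u, w), h1⟩, true)
  else (⟨(w, u), (X.ori_or u w h).resolve_left h1⟩, false)

private theorem nb_ε (u w : V) (h : X.Γ.Adj u w) : X.ε u w = FreeGroup.mk [nbL X u w h] := by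
  unfold nbL
  by_cases h1 : X.ori u w
  · rw [dif_pos h1, X.ε_ori h1]
    rfl
  · have h2 := (X.ori_or u w h).resolve_left h1
    rw [dif_neg h1, X.ε_ori' h2]
    rfl

/-- The letters of a walk. -/
private noncomputable def nbl : ∀ {u v : V}, X.Γ.Walk u v → List (X.E × Bool)
  | _, _, .nil => []
  | _, _, .cons h p => nbL X _ _ h :: nbl p

private theorem nb_val {u v : V} (p : X.Γ.Walk u v) : X.val p = FreeGroup.mk (nbl X p) := by
  induction p with
  | nil => rfl
  | @cons u w v h p ih =>
    rw [X.val_cons, ih, nb_ε X u w h, FreeGroup.mul_mk]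
    rfl

private theorem nb_len {u v : V} (p : X.Γ.Walk u v) : (nbl X p).length = p.length := by
  induction p with
  | nil => rfl
  | cons h p ih =>
    change (nbl X p).length + 1 = p.length + 1
    rw [ih]

private theorem nb_two (u w x : V) (h : X.Γ.Adj u w) (h' : X.Γ.Adj w x) (hux : u ≠ x) :
    (nbL X u w h).1 = (nbL X w x h').1 → (nbL X u w h).2 = (nbL X w x h').2 := by
  unfold nbL
  by_cases h1 : X.ori u w
  · by_cases h2 : X.ori w x
    · rw [dif_pos h1, dif_pos h2]
      exact fun _ => rfl
    · rw [dif_pos h1, dif_neg h2]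
      intro e
      exact absurd (congrArg (fun z : X.E => z.1.1) e) hux
  · by_cases h2 : X.ori w x
    · rw [dif_neg h1, dif_pos h2]
      intro e
      exact absurd (congrArg (fun z : X.E => z.1.2) e) hux
    · rw [dif_neg h1, dif_neg h2]
      exact fun _ => rfl

private theorem nb_red {u v : V} (p : X.Γ.Walk u v)
    (hp : ∀ i, i + 2 ≤ p.length → p.getVert i ≠ p.getVert (i + 2)) :
    (nbl X p).IsChain fun a b => a.1 = b.1 → a.2 = b.2 := by
  induction p with
  | nil => exact List.IsChain.nil
  | @cons u w v h p ih =>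
    have ih' := ih (by
      intro i hi
      have h1 := hp (i + 1) (by rw [SimpleGraph.Walk.length_cons]; omega)
      rw [SimpleGraph.Walk.getVert_cons_succ] at h1
      have e : i + 1 + 2 = i + 2 + 1 := by omega
      rw [e, SimpleGraph.Walk.getVert_cons_succ] at h1
      exact h1)
    cases p with
    | nil => exact List.IsChain.singleton _
    | @cons w x v h' p =>
      change (nbL X u w h :: nbL X w x h' :: nbl X p).IsChain _
      rw [List.isChain_cons_cons]
      refine ⟨nb_two X u w x h h' ?_, ih'⟩
      have h1 := hp 0 (by rw [SimpleGraph.Walk.length_cons, SimpleGraph.Walk.length_cons]; omega)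
      rw [SimpleGraph.Walk.getVert_zero, zero_add] at h1
      have e : (2 : ℕ) = 0 + 1 + 1 := rfl
      rw [e, SimpleGraph.Walk.getVert_cons_succ, SimpleGraph.Walk.getVert_cons_succ,
        SimpleGraph.Walk.getVert_zero] at h1
      exact h1

end

theorem nb : S_nb := by
  classical
  intro G V C _ _ _ X u v p hlen hp h1
  have hr : FreeGroup.IsReduced (nbl X p) := nb_red X p hp
  rw [nb_val X p] at h1
  have h2 : FreeGroup.toWord (FreeGroup.mk (nbl X p)) = [] := by
    rw [h1, FreeGroup.toWord_one]
  rw [FreeGroup.toWord_mk, hr.reduce_eq] at h2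
  have h3 := nb_len X p
  rw [h2] at h3
  simp only [List.length_nil] at h3
  omega

end Pool.Agent.Cx2
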