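import Pool.Agent.Lib.MP_8f66f0_al_Hier.SpecP
import Pool.Agent.Lib.MP_8f66f0_al_Hier.Expl
import Pool.Agent.Lib.MP_8f66f0_al_Hier.Sfm

/-!
MP_8f66f0_al, Theorem 2D, module PatchTwo (helper13): the patching theorem of Hier/Patch, for an
algebra `L` whose finitely generated projective modules are stably free.
-/

set_option autoImplicit false

namespace Pool.Agent.Cx2

open Pool.Agent.Wald Pool.Agent.Ind Pool.Agent.Hier Matrix
open scoped TensorProduct

private theorem pt_one {Q K : Type} [Ring Q] [CommGroup K] (κ : K1Fun Q K) {n : Type} [Fintype n]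
    [DecidableEq n] : κ.f (1 : Matrix n n Q) = 1 := by
  have h := κ.mul (1 : Matrix n n Q) 1 isUnit_one isUnit_one
  rw [mul_one] at h
  exact (mul_eq_left.1 h.symm)

private theorem pt_unit {Q A B : Type} [Ring Q] [Fintype A] [DecidableEq A] [Fintype B]
    [DecidableEq B] (u : Matrix A A Q) (σ : Matrix A B Q) (hu : IsUnit u) :
    IsUnit (fromBlocks u σ 0 1 : Matrix (A ⊕ B) (A ⊕ B) Q) := by
  obtain ⟨⟨a, b, hab, hba⟩, rfl⟩ := hu
  refine ⟨⟨fromBlocks a σ 0 1, fromBlocks b (-(b * σ)) 0 1, ?_, ?_⟩, rfl⟩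
  · rw [fromBlocks_multiply, ← fromBlocks_one, hab]
    congr 1
    · simp
    · rw [Matrix.mul_neg, ← Matrix.mul_assoc, hab, Matrix.one_mul, Matrix.mul_one, neg_add_cancel]
    · simp
    · simp
  · rw [fromBlocks_multiply, ← fromBlocks_one, hba]
    congr 1
    · simp
    · rw [Matrix.mul_one, add_neg_cancel]
    · simp
    · simp

/-- the inclusion of the columns -/
private def pt_i (Q A B S : Type) [Ring Q] [DecidableEq A] [DecidableEq S] :
    Matrix ((A ⊕ B) ⊕ S) (A ⊕ S) Q :=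
  fromBlocks (fromRows 1 0) 0 0 1

/-- the transposed matrix -/
private def pt_j (Q A B S : Type) [Ring Q] [DecidableEq A] [DecidableEq S] :
    Matrix (A ⊕ S) ((A ⊕ B) ⊕ S) Q :=
  fromBlocks (fromCols 1 0) 0 0 1

private theorem pt_ij (Q A B S : Type) [Ring Q] [Fintype A] [DecidableEq A] [Fintype S]
    [DecidableEq S] :
    pt_i Q A B S * pt_j Q A B S = fromBlocks (fromBlocks 1 0 0 0) 0 0 1 := by
  rw [pt_i, pt_j, fromBlocks_multiply]
  congr 1
  · rw [Matrix.mul_zero, add_zero, fromRows_mul_fromCols]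
    simp
  · simp
  · simp
  · simp

private theorem pt_ji (Q A B S : Type) [Ring Q] [Fintype A] [DecidableEq A] [Fintype B]
    [Fintype S] [DecidableEq S] :
    pt_j Q A B S * pt_i Q A B S = 1 := by
  rw [pt_i, pt_j, fromBlocks_multiply, ← fromBlocks_one]
  congr 1
  · rw [Matrix.mul_zero, add_zero, fromCols_mul_fromRows]
    simp
  · simp
  · simp
  · simp

private theorem pt_map {Q Q' A B S : Type} [Ring Q] [Ring Q'] [DecidableEq A] [DecidableEq S]
    (f : Q →+* Q') : (pt_i Q A B S).map f = pt_i Q' A B S := by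
  ext i j
  rcases i with (i | i) | i <;> rcases j with j | j <;>
    simp [pt_i, Matrix.one_apply, apply_ite f]

private theorem pt_units {R A B : Type} [Ring R] [Fintype A] [DecidableEq A] [Fintype B]
    [DecidableEq B] (X : Matrix B A R) (Y : Matrix A B R) (I : Matrix B A R) (J : Matrix A B R)
    (h1 : X * Y = I * J) (h2 : Y * X = 1) (h3 : J * I = 1) :
    Y * I * (J * X) = 1 ∧ J * X * (Y * I) = 1 := by
  constructor
  · calc Y * I * (J * X) = Y * (I * J) * X := by simp only [Matrix.mul_assoc]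
      _ = (Y * X) * (Y * X) := by
          rw [← h1]
          simp only [Matrix.mul_assoc]
      _ = 1 := by rw [h2, Matrix.one_mul]
  · calc J * X * (Y * I) = J * (X * Y) * I := by simp only [Matrix.mul_assoc]
      _ = (J * I) * (J * I) := by
          rw [h1]
          simp only [Matrix.mul_assoc]
      _ = 1 := by rw [h3, Matrix.one_mul]

/-- The statement for `u` indexed by `Fin n`. -/
private theorem pt_fin (hE : S_Expl) (LL C L T Q : Type) [CommRing LL]
    [Group C] [Ring L] [Algebra LL L] [Ring T] [Algebra LL T] [Ring Q]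
    [Algebra LL Q] (ρ : C →* L) (eps : L →ₐ[LL] MonoidAlgebra LL C) (emb : L →ₐ[LL] T)
    (π : T →ₐ[LL] Q) (heps : ∀ x, eps (gr LL ρ x) = x)
    (hR : ∀ (A B : Type) [Fintype A] [DecidableEq A] [Fintype B] [DecidableEq B]
      (e : Matrix (A ⊕ B) (A ⊕ B) L), e * e = e → e.map eps = fromBlocks 1 0 0 0 →
      ∃ (s : ℕ) (X : Matrix ((A ⊕ B) ⊕ Fin s) (A ⊕ Fin s) L)
        (Y : Matrix (A ⊕ Fin s) ((A ⊕ B) ⊕ Fin s) L), X * Y = fromBlocks e 0 0 1 ∧ Y * X = 1)
    (hinj : Function.Injective emb) (hsurj : Function.Surjective π)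
    (h1 : ∀ x, eps x = 0 → ∀ t, ∃ x', eps x' = 0 ∧ emb x * t = emb x')
    (h2 : ∀ x, eps x = 0 → π (emb x) = 0)
    (h3 : ∀ t, π t = 0 → t ∈ AddSubgroup.closure {z | ∃ s, ∃ x, eps x = 0 ∧ z = s * emb x})
    (K : Type) [CommGroup K] (κ : K1Fun Q K)
    (hκ : ∀ (n : Type) [Fintype n] [DecidableEq n] (A : Matrix n n T), IsUnit A →
      κ.f (A.map (π : T →+* Q)) = 1) (n : ℕ) (u : Matrix (Fin n) (Fin n) Q) (hu : IsUnit u) :
    κ.f u = 1 := by
  -- the subgroup `r`
  let r : AddSubgroup T :=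
    { carrier := {z | ∃ x, eps x = 0 ∧ z = emb x}
      add_mem' := by
        rintro _ _ ⟨x, hx, rfl⟩ ⟨y, hy, rfl⟩
        exact ⟨x + y, by rw [map_add, hx, hy, add_zero], by rw [map_add]⟩
      zero_mem' := ⟨0, by rw [map_zero], by rw [map_zero]⟩
      neg_mem' := by
        rintro _ ⟨x, hx, rfl⟩
        exact ⟨-x, by rw [map_neg, hx, neg_zero], by rw [map_neg]⟩ }
  have hr : ∀ z, z ∈ r ↔ ∃ x, eps x = 0 ∧ z = emb x := fun z => Iff.rfl
  obtain ⟨l, l', Φ, Ξ, σ, hΞΦ, hΦΞ, hΦl, hΦr⟩ := hE T Q (π : T →+* Q) r hsurj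
    (by
      rintro _ ⟨x, hx, rfl⟩ t
      obtain ⟨x', hx', he⟩ := h1 x hx t
      exact ⟨x', hx', he⟩)
    (by
      rintro _ ⟨x, hx, rfl⟩
      exact h2 x hx)
    (by
      intro t ht
      refine AddSubgroup.closure_mono ?_ (h3 t ht)
      rintro z ⟨s, x, hx, rfl⟩
      exact ⟨s, emb x, ⟨x, hx, rfl⟩, rfl⟩) n u hu
  choose x hx0 hx1 using hΦΞ
  -- the idempotent over `L`
  set e : Matrix ((Fin n ⊕ Fin l) ⊕ Fin l') ((Fin n ⊕ Fin l) ⊕ Fin l') L :=
    Matrix.of x + fromBlocks 1 0 0 0 with he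
  have heT : e.map emb = Φ * Ξ := by
    ext i j
    have hb : emb ((fromBlocks 1 0 0 0 : Matrix ((Fin n ⊕ Fin l) ⊕ Fin l')
        ((Fin n ⊕ Fin l) ⊕ Fin l') L) i j) = (fromBlocks 1 0 0 0 : Matrix ((Fin n ⊕ Fin l) ⊕ Fin l')
        ((Fin n ⊕ Fin l) ⊕ Fin l') T) i j := by
      rcases i with i | i <;> rcases j with j | j <;> simp [Matrix.one_apply, apply_ite emb]
    rw [he, Matrix.map_apply, Matrix.add_apply, Matrix.of_apply, map_add, hb, ← hx1 i j,
      Matrix.sub_apply, sub_add_cancel]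
  have heE : e.map eps = fromBlocks 1 0 0 0 := by
    ext i j
    have hb : eps ((fromBlocks 1 0 0 0 : Matrix ((Fin n ⊕ Fin l) ⊕ Fin l')
        ((Fin n ⊕ Fin l) ⊕ Fin l') L) i j) = (fromBlocks 1 0 0 0 : Matrix ((Fin n ⊕ Fin l) ⊕ Fin l')
        ((Fin n ⊕ Fin l) ⊕ Fin l') (MonoidAlgebra LL C)) i j := by
      rcases i with i | i <;> rcases j with j | j <;> simp [Matrix.one_apply, apply_ite eps]
    rw [he, Matrix.map_apply, Matrix.add_apply, Matrix.of_apply, map_add, hb, hx0 i j, zero_add]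
  have hee : e * e = e := by
    have hm : (e * e).map emb = e.map emb := by
      have h4 : (e * e).map emb = e.map emb * e.map emb := Matrix.map_mul
      rw [h4, heT]
      calc Φ * Ξ * (Φ * Ξ) = Φ * (Ξ * Φ) * Ξ := by simp only [Matrix.mul_assoc]
        _ = Φ * Ξ := by rw [hΞΦ, Matrix.mul_one]
    ext i j
    exact hinj (congrFun (congrFun hm i) j)
  obtain ⟨s, X, Y, hXY, hYX⟩ := hR (Fin n ⊕ Fin l) (Fin l') e hee heE
  -- the matrices over `T`
  have hXYT : X.map emb * Y.map emb = fromBlocks (Φ * Ξ) 0 0 1 := by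
    have h4 : (X * Y).map emb = X.map emb * Y.map emb := Matrix.map_mul
    rw [← h4, hXY, ← heT, fromBlocks_map]
    congr 1
    · ext i j
      simp
    · ext i j
      simp
    · ext i j
      simp [Matrix.one_apply, apply_ite emb]
  have hYXT : Y.map emb * X.map emb = 1 := by
    have h4 : (Y * X).map emb = Y.map emb * X.map emb := Matrix.map_mul
    rw [← h4, hYX]
    ext i j
    simp [Matrix.one_apply, apply_ite emb]
  let PD : Matrix (((Fin n ⊕ Fin l) ⊕ Fin l') ⊕ Fin s) ((Fin n ⊕ Fin l) ⊕ Fin s) T :=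
    fromBlocks Φ 0 0 1
  let XD : Matrix ((Fin n ⊕ Fin l) ⊕ Fin s) (((Fin n ⊕ Fin l) ⊕ Fin l') ⊕ Fin s) T :=
    fromBlocks Ξ 0 0 1
  have hD1 : PD * XD = X.map emb * Y.map emb := by
    rw [hXYT, fromBlocks_multiply]
    congr 1
    · rw [Matrix.mul_zero, add_zero]
    · simp
    · simp
    · simp
  have hD2 : XD * PD = 1 := by
    rw [fromBlocks_multiply, ← fromBlocks_one, hΞΦ]
    congr 1
    · rw [Matrix.mul_zero, add_zero]
    · simp
    · simp
    · simp
  let Γ : Matrix ((Fin n ⊕ Fin l) ⊕ Fin s) ((Fin n ⊕ Fin l) ⊕ Fin s) T := Y.map emb * PD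
  let Γ' : Matrix ((Fin n ⊕ Fin l) ⊕ Fin s) ((Fin n ⊕ Fin l) ⊕ Fin s) T := XD * X.map emb
  obtain ⟨hG1, hG2⟩ : Γ * Γ' = 1 ∧ Γ' * Γ = 1 :=
    pt_units (X.map emb) (Y.map emb) PD XD hD1.symm hYXT hD2
  have hΓ : κ.f (Γ.map (π : T →+* Q)) = 1 := hκ _ Γ ⟨⟨Γ, Γ', hG1, hG2⟩, rfl⟩
  -- the matrices over `LL[C]`
  have hXYC : X.map eps * Y.map eps = pt_i (MonoidAlgebra LL C) (Fin n ⊕ Fin l) (Fin l') (Fin s) *
      pt_j (MonoidAlgebra LL C) (Fin n ⊕ Fin l) (Fin l') (Fin s) := by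
    have h4 : (X * Y).map eps = X.map eps * Y.map eps := Matrix.map_mul
    rw [← h4, hXY, pt_ij, ← heE, fromBlocks_map]
    congr 1
    · ext i j
      simp
    · ext i j
      simp
    · ext i j
      simp [Matrix.one_apply, apply_ite eps]
  have hYXC : Y.map eps * X.map eps = 1 := by
    have h4 : (Y * X).map eps = Y.map eps * X.map eps := Matrix.map_mul
    rw [← h4, hYX]
    ext i j
    simp [Matrix.one_apply, apply_ite eps]
  let g : Matrix ((Fin n ⊕ Fin l) ⊕ Fin s) ((Fin n ⊕ Fin l) ⊕ Fin s) (MonoidAlgebra LL C) :=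
    Y.map eps * pt_i _ _ _ _
  let g' : Matrix ((Fin n ⊕ Fin l) ⊕ Fin s) ((Fin n ⊕ Fin l) ⊕ Fin s) (MonoidAlgebra LL C) :=
    pt_j _ _ _ _ * X.map eps
  obtain ⟨hg1, hg2⟩ : g * g' = 1 ∧ g' * g = 1 :=
    pt_units (X.map eps) (Y.map eps) (pt_i (MonoidAlgebra LL C) (Fin n ⊕ Fin l) (Fin l') (Fin s))
      (pt_j (MonoidAlgebra LL C) (Fin n ⊕ Fin l) (Fin l') (Fin s)) hXYC hYXC (pt_ji _ _ _ _)
  let G : MonoidAlgebra LL C →+* T := (emb : L →+* T).comp (gr LL ρ : MonoidAlgebra LL C →+* L)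
  have hgT : IsUnit (g.map G) := by
    have := (show IsUnit g from ⟨⟨g, g', hg1, hg2⟩, rfl⟩).map G.mapMatrix
    exact this
  have hκg : κ.f ((g.map G).map (π : T →+* Q)) = 1 := hκ _ _ hgT
  have hπ : ∀ z : L, π (emb z) = π (G (eps z)) := by
    intro z
    have h5 : eps (z - gr LL ρ (eps z)) = 0 := by
      rw [map_sub, heps, sub_self]
    have h6 := h2 _ h5
    rw [map_sub, map_sub, sub_eq_zero] at h6
    exact h6
  have hu1 : IsUnit (fromBlocks u σ 0 1 : Matrix (Fin n ⊕ Fin l) (Fin n ⊕ Fin l) Q) :=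
    pt_unit u σ hu
  have hu2 : IsUnit (fromBlocks (fromBlocks u σ 0 1) 0 0 1 :
      Matrix ((Fin n ⊕ Fin l) ⊕ Fin s) ((Fin n ⊕ Fin l) ⊕ Fin s) Q) := pt_unit _ 0 hu1
  have hfac : Γ.map (π : T →+* Q) =
      (g.map G).map (π : T →+* Q) * fromBlocks (fromBlocks u σ 0 1) 0 0 1 := by
    have h7 : Γ.map (π : T →+* Q) = (Y.map emb).map (π : T →+* Q) *
        (fromBlocks Φ 0 0 1 : Matrix (((Fin n ⊕ Fin l) ⊕ Fin l') ⊕ Fin s)
          ((Fin n ⊕ Fin l) ⊕ Fin s) T).map (π : T →+* Q) := Matrix.map_mul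
    have h8 : (g.map G).map (π : T →+* Q) = ((Y.map eps).map G).map (π : T →+* Q) *
        pt_i Q (Fin n ⊕ Fin l) (Fin l') (Fin s) := by
      have h9 : g.map G = (Y.map eps).map G * (pt_i _ (Fin n ⊕ Fin l) (Fin l') (Fin s)).map G :=
        Matrix.map_mul
      rw [h9, pt_map G]
      have h10 : ((Y.map eps).map G * pt_i T (Fin n ⊕ Fin l) (Fin l') (Fin s)).map (π : T →+* Q) =
          ((Y.map eps).map G).map (π : T →+* Q) *
          (pt_i T (Fin n ⊕ Fin l) (Fin l') (Fin s)).map (π : T →+* Q) := Matrix.map_mul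
      rw [h10, pt_map (π : T →+* Q)]
    have h11 : (Y.map emb).map (π : T →+* Q) = ((Y.map eps).map G).map (π : T →+* Q) := by
      ext i j
      exact hπ (Y i j)
    rw [h7, h8, h11, Matrix.mul_assoc]
    congr 1
    rw [pt_i, fromBlocks_multiply, fromBlocks_map]
    congr 1
    · rw [Matrix.mul_zero, add_zero, fromRows_mul, Matrix.one_mul, Matrix.zero_mul]
      ext i j
      rcases i with i | i
      · exact hΦl i j
      · obtain ⟨z, hz, hz'⟩ := hΦr i j
        rw [fromRows_apply_inr, Matrix.map_apply, hz']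
        exact h2 z hz
    · ext i j
      simp
    · ext i j
      simp
    · ext i j
      simp [Matrix.one_apply, apply_ite π]
  have hgQ : IsUnit ((g.map G).map (π : T →+* Q)) := hgT.map (π : T →+* Q).mapMatrix
  rw [hfac, κ.mul _ _ hgQ hu2, hκg, one_mul,
    κ.tri _ _ _ hu1 isUnit_one, κ.tri _ _ _ hu isUnit_one, pt_one, pt_one, mul_one, mul_one] at hΓ
  exact hΓ

/-- The rank of a stably free module. -/
private theorem PtTwoCard {L R : Type} [Ring L] [CommRing R] [Nontrivial R] (ψ : L →+* R)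
    {A B : Type} [Fintype A] [DecidableEq A] [Fintype B] [DecidableEq B] {a b : ℕ}
    (e : Matrix (A ⊕ B) (A ⊕ B) L) (he : e.map ψ = fromBlocks 1 0 0 0)
    (X : Matrix ((A ⊕ B) ⊕ Fin a) (Fin b) L) (Y : Matrix (Fin b) ((A ⊕ B) ⊕ Fin a) L)
    (h1 : X * Y = fromBlocks e 0 0 1) (h2 : Y * X = 1) :
    Fintype.card (A ⊕ Fin a) = Fintype.card (Fin b) := by
  let R₁ : Matrix (A ⊕ Fin a) ((A ⊕ B) ⊕ Fin a) R := fromBlocks (fromCols 1 0) 0 0 1
  let R₂ : Matrix ((A ⊕ B) ⊕ Fin a) (A ⊕ Fin a) R := fromBlocks (fromRows 1 0) 0 0 1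
  have e1 : R₁ * R₂ = 1 := by
    simp only [R₁, R₂]
    rw [fromBlocks_multiply, fromCols_mul_fromRows]
    simp only [Matrix.mul_one, Matrix.mul_zero, add_zero, Matrix.zero_mul, zero_add,
      fromBlocks_one]
  have e2 : R₂ * R₁ = (X * Y).map ψ := by
    rw [h1, fromBlocks_map, he, Matrix.map_zero _ (map_zero ψ), Matrix.map_zero _ (map_zero ψ),
      Matrix.map_one _ (map_zero ψ) (map_one ψ)]
    simp only [R₁, R₂]
    rw [fromBlocks_multiply, fromRows_mul_fromCols]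
    simp only [Matrix.mul_one, Matrix.mul_zero, add_zero, Matrix.zero_mul, zero_add]
  rw [Matrix.map_mul] at e2
  have e3 : Y.map ψ * X.map ψ = 1 := by
    rw [← Matrix.map_mul, h2, Matrix.map_one _ (map_zero ψ) (map_one ψ)]
  refine Matrix.square_of_invertible (R₁ * X.map ψ) (Y.map ψ * R₂) ?_ ?_
  · have : R₁ * X.map ψ * (Y.map ψ * R₂) = R₁ * (X.map ψ * Y.map ψ) * R₂ := by
      simp only [Matrix.mul_assoc]
    rw [this, ← e2]
    have : R₁ * (R₂ * R₁) * R₂ = (R₁ * R₂) * (R₁ * R₂) := by simp only [Matrix.mul_assoc]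
    rw [this, e1, Matrix.one_mul]
  · have : Y.map ψ * R₂ * (R₁ * X.map ψ) = Y.map ψ * (R₂ * R₁) * X.map ψ := by
      simp only [Matrix.mul_assoc]
    rw [this, e2]
    have : Y.map ψ * (X.map ψ * Y.map ψ) * X.map ψ = (Y.map ψ * X.map ψ) * (Y.map ψ * X.map ψ) := by
      simp only [Matrix.mul_assoc]
    rw [this, e3, Matrix.one_mul]

/-- Idempotent matrices which are `diag(1, 0)` modulo the augmentation are stably free of the
right rank. -/
private theorem pt_rel {LL C L : Type} [CommRing LL] [Nontrivial LL] [Group C] [Ring L]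
    [Algebra LL L] (eps : L →ₐ[LL] MonoidAlgebra LL C) (hP : ProjSF L)
    (A B : Type) [Fintype A] [DecidableEq A] [Fintype B] [DecidableEq B]
    (e : Matrix (A ⊕ B) (A ⊕ B) L) (hee : e * e = e) (he : e.map eps = fromBlocks 1 0 0 0) :
    ∃ (s : ℕ) (X : Matrix ((A ⊕ B) ⊕ Fin s) (A ⊕ Fin s) L)
      (Y : Matrix (A ⊕ Fin s) ((A ⊕ B) ⊕ Fin s) L), X * Y = fromBlocks e 0 0 1 ∧ Y * X = 1 := by
  obtain ⟨D⟩ := exists_k0 L
  have hcls : D.cls (LinearMap.range (Matrix.vecMulLinear e)) = 1 := by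
    set P := LinearMap.range (Matrix.vecMulLinear e) with hPdef
    let sP : (A ⊕ B → L) →ₗ[L] P := (Matrix.vecMulLinear e).rangeRestrict
    have hPe : ∀ x ∈ P, Matrix.vecMul x e = x := by
      rintro _ ⟨x, rfl⟩
      change Matrix.vecMul (Matrix.vecMul x e) e = Matrix.vecMul x e
      rw [Matrix.vecMul_vecMul, hee]
    have h1 : sP.comp P.subtype = LinearMap.id := by
      ext x
      exact congrFun (hPe x x.2) _
    have i1 : Module.Projective L P := Module.Projective.of_split P.subtype sP h1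
    have i2 : Module.Finite L P := Module.Finite.of_surjective sP
      (fun y => ⟨y, LinearMap.congr_fun h1 y⟩)
    obtain ⟨a, b, ⟨φ⟩⟩ := hP P
    have i3 : FGP L (Fin a → L) := ⟨inferInstance, inferInstance⟩
    have i4 : FGP L (P × (Fin a → L)) := ⟨inferInstance, inferInstance⟩
    have h2 := D.cls_iso _ _ i4 φ
    rw [D.cls_prod _ _ ⟨i2, i1⟩ i3, D.cls_free, D.cls_free, mul_one] at h2
    exact h2
  obtain ⟨a, b, X, Y, h4, h5⟩ := sfm L _ D e hee hcls
  have hcard := PtTwoCard ((gr LL (1 : C →* LL) : MonoidAlgebra LL C →+* LL).comp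
    (eps : L →+* MonoidAlgebra LL C)) e (by
      have : e.map ((gr LL (1 : C →* LL) : MonoidAlgebra LL C →+* LL).comp
          (eps : L →+* MonoidAlgebra LL C)) = (e.map eps).map (gr LL (1 : C →* LL)) := rfl
      rw [this, he, fromBlocks_map, Matrix.map_zero _ (map_zero _), Matrix.map_zero _ (map_zero _),
        Matrix.map_zero _ (map_zero _), Matrix.map_one _ (map_zero _) (map_one _)]) X Y h4 h5
  let w : Fin b ≃ A ⊕ Fin a := Fintype.equivOfCardEq hcard.symm
  refine ⟨a, X.submatrix id w.symm, Y.submatrix w.symm id, ?_, ?_⟩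
  · rw [submatrix_mul_equiv, h4]
    rfl
  · have : Y.submatrix w.symm id * X.submatrix id w.symm = (Y * X).submatrix w.symm w.symm := by
      rw [← submatrix_mul_equiv Y X w.symm (Equiv.refl _) w.symm]
      rfl
    rw [this, h5, submatrix_one_equiv]

/-- **Patching.** `L ⊂ T` is an algebra with an augmentation `eps` to the group algebra of `C`,
whose augmentation ideal is a right ideal of `T` and generates the kernel of `π : T → Q` as a
two-sided ideal. If the finitely generated projective modules over `L` are stably free, `K_1(Q)`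
is generated by the image of `K_1(T)`. -/
theorem patch_sf (LL C L T Q : Type) [CommRing LL] [Nontrivial LL] [Group C] [Ring L]
    [Algebra LL L] [Ring T] [Algebra LL T] [Ring Q] [Algebra LL Q] (ρ : C →* L)
    (eps : L →ₐ[LL] MonoidAlgebra LL C) (emb : L →ₐ[LL] T) (π : T →ₐ[LL] Q)
    (heps : ∀ x, eps (gr LL ρ x) = x) (hP : ProjSF L)
    (hinj : Function.Injective emb) (hsurj : Function.Surjective π)
    (h1 : ∀ x, eps x = 0 → ∀ t, ∃ x', eps x' = 0 ∧ emb x * t = emb x')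
    (h2 : ∀ x, eps x = 0 → π (emb x) = 0)
    (h3 : ∀ t, π t = 0 → t ∈ AddSubgroup.closure {z | ∃ s, ∃ x, eps x = 0 ∧ z = s * emb x}) :
    KT (π : T →+* Q) := by
  intro K _ κ hκ m _ _ A hA
  have h := κ.reindex (Fintype.equivFin m) A hA
  rw [← h]
  refine pt_fin expl LL C L T Q ρ eps emb π heps
    (fun A B _ _ _ _ e hee he => pt_rel eps hP A B e hee he) hinj hsurj h1 h2 h3 K κ hκ _ _ ?_
  exact hA.map (Matrix.reindexRingEquiv Q (Fintype.equivFin m)).toRingHom

end Pool.Agent.Cx2
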