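import Pool.Agent.Lib.MP_8f66f0_al_Cx.SpecC

/-! Part C, module Pi: the map `Pi` and its kernel (helper56). -/

set_option autoImplicit false

namespace Pool.Agent.Cx2

open Pool.Agent.Wald Pool.Agent.Hier

section PiSec

variable {G V C : Type} [Group G] [MulAction G V] [MulAction G C] (X : Cx G V C)
  (k : Type) [CommRing k]

private theorem pi_of_mem (K : Set C) (o : V) (h : X.HH) (hh : h ∈ X.G1 o) :
    X.Pi k K o (MonoidAlgebra.of k X.HH h) =
      MonoidAlgebra.of k (X.GK K o) (QuotientGroup.mk (⟨h, hh⟩ : X.G1 o)) := by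
  unfold Cx.Pi
  rw [LinearMap.comp_apply]
  have h1 : (MonoidAlgebra.coeffLinearEquiv k).toLinearMap (MonoidAlgebra.of k X.HH h) =
      Finsupp.single h (1 : k) := rfl
  rw [h1, Finsupp.lsum_single, dif_pos hh, LinearMap.toSpanSingleton_apply, one_smul]

private theorem pi_of_not (K : Set C) (o : V) (h : X.HH) (hh : h ∉ X.G1 o) :
    X.Pi k K o (MonoidAlgebra.of k X.HH h) = 0 := by
  unfold Cx.Pi
  rw [LinearMap.comp_apply]
  have h1 : (MonoidAlgebra.coeffLinearEquiv k).toLinearMap (MonoidAlgebra.of k X.HH h) =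
      Finsupp.single h (1 : k) := rfl
  rw [h1, Finsupp.lsum_single, dif_neg hh, LinearMap.zero_apply]

/-- induction over the group elements -/
private theorem pi_ind {M : Type} [Monoid M] {p : MonoidAlgebra k M → Prop}
    (x : MonoidAlgebra k M) (h1 : ∀ m, p (MonoidAlgebra.of k M m))
    (h2 : ∀ x y, p x → p y → p (x + y)) (h3 : ∀ (a : k) x, p x → p (a • x)) : p x := by
  refine MonoidAlgebra.induction_on x h1 h2 h3

private theorem pi_arr_mul {u v w : V} {h h' : X.HH} (hh : h ∈ X.Arr u v)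
    (hh' : h' ∈ X.Arr v w) : h * h' ∈ X.Arr u w := by
  change X.IsP u ((h.right * h'.right) • w) (h.left * X.φ h.right h'.left)
  rw [mul_smul]
  exact Cx.IsP.mul hh (Cx.IsP.smul hh' h.right)

private theorem pi_arr_inl {u v : V} {w : X.FG} (hw : X.IsP u v w) :
    (SemidirectProduct.inl w : X.HH) ∈ X.Arr u v := by
  change X.IsP u ((1 : G) • v) w
  rw [one_smul]
  exact hw

private theorem pi_arr_inr {u v : V} (g : G) {h : X.HH} (hh : h ∈ X.Arr u v) :
    (SemidirectProduct.inr g : X.HH) * h ∈ X.Arr (g • u) v := by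
  change X.IsP (g • u) ((g * h.right) • v) (1 * X.φ g h.left)
  rw [one_mul, mul_smul]
  exact Cx.IsP.smul hh g

private theorem pi_ar_mul {u v w : V} {x y : MonoidAlgebra k X.HH} (hx : x ∈ X.Ar k u v)
    (hy : y ∈ X.Ar k v w) : x * y ∈ X.Ar k u w := by
  unfold Cx.Ar at hx hy ⊢
  refine Submodule.span_induction (p := fun x _ => x * y ∈ _) ?_ ?_ ?_ ?_ hx
  · rintro _ ⟨h, hh, rfl⟩
    refine Submodule.span_induction (p := fun y _ => _ * y ∈ _) ?_ ?_ ?_ ?_ hy
    · rintro _ ⟨h', hh', rfl⟩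
      refine Submodule.subset_span ⟨h * h', pi_arr_mul X hh hh', ?_⟩
      exact map_mul _ _ _
    · rw [mul_zero]
      exact Submodule.zero_mem _
    · intro a b _ _ ha hb
      rw [mul_add]
      exact Submodule.add_mem _ ha hb
    · intro a b _ hb
      rw [mul_smul_comm]
      exact Submodule.smul_mem _ a hb
  · rw [zero_mul]
    exact Submodule.zero_mem _
  · intro a b _ _ ha hb
    rw [add_mul]
    exact Submodule.add_mem _ ha hb
  · intro a b _ hb
    rw [smul_mul_assoc]
    exact Submodule.smul_mem _ a hb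

/-- left stability of `Kl` -/
private theorem pi_kl_left {K : Set C} (hK : ∀ (g : G), ∀ c ∈ K, g • c ∈ K) {u v w : V}
    {h : X.HH} (hh : h ∈ X.Arr u v) {x : MonoidAlgebra k X.HH} (hx : x ∈ X.Kl k K v w) :
    MonoidAlgebra.of k X.HH h * x ∈ X.Kl k K u w := by
  unfold Cx.Kl at hx ⊢
  refine Submodule.span_induction (p := fun x _ => _ * x ∈ _) ?_ ?_ ?_ ?_ hx
  · rintro _ ⟨c, hc, w', hw', h', hh', rfl⟩
    refine Submodule.subset_span ⟨h.right • c, hK _ _ hc, h.left * X.φ h.right w', ?_,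
      SemidirectProduct.inr h.right * h', ?_, ?_⟩
    · rw [X.bv_smul]
      exact Cx.IsP.mul hh (Cx.IsP.smul hw' h.right)
    · rw [X.bv_smul]
      exact pi_arr_inr X h.right hh'
    · unfold Cx.pa
      have e1 : (h * SemidirectProduct.inl w' : X.HH) =
          SemidirectProduct.inl (h.left * X.φ h.right w') * SemidirectProduct.inr h.right := by
        refine SemidirectProduct.ext ?_ ?_
        · simp
        · simp
      have e2 : (SemidirectProduct.inr h.right * SemidirectProduct.inl (X.r c) : X.HH) =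
          SemidirectProduct.inl (X.r (h.right • c)) * SemidirectProduct.inr h.right := by
        rw [← X.φ_r]
        refine SemidirectProduct.ext ?_ ?_
        · simp
        · simp
      have e3 : MonoidAlgebra.of k X.HH h * MonoidAlgebra.of k X.HH (SemidirectProduct.inl w') =
          MonoidAlgebra.of k X.HH (SemidirectProduct.inl (h.left * X.φ h.right w')) *
            MonoidAlgebra.of k X.HH (SemidirectProduct.inr h.right) := by
        rw [← map_mul, ← map_mul, e1]
      have e4 : MonoidAlgebra.of k X.HH (SemidirectProduct.inr h.right) *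
            (MonoidAlgebra.of k X.HH (SemidirectProduct.inl (X.r c)) - 1) =
          (MonoidAlgebra.of k X.HH (SemidirectProduct.inl (X.r (h.right • c))) - 1) *
            MonoidAlgebra.of k X.HH (SemidirectProduct.inr h.right) := by
        rw [mul_sub, sub_mul, ← map_mul, ← map_mul, e2, mul_one, one_mul]
      rw [map_mul (MonoidAlgebra.of k X.HH) (SemidirectProduct.inr h.right) h', ← mul_assoc,
        ← mul_assoc, e3, mul_assoc (MonoidAlgebra.of k X.HH _)
          (MonoidAlgebra.of k X.HH (SemidirectProduct.inr h.right)), e4, ← mul_assoc, ← mul_assoc]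
  · rw [mul_zero]
    exact Submodule.zero_mem _
  · intro a b _ _ ha hb
    rw [mul_add]
    exact Submodule.add_mem _ ha hb
  · intro a b _ hb
    rw [mul_smul_comm]
    exact Submodule.smul_mem _ a hb

/-- the subgroup of the elements which act trivially modulo `Kl` -/
private def piJ (K : Set C) (o : V) : Subgroup (X.G1 o) where
  carrier := {n | ∀ y : X.G1 o, MonoidAlgebra.of k X.HH (n * y : X.G1 o).1 -
    MonoidAlgebra.of k X.HH y.1 ∈ X.Kl k K o o}
  one_mem' := by
    intro y
    rw [one_mul, sub_self]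
    exact Submodule.zero_mem _
  mul_mem' := by
    intro a b ha hb y
    have h1 := Submodule.add_mem _ (ha (b * y)) (hb y)
    rw [sub_add_sub_cancel, ← mul_assoc] at h1
    exact h1
  inv_mem' := by
    intro a ha y
    have h1 := Submodule.neg_mem _ (ha (a⁻¹ * y))
    rw [neg_sub, mul_inv_cancel_left] at h1
    exact h1

private theorem piJ_normal {K : Set C} (hK : ∀ (g : G), ∀ c ∈ K, g • c ∈ K) (o : V) :
    (piJ X k K o).Normal := by
  constructor
  intro n hn g y
  have h1 := hn (g⁻¹ * y)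
  have h2 := pi_kl_left X k hK (show (g : X.HH) ∈ X.Arr o o from g.2) h1
  rw [mul_sub, ← map_mul, ← map_mul] at h2
  have e1 : (g : X.HH) * (n * (g⁻¹ * y) : X.G1 o).1 = ((g * n * g⁻¹ * y : X.G1 o)).1 := by
    rw [← Subgroup.coe_mul]
    congr 1
    group
  have e2 : (g : X.HH) * (g⁻¹ * y : X.G1 o).1 = y.1 := by
    rw [← Subgroup.coe_mul, mul_inv_cancel_left]
  rw [e1, e2] at h2
  exact h2

private theorem piJ_NK {K : Set C} (hK : ∀ (g : G), ∀ c ∈ K, g • c ∈ K) (o : V) :
    X.NK K o ≤ piJ X k K o := by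
  have hN := piJ_normal X k hK o
  unfold Cx.NK
  refine Subgroup.normalClosure_le_normal ?_
  rintro x ⟨c, hc, w, hw, hx⟩ y
  refine Submodule.subset_span ⟨c, hc, w, hw, SemidirectProduct.inl w⁻¹ * y.1, ?_, ?_⟩
  · exact pi_arr_mul X (pi_arr_inl X hw.inv) y.2
  · unfold Cx.pa
    have e1 : (SemidirectProduct.inl (w * X.r c * w⁻¹) * y.1 : X.HH) =
        SemidirectProduct.inl w * SemidirectProduct.inl (X.r c) *
          (SemidirectProduct.inl w⁻¹ * y.1) := by
      rw [map_mul, map_mul, mul_assoc (SemidirectProduct.inl w * SemidirectProduct.inl (X.r c))]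
    have e2 : (SemidirectProduct.inl w * (SemidirectProduct.inl w⁻¹ * y.1) : X.HH) = y.1 := by
      rw [← mul_assoc, ← map_mul, mul_inv_cancel, map_one, one_mul]
    rw [Subgroup.coe_mul, hx, mul_sub, sub_mul, mul_one,
      ← map_mul (MonoidAlgebra.of k X.HH) (SemidirectProduct.inl w),
      ← map_mul (MonoidAlgebra.of k X.HH) (SemidirectProduct.inl w * _),
      ← map_mul (MonoidAlgebra.of k X.HH) (SemidirectProduct.inl w), e2, ← e1]

private theorem pi_kl_zero (K : Set C) (o : V) {x : MonoidAlgebra k X.HH}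
    (hx : x ∈ X.Kl k K o o) : X.Pi k K o x = 0 := by
  unfold Cx.Kl at hx
  refine Submodule.span_induction (p := fun x _ => X.Pi k K o x = 0) ?_ ?_ ?_ ?_ hx
  · rintro _ ⟨c, hc, w, hw, h, hh, rfl⟩
    unfold Cx.pa
    rw [mul_sub, sub_mul, mul_one, ← map_mul (MonoidAlgebra.of k X.HH) (SemidirectProduct.inl w),
      ← map_mul (MonoidAlgebra.of k X.HH) (SemidirectProduct.inl w * _),
      ← map_mul (MonoidAlgebra.of k X.HH) (SemidirectProduct.inl w), map_sub]
    have h1 : (SemidirectProduct.inl w * h : X.HH) ∈ X.G1 o := pi_arr_mul X (pi_arr_inl X hw) hh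
    have h2 : (SemidirectProduct.inl w * SemidirectProduct.inl (X.r c) * h : X.HH) ∈ X.G1 o :=
      pi_arr_mul X (pi_arr_mul X (pi_arr_inl X hw) (pi_arr_inl X (X.isP_r c))) hh
    rw [pi_of_mem X k K o _ h1, pi_of_mem X k K o _ h2, sub_eq_zero]
    congr 1
    rw [eq_comm, QuotientGroup.eq]
    -- `(w h)⁻¹ (w r h) ∈ NK`
    have h3 : (SemidirectProduct.inl (w * X.r c * w⁻¹) : X.HH) ∈ X.G1 o := by
      exact pi_arr_inl X ((hw.mul (X.isP_r c)).mul hw.inv)
    have h4 : (⟨_, h3⟩ : X.G1 o) ∈ X.NK K o :=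
      Subgroup.subset_normalClosure ⟨c, hc, w, hw, rfl⟩
    have h5 := (inferInstance : (X.NK K o).Normal).conj_mem _ h4 (⟨_, h1⟩ : X.G1 o)⁻¹
    have e0 : (⟨_, h2⟩ : X.G1 o) = ⟨_, h3⟩ * ⟨_, h1⟩ := by
      apply Subtype.ext
      show SemidirectProduct.inl w * SemidirectProduct.inl (X.r c) * h =
        SemidirectProduct.inl (w * X.r c * w⁻¹) * (SemidirectProduct.inl w * h)
      rw [← mul_assoc, ← map_mul, ← map_mul, inv_mul_cancel_right]
    have e1 : (⟨_, h1⟩ : X.G1 o)⁻¹ * ⟨_, h2⟩ =
        (⟨_, h1⟩ : X.G1 o)⁻¹ * ⟨_, h3⟩ * ((⟨_, h1⟩ : X.G1 o)⁻¹)⁻¹ := by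
      rw [e0, inv_inv]
      exact (mul_assoc _ _ _).symm
    rw [e1]
    exact h5
  · exact map_zero _
  · intro a b _ _ ha hb
    rw [map_add, ha, hb, add_zero]
  · intro a b _ hb
    rw [map_smul, hb, smul_zero]

/-- the section -/
private noncomputable def piS (K : Set C) (o : V) :
    MonoidAlgebra k (X.GK K o) →ₗ[k] MonoidAlgebra k X.HH :=
  (Finsupp.lsum k fun q : X.GK K o => LinearMap.toSpanSingleton k _
    (MonoidAlgebra.of k X.HH (Quotient.out q : X.G1 o).1)) ∘ₗ
    (MonoidAlgebra.coeffLinearEquiv k).toLinearMap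

private theorem piS_of (K : Set C) (o : V) (q : X.GK K o) :
    piS X k K o (MonoidAlgebra.of k (X.GK K o) q) =
      MonoidAlgebra.of k X.HH (Quotient.out q : X.G1 o).1 := by
  unfold piS
  rw [LinearMap.comp_apply]
  have h1 : (MonoidAlgebra.coeffLinearEquiv k).toLinearMap (MonoidAlgebra.of k (X.GK K o) q) =
      Finsupp.single q (1 : k) := rfl
  rw [h1, Finsupp.lsum_single, LinearMap.toSpanSingleton_apply, one_smul]

private theorem pi_sec {K : Set C} (hK : ∀ (g : G), ∀ c ∈ K, g • c ∈ K) (o : V)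
    {x : MonoidAlgebra k X.HH} (hx : x ∈ X.Ar k o o) :
    x - piS X k K o (X.Pi k K o x) ∈ X.Kl k K o o := by
  unfold Cx.Ar at hx
  refine Submodule.span_induction
    (p := fun x _ => x - piS X k K o (X.Pi k K o x) ∈ X.Kl k K o o) ?_ ?_ ?_ ?_ hx
  · rintro _ ⟨h, hh, rfl⟩
    change MonoidAlgebra.of k X.HH h - piS X k K o (X.Pi k K o (MonoidAlgebra.of k X.HH h)) ∈ _
    rw [pi_of_mem X k K o h hh, piS_of]
    set h' : X.G1 o := Quotient.out (QuotientGroup.mk (⟨h, hh⟩ : X.G1 o) : X.GK K o) with hd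
    have h1 : (QuotientGroup.mk h' : X.GK K o) = QuotientGroup.mk (⟨h, hh⟩ : X.G1 o) :=
      Quotient.out_eq' _
    rw [QuotientGroup.eq] at h1
    have h2 := (inferInstance : (X.NK K o).Normal).conj_mem _ h1 h'
    rw [← mul_assoc, mul_inv_cancel, one_mul] at h2
    have h3 := piJ_NK X k hK o h2 h'
    rw [inv_mul_cancel_right] at h3
    exact h3
  · rw [map_zero, map_zero, sub_zero]
    exact Submodule.zero_mem _
  · intro a b _ _ ha hb
    rw [map_add, map_add, add_sub_add_comm]
    exact Submodule.add_mem _ ha hb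
  · intro a b _ hb
    rw [map_smul, map_smul, ← smul_sub]
    exact Submodule.smul_mem _ a hb

end PiSec

theorem pi_all : S_pi := by
  intro G V C _ _ _ X k _ K o hK
  refine ⟨fun h => pi_of_mem X k K o h.1 h.2, ?_, ?_, fun u v w x y hx hy => pi_ar_mul X k hx hy,
    fun x hx => pi_kl_zero X k K o hx, ?_⟩
  · intro x y hx
    unfold Cx.Ar at hx
    refine Submodule.span_induction
      (p := fun x _ => X.Pi k K o (x * y) = X.Pi k K o x * X.Pi k K o y) ?_ ?_ ?_ ?_ hx
    · rintro _ ⟨h, hh, rfl⟩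
      change X.Pi k K o (MonoidAlgebra.of k X.HH h * y) =
        X.Pi k K o (MonoidAlgebra.of k X.HH h) * X.Pi k K o y
      refine pi_ind k (p := fun y => X.Pi k K o (MonoidAlgebra.of k X.HH h * y) =
        X.Pi k K o (MonoidAlgebra.of k X.HH h) * X.Pi k K o y) y ?_ ?_ ?_
      · intro h'
        have hh1 : h ∈ X.G1 o := hh
        rw [← map_mul]
        by_cases hh' : h' ∈ X.G1 o
        · rw [pi_of_mem X k K o h hh1, pi_of_mem X k K o h' hh',
            pi_of_mem X k K o (h * h') ((X.G1 o).mul_mem hh1 hh'), ← map_mul]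
          rfl
        · rw [pi_of_not X k K o h' hh', mul_zero, pi_of_not X k K o (h * h')]
          intro h1
          exact hh' ((Subgroup.mul_mem_cancel_left _ hh1).1 h1)
      · intro a b ha hb
        rw [mul_add, map_add, ha, hb, map_add, mul_add]
      · intro a b hb
        rw [mul_smul_comm, map_smul, hb, map_smul, mul_smul_comm]
    · rw [zero_mul, map_zero, zero_mul]
    · intro a b _ _ ha hb
      rw [add_mul, map_add, ha, hb, map_add, add_mul]
    · intro a b _ hb
      rw [smul_mul_assoc, map_smul, hb, map_smul, smul_mul_assoc]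
  · intro t
    refine pi_ind k (p := fun t => ∃ x ∈ X.Ar k o o, X.Pi k K o x = t) t ?_ ?_ ?_
    · intro q
      obtain ⟨h, rfl⟩ := QuotientGroup.mk_surjective q
      exact ⟨MonoidAlgebra.of k X.HH h.1, Submodule.subset_span ⟨h.1, h.2, rfl⟩,
        pi_of_mem X k K o h.1 h.2⟩
    · rintro a b ⟨x, hx, rfl⟩ ⟨y, hy, rfl⟩
      exact ⟨x + y, Submodule.add_mem _ hx hy, map_add _ _ _⟩
    · rintro a b ⟨x, hx, rfl⟩
      exact ⟨a • x, Submodule.smul_mem _ a hx, map_smul _ _ _⟩
  · intro x hx h0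
    have h1 := pi_sec X k hK o hx
    rw [h0, map_zero, sub_zero] at h1
    exact h1

end Pool.Agent.Cx2
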