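import Pool.Agent.Lib.MP_8f66f0_al_Hier.BlkD
import Pool.Agent.Lib.MP_8f66f0_al_Hier.Hom
import Pool.Agent.Lib.MP_8f66f0_al_Ind.PSF
import Pool.Agent.Lib.MP_8f66f0_al_Ind.LaurVal
import Pool.Agent.Lib.MP_8f66f0_al_WaldL.KK

/-!
MP_8f66f0_al, Theorem 2D, module Psf (helper13): finitely generated projective modules over an
algebra with block data over a group with `SS` and `KK` are stably free.
-/

set_option autoImplicit false

namespace Pool.Agent.Cx2

open Pool.Agent.Wald Pool.Agent.Ind Pool.Agent.Hier Pool.Agent.WaldL Matrix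
open scoped TensorProduct

/-- The pull back of an invariant along a ring homomorphism. -/
private def psPull {Λ Λ' : Type} [Ring Λ] [Ring Λ'] (φ : Λ →+* Λ') {K : Type} [CommGroup K]
    (κ : K1Fun Λ' K) : K1Fun Λ K where
  f := fun {n} _ _ A => κ.f (A.map φ)
  mul := fun {n} _ _ A B hA hB => by
    rw [Matrix.map_mul]
    exact κ.mul _ _ (hA.map φ.mapMatrix) (hB.map φ.mapMatrix)
  reindex := fun {n m} _ _ _ _ e A hA => by
    have h := κ.reindex e (A.map φ) (hA.map φ.mapMatrix)
    exact h
  tri := fun {n m} _ _ _ _ A B D hA hD => by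
    rw [Matrix.fromBlocks_map, Matrix.map_zero _ (map_zero φ)]
    exact κ.tri _ _ _ (hA.map φ.mapMatrix) (hD.map φ.mapMatrix)

private theorem ps_of_mul {Λ : Type} [Ring Λ] (a b : Λ) :
    (Matrix.of fun _ _ : Fin 1 => a) * (Matrix.of fun _ _ : Fin 1 => b) =
      Matrix.of fun _ _ : Fin 1 => a * b := by
  ext i j
  rw [Matrix.mul_apply]
  simp

private theorem ps_isUnit_of {Λ : Type} [Ring Λ] {a b : Λ} (h : a * b = 1) (h' : b * a = 1) :
    IsUnit (Matrix.of fun _ _ : Fin 1 => a) := by
  have h1 : (Matrix.of fun _ _ : Fin 1 => (1 : Λ)) = 1 := by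
    ext i j
    rw [Subsingleton.elim i j, Matrix.one_apply_eq]
    rfl
  refine ⟨⟨_, Matrix.of fun _ _ : Fin 1 => b, ?_, ?_⟩, rfl⟩
  · rw [ps_of_mul, h, h1]
  · rw [ps_of_mul, h', h1]

/-- Powers of `y` are killed if `y` is killed. -/
private theorem ps_kill_y {T : Type} [Ring T] {K : Type} [CommGroup K]
    (κ : K1Fun (LaurentSeries T) K)
    (hy : κ.f (Matrix.of fun _ _ : Fin 1 => (HahnSeries.single 1 1 : LaurentSeries T)) = 1)
    (k : ℤ) :
    κ.f (Matrix.of fun _ _ : Fin 1 => (HahnSeries.single k 1 : LaurentSeries T)) = 1 := by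
  have hu : ∀ k : ℤ, IsUnit (Matrix.of fun _ _ : Fin 1 =>
      (HahnSeries.single k 1 : LaurentSeries T)) := by
    intro k
    apply ps_isUnit_of (b := HahnSeries.single (-k) 1)
    · rw [HahnSeries.single_mul_single, add_neg_cancel, one_mul]
      rfl
    · rw [HahnSeries.single_mul_single, neg_add_cancel, one_mul]
      rfl
  have h0 : κ.f (Matrix.of fun _ _ : Fin 1 => (HahnSeries.single 0 1 : LaurentSeries T)) = 1 := by
    have h1 : (Matrix.of fun _ _ : Fin 1 => (HahnSeries.single 0 1 : LaurentSeries T)) = 1 := by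
      ext i j : 2
      rw [Subsingleton.elim i j, Matrix.one_apply_eq]
      rfl
    rw [h1]
    exact κ.f_one
  have hadd : ∀ k l : ℤ,
      κ.f (Matrix.of fun _ _ : Fin 1 => (HahnSeries.single (k + l) 1 : LaurentSeries T)) =
      κ.f (Matrix.of fun _ _ : Fin 1 => (HahnSeries.single k 1 : LaurentSeries T)) *
        κ.f (Matrix.of fun _ _ : Fin 1 => (HahnSeries.single l 1 : LaurentSeries T)) := by
    intro k l
    rw [← κ.mul _ _ (hu k) (hu l), ps_of_mul, HahnSeries.single_mul_single, one_mul]
  induction k with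
  | zero => exact h0
  | succ n ih => rw [hadd, ih, hy, one_mul]
  | pred n ih =>
    have h1 := hadd (-(n : ℤ) - 1) 1
    rw [sub_add_cancel, ih, hy, mul_one] at h1
    exact h1.symm

private theorem ps_inv {Λ : Type} [Ring Λ] {n : Type} [Fintype n] [DecidableEq n]
    {P : Matrix n n Λ} (hP : P * P = P) {y yi : Λ} (hy : ∀ q, y * q = q * y)
    (h : y * yi = 1) :
    (1 - P + P.map fun q => q * y) * (1 - P + P.map fun q => q * yi) = 1 := by
  have e1 : ∀ (A B : Matrix n n Λ) (c : Λ), A * (B.map fun q => q * c) =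
      (A * B).map fun q => q * c := by
    intro A B c
    ext i j
    rw [Matrix.map_apply, Matrix.mul_apply, Matrix.mul_apply, Finset.sum_mul]
    apply Finset.sum_congr rfl
    intro k _
    rw [Matrix.map_apply, mul_assoc]
  have e2 : ∀ (A B : Matrix n n Λ), (A.map fun q => q * y) * B =
      (A * B).map fun q => q * y := by
    intro A B
    ext i j
    rw [Matrix.map_apply, Matrix.mul_apply, Matrix.mul_apply, Finset.sum_mul]
    apply Finset.sum_congr rfl
    intro k _
    rw [Matrix.map_apply, mul_assoc, hy, mul_assoc]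
  have e3 : ((P.map fun q => q * y).map fun q => q * yi) = P := by
    ext i j
    rw [Matrix.map_apply, Matrix.map_apply, mul_assoc, h, mul_one]
  have e4 : (1 - P) * P = 0 := by rw [Matrix.sub_mul, Matrix.one_mul, hP, sub_self]
  have e5 : P * (1 - P) = 0 := by rw [Matrix.mul_sub, Matrix.mul_one, hP, sub_self]
  have e6 : (1 - P) * (1 - P) = 1 - P := by
    rw [Matrix.mul_sub, Matrix.mul_one, e4, sub_zero]
  have e7 : ∀ c : Λ, (0 : Matrix n n Λ).map (fun q => q * c) = 0 := by
    intro c
    ext i j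
    rw [Matrix.map_apply, Matrix.zero_apply, zero_mul]
  rw [Matrix.add_mul, Matrix.mul_add, Matrix.mul_add, e6, e1, e4, e7, e2, e5, e7, e1, e2, hP, e3,
    add_zero, zero_add, sub_add_cancel]

/-- If `K_1` of the group algebra of `C` over Laurent series is generated by trivial units, and
`K_1` of `LL((y)) ⊗ L` by the image of this `K_1`, then finitely generated projective modules over
`L` are stably free. -/
theorem psf_of_kt {LL C L : Type} [CommRing LL] [IsDomain LL] [Group C] [Ring L] [Algebra LL L]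
    (ρ : C →* L)
    (hKT : KT (gr (Lau LL) (bch LL (Lau LL) ρ) : MonoidAlgebra (Lau LL) C →+* Lau LL ⊗[LL] L))
    (hW : WhTL (Lau LL) C) : ProjSF L := by
  obtain ⟨v, hvy, hvyi, hvP⟩ := exists_val L
  obtain ⟨φ, hφ⟩ := hom LL L
  apply projSF_of_val v
  intro K _ κ hκy hκu n p hp
  rw [hvy] at hκy
  -- trivial units are killed
  have hkill : ∀ (g : C) (u : (Lau LL)ˣ),
      κ.f (Matrix.of fun _ _ : Fin 1 => φ ((u : Lau LL) ⊗ₜ[LL] ρ g)) = 1 := by
    intro g u
    let u' : (LaurentSeries LL)ˣ := u
    set k : ℤ := (u' : LaurentSeries LL).order with hk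
    have hu0 : (u' : LaurentSeries LL) ≠ 0 := u'.ne_zero
    have hui0 : ((u'⁻¹ : (LaurentSeries LL)ˣ) : LaurentSeries LL) ≠ 0 := u'⁻¹.ne_zero
    have hord : ((u'⁻¹ : (LaurentSeries LL)ˣ) : LaurentSeries LL).order = -k := by
      have h1 := HahnSeries.order_mul hu0 hui0
      rw [u'.mul_inv, HahnSeries.order_one] at h1
      omega
    set a : LaurentSeries L := φ ((show Lau LL from (u' : LaurentSeries LL)) ⊗ₜ[LL] ρ g) with ha
    set a' : LaurentSeries L := φ ((show Lau LL from ((u'⁻¹ : (LaurentSeries LL)ˣ) :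
      LaurentSeries LL)) ⊗ₜ[LL] ρ g⁻¹) with ha'
    have hw : HahnSeries.single (-k) 1 * a ∈ v.P := by
      rw [hvP]
      intro i hi
      have h1 := HahnSeries.coeff_single_mul_add (r := (1 : L)) (x := a) (a := i + k) (b := -k)
      rw [add_neg_cancel_right, one_mul] at h1
      rw [h1, ha, hφ, HahnSeries.coeff_eq_zero_of_lt_order (by omega), zero_smul]
    have hwi : a' * HahnSeries.single k 1 ∈ v.P := by
      rw [hvP]
      intro i hi
      have h1 := HahnSeries.coeff_mul_single_add (r := (1 : L)) (x := a') (a := i - k) (b := k)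
      rw [sub_add_cancel, mul_one] at h1
      rw [h1, ha', hφ, HahnSeries.coeff_eq_zero_of_lt_order (by omega), zero_smul]
    have hs1 : (HahnSeries.single k 1 : LaurentSeries L) *
        HahnSeries.single (-k) 1 = 1 := by
      rw [HahnSeries.single_mul_single, add_neg_cancel, one_mul]
      rfl
    have hs2 : (HahnSeries.single (-k) 1 : LaurentSeries L) *
        HahnSeries.single k 1 = 1 := by
      rw [HahnSeries.single_mul_single, neg_add_cancel, one_mul]
      rfl
    have hf1 : a * a' = 1 := by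
      rw [ha, ha', ← map_mul, Algebra.TensorProduct.tmul_mul_tmul, ← map_mul, mul_inv_cancel,
        map_one]
      have : (show Lau LL from (u' : LaurentSeries LL)) *
          (show Lau LL from ((u'⁻¹ : (LaurentSeries LL)ˣ) : LaurentSeries LL)) = 1 := u'.mul_inv
      rw [this]
      exact map_one φ
    have hf2 : a' * a = 1 := by
      rw [ha, ha', ← map_mul, Algebra.TensorProduct.tmul_mul_tmul, ← map_mul, inv_mul_cancel,
        map_one]
      have : (show Lau LL from ((u'⁻¹ : (LaurentSeries LL)ˣ) : LaurentSeries LL)) *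
          (show Lau LL from (u' : LaurentSeries LL)) = 1 := u'.inv_mul
      rw [this]
      exact map_one φ
    have hm1 : (HahnSeries.single (-k) 1 * a) * (a' * HahnSeries.single k 1) = 1 := by
      rw [mul_assoc, ← mul_assoc a a', hf1, one_mul, hs2]
    have hm2 : (a' * HahnSeries.single k 1) * (HahnSeries.single (-k) 1 * a) = 1 := by
      rw [mul_assoc, ← mul_assoc (HahnSeries.single k 1), hs1, one_mul, hf2]
    have e1 := hκu _ _ hw hwi hm1 hm2
    change κ.f (Matrix.of fun _ _ : Fin 1 => a) = 1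
    have e3 : (Matrix.of fun _ _ : Fin 1 => a) =
        (Matrix.of fun _ _ : Fin 1 => (HahnSeries.single k 1 : LaurentSeries L)) *
          (Matrix.of fun _ _ : Fin 1 => HahnSeries.single (-k) 1 * a) := by
      rw [ps_of_mul, ← mul_assoc, hs1, one_mul]
    rw [e3, κ.mul _ _ (ps_isUnit_of hs1 hs2) (ps_isUnit_of hm1 hm2), e1,
      ps_kill_y κ hκy, one_mul]
  -- the pull back to `LL((y)) ⊗ L` is trivial
  have hall : ∀ (m : Type) [Fintype m] [DecidableEq m] (A : Matrix m m (Lau LL ⊗[LL] L)),
      IsUnit A → (psPull φ κ).f A = 1 := by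
    refine hKT K (psPull φ κ) ?_
    intro m _ _ A hA
    have h1 := hW K (psPull (gr (Lau LL) (bch LL (Lau LL) ρ) :
      MonoidAlgebra (Lau LL) C →+* Lau LL ⊗[LL] L) (psPull φ κ)) (by
        intro g u
        change κ.f (((Matrix.of fun _ _ : Fin 1 =>
          (MonoidAlgebra.single g (u : Lau LL) : MonoidAlgebra (Lau LL) C)).map _).map φ) = 1
        have h2 : ((Matrix.of fun _ _ : Fin 1 =>
            (MonoidAlgebra.single g (u : Lau LL) : MonoidAlgebra (Lau LL) C)).map
              (gr (Lau LL) (bch LL (Lau LL) ρ) :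
                MonoidAlgebra (Lau LL) C →+* Lau LL ⊗[LL] L)).map φ =
            Matrix.of fun _ _ : Fin 1 => φ ((u : Lau LL) ⊗ₜ[LL] ρ g) := by
          apply Matrix.ext
          intro i j
          rw [Matrix.map_apply, Matrix.map_apply, Matrix.of_apply, Matrix.of_apply]
          refine congrArg φ ?_
          change MonoidAlgebra.lift (Lau LL) _ C (bch LL (Lau LL) ρ)
            (MonoidAlgebra.single g (u : Lau LL)) = _
          rw [MonoidAlgebra.lift_single]
          change (u : Lau LL) • ((1 : Lau LL) ⊗ₜ[LL] ρ g) = _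
          rw [TensorProduct.smul_tmul', smul_eq_mul, mul_one]
        rw [h2]
        exact hkill g u) m A hA
    exact h1
  -- the matrix
  let y : Lau LL := (HahnSeries.single 1 1 : LaurentSeries LL)
  let yi : Lau LL := (HahnSeries.single (-1) 1 : LaurentSeries LL)
  have hs : (HahnSeries.single 1 1 : LaurentSeries LL) * HahnSeries.single (-1) 1 = 1 := by
    rw [HahnSeries.single_mul_single, add_neg_cancel, one_mul]
    rfl
  have hyyi : y * yi = 1 := hs
  let Y : Lau LL ⊗[LL] L := y ⊗ₜ[LL] 1
  let Yi : Lau LL ⊗[LL] L := yi ⊗ₜ[LL] 1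
  have hc : ∀ (z : Lau LL) (q : Lau LL ⊗[LL] L), (z ⊗ₜ[LL] 1) * q = q * (z ⊗ₜ[LL] 1) := by
    intro z q
    induction q using TensorProduct.induction_on with
    | zero => rw [mul_zero, zero_mul]
    | tmul a x =>
      rw [Algebra.TensorProduct.tmul_mul_tmul, Algebra.TensorProduct.tmul_mul_tmul, one_mul,
        mul_one, mul_comm]
    | add a b ha hb => rw [mul_add, add_mul, ha, hb]
  have hYYi : Y * Yi = 1 := by
    rw [Algebra.TensorProduct.tmul_mul_tmul, hyyi, one_mul]
    rfl
  have hYiY : Yi * Y = 1 := by rw [hc, hYYi]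
  let inc : L →+* Lau LL ⊗[LL] L :=
    (Algebra.TensorProduct.includeRight : L →ₐ[LL] Lau LL ⊗[LL] L)
  have hinc : ∀ x, inc x = (1 : Lau LL) ⊗ₜ[LL] x := fun x => rfl
  have hunit : IsUnit (1 - p.map inc + (p.map inc).map fun q => q * Y) := by
    have hP : p.map inc * p.map inc = p.map inc := by rw [← Matrix.map_mul, hp]
    exact ⟨⟨_, _, ps_inv hP (hc y) hYYi, ps_inv hP (hc yi) hYiY⟩, rfl⟩
  have hφinc : ∀ x : L, φ (inc x) = x • (1 : LaurentSeries L) := by
    intro x
    apply HahnSeries.ext
    funext k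
    rw [hinc]
    have := hφ (1 : LaurentSeries LL) x k
    change (φ ((1 : Lau LL) ⊗ₜ[LL] x)).coeff k = _ at this
    rw [this, HahnSeries.coeff_smul, HahnSeries.coeff_one, HahnSeries.coeff_one]
    split_ifs
    · rw [one_smul, smul_eq_mul, mul_one]
    · rw [zero_smul, smul_zero]
  have hφY : φ Y = v.y := by
    rw [hvy]
    apply HahnSeries.ext
    funext k
    have := hφ (HahnSeries.single 1 1 : LaurentSeries LL) (1 : L) k
    change (φ Y).coeff k = _ at this
    rw [this, HahnSeries.coeff_single, HahnSeries.coeff_single]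
    split_ifs
    · rw [one_smul]
    · rw [zero_smul]
  have hfin := hall (Fin n) _ hunit
  change κ.f (Matrix.map _ φ) = 1 at hfin
  have e0 : (p.map inc).map φ = up L (LaurentSeries L) p := by
    apply Matrix.ext
    intro i j
    exact hφinc (p i j)
  have e1 : ((p.map inc).map fun q => q * Y).map φ = ((p.map inc).map φ).map fun q => q * v.y := by
    apply Matrix.ext
    intro i j
    rw [Matrix.map_apply, Matrix.map_apply, Matrix.map_apply (M := (p.map inc).map φ),
      Matrix.map_apply, map_mul, hφY]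
    rfl
  rw [Matrix.map_add _ (map_add φ), Matrix.map_sub _ (map_sub φ), e1, e0,
    Matrix.map_one _ (map_zero φ) (map_one φ)] at hfin
  exact hfin

/-- Finitely generated projective modules over an algebra with block data over `C` are stably
free, if `C` has the properties `SS` and `KK`. -/
theorem psf {LL C L β : Type} [CommRing LL] [IsDomain LL] [Group C] [Ring L] [Algebra LL L]
    (hL : IsEuc LL) (ρ : C →* L) (b : β → L) (sz : β → ℕ) (hB : Blk LL ρ b sz) (hS : SS C)
    (hK : KK C) : ProjSF L :=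
  psf_of_kt ρ (LB.blk_kt (Lau LL) hB (hS (Lau LL) (isEuc_lau hL))) (hK (Lau LL) (isEuc_lau hL))

end Pool.Agent.Cx2
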