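import Pool.Agent.Lib.MP_8f66f0_al_Cx.Fml2

/-! C11 (Spn). The multiples of `r_f - 1` are combinations of words, modulo `Kl`. (helper36) -/

set_option autoImplicit false

namespace Pool.Agent.Cx2

open Pool.Agent.Wald Pool.Agent.Hier

section

variable {G V C : Type} [Group G] [MulAction G V] [MulAction G C] (X : Cx G V C)
  (k : Type) [CommRing k]

/-- A combination of paths, times `r_c - 1`, times a combination of arrows. -/
private theorem spn_kl (K : Set C) (c : C) (hc : c ∈ K) (u v : V) (x : MonoidAlgebra k X.FG)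
    (hx : x ∈ Submodule.span k ((fun w => MonoidAlgebra.of k X.FG w) '' {w | X.IsP u (X.bv c) w}))
    (y : MonoidAlgebra k X.HH) (hy : y ∈ X.Ar k (X.bv c) v) :
    X.io k x * (X.pa k (X.r c) - 1) * y ∈ X.Kl k K u v := by
  induction hx using Submodule.span_induction with
  | mem x hx =>
    obtain ⟨w, hw, rfl⟩ := hx
    rw [fml_io_of]
    induction hy using Submodule.span_induction with
    | mem y hy =>
      obtain ⟨h, hh, rfl⟩ := hy
      exact Submodule.subset_span ⟨c, hc, w, hw, h, hh, rfl⟩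
    | zero => rw [mul_zero]; exact Submodule.zero_mem _
    | add a b _ _ ha hb => rw [mul_add]; exact Submodule.add_mem _ ha hb
    | smul c a _ ha => rw [mul_smul_comm]; exact Submodule.smul_mem _ c ha
  | zero => rw [map_zero, zero_mul, zero_mul]; exact Submodule.zero_mem _
  | add a b _ _ ha hb => rw [map_add, add_mul, add_mul]; exact Submodule.add_mem _ ha hb
  | smul c a _ ha => rw [map_smul, smul_mul_assoc, smul_mul_assoc]; exact Submodule.smul_mem _ c ha

private theorem spn_arr {u v w : V} {a b : X.HH} (ha : a ∈ X.Arr u v) (hb : b ∈ X.Arr v w) :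
    a * b ∈ X.Arr u w := by
  change X.IsP u ((a.right * b.right) • w) (a.left * X.φ a.right b.left)
  rw [mul_smul]
  exact Cx.IsP.mul ha (Cx.IsP.smul hb a.right)

/-- `Kl` is stable under multiplication by arrows on the right. -/
private theorem spn_kl_mul (K : Set C) (u v w : V) (x y : MonoidAlgebra k X.HH)
    (hx : x ∈ X.Kl k K u v) (hy : y ∈ X.Ar k v w) : x * y ∈ X.Kl k K u w := by
  induction hx using Submodule.span_induction with
  | mem x hx =>
    obtain ⟨c, hc, w', hw', h, hh, rfl⟩ := hx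
    induction hy using Submodule.span_induction with
    | mem y hy =>
      obtain ⟨h', hh', rfl⟩ := hy
      refine Submodule.subset_span ⟨c, hc, w', hw', h * h', spn_arr X hh hh', ?_⟩
      change X.pa k w' * (X.pa k (X.r c) - 1) * MonoidAlgebra.of k X.HH h *
        MonoidAlgebra.of k X.HH h' = _
      rw [map_mul]
      simp only [mul_assoc]
    | zero => rw [mul_zero]; exact Submodule.zero_mem _
    | add a b _ _ ha hb => rw [mul_add]; exact Submodule.add_mem _ ha hb
    | smul c a _ ha => rw [mul_smul_comm]; exact Submodule.smul_mem _ c ha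
  | zero => rw [zero_mul]; exact Submodule.zero_mem _
  | add a b _ _ ha hb => rw [add_mul]; exact Submodule.add_mem _ ha hb
  | smul c a _ ha => rw [smul_mul_assoc]; exact Submodule.smul_mem _ c ha

private theorem spn_path_mul {u v w : V} {x y : MonoidAlgebra k X.FG}
    (hx : x ∈ Submodule.span k ((fun w => MonoidAlgebra.of k X.FG w) '' {z | X.IsP u v z}))
    (hy : y ∈ Submodule.span k ((fun w => MonoidAlgebra.of k X.FG w) '' {z | X.IsP v w z})) :
    x * y ∈ Submodule.span k ((fun w => MonoidAlgebra.of k X.FG w) '' {z | X.IsP u w z}) := by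
  induction hx using Submodule.span_induction with
  | mem x hx =>
    obtain ⟨a, ha, rfl⟩ := hx
    induction hy using Submodule.span_induction with
    | mem y hy =>
      obtain ⟨b, hb, rfl⟩ := hy
      refine Submodule.subset_span ⟨a * b, Cx.IsP.mul ha hb, ?_⟩
      exact map_mul _ _ _
    | zero => rw [mul_zero]; exact Submodule.zero_mem _
    | add a b _ _ ha hb => rw [mul_add]; exact Submodule.add_mem _ ha hb
    | smul c a _ ha => rw [mul_smul_comm]; exact Submodule.smul_mem _ c ha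
  | zero => rw [zero_mul]; exact Submodule.zero_mem _
  | add a b _ _ ha hb => rw [add_mul]; exact Submodule.add_mem _ ha hb
  | smul c a _ ha => rw [smul_mul_assoc]; exact Submodule.smul_mem _ c ha

private theorem spn_path {u v : V} {w : X.FG} (h : X.IsP u v w) :
    MonoidAlgebra.of k X.FG w ∈
      Submodule.span k ((fun w => MonoidAlgebra.of k X.FG w) '' {z | X.IsP u v z}) :=
  Submodule.subset_span ⟨w, h, rfl⟩

/-- The segment at the head of a list. -/
private theorem spn_split {α : Type} (p : α → Prop) (L : List α) :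
    (∀ a ∈ L, p a) ∨ ∃ (l : List α) (a : α) (L' : List α), L = l ++ a :: L' ∧ (∀ b ∈ l, p b) ∧
      ¬ p a := by
  induction L with
  | nil => left; simp
  | cons a L ih =>
    by_cases ha : p a
    · rcases ih with ih | ⟨l, b, L', rfl, h1, h2⟩
      · left
        intro b hb
        rcases List.mem_cons.1 hb with rfl | hb
        · exact ha
        · exact ih b hb
      · right
        refine ⟨a :: l, b, L', rfl, ?_, h2⟩
        intro b hb
        rcases List.mem_cons.1 hb with rfl | hb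
        · exact ha
        · exact h1 b hb
    · right
      exact ⟨[], a, L, rfl, by simp, ha⟩

/-- The case of a cell in `K`. -/
private theorem spn_caseA (h1 : S_pp) (γ : X.Geo) (K : Set C) (f : C)
    (hAr : ∀ (u v w : V) (x y : MonoidAlgebra k X.HH), x ∈ X.Ar k u v → y ∈ X.Ar k v w →
      x * y ∈ X.Ar k u w) (L₂ L₁ : List (C × ℤ)) (c : C) (n : ℤ) (hc : c ∈ K) (g : G) :
    Cx.lv k f γ (L₂ ++ (c, n) :: L₁, g, 0) ∈ X.Kl k K (X.bv f) (X.bv f) := by
  obtain ⟨hcons, happ, hen, hs, hγ, hγP, hspan⟩ := h1 G V C X γ k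
  have e1 : Cx.PP k γ (X.bv f) (L₂ ++ (c, n) :: L₁) =
      Cx.PP k γ (X.bv f) L₁ * MonoidAlgebra.of k _ (γ.γ (X.en (X.bv f) L₁) (X.bv c)) *
        MonoidAlgebra.of k _ (X.r c ^ n) * (MonoidAlgebra.of k _ (X.r c) - 1) *
        Cx.PP k γ (X.bv c) L₂ := by
    rw [happ, hcons]
    have : X.en (X.bv f) ((c, n) :: L₁) = X.bv c := rfl
    rw [this]
    simp only [mul_assoc]
  have e2 : X.en (X.bv f) (L₂ ++ (c, n) :: L₁) = X.en (X.bv c) L₂ := by
    rw [hen]
    rfl
  have e3 : Cx.lv k f γ (L₂ ++ (c, n) :: L₁, g, 0) =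
      X.io k ((MonoidAlgebra.of k _ (X.r f) - 1) * (Cx.PP k γ (X.bv f) L₁ *
        MonoidAlgebra.of k _ (γ.γ (X.en (X.bv f) L₁) (X.bv c)) *
        MonoidAlgebra.of k _ (X.r c ^ n))) * (X.pa k (X.r c) - 1) *
      (X.io k (Cx.PP k γ (X.bv c) L₂) * X.pa k (γ.γ (X.en (X.bv c) L₂) (g • X.bv f)) *
        X.sg k g) := by
    unfold Cx.lv
    change (X.pa k (X.r f) - 1) * (X.io k (Cx.PP k γ (X.bv f) (L₂ ++ (c, n) :: L₁)) *
      X.pa k (γ.γ (X.en (X.bv f) (L₂ ++ (c, n) :: L₁)) (g • X.bv f))) * X.sg k g *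
      X.pa k (X.r f ^ (0 : ℤ)) = _
    rw [e1, e2, zpow_zero, fml_pa_one, mul_one]
    simp only [map_mul, map_sub, map_one, fml_io_of, mul_assoc]
  rw [e3]
  refine spn_kl X k K c hc _ _ _ ?_ _ ?_
  · refine spn_path_mul X k ?_ (spn_path_mul X k (spn_path_mul X k (hspan _ _)
      (spn_path X k (hγP _ _))) (spn_path X k (fml_isP_zpow X (X.isP_r c) n)))
    refine Submodule.sub_mem _ (spn_path X k (X.isP_r f)) ?_
    have := spn_path X k (X.isP_one (X.bv f))
    rwa [map_one] at this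
  · exact hAr _ _ _ _ _ (hAr _ _ _ _ _ (fml_PP_mem X k h1 γ _ _) (fml_pa_mem X k (hγP _ _)))
      (fml_sg_mem X k g _)

/-- The case without cells in `K` and in the orbit of `f`. -/
private theorem spn_caseB (h1 : S_pp) (γ : X.Geo) (K : Set C) (f : C) (rp : G → G)
    (hrp : IsRp f rp) (hK : ∀ (g : G), ∀ c ∈ K, g • c ∈ K) (L : List (C × ℤ)) (hL : Ch L)
    (hL' : ∀ a ∈ L, a.1 ∉ K ∧ a.1 ∉ MulAction.orbit G f) (g : G) :
    Cx.lv k f γ (L, g, 0) ∈ Cx.WA k f γ K rp := by
  by_cases hn : L = [] ∧ g ∈ MulAction.stabilizer G f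
  · obtain ⟨rfl, hg⟩ := hn
    have hγ := (h1 G V C X γ k).2.2.2.2.1
    have e1 : Cx.lv k f γ ([], g, 0) = Cx.wo k f γ g 1 [] - Cx.wo k f γ g 0 [] := by
      unfold Cx.lv Cx.wo
      change (X.pa k (X.r f) - 1) * (X.io k (Cx.PP k γ (X.bv f) []) *
        X.pa k (γ.γ (X.bv f) (g • X.bv f))) * X.sg k g * X.pa k (X.r f ^ (0 : ℤ)) =
        X.sg k g * X.pa k (X.r f ^ (1 : ℤ)) * 1 - X.sg k g * X.pa k (X.r f ^ (0 : ℤ)) * 1
      rw [fml_stab_bv X f g hg, hγ, zpow_zero, zpow_one, fml_pa_one,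
        show Cx.PP k γ (X.bv f) [] = 1 from rfl, map_one]
      simp only [mul_one, sub_mul, one_mul]
      rw [fml_comm X k g _ (fml_stab X f g hg)]
    rw [e1]
    exact Submodule.sub_mem _ (Submodule.subset_span ⟨g, hg, 1, [], by simp, rfl⟩)
      (Submodule.subset_span ⟨g, hg, 0, [], by simp, rfl⟩)
  · obtain ⟨d, hd, x', hx', e1⟩ := fml_letter X k h1 γ K f rp hrp hK L g 0 hL hL' hn
    rw [e1]
    refine Submodule.subset_span ⟨d, hd, 0, [x'], by simpa using hx', ?_⟩
    unfold Cx.wo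
    change X.sg k d * Cx.lv k f γ x' = X.sg k d * X.pa k (X.r f ^ (0 : ℤ)) *
      (1 * Cx.lv k f γ x')
    rw [zpow_zero, fml_pa_one, mul_one, one_mul]

/-- Splitting at a cell of the orbit of `f`. -/
private theorem spn_cut (h1 : S_pp) (γ : X.Geo) (f : C) (l L' : List (C × ℤ)) (h g : G) (n : ℤ) :
    Cx.lv k f γ (l ++ (h • f, n) :: L', g, 0) =
      Cx.lv k f γ (L', h, 0) * X.pa k (X.r f ^ n) * Cx.lv k f γ (sm h⁻¹ l, h⁻¹ * g, 0) := by
  obtain ⟨hcons, happ, hen, hs, hγ, hγP, hspan⟩ := h1 G V C X γ k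
  have e0 : X.bv (h • f) = h • X.bv f := X.bv_smul h f
  have e1 : Cx.PP k γ (X.bv f) (l ++ (h • f, n) :: L') =
      Cx.PP k γ (X.bv f) L' * MonoidAlgebra.of k _ (γ.γ (X.en (X.bv f) L') (h • X.bv f)) *
        X.ac k h (MonoidAlgebra.of k _ (X.r f ^ n) * (MonoidAlgebra.of k _ (X.r f) - 1) *
          Cx.PP k γ (X.bv f) (sm h⁻¹ l)) := by
    rw [happ, hcons]
    have f1 : X.en (X.bv f) ((h • f, n) :: L') = h • X.bv f := e0
    rw [f1, e0]
    have f2 : Cx.PP k γ (h • X.bv f) l = X.ac k h (Cx.PP k γ (X.bv f) (sm h⁻¹ l)) := by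
      rw [(hs h (X.bv f) (sm h⁻¹ l)).1, fml_sm_sm, mul_inv_cancel, fml_sm_one]
    rw [f2, map_mul, map_mul, map_sub, map_one, fml_ac_of, fml_ac_of, map_zpow (X.φ h), X.φ_r]
    simp only [mul_assoc]
  have e2 : X.en (X.bv f) (l ++ (h • f, n) :: L') = h • X.en (X.bv f) (sm h⁻¹ l) := by
    rw [hen]
    have f1 : X.en (X.bv f) ((h • f, n) :: L') = h • X.bv f := e0
    rw [f1, ← (hs h (X.bv f) (sm h⁻¹ l)).2, fml_sm_sm, mul_inv_cancel, fml_sm_one]
  have e3 : γ.γ (h • X.en (X.bv f) (sm h⁻¹ l)) (g • X.bv f) =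
      X.φ h (γ.γ (X.en (X.bv f) (sm h⁻¹ l)) ((h⁻¹ * g) • X.bv f)) := by
    rw [← γ.smul, smul_smul, mul_inv_cancel_left]
  have e4 : X.sg k g = X.sg k h * X.sg k (h⁻¹ * g) := by
    rw [← fml_sg_mul, mul_inv_cancel_left]
  unfold Cx.lv
  change (X.pa k (X.r f) - 1) * (X.io k (Cx.PP k γ (X.bv f) (l ++ (h • f, n) :: L')) *
      X.pa k (γ.γ (X.en (X.bv f) (l ++ (h • f, n) :: L')) (g • X.bv f))) * X.sg k g *
      X.pa k (X.r f ^ (0 : ℤ)) =
    (X.pa k (X.r f) - 1) * (X.io k (Cx.PP k γ (X.bv f) L') *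
      X.pa k (γ.γ (X.en (X.bv f) L') (h • X.bv f))) * X.sg k h * X.pa k (X.r f ^ (0 : ℤ)) *
      X.pa k (X.r f ^ n) *
    ((X.pa k (X.r f) - 1) * (X.io k (Cx.PP k γ (X.bv f) (sm h⁻¹ l)) *
      X.pa k (γ.γ (X.en (X.bv f) (sm h⁻¹ l)) ((h⁻¹ * g) • X.bv f))) * X.sg k (h⁻¹ * g) *
      X.pa k (X.r f ^ (0 : ℤ)))
  rw [e1, e2, e3, e4, zpow_zero, fml_pa_one]
  simp only [mul_one]
  rw [map_mul, map_mul, fml_io_of]
  have f3 : ∀ Y : MonoidAlgebra k X.FG, X.io k (X.ac k h Y) *
      (X.pa k (X.φ h (γ.γ (X.en (X.bv f) (sm h⁻¹ l)) ((h⁻¹ * g) • X.bv f))) * X.sg k h) =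
      X.sg k h * (X.io k Y * X.pa k (γ.γ (X.en (X.bv f) (sm h⁻¹ l)) ((h⁻¹ * g) • X.bv f))) := by
    intro Y
    rw [← fml_sg_pa, ← mul_assoc, ← fml_sg_io, mul_assoc]
  have f4 := f3 (MonoidAlgebra.of k _ (X.r f ^ n) * (MonoidAlgebra.of k _ (X.r f) - 1) *
    Cx.PP k γ (X.bv f) (sm h⁻¹ l))
  rw [map_mul (X.io k), map_mul (X.io k), map_sub (X.io k), map_one, fml_io_of, fml_io_of] at f4
  calc _ = (X.pa k (X.r f) - 1) * (X.io k (Cx.PP k γ (X.bv f) L') *
        X.pa k (γ.γ (X.en (X.bv f) L') (h • X.bv f))) *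
        (X.io k (X.ac k h (MonoidAlgebra.of k _ (X.r f ^ n) *
          (MonoidAlgebra.of k _ (X.r f) - 1) * Cx.PP k γ (X.bv f) (sm h⁻¹ l))) *
        (X.pa k (X.φ h (γ.γ (X.en (X.bv f) (sm h⁻¹ l)) ((h⁻¹ * g) • X.bv f))) *
          X.sg k h)) * X.sg k (h⁻¹ * g) := by simp only [mul_assoc]
    _ = _ := by
        rw [f4]
        simp only [mul_assoc]

private theorem spn_claim (h1 : S_pp) (γ : X.Geo) (K : Set C) (f : C) (rp : G → G)
    (hrp : IsRp f rp) (hK : ∀ (g : G), ∀ c ∈ K, g • c ∈ K)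
    (hAr : ∀ (u v w : V) (x y : MonoidAlgebra k X.HH), x ∈ X.Ar k u v → y ∈ X.Ar k v w →
      x * y ∈ X.Ar k u w)
    (hWW : ∀ x ∈ Cx.WA k f γ K rp, ∀ y ∈ Cx.WA k f γ K rp, x * y ∈ Cx.WA k f γ K rp)
    (hWA : ∀ x ∈ Cx.WA k f γ K rp, x ∈ X.Ar k (X.bv f) (X.bv f)) (N : ℕ) :
    ∀ L : List (C × ℤ), L.length ≤ N → Ch L → ∀ g : G,
      Cx.lv k f γ (L, g, 0) ∈ Cx.WA k f γ K rp ⊔ X.Kl k K (X.bv f) (X.bv f) := by
  induction N with
  | zero =>
    intro L hLN _ g
    have hL0 : L = [] := List.length_eq_zero_iff.1 (Nat.le_zero.1 hLN)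
    subst hL0
    exact Submodule.mem_sup_left (spn_caseB X k h1 γ K f rp hrp hK [] List.isChain_nil (by simp) g)
  | succ N ih =>
    intro L hLN hL g
    by_cases hKL : ∃ a ∈ L, a.1 ∈ K
    · obtain ⟨a, ha, haK⟩ := hKL
      obtain ⟨s, t, rfl⟩ := List.append_of_mem ha
      obtain ⟨c, n⟩ := a
      exact Submodule.mem_sup_right (spn_caseA X k h1 γ K f hAr s t c n haK g)
    · push Not at hKL
      rcases spn_split (fun a : C × ℤ => a.1 ∉ MulAction.orbit G f) L with h2 | ⟨l, a, L', hLL, h2, h3⟩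
      · exact Submodule.mem_sup_left (spn_caseB X k h1 γ K f rp hrp hK L hL
          (fun a ha => ⟨hKL a ha, h2 a ha⟩) g)
      · subst hLL
        obtain ⟨c, n⟩ := a
        push Not at h3
        obtain ⟨h, hh⟩ := h3
        have hc : c = h • f := hh.symm
        subst hc
        rw [spn_cut X k h1]
        have hL1 : Ch ((h • f, n) :: L') := List.IsChain.right_of_append hL
        have hL2 : Ch L' := List.IsChain.tail hL1
        have hl : Ch l := List.IsChain.left_of_append hL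
        have hlen : L'.length ≤ N := by
          rw [List.length_append, List.length_cons] at hLN
          omega
        have i1 := ih L' hlen hL2 h
        have i2 : Cx.lv k f γ (sm h⁻¹ l, h⁻¹ * g, 0) ∈ Cx.WA k f γ K rp := by
          refine spn_caseB X k h1 γ K f rp hrp hK _ (fml_sm_ch _ hl) ?_ _
          intro a ha
          obtain ⟨b, hb, rfl⟩ := (fml_sm_mem _ _ _).1 ha
          refine ⟨fun h4 => hKL b (List.mem_append_left _ hb) ?_, fun h4 => h2 b hb ?_⟩
          · have h5 := hK h _ h4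
            rwa [smul_inv_smul] at h5
          · obtain ⟨g', hg'⟩ := h4
            refine ⟨h * g', ?_⟩
            change (h * g') • f = b.1
            rw [mul_smul, show g' • f = h⁻¹ • b.1 from hg', smul_inv_smul]
        have i3 : X.pa k (X.r f ^ n) ∈ Cx.WA k f γ K rp := by
          refine Submodule.subset_span ⟨1, (MulAction.stabilizer G f).one_mem, n, [], by simp, ?_⟩
          unfold Cx.wo
          change _ = X.sg k 1 * X.pa k (X.r f ^ n) * 1
          rw [fml_sg_one, one_mul, mul_one]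
        have i4 := hWW _ i3 _ i2
        obtain ⟨y, hy, z, hz, hyz⟩ := Submodule.mem_sup.1 i1
        rw [← hyz, mul_assoc, add_mul]
        exact Submodule.add_mem _ (Submodule.mem_sup_left (hWW _ hy _ i4))
          (Submodule.mem_sup_right (spn_kl_mul X k K _ _ _ _ _ hz (hWA _ i4)))

end

theorem spn (h1 : S_gsp) (h2 : S_pp) (h3 : S_mrg) (_h4 : S_hh) (h5 : S_pi) (h6 : S_wa) :
    S_spn := by
  intro G V C _ _ _ X γ k _ K f rp hGen hrp hK _ a ha
  have hAr := (h5 G V C X k K (X.bv f) hK).2.2.2.1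
  obtain ⟨-, hWW, hWA, -⟩ := h6 G V C X γ k K f rp hrp hK
  have hcl : ∀ L : List (C × ℤ), Ch L → ∀ g : G, Cx.lv k f γ (L, g, 0) ∈
      Cx.WA k f γ K rp ⊔ X.Kl k K (X.bv f) (X.bv f) := fun L hL g =>
    spn_claim X k h2 γ K f rp hrp hK hAr hWW hWA L.length L le_rfl hL g
  have hlv : ∀ (L : List (C × ℤ)) (g : G), Cx.lv k f γ (L, g, 0) =
      (X.pa k (X.r f) - 1) * (X.io k (Cx.PP k γ (X.bv f) L *
        MonoidAlgebra.of k _ (γ.γ (X.en (X.bv f) L) (g • X.bv f))) * X.sg k g) := by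
    intro L g
    unfold Cx.lv
    change (X.pa k (X.r f) - 1) * (X.io k (Cx.PP k γ (X.bv f) L) *
      X.pa k (γ.γ (X.en (X.bv f) L) (g • X.bv f))) * X.sg k g * X.pa k (X.r f ^ (0 : ℤ)) = _
    rw [zpow_zero, fml_pa_one, mul_one, map_mul, fml_io_of]
    simp only [mul_assoc]
  -- all lists
  have hall : ∀ (L : List (C × ℤ)) (g : G), (X.pa k (X.r f) - 1) *
      (X.io k (Cx.PP k γ (X.bv f) L *
        MonoidAlgebra.of k _ (γ.γ (X.en (X.bv f) L) (g • X.bv f))) * X.sg k g) ∈
      Cx.WA k f γ K rp ⊔ X.Kl k K (X.bv f) (X.bv f) := by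
    intro L g
    have hm := h3 G V C X γ k (X.bv f) L
    have hmain : ∀ x ∈ Submodule.span k (Cx.PP k γ (X.bv f) '' {L' | Ch L' ∧
        (L'.map Prod.fst).head? = (L.map Prod.fst).head? ∧
        ∀ c, c ∈ L'.map Prod.fst ↔ c ∈ L.map Prod.fst}),
        (X.pa k (X.r f) - 1) * (X.io k (x *
          MonoidAlgebra.of k _ (γ.γ (X.en (X.bv f) L) (g • X.bv f))) * X.sg k g) ∈
        Cx.WA k f γ K rp ⊔ X.Kl k K (X.bv f) (X.bv f) := by
      intro x hx
      induction hx using Submodule.span_induction with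
      | mem x hx =>
        obtain ⟨L', ⟨hL', hhead, -⟩, rfl⟩ := hx
        have e1 : X.en (X.bv f) L = X.en (X.bv f) L' := by
          cases L with
          | nil =>
            cases L' with
            | nil => rfl
            | cons b L' => simp at hhead
          | cons a L =>
            cases L' with
            | nil => simp at hhead
            | cons b L' =>
              simp only [List.map_cons, List.head?_cons, Option.some.injEq] at hhead
              change X.bv a.1 = X.bv b.1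
              rw [hhead]
        rw [e1, ← hlv]
        exact hcl L' hL' g
      | zero => rw [zero_mul, map_zero, zero_mul, mul_zero]; exact Submodule.zero_mem _
      | add a b _ _ ha hb =>
        rw [add_mul, map_add, add_mul, mul_add]
        exact Submodule.add_mem _ ha hb
      | smul c a _ ha =>
        rw [smul_mul_assoc, map_smul, smul_mul_assoc, mul_smul_comm]
        exact Submodule.smul_mem _ c ha
    exact hmain _ hm
  -- all paths
  have hpath : ∀ (g : G) (x : MonoidAlgebra k X.FG), x ∈ Submodule.span k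
      (Set.range fun L => Cx.PP k γ (X.bv f) L *
        MonoidAlgebra.of k _ (γ.γ (X.en (X.bv f) L) (g • X.bv f))) →
      (X.pa k (X.r f) - 1) * (X.io k x * X.sg k g) ∈
      Cx.WA k f γ K rp ⊔ X.Kl k K (X.bv f) (X.bv f) := by
    intro g x hx
    induction hx using Submodule.span_induction with
    | mem x hx =>
      obtain ⟨L, rfl⟩ := hx
      exact hall L g
    | zero => rw [map_zero, zero_mul, mul_zero]; exact Submodule.zero_mem _
    | add a b _ _ ha hb =>
      rw [map_add, add_mul, mul_add]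
      exact Submodule.add_mem _ ha hb
    | smul c a _ ha =>
      rw [map_smul, smul_mul_assoc, mul_smul_comm]
      exact Submodule.smul_mem _ c ha
  induction ha using Submodule.span_induction with
  | mem a ha =>
    obtain ⟨h, hh, rfl⟩ := ha
    have e1 : MonoidAlgebra.of k X.HH h =
        X.io k (MonoidAlgebra.of k _ h.left) * X.sg k h.right := by
      rw [fml_io_of]
      unfold Cx.pa Cx.sg
      rw [← map_mul, SemidirectProduct.inl_left_mul_inr_right]
    change (X.pa k (X.r f) - 1) * MonoidAlgebra.of k X.HH h ∈ _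
    rw [e1]
    exact hpath h.right _ (h1 G V C X γ k hGen (X.bv f) (h.right • X.bv f) h.left hh)
  | zero => rw [mul_zero]; exact Submodule.zero_mem _
  | add a b _ _ ha hb => rw [mul_add]; exact Submodule.add_mem _ ha hb
  | smul c a _ ha => rw [mul_smul_comm]; exact Submodule.smul_mem _ c ha

end Pool.Agent.Cx2
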