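import Pool.Agent.Lib.MP_8f66f0_al_Cx.SpecE

/-! E2: the graph `TG` is a tree. -/

set_option autoImplicit false

namespace Pool.Agent.Cx2

open Pool.Agent.Wald Pool.Agent.TreeC

section

variable {G V C : Type} [Group G] [MulAction G V] [MulAction G C] (X : Cx G V C) (o : V)

private theorem tg_reach {v v' : V} (q : X.Γ.Walk v v') : ∀ (w : X.FG) (hw : X.IsP o v w)
    (hw' : X.IsP o v' (w * X.val q)),
    (X.TG o).Reachable (⟨(w, v), hw⟩ : X.W o) ⟨(w * X.val q, v'), hw'⟩ := by
  induction q with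
  | nil =>
    intro w hw hw'
    have e : (⟨(w, _), hw⟩ : X.W o) = ⟨(w * 1, _), hw'⟩ :=
      Subtype.ext (Prod.ext (mul_one w).symm rfl)
    change (X.TG o).Reachable (⟨(w, _), hw⟩ : X.W o) ⟨(w * 1, _), hw'⟩
    rw [← e]
  | @cons a b c h p ih =>
    intro w hw hw'
    have h1 : X.IsP o b (w * X.ε a b) := hw.mul (X.isP_ε h)
    have e0 : w * X.val (SimpleGraph.Walk.cons h p) = w * X.ε a b * X.val p := by
      rw [X.val_cons, mul_assoc]
    have h2 : X.IsP o c (w * X.ε a b * X.val p) := by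
      rw [← e0]
      exact hw'
    have h3 : (X.TG o).Adj (⟨(w, a), hw⟩ : X.W o) ⟨(w * X.ε a b, b), h1⟩ := ⟨h, rfl⟩
    have h4 := h3.reachable.trans (ih (w * X.ε a b) h1 h2)
    have e : (⟨(w * X.ε a b * X.val p, c), h2⟩ : X.W o) =
        ⟨(w * X.val (SimpleGraph.Walk.cons h p), c), hw'⟩ := Subtype.ext (Prod.ext e0.symm rfl)
    rw [← e]
    exact h4

/-- The projection of the tree to the graph. -/
private def tg_pr : X.TG o →g X.Γ where
  toFun x := x.1.2
  map_rel' h := h.1

private theorem tg_pr_apply (x : X.W o) : tg_pr X o x = x.1.2 := rfl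

private theorem tg_val {x y : X.W o} (c : (X.TG o).Walk x y) :
    x.1.1 * X.val (c.map (tg_pr X o)) = y.1.1 := by
  induction c with
  | nil => exact mul_one _
  | @cons a b c h p ih =>
    rw [SimpleGraph.Walk.map_cons, X.val_cons, ← mul_assoc, ← ih, h.2]
    rfl

private theorem tg_two {x y z : X.W o} (h1 : (X.TG o).Adj x y) (h2 : (X.TG o).Adj y z)
    (h : x.1.2 = z.1.2) : x = z := by
  refine Subtype.ext (Prod.ext ?_ h)
  rw [h2.2, h1.2, ← h, X.ε_inv x.1.2 y.1.2, mul_inv_cancel_right]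

end

theorem tg (h : S_nb) : S_tg := by
  intro G V C _ _ _ X o
  refine { connected := ?_, isAcyclic := ?_ }
  · have key : ∀ x : X.W o, (X.TG o).Reachable (⟨(1, o), X.isP_one o⟩ : X.W o) x := by
      rintro ⟨⟨w, v⟩, hw⟩
      obtain ⟨p, hp⟩ := id hw
      have h1 : X.IsP o v (1 * X.val p) := by
        rw [one_mul]
        exact ⟨p, rfl⟩
      have h2 := tg_reach X o p 1 (X.isP_one o) h1
      have e : (⟨(1 * X.val p, v), h1⟩ : X.W o) = ⟨(w, v), hw⟩ :=
        Subtype.ext (Prod.ext ((one_mul _).trans hp) rfl)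
      rw [← e]
      exact h2
    have : Nonempty (X.W o) := ⟨⟨(1, o), X.isP_one o⟩⟩
    exact SimpleGraph.Connected.mk fun x y => (key x).symm.trans (key y)
  · intro x c hc
    have h3 := hc.three_le_length
    refine h G V C X _ _ (c.map (tg_pr X o)) (by rw [SimpleGraph.Walk.length_map]; omega) ?_ ?_
    · intro i hi he
      rw [SimpleGraph.Walk.length_map] at hi
      rw [SimpleGraph.Walk.getVert_map, SimpleGraph.Walk.getVert_map] at he
      have h4 := hc.getVert_sub_one_ne_getVert_add_one (i := i + 1) (by omega)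
      exact h4 (tg_two X o (c.adj_getVert_succ (by omega)) (c.adj_getVert_succ (by omega)) he)
    · have h5 := tg_val X o c
      exact mul_eq_left.1 h5

end Pool.Agent.Cx2
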