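import Pool.Agent.Lib.MP_8f66f0_al_Cx.SpecD

/-! Part F2: when all cells are killed the group is `G`. -/

set_option autoImplicit false

namespace Pool.Agent.Cx2

open Pool.Agent.Wald

variable {G V C : Type} [Group G] [MulAction G V] [MulAction G C] (X : Cx G V C)

/-- The elements `[w] ([r_c] - 1) [w']`. -/
private def uniT (u v : V) : Set (MonoidAlgebra ℤ X.FG) :=
  {z | ∃ (c : C) (w w' : X.FG), X.IsP u (X.bv c) w ∧ X.IsP (X.bv c) v w' ∧
    z = MonoidAlgebra.of ℤ X.FG w * (MonoidAlgebra.of ℤ X.FG (X.r c) - 1) *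
      MonoidAlgebra.of ℤ X.FG w'}

/-- The combinations of paths. -/
private noncomputable def uniS (u v : V) : AddSubgroup (MonoidAlgebra ℤ X.FG) :=
  AddSubgroup.closure ((fun w => MonoidAlgebra.of ℤ X.FG w) '' {w | X.IsP u v w})

private theorem uni_TS (u v : V) : uniT X u v ⊆ uniS X u v := by
  rintro z ⟨c, w, w', hw, hw', rfl⟩
  have h1 : MonoidAlgebra.of ℤ X.FG w * (MonoidAlgebra.of ℤ X.FG (X.r c) - 1) *
      MonoidAlgebra.of ℤ X.FG w' = MonoidAlgebra.of ℤ X.FG (w * X.r c * w') -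
        MonoidAlgebra.of ℤ X.FG (w * w') := by
    rw [map_mul, map_mul, map_mul]
    noncomm_ring
  rw [h1]
  exact AddSubgroup.sub_mem _
    (AddSubgroup.subset_closure ⟨_, (hw.mul (X.isP_r c)).mul hw', rfl⟩)
    (AddSubgroup.subset_closure ⟨_, hw.mul hw', rfl⟩)

private theorem uni_mid (u v : V) (c : C) (x : MonoidAlgebra ℤ X.FG)
    (hx : ∀ w w' : X.FG, X.IsP u (X.bv c) w → X.IsP (X.bv c) v w' →
      MonoidAlgebra.of ℤ X.FG w * x * MonoidAlgebra.of ℤ X.FG w' ∈
        AddSubgroup.closure (uniT X u v)) (a b : MonoidAlgebra ℤ X.FG)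
    (ha : a ∈ uniS X u (X.bv c)) (hb : b ∈ uniS X (X.bv c) v) :
    a * x * b ∈ AddSubgroup.closure (uniT X u v) := by
  unfold uniS at ha hb
  induction ha using AddSubgroup.closure_induction with
  | mem y hy =>
    obtain ⟨w, hw, rfl⟩ := hy
    induction hb using AddSubgroup.closure_induction with
    | mem y hy =>
      obtain ⟨w', hw', rfl⟩ := hy
      exact hx w w' hw hw'
    | zero =>
      rw [mul_zero]
      exact AddSubgroup.zero_mem _
    | add y z _ _ h1 h2 =>
      rw [mul_add]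
      exact AddSubgroup.add_mem _ h1 h2
    | neg y _ h1 =>
      rw [mul_neg]
      exact AddSubgroup.neg_mem _ h1
  | zero =>
    rw [zero_mul, zero_mul]
    exact AddSubgroup.zero_mem _
  | add y z _ _ h1 h2 =>
    rw [add_mul, add_mul]
    exact AddSubgroup.add_mem _ h1 h2
  | neg y _ h1 =>
    rw [neg_mul, neg_mul]
    exact AddSubgroup.neg_mem _ h1

private theorem uni_ex (u v : V) :
    ∃ p : X.Γ.Walk u v, p.length = X.Γ.dist u v :=
  X.conn.exists_walk_length_eq_dist u v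

private theorem uni_bd : X.Bd (MonoidAlgebra.of ℤ X.FG : X.FG →* MonoidAlgebra ℤ X.FG)
    (fun u v => AddSubgroup.closure
      ({MonoidAlgebra.of ℤ X.FG (X.val (uni_ex X u v).choose)} ∪ uniT X u v)) := by
  have hS : ∀ u v, AddSubgroup.closure
      ({MonoidAlgebra.of ℤ X.FG (X.val (uni_ex X u v).choose)} ∪ uniT X u v) ≤ uniS X u v := by
    intro u v
    rw [AddSubgroup.closure_le]
    rintro x (hx | hx)
    · rw [Set.mem_singleton_iff] at hx
      rw [hx]
      exact AddSubgroup.subset_closure ⟨_, ⟨_, rfl⟩, rfl⟩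
    · exact uni_TS X u v hx
  refine ⟨fun o v => ⟨(uni_ex X o v).choose, (uni_ex X o v).choose_spec,
    AddSubgroup.subset_closure (Or.inl rfl)⟩, ?_, ?_⟩
  · intro o c v a b ha hb
    refine AddSubgroup.closure_mono Set.subset_union_right
      (uni_mid X o v c _ ?_ a b (hS _ _ ha) (hS _ _ hb))
    intro w w' hw hw'
    exact AddSubgroup.subset_closure ⟨c, w, w', hw, hw', rfl⟩
  · intro o c v a b ha hb
    refine AddSubgroup.closure_mono Set.subset_union_right
      (uni_mid X o v c _ ?_ a b (hS _ _ ha) (hS _ _ hb))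
    intro w w' hw hw'
    have h1 : MonoidAlgebra.of ℤ X.FG w * (MonoidAlgebra.of ℤ X.FG (X.r c)⁻¹ - 1) *
        MonoidAlgebra.of ℤ X.FG w' =
        -(MonoidAlgebra.of ℤ X.FG (w * (X.r c)⁻¹) * (MonoidAlgebra.of ℤ X.FG (X.r c) - 1) *
          MonoidAlgebra.of ℤ X.FG w') := by
      have h2 : MonoidAlgebra.of ℤ X.FG (X.r c)⁻¹ * MonoidAlgebra.of ℤ X.FG (X.r c) = 1 := by
        rw [← map_mul, inv_mul_cancel, map_one]
      rw [map_mul, mul_sub, mul_sub, mul_one, mul_one, mul_assoc (MonoidAlgebra.of ℤ X.FG w), h2,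
        mul_one, ← neg_mul, neg_sub]
    rw [h1]
    exact AddSubgroup.neg_mem _ (AddSubgroup.subset_closure
      ⟨c, w * (X.r c)⁻¹, w', hw.mul (X.isP_r c).inv, hw', rfl⟩)

private theorem uni_key (hX : X.GenP) (o : V) (p : X.Γ.Walk o o) :
    (SemidirectProduct.inl (X.val p) : X.HH) ∈
      (X.NK Set.univ o).map (X.G1 o).subtype := by
  classical
  set N : Subgroup X.HH := (X.NK Set.univ o).map (X.G1 o).subtype with hN
  by_contra hp
  let ψ : X.FG → ℤ := fun w => if (SemidirectProduct.inl w : X.HH) ∈ N then 0 else 1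
  let Ψ : MonoidAlgebra ℤ X.FG →+ ℤ :=
    (Finsupp.liftAddHom (fun w : X.FG => (AddMonoidHom.mulLeft (ψ w)))).comp
      (MonoidAlgebra.coeffAddEquiv (R := ℤ) (M := X.FG) : MonoidAlgebra ℤ X.FG →+ (X.FG →₀ ℤ))
  have hΨ : ∀ w : X.FG, Ψ (MonoidAlgebra.of ℤ X.FG w) = ψ w := by
    intro w
    change (Finsupp.liftAddHom (fun w : X.FG => (AddMonoidHom.mulLeft (ψ w))))
      (Finsupp.single w 1) = ψ w
    rw [Finsupp.liftAddHom_apply_single, AddMonoidHom.coe_mulLeft, mul_one]
  have hT : ∀ z ∈ uniT X o o, Ψ z = 0 := by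
    rintro z ⟨c, w, w', hw, hw', rfl⟩
    have h1 : MonoidAlgebra.of ℤ X.FG w * (MonoidAlgebra.of ℤ X.FG (X.r c) - 1) *
        MonoidAlgebra.of ℤ X.FG w' = MonoidAlgebra.of ℤ X.FG (w * X.r c * w⁻¹ * (w * w')) -
          MonoidAlgebra.of ℤ X.FG (w * w') := by
      have h2 : w * X.r c * w⁻¹ * (w * w') = w * X.r c * w' := by group
      rw [h2, map_mul, map_mul, map_mul]
      noncomm_ring
    have h3 : (SemidirectProduct.inl (w * X.r c * w⁻¹) : X.HH) ∈ N := by
      have h4 : (SemidirectProduct.inl (w * X.r c * w⁻¹) : X.HH) ∈ X.G1 o := by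
        rw [X.mem_G1]
        change X.IsP o ((1 : G) • o) (w * X.r c * w⁻¹)
        rw [one_smul]
        exact (hw.mul (X.isP_r c)).mul hw.inv
      exact ⟨⟨_, h4⟩, Subgroup.subset_normalClosure ⟨c, Set.mem_univ c, w, hw, rfl⟩, rfl⟩
    rw [h1, map_sub, hΨ, hΨ]
    change (if (SemidirectProduct.inl (w * X.r c * w⁻¹ * (w * w')) : X.HH) ∈ N then (0 : ℤ)
      else 1) - (if (SemidirectProduct.inl (w * w') : X.HH) ∈ N then (0 : ℤ) else 1) = 0
    rw [map_mul (SemidirectProduct.inl : X.FG →* X.HH) (w * X.r c * w⁻¹) (w * w')]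
    by_cases h5 : (SemidirectProduct.inl (w * w') : X.HH) ∈ N
    · rw [if_pos h5, if_pos (N.mul_mem h3 h5), sub_zero]
    · rw [if_neg h5, if_neg (fun h6 => h5 ((Subgroup.mul_mem_cancel_left N h3).1 h6)), sub_self]
  have h0 : Ψ (MonoidAlgebra.of ℤ X.FG (X.val (uni_ex X o o).choose)) = 0 := by
    have h1 := (uni_ex X o o).choose_spec.trans (SimpleGraph.dist_self (G := X.Γ) (v := o))
    have h2 : X.val (uni_ex X o o).choose = 1 := by
      generalize (uni_ex X o o).choose = q at h1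
      cases q with
      | nil => rfl
      | cons h q =>
        rw [SimpleGraph.Walk.length_cons] at h1
        omega
    rw [h2, hΨ]
    change (if (SemidirectProduct.inl (1 : X.FG) : X.HH) ∈ N then (0 : ℤ) else 1) = 0
    rw [map_one, if_pos N.one_mem]
  have h1 := hX (MonoidAlgebra ℤ X.FG) (MonoidAlgebra.of ℤ X.FG) _ (uni_bd X) o o p
  have h2 : Ψ (MonoidAlgebra.of ℤ X.FG (X.val p)) = 0 := by
    change _ ∈ AddSubgroup.closure _ at h1
    generalize MonoidAlgebra.of ℤ X.FG (X.val p) = z at h1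
    induction h1 using AddSubgroup.closure_induction with
    | mem y hy =>
      rcases hy with hy | hy
      · rw [Set.mem_singleton_iff] at hy
        rw [hy, h0]
      · exact hT y hy
    | zero => exact map_zero Ψ
    | add y z _ _ h1 h2 => rw [map_add, h1, h2, add_zero]
    | neg y _ h1 => rw [map_neg, h1, neg_zero]
  rw [hΨ] at h2
  change (if (SemidirectProduct.inl (X.val p) : X.HH) ∈ N then (0 : ℤ) else 1) = 0 at h2
  rw [if_neg hp] at h2
  exact one_ne_zero h2

/-- `S_pi` is not needed. -/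
theorem uni0 : S_uni := by
  intro G V C _ _ _ X hX o
  constructor
  · rw [injective_iff_map_eq_one]
    intro x hx
    obtain ⟨h, rfl⟩ := QuotientGroup.mk_surjective x
    have h1 : (h : X.HH).right = 1 := hx
    have h2 : X.IsP o o (h : X.HH).left := by
      have h3 : X.IsP o ((h : X.HH).right • o) (h : X.HH).left := h.2
      rw [h1, one_smul] at h3
      exact h3
    obtain ⟨p, hp⟩ := h2
    have h3 : (h : X.HH) = SemidirectProduct.inl (X.val p) := by
      refine SemidirectProduct.ext ?_ ?_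
      · rw [hp]
        rfl
      · rw [h1]
        rfl
    obtain ⟨y, hy, hy'⟩ := uni_key X hX o p
    have h4 : y = h := Subtype.ext (hy'.trans h3.symm)
    rw [QuotientGroup.eq_one_iff, ← h4]
    exact hy
  · intro g
    obtain ⟨p⟩ := X.conn.preconnected o (g • o)
    exact ⟨QuotientGroup.mk ⟨⟨X.val p, g⟩, ⟨p, rfl⟩⟩, rfl⟩

theorem uni (_ : S_pi) : S_uni := uni0

end Pool.Agent.Cx2
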