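import Pool.Agent.Lib.MP_8f66f0_al_Cx.SpecA

/-! `Met` implies `Wm`. -/

set_option autoImplicit false

namespace Pool.Agent.Cx2

private theorem wm_adj {G V C : Type} [Group G] [MulAction G V] [MulAction G C] (X : Cx G V C)
    {c : C} {a b m : V} (h : X.IsTri c a b m) : X.Γ.Adj b m := by
  have h1 := X.bd_adj c
  rcases h with ⟨h2, h3 | h3⟩ | ⟨h2, h3 | h3⟩ | ⟨h2, h3 | h3⟩ <;> rw [h2, h3] at h1 <;>
    simp only [List.cons_append, List.nil_append, List.isChain_cons_cons] at h1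
  · exact h1.2.1
  · exact h1.2.1.symm
  · exact h1.2.2.1.symm
  · exact h1.1
  · exact h1.2.2.1
  · exact h1.1.symm

theorem wm : S_wm := by
  intro G V C _ _ _ X hX
  refine ⟨fun o v u u' hu hu' hne => ?_, hX.hor⟩
  obtain ⟨c, h | ⟨x, h⟩⟩ := hX.top o v u u' hu hu' hne
  · have hd : X.Γ.dist o u = X.Γ.dist o u' := by
      have h1 := hu.2
      have h2 := hu'.2
      omega
    obtain ⟨c', x, h'⟩ := hX.hor o u u' (wm_adj X h.1) hd
    exact Or.inr ⟨c, c', x, h, h'⟩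
  · exact Or.inl ⟨c, x, h⟩

end Pool.Agent.Cx2
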