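import Pool.Agent.Lib.MP_8f66f0_al_Cx.Act
import Pool.Agent.Lib.MP_8f66f0_al_Cx.Blo
import Pool.Agent.Lib.MP_8f66f0_al_Cx.Bpt
import Pool.Agent.Lib.MP_8f66f0_al_Cx.Ch
import Pool.Agent.Lib.MP_8f66f0_al_Cx.Cod
import Pool.Agent.Lib.MP_8f66f0_al_Cx.Comp
import Pool.Agent.Lib.MP_8f66f0_al_Cx.Frm
import Pool.Agent.Lib.MP_8f66f0_al_Cx.Gd
import Pool.Agent.Lib.MP_8f66f0_al_Cx.Gen
import Pool.Agent.Lib.MP_8f66f0_al_Cx.GeoMet
import Pool.Agent.Lib.MP_8f66f0_al_Cx.Go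
import Pool.Agent.Lib.MP_8f66f0_al_Cx.Gsp
import Pool.Agent.Lib.MP_8f66f0_al_Cx.Hh
import Pool.Agent.Lib.MP_8f66f0_al_Cx.Indep
import Pool.Agent.Lib.MP_8f66f0_al_Cx.Inj
import Pool.Agent.Lib.MP_8f66f0_al_Cx.Kil
import Pool.Agent.Lib.MP_8f66f0_al_Cx.Mrg
import Pool.Agent.Lib.MP_8f66f0_al_Cx.Mv
import Pool.Agent.Lib.MP_8f66f0_al_Cx.Nb
import Pool.Agent.Lib.MP_8f66f0_al_Cx.PatchTwo
import Pool.Agent.Lib.MP_8f66f0_al_Cx.Pi
import Pool.Agent.Lib.MP_8f66f0_al_Cx.Pp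
import Pool.Agent.Lib.MP_8f66f0_al_Cx.Psf
import Pool.Agent.Lib.MP_8f66f0_al_Cx.Spn
import Pool.Agent.Lib.MP_8f66f0_al_Cx.Tg
import Pool.Agent.Lib.MP_8f66f0_al_Cx.Uni
import Pool.Agent.Lib.MP_8f66f0_al_Cx.Wa
import Pool.Agent.Lib.MP_8f66f0_al_Cx.WmMet

/-! Assembly, parts A, C and E. -/

set_option autoImplicit false

namespace Pool.Agent.Cx2

theorem all_gen : S_gen := gen mv (gd mv)

theorem all_indep : S_indep := fun _ _ _ _ _ r g h => indep r g h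

theorem all_gsp : S_gsp := gsp pp

theorem all_mrg : S_mrg := mrg pp

theorem all_hh : S_hh := hh all_indep

theorem all_wa : S_wa := wa pp all_hh pi_all

theorem all_kil : S_kil := kil all_gsp pp all_mrg all_hh

theorem all_inj : S_inj := inj pi_all all_kil cod_all (frm pp all_hh) all_hh all_wa

theorem all_spn : S_spn := spn all_gsp pp all_mrg all_hh pi_all all_wa

theorem all_blo : S_blo := blo pp all_hh pi_all all_inj all_wa all_spn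

theorem all_psf : S_psf := fun _ _ _ _ _ _ _ _ _ ρ b hL hB hS hK =>
  psf hL ρ b (fun _ => 0) hB hS hK

theorem all_patch : S_patch2 := fun LL D L T Q _ _ _ _ _ _ _ _ _ ρ eps emb π h1 h2 h3 h4 h5 h6 h7 =>
  patch_sf LL D L T Q ρ eps emb π h1 h2 h3 h4 h5 h6 h7

theorem all_go : S_go := go (tg nb) act

theorem all_uni : S_uni := uni pi_all

end Pool.Agent.Cx2
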