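import Pool.Agent.Lib.MP_8f66f0_al_Cx.Defs

/-! Beads: definitions for part C. -/

set_option autoImplicit false

namespace Pool.Agent.Cx2

open Pool.Agent.Wald

section Beads

variable {G V C : Type} [Group G] [MulAction G V] [MulAction G C] (X : Cx G V C)

/-- The end point of the beads `L` which start at `o`. -/
def Cx.en (o : V) : List (C × ℤ) → V
  | [] => o
  | a :: _ => X.bv a.1

/-- The geodesics between the cells. -/
def Cx.gm {X : Cx G V C} (γ : X.Geo) (o : V) : Option C → C → X.FG
  | none, c => γ.γ o (X.bv c)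
  | some c, c' => γ.γ (X.bv c) (X.bv c')

variable (k : Type) [CommRing k]

/-- The product of the beads `L` which start at `o`: a combination of paths from `o` to
`en o L`. -/
noncomputable def Cx.PP {X : Cx G V C} (γ : X.Geo) (o : V) (L : List (C × ℤ)) :
    MonoidAlgebra k X.FG :=
  PM k X.r (Cx.gm γ o) L

/-- The translate of a list of beads. -/
def sm (g : G) (L : List (C × ℤ)) : List (C × ℤ) := L.map fun a => (g • a.1, a.2)

/-- Consecutive cells are different. -/
def Ch (L : List (C × ℤ)) : Prop := L.IsChain fun a b => a.1 ≠ b.1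

/-- The action of `g` on the algebra of the free group. -/
noncomputable def Cx.ac (g : G) : MonoidAlgebra k X.FG →ₐ[k] MonoidAlgebra k X.FG :=
  MonoidAlgebra.mapDomainAlgHom k k (X.φ g : X.FG →* X.FG)

/-- The algebra of the free group in the algebra of `HH`. -/
noncomputable def Cx.io : MonoidAlgebra k X.FG →ₐ[k] MonoidAlgebra k X.HH :=
  MonoidAlgebra.mapDomainAlgHom k k (SemidirectProduct.inl : X.FG →* X.HH)

/-- The element `g` of the algebra of `HH`. -/
noncomputable def Cx.sg (g : G) : MonoidAlgebra k X.HH :=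
  MonoidAlgebra.of k X.HH (SemidirectProduct.inr g)

/-- The element of a path in the algebra of `HH`. -/
noncomputable def Cx.pa (w : X.FG) : MonoidAlgebra k X.HH :=
  MonoidAlgebra.of k X.HH (SemidirectProduct.inl w)

/-- The arrows from `u` to `v`: pairs of a path from `u` to `g v` and `g ∈ G`. -/
def Cx.Arr (u v : V) : Set X.HH := {h | X.IsP u (h.right • v) h.left}

/-- The combinations of arrows from `u` to `v`. -/
noncomputable def Cx.Ar (u v : V) : Submodule k (MonoidAlgebra k X.HH) :=
  Submodule.span k ((fun h => MonoidAlgebra.of k X.HH h) '' X.Arr u v)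

open Classical in
/-- The linear map from the algebra of `HH` to the algebra of `GK`: elements of `HH` outside
`G1` go to zero. -/
noncomputable def Cx.Pi (K : Set C) (o : V) :
    MonoidAlgebra k X.HH →ₗ[k] MonoidAlgebra k (X.GK K o) :=
  (Finsupp.lsum k fun h : X.HH =>
    if hh : h ∈ X.G1 o then
      LinearMap.toSpanSingleton k _ (MonoidAlgebra.of k (X.GK K o)
        (QuotientGroup.mk (⟨h, hh⟩ : X.G1 o)))
    else 0) ∘ₗ (MonoidAlgebra.coeffLinearEquiv k).toLinearMap

/-- The elements with a factor `r_c - 1`, `c ∈ K`, from `u` to `v`. -/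
noncomputable def Cx.Kl (K : Set C) (u v : V) : Submodule k (MonoidAlgebra k X.HH) :=
  Submodule.span k {z | ∃ c ∈ K, ∃ w : X.FG, X.IsP u (X.bv c) w ∧ ∃ h ∈ X.Arr (X.bv c) v,
    z = X.pa k w * (X.pa k (X.r c) - 1) * MonoidAlgebra.of k X.HH h}

variable (f : C)

/-- A letter `(l, g, n)`: beads `l` outside `K` and the orbit of `f`, `g ∈ G` a chosen
representative of its coset `D g` (`rp g = g`), `n ∈ ℤ`; the trivial letters (`l` empty and
`g ∈ D`) are excluded. -/
def IsLet (K : Set C) (rp : G → G) (x : List (C × ℤ) × G × ℤ) : Prop :=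
  Ch x.1 ∧ (∀ a ∈ x.1, a.1 ∉ K ∧ a.1 ∉ MulAction.orbit G f) ∧ rp x.2.1 = x.2.1 ∧
    ¬ (x.1 = [] ∧ x.2.1 ∈ MulAction.stabilizer G f)

/-- The letters. -/
abbrev Letr (K : Set C) (rp : G → G) : Type :=
  {x : List (C × ℤ) × G × ℤ // IsLet f K rp x}

/-- `rp` chooses a representative in every coset `D g` of the stabilizer `D` of `f`. -/
structure IsRp (rp : G → G) : Prop where
  mem : ∀ g, rp g * g⁻¹ ∈ MulAction.stabilizer G f
  eq : ∀ d ∈ MulAction.stabilizer G f, ∀ g, rp (d * g) = rp g

/-- The value of a letter: `(r_f - 1) l γ g r_f^n`. -/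
noncomputable def Cx.lv {X : Cx G V C} (γ : X.Geo) (x : List (C × ℤ) × G × ℤ) :
    MonoidAlgebra k X.HH :=
  (X.pa k (X.r f) - 1) * (X.io k (Cx.PP k γ (X.bv f) x.1) *
    X.pa k (γ.γ (X.en (X.bv f) x.1) (x.2.1 • X.bv f))) * X.sg k x.2.1 * X.pa k (X.r f ^ x.2.2)

/-- The element `d r_f^n` times the word `u` of letters. -/
noncomputable def Cx.wo {X : Cx G V C} (γ : X.Geo) (d : G) (n : ℤ)
    (u : List (List (C × ℤ) × G × ℤ)) : MonoidAlgebra k X.HH :=
  X.sg k d * X.pa k (X.r f ^ n) * Hier.wd (Cx.lv k f γ) u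

/-- The combinations of the elements `wo` of words of letters. -/
noncomputable def Cx.WA {X : Cx G V C} (γ : X.Geo) (K : Set C) (rp : G → G) :
    Submodule k (MonoidAlgebra k X.HH) :=
  Submodule.span k {z | ∃ d ∈ MulAction.stabilizer G f, ∃ (n : ℤ)
    (u : List (List (C × ℤ) × G × ℤ)), (∀ x ∈ u, IsLet f K rp x) ∧ z = Cx.wo k f γ d n u}

/-- The beads and the group element of `d r_f^n` times a word. -/
def cod (d : G) (n : ℤ) : List (List (C × ℤ) × G × ℤ) → List (C × ℤ) × G
  | [] => ([(d • f, n)], d)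
  | x :: u => (((((cod d n u).2 * x.2.1) • f), x.2.2) :: (sm (cod d n u).2 x.1 ++ (cod d n u).1),
      (cod d n u).2 * x.2.1)

end Beads

end Pool.Agent.Cx2
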