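import Mathlib
import Pool.Agent.Lib.MP_8f66f0_al_HierZ.FinalD
import Pool.Agent.Lib.MP_8f66f0_al_Cx.Defs

/-! The class of groups of the theorem on actions on trees and 2-complexes. (`IsEuc` and
`K1Units` are defined in `HierZ/FinalD`, `Cx` and `Met` in `Cx/Defs`.) -/

set_option autoImplicit false

namespace Pool.Agent.WhVan

/-- The least class of groups which contains all torsion free subgroups of `GL_2(R)`, for all
commutative rings `R` of positive characteristic and all rings `R` which can be embedded in a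
purely transcendental extension of `ℚ` (the fraction field of the polynomial ring in the variables
`σ` over `ℤ`), and is closed under isomorphism, subgroups, directed unions, extensions, actions
on trees without inversions with all vertex stabilizers in the class, and actions on 2-complexes
`X` (triangles and squares, stabilizers of edges and 2-cells fix them pointwise) which satisfy the
metric conditions `X.Met`, with all vertex stabilizers in the class. -/
inductive TC : (Γ : Type) → [Group Γ] → Prop
  | gl2 (R : Type) [CommRing R] (m : ℕ) (Γ : Subgroup (Matrix.GeneralLinearGroup (Fin 2) R)) :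
      0 < m → (m : R) = 0 → (∀ g ∈ Γ, ∀ n : ℕ, 0 < n → g ^ n = 1 → g = 1) → TC Γ
  | gl2Q (σ R : Type) [CommRing R] (j : R →+* FractionRing (MvPolynomial σ ℤ))
      (Γ : Subgroup (Matrix.GeneralLinearGroup (Fin 2) R)) : Function.Injective j →
      (∀ g ∈ Γ, ∀ n : ℕ, 0 < n → g ^ n = 1 → g = 1) → TC Γ
  | iso {Γ Γ' : Type} [Group Γ] [Group Γ'] (e : Γ ≃* Γ') : TC Γ → TC Γ'
  | sub {Γ : Type} [Group Γ] (H : Subgroup Γ) : TC Γ → TC H
  | directed {Γ : Type} [Group Γ] (S : Set (Subgroup Γ)) : S.Nonempty →
      DirectedOn (· ≤ ·) S → (∀ g : Γ, ∃ K ∈ S, g ∈ K) → (∀ K ∈ S, TC K) → TC Γ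
  | ext {Γ Q : Type} [Group Γ] [Group Q] (f : Γ →* Q) : TC f.ker → TC Q → TC Γ
  | tree {Γ V : Type} [Group Γ] [MulAction Γ V] (T : SimpleGraph V) : T.IsTree →
      (∀ (g : Γ) (v w : V), T.Adj v w → T.Adj (g • v) (g • w)) →
      (∀ (g : Γ) (v w : V), T.Adj v w → ¬ (g • v = w ∧ g • w = v)) →
      (∀ v : V, TC (MulAction.stabilizer Γ v)) → TC Γ
  | cplx {Γ V C : Type} [Group Γ] [MulAction Γ V] [MulAction Γ C] (X : Cx2.Cx Γ V C) : X.Met →
      (∀ v : V, TC (MulAction.stabilizer Γ v)) → TC Γ

end Pool.Agent.WhVan
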