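import Mathlib
import Pool.Agent.Lib.MP_8f66f0_al_Cx.FinalCS
import Pool.Agent.Lib.MP_8f66f0_al_Cx.All

/-! The theorem on actions on trees and 2-complexes: unconditional form. -/

set_option autoImplicit false

namespace Pool.Agent.WhVan

/-- The main theorem. -/
theorem tc_all {Γ : Type} [Group Γ] (h : TC Γ) (L : Type) [CommRing L] [IsDomain L]
    (hL : IsEuc L) : K1Units L Γ :=
  tc_main Cx2.wm Cx2.geo Cx2.ch Cx2.all_gen Cx2.all_orb Cx2.all_res h L hL

end Pool.Agent.WhVan
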