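import Pool.Agent.Lib.MP_8f66f0_al_Cx.SpecC

/-! Formulas in the algebra of `HH` over an arbitrary commutative ring (used by Frm, Wa, Spn).
(helper36) -/

set_option autoImplicit false

namespace Pool.Agent.Cx2

open Pool.Agent.Wald Pool.Agent.Hier

section

variable {G V C : Type} [Group G] [MulAction G V] [MulAction G C] (X : Cx G V C)
  (k : Type) [CommRing k]

theorem fml_mapof {H K : Type} [Group H] [Group K] (f : H →* K) (h : H) :
    MonoidAlgebra.mapDomainAlgHom k k f (MonoidAlgebra.of k H h) = MonoidAlgebra.of k K (f h) :=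
  MonoidAlgebra.mapDomain_single

theorem fml_ac_of (g : G) (w : X.FG) :
    X.ac k g (MonoidAlgebra.of k _ w) = MonoidAlgebra.of k _ (X.φ g w) :=
  fml_mapof k _ w

theorem fml_io_of (w : X.FG) : X.io k (MonoidAlgebra.of k _ w) = X.pa k w :=
  fml_mapof k _ w

theorem fml_sg_one : X.sg k 1 = 1 := by
  unfold Cx.sg
  rw [map_one, map_one]

theorem fml_sg_mul (g h : G) : X.sg k (g * h) = X.sg k g * X.sg k h := by
  unfold Cx.sg
  rw [map_mul, map_mul]

theorem fml_pa_one : X.pa k 1 = 1 := by
  unfold Cx.pa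
  rw [map_one, map_one]

theorem fml_pa_mul (w w' : X.FG) : X.pa k (w * w') = X.pa k w * X.pa k w' := by
  unfold Cx.pa
  rw [map_mul, map_mul]

theorem fml_sg_pa (g : G) (w : X.FG) :
    X.sg k g * X.pa k w = X.pa k (X.φ g w) * X.sg k g := by
  unfold Cx.sg Cx.pa
  rw [← map_mul, ← map_mul]
  congr 1
  rw [SemidirectProduct.inl_aut, map_inv, inv_mul_cancel_right]

theorem fml_sg_io (g : G) (x : MonoidAlgebra k X.FG) :
    X.sg k g * X.io k x = X.io k (X.ac k g x) * X.sg k g := by
  induction x using MonoidAlgebra.induction_on with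
  | of w => rw [fml_io_of, fml_ac_of, fml_io_of, fml_sg_pa]
  | add x y hx hy => rw [map_add, map_add, map_add, mul_add, add_mul, hx, hy]
  | smul r x hx => rw [map_smul, map_smul, map_smul, mul_smul_comm, smul_mul_assoc, hx]

/-- An element `[w]` with `φ g w = w` commutes with `s_g`. -/
theorem fml_comm (g : G) (w : X.FG) (h : X.φ g w = w) :
    X.sg k g * X.pa k w = X.pa k w * X.sg k g := by
  rw [fml_sg_pa, h]

theorem fml_stab (f : C) (d : G) (hd : d ∈ MulAction.stabilizer G f) : X.φ d (X.r f) = X.r f := by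
  rw [X.φ_r, MulAction.mem_stabilizer_iff.1 hd]

theorem fml_stab_bv (f : C) (d : G) (hd : d ∈ MulAction.stabilizer G f) :
    d • X.bv f = X.bv f := by
  rw [← X.bv_smul, MulAction.mem_stabilizer_iff.1 hd]

end

end Pool.Agent.Cx2
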