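import Pool.Agent.Lib.MP_8f66f0_al_Cx.Fml

/-! Letters and arrows in the algebra of `HH` (used by Wa, Spn). (helper36) -/

set_option autoImplicit false

namespace Pool.Agent.Cx2

open Pool.Agent.Wald Pool.Agent.Hier

section

variable {G V C : Type} [Group G] [MulAction G V] [MulAction G C] (X : Cx G V C)
  (k : Type) [CommRing k]

theorem fml_pa_mem {u v : V} {w : X.FG} (h : X.IsP u v w) : X.pa k w ∈ X.Ar k u v := by
  refine Submodule.subset_span ⟨SemidirectProduct.inl w, ?_, rfl⟩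
  change X.IsP u ((1 : G) • v) w
  rw [one_smul]
  exact h

theorem fml_sg_mem (g : G) (v : V) : X.sg k g ∈ X.Ar k (g • v) v := by
  refine Submodule.subset_span ⟨SemidirectProduct.inr g, ?_, rfl⟩
  change X.IsP (g • v) (g • v) 1
  exact X.isP_one _

theorem fml_isP_pow {u : V} {x : X.FG} (hx : X.IsP u u x) (n : ℕ) : X.IsP u u (x ^ n) := by
  induction n with
  | zero => rw [pow_zero]; exact X.isP_one u
  | succ n ih => rw [pow_succ]; exact ih.mul hx

theorem fml_isP_zpow {u : V} {x : X.FG} (hx : X.IsP u u x) (n : ℤ) :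
    X.IsP u u (x ^ n) := by
  cases n with
  | ofNat n =>
    rw [Int.ofNat_eq_natCast, zpow_natCast]
    exact fml_isP_pow X hx n
  | negSucc n =>
    rw [zpow_negSucc]
    exact (fml_isP_pow X hx (n + 1)).inv

theorem fml_io_span {u v : V} {x : MonoidAlgebra k X.FG}
    (hx : x ∈ Submodule.span k ((fun w => MonoidAlgebra.of k X.FG w) '' {w | X.IsP u v w})) :
    X.io k x ∈ X.Ar k u v := by
  induction hx using Submodule.span_induction with
  | mem x hx =>
    obtain ⟨w, hw, rfl⟩ := hx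
    rw [fml_io_of]
    exact fml_pa_mem X k hw
  | zero => rw [map_zero]; exact Submodule.zero_mem _
  | add a b _ _ ha hb => rw [map_add]; exact Submodule.add_mem _ ha hb
  | smul c a _ ha => rw [map_smul]; exact Submodule.smul_mem _ c ha

/-- The bead product as a combination of arrows. -/
theorem fml_PP_mem (h1 : S_pp) (γ : X.Geo) (o : V) (L : List (C × ℤ)) :
    X.io k (Cx.PP k γ o L) ∈ X.Ar k o (X.en o L) :=
  fml_io_span X k ((h1 G V C X γ k).2.2.2.2.2.2 o L)

/-- Elements of the stabilizer move to the left of a letter. -/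
theorem fml_lv_left (h1 : S_pp) (γ : X.Geo) (f : C) (d : G)
    (hd : d ∈ MulAction.stabilizer G f) (l : List (C × ℤ)) (g : G) (m : ℤ) :
    X.sg k d * Cx.lv k f γ (l, g, m) = Cx.lv k f γ (sm d l, d * g, m) := by
  obtain ⟨-, -, -, hs, -, -, -⟩ := h1 G V C X γ k
  have e0 : d • X.bv f = X.bv f := fml_stab_bv X f d hd
  have e1 : X.sg k d * (X.pa k (X.r f) - 1) = (X.pa k (X.r f) - 1) * X.sg k d := by
    rw [mul_sub, sub_mul, mul_one, one_mul, fml_comm X k d _ (fml_stab X f d hd)]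
  have e2 : X.sg k d * (X.io k (Cx.PP k γ (X.bv f) l) *
      X.pa k (γ.γ (X.en (X.bv f) l) (g • X.bv f))) =
      (X.io k (Cx.PP k γ (X.bv f) (sm d l)) *
        X.pa k (γ.γ (X.en (X.bv f) (sm d l)) ((d * g) • X.bv f))) * X.sg k d := by
    have f1 : X.ac k d (Cx.PP k γ (X.bv f) l) = Cx.PP k γ (X.bv f) (sm d l) := by
      rw [(hs d (X.bv f) l).1, e0]
    have f2 : X.φ d (γ.γ (X.en (X.bv f) l) (g • X.bv f)) =
        γ.γ (X.en (X.bv f) (sm d l)) ((d * g) • X.bv f) := by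
      rw [← γ.smul, mul_smul, ← (hs d (X.bv f) l).2, e0]
    rw [← mul_assoc, fml_sg_io, f1, mul_assoc, fml_sg_pa, f2, ← mul_assoc]
  unfold Cx.lv
  change X.sg k d * ((X.pa k (X.r f) - 1) * (X.io k (Cx.PP k γ (X.bv f) l) *
    X.pa k (γ.γ (X.en (X.bv f) l) (g • X.bv f))) * X.sg k g * X.pa k (X.r f ^ m)) =
    (X.pa k (X.r f) - 1) * (X.io k (Cx.PP k γ (X.bv f) (sm d l)) *
      X.pa k (γ.γ (X.en (X.bv f) (sm d l)) ((d * g) • X.bv f))) * X.sg k (d * g) *
      X.pa k (X.r f ^ m)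
  rw [fml_sg_mul]
  calc X.sg k d * ((X.pa k (X.r f) - 1) * (X.io k (Cx.PP k γ (X.bv f) l) *
        X.pa k (γ.γ (X.en (X.bv f) l) (g • X.bv f))) * X.sg k g * X.pa k (X.r f ^ m))
      = (X.sg k d * (X.pa k (X.r f) - 1)) * (X.io k (Cx.PP k γ (X.bv f) l) *
        X.pa k (γ.γ (X.en (X.bv f) l) (g • X.bv f))) * X.sg k g * X.pa k (X.r f ^ m) := by
        simp only [mul_assoc]
    _ = (X.pa k (X.r f) - 1) * (X.sg k d * (X.io k (Cx.PP k γ (X.bv f) l) *
        X.pa k (γ.γ (X.en (X.bv f) l) (g • X.bv f)))) * X.sg k g * X.pa k (X.r f ^ m) := by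
        rw [e1]
        simp only [mul_assoc]
    _ = _ := by
        rw [e2]
        simp only [mul_assoc]

/-- Elements of the stabilizer and powers of `r_f` on the right of a letter. -/
theorem fml_lv_right (γ : X.Geo) (f : C) (d : G)
    (hd : d ∈ MulAction.stabilizer G f) (l : List (C × ℤ)) (g : G) (m m' : ℤ) :
    Cx.lv k f γ (l, g, m) * (X.sg k d * X.pa k (X.r f ^ m')) =
      Cx.lv k f γ (l, g * d, m + m') := by
  have e0 : d • X.bv f = X.bv f := fml_stab_bv X f d hd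
  have e1 : X.pa k (X.r f ^ m) * (X.sg k d * X.pa k (X.r f ^ m')) =
      X.sg k d * X.pa k (X.r f ^ (m + m')) := by
    rw [← mul_assoc, ← fml_comm X k d (X.r f ^ m) (by rw [map_zpow, fml_stab X f d hd]),
      mul_assoc, ← fml_pa_mul, ← zpow_add]
  unfold Cx.lv
  change (X.pa k (X.r f) - 1) * (X.io k (Cx.PP k γ (X.bv f) l) *
    X.pa k (γ.γ (X.en (X.bv f) l) (g • X.bv f))) * X.sg k g * X.pa k (X.r f ^ m) *
    (X.sg k d * X.pa k (X.r f ^ m')) =
    (X.pa k (X.r f) - 1) * (X.io k (Cx.PP k γ (X.bv f) l) *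
      X.pa k (γ.γ (X.en (X.bv f) l) ((g * d) • X.bv f))) * X.sg k (g * d) *
      X.pa k (X.r f ^ (m + m'))
  rw [mul_assoc _ (X.pa k (X.r f ^ m)), e1, fml_sg_mul, mul_smul, e0]
  simp only [mul_assoc]

theorem fml_sm_ch (g : G) {L : List (C × ℤ)} (h : Ch L) : Ch (sm g L) := by
  unfold Ch sm at *
  rw [List.isChain_map]
  exact h.imp fun a b hab h1 => hab (MulAction.injective g h1)

theorem fml_sm_mem (g : G) (L : List (C × ℤ)) (a : C × ℤ) :
    a ∈ sm g L ↔ ∃ b ∈ L, (g • b.1, b.2) = a := by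
  unfold sm
  rw [List.mem_map]

theorem fml_sm_nil (g : G) (L : List (C × ℤ)) : sm g L = [] ↔ L = [] := by
  unfold sm
  rw [List.map_eq_nil_iff]

theorem fml_sm_sm (g h : G) (L : List (C × ℤ)) : sm g (sm h L) = sm (g * h) L := by
  unfold sm
  rw [List.map_map]
  refine List.map_congr_left fun a _ => ?_
  exact Prod.ext (mul_smul g h a.1).symm rfl

theorem fml_sm_one (L : List (C × ℤ)) : sm (1 : G) L = L := by
  unfold sm
  conv_rhs => rw [← List.map_id L]
  refine List.map_congr_left fun a _ => ?_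
  exact Prod.ext (one_smul G a.1) rfl

/-- `rp` is a retraction onto the representatives. -/
theorem fml_rp {f : C} {rp : G → G} (h : IsRp f rp) (g : G) : rp (rp g) = rp g := by
  have h1 := h.eq _ (h.mem g) g
  rwa [inv_mul_cancel_right] at h1

/-- The element of the stabilizer with `g = d * rp g`. -/
theorem fml_rp_mem {f : C} {rp : G → G} (h : IsRp f rp) (g : G) :
    g * (rp g)⁻¹ ∈ MulAction.stabilizer G f := by
  have h1 := (MulAction.stabilizer G f).inv_mem (h.mem g)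
  rwa [mul_inv_rev, inv_inv] at h1

/-- Every list of beads outside `K` and the orbit of `f` gives a letter, up to an element of the
stabilizer. -/
theorem fml_letter (h1 : S_pp) (γ : X.Geo) (K : Set C) (f : C) (rp : G → G) (hrp : IsRp f rp)
    (hK : ∀ (g : G), ∀ c ∈ K, g • c ∈ K) (l : List (C × ℤ)) (g : G) (m : ℤ) (hl : Ch l)
    (hl' : ∀ a ∈ l, a.1 ∉ K ∧ a.1 ∉ MulAction.orbit G f)
    (hn : ¬ (l = [] ∧ g ∈ MulAction.stabilizer G f)) :
    ∃ d ∈ MulAction.stabilizer G f, ∃ x', IsLet f K rp x' ∧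
      Cx.lv k f γ (l, g, m) = X.sg k d * Cx.lv k f γ x' := by
  have hd := fml_rp_mem hrp g
  refine ⟨g * (rp g)⁻¹, hd, (sm (g * (rp g)⁻¹)⁻¹ l, rp g, m), ⟨?_, ?_, ?_, ?_⟩, ?_⟩
  · exact fml_sm_ch _ hl
  · intro a ha
    obtain ⟨b, hb, rfl⟩ := (fml_sm_mem _ _ _).1 ha
    obtain ⟨h2, h3⟩ := hl' b hb
    refine ⟨fun h4 => h2 ?_, fun h4 => h3 ?_⟩
    · have h5 := hK (g * (rp g)⁻¹) _ h4
      rwa [smul_inv_smul] at h5
    · change (g * (rp g)⁻¹)⁻¹ • b.1 ∈ MulAction.orbit G f at h4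
      obtain ⟨g', hg'⟩ := h4
      refine ⟨(g * (rp g)⁻¹) * g', ?_⟩
      change ((g * (rp g)⁻¹) * g') • f = b.1
      rw [mul_smul, show g' • f = (g * (rp g)⁻¹)⁻¹ • b.1 from hg', smul_inv_smul]
  · exact fml_rp hrp g
  · rintro ⟨h2, h3⟩
    apply hn
    refine ⟨(fml_sm_nil _ _).1 h2, ?_⟩
    have h4 := (MulAction.stabilizer G f).mul_mem hd h3
    rwa [inv_mul_cancel_right] at h4
  · rw [fml_lv_left X k h1 γ f _ hd, fml_sm_sm, mul_inv_cancel, fml_sm_one, inv_mul_cancel_right]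

/-- Words: the list `u' ++ u''` is the word `u''` times the word `u'`. -/
theorem fml_wd_append {T Λ : Type} [Ring T] (ℓ : Λ → T) (u v : List Λ) :
    wd ℓ (u ++ v) = wd ℓ v * wd ℓ u := by
  induction u with
  | nil => rw [List.nil_append, show wd ℓ [] = 1 from rfl, mul_one]
  | cons a u ih =>
    rw [List.cons_append, show wd ℓ (a :: (u ++ v)) = wd ℓ (u ++ v) * ℓ a from rfl, ih,
      show wd ℓ (a :: u) = wd ℓ u * ℓ a from rfl, mul_assoc]

end

end Pool.Agent.Cx2
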