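import Pool.Agent.Lib.MP_8f66f0_al_Cx.SpecE
import Pool.Agent.Lib.MP_8f66f0_al_Tree.Graph

/-! E4: classes closed under actions on trees. -/

set_option autoImplicit false

namespace Pool.Agent.Cx2

open Pool.Agent.Wald Pool.Agent.TreeC

theorem go (h1 : S_tg) (h2 : S_act) : S_go := by
  intro P hP G V C _ _ _ X o hv
  obtain ⟨a1, a2, a3⟩ := h2 G V C X o
  obtain ⟨𝓗, hH, hs⟩ := graph (X.G1 o) (X.W o) (X.TG o) (h1 G V C X o) a1 a2
  have : Nonempty (X.W o) := ⟨⟨(1, o), X.isP_one o⟩⟩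
  refine hP.tree (X.G1 o) (X.W o) 𝓗 hH fun x => ?_
  rw [hs x]
  obtain ⟨e⟩ := a3 x
  exact hP.iso _ _ e.symm (hv _)

end Pool.Agent.Cx2
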