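import Pool.Agent.Lib.MP_8f66f0_al_Cx.SpecA

/-! # Ladders (note 3347)

Generation (`Cx.GenP`) for complexes in which every walk can be joined to every geodesic with
the same ends by ladders which do not make it longer (for example small cancellation complexes).
The base corners of the cells of a ladder may be on the top path, on the bottom path or inside
the pieces between two consecutive cells. -/

set_option autoImplicit false

namespace Pool.Agent.Cx2

section Def

variable {G V C : Type} [Group G] [MulAction G V] [MulAction G C]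

/-- `l` is the boundary of the cell `c`, in one of the two directions. -/
def Cx.IsLp (X : Cx G V C) (c : C) (l : X.FG) : Prop := l = X.r c ∨ l = (X.r c)⁻¹

/-- Ladders. `Lad m P Q v e S W`: `e` is a walk from `P` (on the top path) to `Q` (on the bottom
path), `S` and `W` are the rests of the top path and of the bottom path, `m` is the length of the
top path before `P`. Each step adds one cell in front (with sides `a` on the top, `b` on the
bottom, `e` on the left and `e'` on the right), according to the position of its base corner: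
`top`, `bot`, `right` (inside `e'`), `left` (inside `e`); `flat` adds no cell. -/
inductive Cx.Lad (X : Cx G V C) : ℕ → (P Q v : V) → X.Γ.Walk P Q → X.Γ.Walk P v →
    X.Γ.Walk Q v → Prop
  | nil (m : ℕ) (P v : V) (y : X.Γ.Walk P v) : Lad X m P P v SimpleGraph.Walk.nil y y
  | flat (m : ℕ) (P Q P' Q' v : V) (e : X.Γ.Walk P Q) (e' : X.Γ.Walk P' Q')
      (S : X.Γ.Walk P' v) (W : X.Γ.Walk Q' v) (a : X.Γ.Walk P P') (b : X.Γ.Walk Q Q')
      (h : X.val e * X.val b = X.val a * X.val e')
      (ih : Lad X (m + a.length) P' Q' v e' S W) :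
      Lad X m P Q v e (a.append S) (b.append W)
  | top (m : ℕ) (P Q P' Q' v : V) (e : X.Γ.Walk P Q) (e' : X.Γ.Walk P' Q')
      (S : X.Γ.Walk P' v) (W : X.Γ.Walk Q' v) (c : C) (l : X.FG) (hl : X.IsLp c l)
      (a : X.Γ.Walk P (X.bv c)) (a' : X.Γ.Walk (X.bv c) P') (b : X.Γ.Walk Q Q')
      (h : X.val e * X.val b = X.val a * l * X.val a' * X.val e')
      (h0 : 0 < a.length + a'.length)
      (ih : Lad X (m + (a.length + a'.length)) P' Q' v e' S W) :
      Lad X m P Q v e (a.append (a'.append S)) (b.append W)
  | bot (m : ℕ) (P Q P' Q' v : V) (e : X.Γ.Walk P Q) (e' : X.Γ.Walk P' Q')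
      (S : X.Γ.Walk P' v) (W : X.Γ.Walk Q' v) (c : C) (l : X.FG) (hl : X.IsLp c l)
      (a : X.Γ.Walk P P') (b : X.Γ.Walk Q (X.bv c)) (b' : X.Γ.Walk (X.bv c) Q')
      (h : X.val e * (X.val b * l * X.val b') = X.val a * X.val e')
      (h0 : 0 < b.length + b'.length)
      (ih : Lad X (m + a.length) P' Q' v e' S W) :
      Lad X m P Q v e (a.append S) (b.append (b'.append W))
  | right (m : ℕ) (P Q P' Q' v : V) (e : X.Γ.Walk P Q) (S : X.Γ.Walk P' v)
      (W : X.Γ.Walk Q' v) (c : C) (l : X.FG) (hl : X.IsLp c l) (a : X.Γ.Walk P P')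
      (b : X.Γ.Walk Q Q') (e' : X.Γ.Walk P' (X.bv c)) (e'' : X.Γ.Walk (X.bv c) Q')
      (h : X.val e * X.val b = X.val a * (X.val e' * l * X.val e''))
      (h1 : e'.length < m + a.length) (h2 : e''.length < W.length)
      (ih : Lad X (m + a.length) P' Q' v (e'.append e'') S W) :
      Lad X m P Q v e (a.append S) (b.append W)
  | left (m : ℕ) (P Q P' Q' v : V) (e' : X.Γ.Walk P' Q') (S : X.Γ.Walk P' v)
      (W : X.Γ.Walk Q' v) (c : C) (l : X.FG) (hl : X.IsLp c l) (a : X.Γ.Walk P P')
      (b : X.Γ.Walk Q Q') (e : X.Γ.Walk P (X.bv c)) (e'' : X.Γ.Walk (X.bv c) Q)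
      (h : X.val e * l * X.val e'' * X.val b = X.val a * X.val e')
      (h1 : e.length < m) (h2 : e''.length < b.length + W.length)
      (ih : Lad X (m + a.length) P' Q' v e' S W) :
      Lad X m P Q v (e.append e'') (a.append S) (b.append W)

/-- Two walks which are joined by a ladder. -/
def Cx.Lj (X : Cx G V C) {o v : V} (f f' : X.Γ.Walk o v) : Prop :=
  ∃ (P : V) (x : X.Γ.Walk o P) (S W : X.Γ.Walk P v), f = x.append S ∧ f' = x.append W ∧
    X.Lad x.length P P v SimpleGraph.Walk.nil S W

/-- Two walks of length at most `n` which are joined by a ladder. -/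
def Cx.LStep (X : Cx G V C) (n : ℕ) {o v : V} (f f' : X.Γ.Walk o v) : Prop :=
  f.length ≤ n ∧ f'.length ≤ n ∧ (X.Lj f f' ∨ X.Lj f' f)

/-- Every walk can be joined by ladders to every geodesic with the same ends, without becoming
longer than it is. -/
def Cx.LadP (X : Cx G V C) : Prop :=
  ∀ (o v : V) (f p : X.Γ.Walk o v), p.length = X.Γ.dist o v →
    Relation.ReflTransGen (X.LStep f.length) f p

end Def

section Proof

variable {G V C : Type} [Group G] [MulAction G V] [MulAction G C] {X : Cx G V C} {R : Type}
  [Ring R] {j : X.FG →* R} {B : V → V → AddSubgroup R}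

/-- The unit `1` is in `B u u`. -/
private theorem lad_one (hB : X.Bd j B) (u : V) : (1 : R) ∈ B u u := by
  obtain ⟨p, hp, hp'⟩ := hB.geo u u
  rw [SimpleGraph.dist_self] at hp
  have h1 : p = SimpleGraph.Walk.nil := by
    cases p with
    | nil => rfl
    | cons h q => simp at hp
  rw [h1, Cx.val_nil, map_one] at hp'
  exact hp'

private theorem lad_cell (hB : X.Bd j B) {o v : V} {c : C} {l : X.FG} (hl : X.IsLp c l)
    {a b : R} (ha : a ∈ B o (X.bv c)) (hb : b ∈ B (X.bv c) v) : a * (j l - 1) * b ∈ B o v := by
  rcases hl with rfl | rfl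
  · exact hB.cell o c v a b ha hb
  · exact hB.cell' o c v a b ha hb

/-- Crossing a cell. -/
private theorem lad_cross (hB : X.Bd j B) {o v : V} {c : C} {l : X.FG} (hl : X.IsLp c l)
    {a b : R} (ha : a ∈ B o (X.bv c)) (hb : b ∈ B (X.bv c) v) :
    a * j l * b ∈ B o v ↔ a * b ∈ B o v := by
  have h := lad_cell hB hl ha hb
  have e1 : a * j l * b = a * (j l - 1) * b + a * b := by noncomm_ring
  rw [e1]
  exact ⟨fun h' => (AddSubgroup.add_mem_cancel_left _ h).1 h',
    fun h' => (AddSubgroup.add_mem_cancel_left _ h).2 h'⟩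

private theorem lad_inv {c : C} {l : X.FG} (hl : X.IsLp c l) : X.IsLp c l⁻¹ := by
  rcases hl with rfl | rfl
  · exact Or.inr rfl
  · exact Or.inl (inv_inv _)

private theorem lad_jinv (l : X.FG) : j l⁻¹ * j l = 1 := by
  rw [← map_mul, inv_mul_cancel, map_one]

private theorem lad_jinv' (l : X.FG) : j l * j l⁻¹ = 1 := by
  rw [← map_mul, mul_inv_cancel, map_one]

private theorem lad_crossL (hB : X.Bd j B) {v : V} {c : C} {l : X.FG} (hl : X.IsLp c l)
    {b : R} : j l * b ∈ B (X.bv c) v ↔ b ∈ B (X.bv c) v := by
  have key : ∀ (l : X.FG), X.IsLp c l → ∀ b : R, b ∈ B (X.bv c) v →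
      j l * b ∈ B (X.bv c) v := by
    intro l hl b hb
    have h := lad_cell hB hl (lad_one hB _) hb
    have e1 : j l * b = 1 * (j l - 1) * b + b := by noncomm_ring
    rw [e1]
    exact (B _ _).add_mem h hb
  refine ⟨fun h => ?_, key l hl b⟩
  have h1 := key l⁻¹ (lad_inv hl) _ h
  rwa [← mul_assoc, lad_jinv, one_mul] at h1

private theorem lad_crossR (hB : X.Bd j B) {o : V} {c : C} {l : X.FG} (hl : X.IsLp c l)
    {a : R} : a * j l ∈ B o (X.bv c) ↔ a ∈ B o (X.bv c) := by
  have key : ∀ (l : X.FG), X.IsLp c l → ∀ a : R, a ∈ B o (X.bv c) →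
      a * j l ∈ B o (X.bv c) := by
    intro l hl a ha
    have h := lad_cell hB hl ha (lad_one hB _)
    have e1 : a * j l = a * (j l - 1) * 1 + a := by noncomm_ring
    rw [e1]
    exact (B _ _).add_mem h ha
  refine ⟨fun h => ?_, key l hl a⟩
  have h1 := key l⁻¹ (lad_inv hl) _ h
  rwa [mul_assoc, lad_jinv', mul_one] at h1

/-- `K` is a substitute for the walk `S`. -/
private def Ap (j : X.FG →* R) (B : V → V → AddSubgroup R) (n : ℕ) {P v : V}
    (S : X.Γ.Walk P v) (K : R) : Prop :=
  (∀ (u : V) (w : X.Γ.Walk u P), w.length + S.length < n → j (X.val w) * K ∈ B u v) ∧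
  (∀ (u : V) (w : X.Γ.Walk u P), w.length + S.length ≤ n →
    (j (X.val w) * K ∈ B u v ↔ j (X.val w) * j (X.val S) ∈ B u v)) ∧
  (S.length = 0 → K = 1)

private theorem ap_nil {n : ℕ} (hn : X.Lt j B n) {P v : V} (y : X.Γ.Walk P v) :
    Ap j B n y (j (X.val y)) := by
  refine ⟨fun u w hw => ?_, fun u w _ => Iff.rfl, fun h => ?_⟩
  · rw [← map_mul, ← X.val_append]
    exact hn _ _ _ (by rw [SimpleGraph.Walk.length_append]; exact hw)
  · have h1 : ∀ {P v : V} (y : X.Γ.Walk P v), y.length = 0 → X.val y = 1 := by
      intro P v y hy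
      cases y with
      | nil => rfl
      | cons h q => simp at hy
    rw [h1 y h, map_one]

private theorem ap_app {n : ℕ} {P P' v : V} (a : X.Γ.Walk P P') {S : X.Γ.Walk P' v} {K : R}
    (h : Ap j B n S K) : Ap j B n (a.append S) (j (X.val a) * K) := by
  obtain ⟨h1, h2, h3⟩ := h
  refine ⟨fun u w hw => ?_, fun u w hw => ?_, fun h0 => ?_⟩
  · rw [← mul_assoc, ← map_mul, ← X.val_append]
    refine h1 _ _ ?_
    rw [SimpleGraph.Walk.length_append] at hw ⊢
    omega
  · rw [X.val_append, map_mul, ← mul_assoc, ← mul_assoc, ← map_mul, ← X.val_append]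
    refine h2 _ _ ?_
    rw [SimpleGraph.Walk.length_append] at hw ⊢
    omega
  · rw [SimpleGraph.Walk.length_append] at h0
    have ha : a.length = 0 := by omega
    have h4 : X.val a = 1 := by
      have h5 : ∀ {P v : V} (y : X.Γ.Walk P v), y.length = 0 → X.val y = 1 := by
        intro P v y hy
        cases y with
        | nil => rfl
        | cons h q => simp at hy
      exact h5 a ha
    rw [h4, map_one, one_mul, h3 (by omega)]

private theorem ap_loop (hB : X.Bd j B) {n : ℕ} (hn : X.Lt j B n) {P P' v : V} {c : C}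
    {l : X.FG} (hl : X.IsLp c l) (a : X.Γ.Walk P (X.bv c)) (a' : X.Γ.Walk (X.bv c) P')
    (h0 : 0 < a.length + a'.length) {S : X.Γ.Walk P' v} {K : R} (h : Ap j B n S K) :
    Ap j B n (a.append (a'.append S)) (j (X.val a) * j l * (j (X.val a') * K)) := by
  have h' := ap_app a' h
  have h'' := ap_app a h'
  refine ⟨fun u w hw => ?_, fun u w hw => ?_, fun h00 => ?_⟩
  · rw [SimpleGraph.Walk.length_append] at hw
    have e1 : j (X.val w) * (j (X.val a) * j l * (j (X.val a') * K)) =
        j (X.val (w.append a)) * j l * (j (X.val a') * K) := by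
      rw [X.val_append, map_mul]
      simp only [mul_assoc]
    rw [e1, lad_cross hB hl (hn _ _ _ (by rw [SimpleGraph.Walk.length_append]; omega))]
    · have h5 := h''.1 u w (by rw [SimpleGraph.Walk.length_append]; exact hw)
      rw [X.val_append, map_mul, mul_assoc]
      exact h5
    · have h5 := h'.1 _ (SimpleGraph.Walk.nil : X.Γ.Walk (X.bv c) (X.bv c)) (by
        rw [SimpleGraph.Walk.length_nil]
        omega)
      rwa [Cx.val_nil, map_one, one_mul] at h5
  · have hw' := hw
    rw [SimpleGraph.Walk.length_append, SimpleGraph.Walk.length_append] at hw'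
    have e1 : j (X.val w) * (j (X.val a) * j l * (j (X.val a') * K)) =
        j (X.val (w.append a)) * j l * (j (X.val a') * K) := by
      rw [X.val_append, map_mul]
      simp only [mul_assoc]
    have e2 : j (X.val (w.append a)) * (j (X.val a') * K) =
        j (X.val w) * (j (X.val a) * (j (X.val a') * K)) := by
      rw [X.val_append, map_mul]
      simp only [mul_assoc]
    have key : j (X.val (w.append a)) * j l * (j (X.val a') * K) ∈ B u v ↔
        j (X.val (w.append a)) * (j (X.val a') * K) ∈ B u v := by
      by_cases c1 : w.length + a.length = 0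
      · have hz : (w.append a).length = 0 := by
          rw [SimpleGraph.Walk.length_append]
          exact c1
        revert hz
        generalize w.append a = q
        intro hz
        cases q with
        | nil =>
          rw [Cx.val_nil, map_one, one_mul, one_mul]
          exact lad_crossL hB hl
        | cons h q => simp at hz
      · by_cases c2 : a'.length + S.length = 0
        · have hK : j (X.val a') * K = 1 := by
            refine (ap_app a' h).2.2 ?_
            rw [SimpleGraph.Walk.length_append]
            exact c2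
          rw [hK, mul_one, mul_one]
          have hv : (a'.append S).length = 0 := by
            rw [SimpleGraph.Walk.length_append]
            exact c2
          have hveq : X.bv c = v := SimpleGraph.Walk.eq_of_length_eq_zero hv
          rw [← hveq]
          exact lad_crossR hB hl
        · refine lad_cross hB hl (hn _ _ _ (by rw [SimpleGraph.Walk.length_append]; omega)) ?_
          have h5 := h'.1 _ (SimpleGraph.Walk.nil : X.Γ.Walk (X.bv c) (X.bv c)) (by
            rw [SimpleGraph.Walk.length_nil, SimpleGraph.Walk.length_append]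
            omega)
          rwa [Cx.val_nil, map_one, one_mul] at h5
    rw [e1, key, e2]
    exact h''.2.1 u w hw
  · rw [SimpleGraph.Walk.length_append, SimpleGraph.Walk.length_append] at h00
    omega

/-- The main induction. -/
private theorem lad_main (hB : X.Bd j B) {n : ℕ} (hn : X.Lt j B n) {m : ℕ} {P Q v : V}
    {e : X.Γ.Walk P Q} {S : X.Γ.Walk P v} {W : X.Γ.Walk Q v} (h : X.Lad m P Q v e S W) :
    m + S.length ≤ n → ∃ K N : R, Ap j B n S K ∧ Ap j B n W N ∧
      ∀ (o : V) (U : X.Γ.Walk o Q) (M : R), U.length + W.length ≤ n →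
        (∀ (u : V) (w : X.Γ.Walk Q u), U.length + w.length < n →
          M * j (X.val w) ∈ B o u) →
        (M * j (X.val e)⁻¹ * K ∈ B o v ↔ M * N ∈ B o v) := by
  induction h with
  | nil m P v y =>
    intro _
    refine ⟨j (X.val y), j (X.val y), ap_nil hn y, ap_nil hn y, fun o U M _ _ => ?_⟩
    rw [Cx.val_nil, inv_one, map_one, mul_one]
  | flat m P Q P' Q' v e e' S W a b h _ ih =>
    intro hm
    rw [SimpleGraph.Walk.length_append] at hm
    obtain ⟨K, N, hK, hN, hM⟩ := ih (by omega)
    refine ⟨j (X.val a) * K, j (X.val b) * N, ap_app a hK, ap_app b hN,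
      fun o U M hU hpre => ?_⟩
    rw [SimpleGraph.Walk.length_append] at hU
    have h1 := hM o (U.append b) (M * j (X.val b))
      (by rw [SimpleGraph.Walk.length_append]; omega) (by
        intro u w hw
        rw [mul_assoc, ← map_mul, ← X.val_append]
        refine hpre _ _ ?_
        rw [SimpleGraph.Walk.length_append] at hw ⊢
        omega)
    have e1 : (X.val e)⁻¹ * X.val a = X.val b * (X.val e')⁻¹ := by
      rw [inv_mul_eq_iff_eq_mul, ← mul_assoc, h, mul_inv_cancel_right]
    have e2 : M * j (X.val e)⁻¹ * (j (X.val a) * K) =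
        M * j (X.val b) * j (X.val e')⁻¹ * K := by
      calc M * j (X.val e)⁻¹ * (j (X.val a) * K) = M * j ((X.val e)⁻¹ * X.val a) * K := by
            rw [map_mul]
            simp only [mul_assoc]
        _ = _ := by
            rw [e1, map_mul]
            simp only [mul_assoc]
    rw [e2, h1, mul_assoc]
  | top m P Q P' Q' v e e' S W c l hl a a' b h h0 _ ih =>
    intro hm
    rw [SimpleGraph.Walk.length_append, SimpleGraph.Walk.length_append] at hm
    obtain ⟨K, N, hK, hN, hM⟩ := ih (by omega)
    refine ⟨_, j (X.val b) * N, ap_loop hB hn hl a a' h0 hK, ap_app b hN,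
      fun o U M hU hpre => ?_⟩
    rw [SimpleGraph.Walk.length_append] at hU
    have h1 := hM o (U.append b) (M * j (X.val b))
      (by rw [SimpleGraph.Walk.length_append]; omega) (by
        intro u w hw
        rw [mul_assoc, ← map_mul, ← X.val_append]
        refine hpre _ _ ?_
        rw [SimpleGraph.Walk.length_append] at hw ⊢
        omega)
    have e1 : (X.val e)⁻¹ * (X.val a * l * X.val a') = X.val b * (X.val e')⁻¹ := by
      rw [inv_mul_eq_iff_eq_mul, ← mul_assoc, h, mul_inv_cancel_right]
    have e2 : M * j (X.val e)⁻¹ * (j (X.val a) * j l * (j (X.val a') * K)) =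
        M * j (X.val b) * j (X.val e')⁻¹ * K := by
      calc M * j (X.val e)⁻¹ * (j (X.val a) * j l * (j (X.val a') * K)) =
            M * j ((X.val e)⁻¹ * (X.val a * l * X.val a')) * K := by
            rw [map_mul, map_mul, map_mul]
            simp only [mul_assoc]
        _ = _ := by
            rw [e1, map_mul]
            simp only [mul_assoc]
    rw [e2, h1, mul_assoc]
  | bot m P Q P' Q' v e e' S W c l hl a b b' h h0 _ ih =>
    intro hm
    rw [SimpleGraph.Walk.length_append] at hm
    obtain ⟨K, N, hK, hN, hM⟩ := ih (by omega)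
    refine ⟨j (X.val a) * K, _, ap_app a hK, ap_loop hB hn hl b b' h0 hN,
      fun o U M hU hpre => ?_⟩
    rw [SimpleGraph.Walk.length_append, SimpleGraph.Walk.length_append] at hU
    have h1 := hM o ((U.append b).append b') (M * (j (X.val b) * j l * j (X.val b')))
      (by rw [SimpleGraph.Walk.length_append, SimpleGraph.Walk.length_append]; omega) (by
        intro u w hw
        rw [SimpleGraph.Walk.length_append, SimpleGraph.Walk.length_append] at hw
        have e3 : M * (j (X.val b) * j l * j (X.val b')) * j (X.val w) =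
            (M * j (X.val b)) * j l * j (X.val (b'.append w)) := by
          rw [X.val_append, map_mul]
          simp only [mul_assoc]
        rw [e3, lad_cross hB hl (hpre _ _ (by omega))
          (hn _ _ _ (by rw [SimpleGraph.Walk.length_append]; omega)), mul_assoc, ← map_mul,
          ← X.val_append]
        refine hpre _ _ ?_
        rw [SimpleGraph.Walk.length_append, SimpleGraph.Walk.length_append]
        omega)
    have e1 : (X.val e)⁻¹ * X.val a = X.val b * l * X.val b' * (X.val e')⁻¹ := by
      rw [inv_mul_eq_iff_eq_mul, ← mul_assoc, h, mul_inv_cancel_right]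
    have e2 : M * j (X.val e)⁻¹ * (j (X.val a) * K) =
        M * (j (X.val b) * j l * j (X.val b')) * j (X.val e')⁻¹ * K := by
      calc M * j (X.val e)⁻¹ * (j (X.val a) * K) = M * j ((X.val e)⁻¹ * X.val a) * K := by
            rw [map_mul]
            simp only [mul_assoc]
        _ = _ := by
            rw [e1, map_mul, map_mul, map_mul]
            simp only [mul_assoc]
    rw [e2, h1]
    simp only [mul_assoc]
  | right m P Q P' Q' v e S W c l hl a b e' e'' h h1' h2' _ ih =>
    intro hm
    rw [SimpleGraph.Walk.length_append] at hm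
    obtain ⟨K, N, hK, hN, hM⟩ := ih (by omega)
    refine ⟨j (X.val a) * K, j (X.val b) * N, ap_app a hK, ap_app b hN,
      fun o U M hU hpre => ?_⟩
    rw [SimpleGraph.Walk.length_append] at hU
    have h1 := hM o (U.append b) (M * j (X.val b))
      (by rw [SimpleGraph.Walk.length_append]; omega) (by
        intro u w hw
        rw [mul_assoc, ← map_mul, ← X.val_append]
        refine hpre _ _ ?_
        rw [SimpleGraph.Walk.length_append] at hw ⊢
        omega)
    -- the two factors
    have hA : M * j (X.val b) * j (X.val e'')⁻¹ ∈ B o (X.bv c) := by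
      have h3 := hpre _ (b.append e''.reverse) (by
        rw [SimpleGraph.Walk.length_append, SimpleGraph.Walk.length_reverse]
        omega)
      rwa [X.val_append, X.val_reverse, map_mul, ← mul_assoc] at h3
    have hF : j (X.val e')⁻¹ * K ∈ B (X.bv c) v := by
      have h3 := hK.1 _ e'.reverse (by
        rw [SimpleGraph.Walk.length_reverse]
        omega)
      rwa [X.val_reverse] at h3
    have e1 : (X.val e)⁻¹ * X.val a =
        X.val b * (X.val e'')⁻¹ * l⁻¹ * (X.val e')⁻¹ := by
      rw [inv_mul_eq_iff_eq_mul, ← mul_assoc, ← mul_assoc, ← mul_assoc, h]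
      group
    have e2 : M * j (X.val e)⁻¹ * (j (X.val a) * K) =
        M * j (X.val b) * j (X.val e'')⁻¹ * j l⁻¹ * (j (X.val e')⁻¹ * K) := by
      calc M * j (X.val e)⁻¹ * (j (X.val a) * K) = M * j ((X.val e)⁻¹ * X.val a) * K := by
            rw [map_mul]
            simp only [mul_assoc]
        _ = _ := by
            rw [e1, map_mul, map_mul, map_mul]
            simp only [mul_assoc]
    have e3 : M * j (X.val b) * j (X.val e'')⁻¹ * (j (X.val e')⁻¹ * K) =
        M * j (X.val b) * j (X.val (e'.append e''))⁻¹ * K := by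
      rw [X.val_append, mul_inv_rev, map_mul]
      simp only [mul_assoc]
    rw [e2, lad_cross hB (lad_inv hl) hA hF, e3, h1, mul_assoc]
  | left m P Q P' Q' v e' S W c l hl a b e e'' h h1' h2' _ ih =>
    intro hm
    rw [SimpleGraph.Walk.length_append] at hm
    obtain ⟨K, N, hK, hN, hM⟩ := ih (by omega)
    refine ⟨j (X.val a) * K, j (X.val b) * N, ap_app a hK, ap_app b hN,
      fun o U M hU hpre => ?_⟩
    rw [SimpleGraph.Walk.length_append] at hU
    have h1 := hM o (U.append b) (M * j (X.val b))
      (by rw [SimpleGraph.Walk.length_append]; omega) (by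
        intro u w hw
        rw [mul_assoc, ← map_mul, ← X.val_append]
        refine hpre _ _ ?_
        rw [SimpleGraph.Walk.length_append] at hw ⊢
        omega)
    have hA : M * j (X.val e'')⁻¹ ∈ B o (X.bv c) := by
      have h3 := hpre _ e''.reverse (by
        rw [SimpleGraph.Walk.length_reverse]
        omega)
      rwa [X.val_reverse] at h3
    have hF0 : j (X.val e)⁻¹ * (j (X.val a) * K) ∈ B (X.bv c) v := by
      have h3 := (ap_app a hK).1 _ e.reverse (by
        rw [SimpleGraph.Walk.length_reverse, SimpleGraph.Walk.length_append]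
        omega)
      rwa [X.val_reverse] at h3
    have e1 : (X.val e)⁻¹ * X.val a = l * X.val e'' * X.val b * (X.val e')⁻¹ := by
      rw [inv_mul_eq_iff_eq_mul, ← mul_assoc, ← mul_assoc, ← mul_assoc, h,
        mul_inv_cancel_right]
    have e4 : j (X.val e)⁻¹ * (j (X.val a) * K) =
        j l * (j (X.val e'') * j (X.val b) * j (X.val e')⁻¹ * K) := by
      calc j (X.val e)⁻¹ * (j (X.val a) * K) = j ((X.val e)⁻¹ * X.val a) * K := by
            rw [map_mul]
            simp only [mul_assoc]
        _ = _ := by
            rw [e1, map_mul, map_mul, map_mul]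
            simp only [mul_assoc]
    have hF : j (X.val e'') * j (X.val b) * j (X.val e')⁻¹ * K ∈ B (X.bv c) v := by
      rw [e4, lad_crossL hB hl] at hF0
      exact hF0
    have e2 : M * j (X.val (e.append e''))⁻¹ * (j (X.val a) * K) =
        M * j (X.val e'')⁻¹ * j l * (j (X.val e'') * j (X.val b) * j (X.val e')⁻¹ * K) := by
      calc M * j (X.val (e.append e''))⁻¹ * (j (X.val a) * K) =
            M * j (X.val e'')⁻¹ * (j (X.val e)⁻¹ * (j (X.val a) * K)) := by
            rw [X.val_append, mul_inv_rev, map_mul]
            simp only [mul_assoc]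
        _ = _ := by
            rw [e4]
            simp only [mul_assoc]
    have e3 : M * j (X.val e'')⁻¹ * (j (X.val e'') * j (X.val b) * j (X.val e')⁻¹ * K) =
        M * j (X.val b) * j (X.val e')⁻¹ * K := by
      have h5 : j (X.val e'')⁻¹ * j (X.val e'') = 1 := by
        rw [← map_mul, inv_mul_cancel, map_one]
      calc M * j (X.val e'')⁻¹ * (j (X.val e'') * j (X.val b) * j (X.val e')⁻¹ * K) =
            M * (j (X.val e'')⁻¹ * j (X.val e'')) * (j (X.val b) * j (X.val e')⁻¹ * K) := by
            simp only [mul_assoc]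
        _ = _ := by
            rw [h5, mul_one]
            simp only [mul_assoc]
    rw [e2, lad_cross hB hl hA hF, e3, h1, mul_assoc]

/-- Walks which are joined by a ladder. -/
theorem Cx.Lj.mem_iff (hB : X.Bd j B) {n : ℕ} (hn : X.Lt j B n) {o v : V}
    {f f' : X.Γ.Walk o v} (h : X.Lj f f') (hf : f.length ≤ n) (hf' : f'.length ≤ n) :
    j (X.val f) ∈ B o v ↔ j (X.val f') ∈ B o v := by
  obtain ⟨P, x, S, W, rfl, rfl, hL⟩ := h
  rw [SimpleGraph.Walk.length_append] at hf hf'
  obtain ⟨K, N, hK, hN, hM⟩ := lad_main hB hn hL hf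
  have h1 := hM o x (j (X.val x)) hf' (fun u w hw => by
    rw [← map_mul, ← X.val_append]
    exact hn _ _ _ (by rw [SimpleGraph.Walk.length_append]; exact hw))
  rw [Cx.val_nil, inv_one, map_one, mul_one] at h1
  rw [X.val_append, X.val_append, map_mul, map_mul, ← hK.2.1 _ x hf, ← hN.2.1 _ x hf', h1]

/-- GENERATION for complexes with ladders. -/
theorem Cx.LadP.genP {G V C : Type} [Group G] [MulAction G V] [MulAction G C] {X : Cx G V C}
    (h : X.LadP) : X.GenP := by
  intro R _ j B hB
  have key : ∀ n : ℕ, X.Lt j B n := by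
    intro n
    induction n with
    | zero => exact fun o v p hp => absurd hp (Nat.not_lt_zero _)
    | succ n ih =>
      intro o v f hf
      by_cases hlt : f.length < n
      · exact ih o v f hlt
      · have hfn : f.length = n := by omega
        obtain ⟨p, hp, hp'⟩ := hB.geo o v
        have h1 := h o v f p hp
        rw [hfn] at h1
        clear hf hlt hfn hp
        induction h1 using Relation.ReflTransGen.head_induction_on with
        | refl => exact hp'
        | head hs _ ih' =>
          rcases hs with ⟨h2, h3, h4 | h4⟩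
          · exact (h4.mem_iff hB ih h2 h3).2 ih'
          · exact (h4.mem_iff hB ih h3 h2).1 ih'
  exact fun o v p => key (p.length + 1) o v p (Nat.lt_succ_self _)

end Proof

end Pool.Agent.Cx2
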