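import Mathlib

/-!
MP_8f66f0_al, Theorem 2D, module MgWords (helper13): beaded words, and the change of basis
`r ^ n (r - 1) = ∑ j, μ n j • r ^ (-N) (r - 1) ^ (j + 1)` in the beads.
-/

set_option autoImplicit false

namespace Pool.Agent.Cx2.Mg

open Finset

section General

variable {K : Type*} [CommRing K] {F : Type*} [Ring F] [Algebra K F] {C A B : Type*}

/-- Beaded words with beads `v c a` and connecting elements `g s c` (between the states `s` and
`c`), and final elements `β s`, starting in the state `s`. -/
def bt (g : Option C → C → F) (β : Option C → F) (v : C → A → F) :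
    Option C → List (C × A) → F
  | s, [] => β s
  | s, (x :: l) => g s x.1 * v x.1 x.2 * bt g β v (some x.1) l

/-- The change of the letters `a` into linear combinations of letters `b`. -/
noncomputable def tr [Fintype B] (μ : A → B → K) : List (C × A) → (List (C × B) →₀ K)
  | [] => Finsupp.single [] 1
  | (x :: l) => ∑ b, μ x.2 b • Finsupp.mapDomain (List.cons (x.1, b)) (tr μ l)

theorem lc_mul (y : F) {ι : Type*} (h : ι → F) (z : ι →₀ K) :
    Finsupp.linearCombination K (fun i => y * h i) z = y * Finsupp.linearCombination K h z := by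
  rw [Finsupp.linearCombination_apply, Finsupp.linearCombination_apply, Finsupp.sum,
    Finsupp.sum, Finset.mul_sum]
  exact Finset.sum_congr rfl fun i _ => (mul_smul_comm _ _ _).symm

theorem lc_tr [Fintype B] (μ : A → B → K) (g : Option C → C → F) (β : Option C → F)
    (v : C → A → F) (v' : C → B → F) (l : List (C × A))
    (h : ∀ x ∈ l, v x.1 x.2 = ∑ b, μ x.2 b • v' x.1 b) (s : Option C) :
    Finsupp.linearCombination K (bt g β v' s) (tr μ l) = bt g β v s l := by
  induction l generalizing s with
  | nil => simp [tr, bt]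
  | cons x l ih =>
    have hl := ih (fun y hy => h y (List.mem_cons_of_mem _ hy))
    rw [tr, map_sum, bt, h x List.mem_cons_self, Finset.mul_sum, Finset.sum_mul]
    refine Finset.sum_congr rfl fun b _ => ?_
    rw [map_smul, Finsupp.linearCombination_mapDomain]
    have h1 : (bt g β v' s ∘ List.cons (x.1, b)) =
        fun l' => g s x.1 * v' x.1 b * bt g β v' (some x.1) l' := rfl
    rw [h1, lc_mul, hl (some x.1), mul_smul_comm, smul_mul_assoc]

theorem tr_tr [Fintype A] [DecidableEq A] [Fintype B] (μ : A → B → K) (ν : B → A → K)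
    (h : ∀ a a', ∑ b, μ a b * ν b a' = if a = a' then 1 else 0) (l : List (C × A)) :
    Finsupp.linearCombination K (tr (C := C) ν) (tr μ l) = Finsupp.single l 1 := by
  induction l with
  | nil => simp [tr]
  | cons x l ih =>
    rw [tr, map_sum]
    have h2 : ∀ b : B, Finsupp.linearCombination K (tr (C := C) ν)
        (μ x.2 b • Finsupp.mapDomain (List.cons (x.1, b)) (tr μ l)) =
        ∑ a, (μ x.2 b * ν b a) • Finsupp.single ((x.1, a) :: l) (1 : K) := by
      intro b
      rw [map_smul, Finsupp.linearCombination_mapDomain]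
      have h1 : (tr (C := C) ν ∘ List.cons (x.1, b)) =
          fun l' => (∑ a, ν b a • Finsupp.lmapDomain K K (List.cons (x.1, a))) (tr ν l') := by
        funext l'
        rw [Function.comp_apply, tr]
        simp
      have h3 : Finsupp.linearCombination K (fun l' : List (C × B) =>
          (∑ a, ν b a • Finsupp.lmapDomain K K (List.cons (x.1, a))) (tr (C := C) ν l'))
          (tr μ l) = (∑ a, ν b a • Finsupp.lmapDomain K K (List.cons (x.1, a)))
            (Finsupp.linearCombination K (tr (C := C) ν) (tr μ l)) := by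
        rw [Finsupp.linearCombination_apply, Finsupp.linearCombination_apply, Finsupp.sum,
          Finsupp.sum, map_sum]
        exact Finset.sum_congr rfl fun i _ => (map_smul _ _ _).symm
      rw [h1, h3, ih, LinearMap.sum_apply, Finset.smul_sum]
      refine Finset.sum_congr rfl fun a _ => ?_
      rw [LinearMap.smul_apply, Finsupp.lmapDomain_apply, Finsupp.mapDomain_single, smul_smul]
    rw [Finset.sum_congr rfl fun b _ => h2 b, Finset.sum_comm]
    have h4 : ∀ a : A, ∑ b, (μ x.2 b * ν b a) • Finsupp.single ((x.1, a) :: l) (1 : K) =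
        if x.2 = a then Finsupp.single ((x.1, a) :: l) (1 : K) else 0 := by
      intro a
      rw [← Finset.sum_smul, h]
      split_ifs <;> simp
    rw [Finset.sum_congr rfl fun a _ => h4 a, Finset.sum_ite_eq]
    simp

theorem tr_supp [Fintype B] (μ : A → B → K) (l : List (C × A)) :
    ∀ l' ∈ (tr μ l).support, l'.map Prod.fst = l.map Prod.fst := by
  classical
  induction l with
  | nil =>
    intro l' hl'
    rw [tr] at hl'
    have := Finsupp.support_single_subset hl'
    rw [Finset.mem_singleton] at this
    rw [this]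
    rfl
  | cons x l ih =>
    intro l' hl'
    rw [tr] at hl'
    obtain ⟨b, -, hb⟩ := Finset.mem_biUnion.1 (Finsupp.support_finsetSum hl')
    have h1 := Finsupp.support_smul hb
    have h2 := Finsupp.mapDomain_support h1
    obtain ⟨l'', h3, rfl⟩ := Finset.mem_image.1 h2
    rw [List.map_cons, List.map_cons, ih l'' h3]

end General

section Mu

variable (K : Type*) [Field K] (N : ℕ)

/-- The exponents of absolute value at most `N`. -/
abbrev ExpN : Type := {n : ℤ // |n| ≤ N}

noncomputable instance : Fintype (ExpN N) :=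
  Fintype.ofInjective (fun n : ExpN N => (⟨n.1, by
    rw [Finset.mem_Icc, ← abs_le]; exact n.2⟩ : (Finset.Icc (-(N : ℤ)) N)))
    (by
      intro a b h
      exact Subtype.ext (congrArg (fun z : (Finset.Icc (-(N : ℤ)) N) => (z : ℤ)) h))

/-- The coefficients. -/
noncomputable def mu (n : ExpN N) (j : Fin (2 * N + 1)) : K :=
  ((((N : ℤ) + n.1).toNat.choose j : ℕ) : K)

end Mu

/-- binomial formula with a long range -/
theorem pow_long {R : Type*} [Ring R] (x : R) (m M : ℕ) (h : m ≤ M) :
    x ^ m = ∑ j : Fin (M + 1), ((m.choose j : ℕ) : R) * (x - 1) ^ (j : ℕ) := by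
  have h1 : x ^ m = ∑ j ∈ range (m + 1), (x - 1) ^ j * (m.choose j : R) := by
    conv_lhs => rw [← sub_add_cancel x 1]
    rw [(Commute.one_right (x - 1)).add_pow]
    exact Finset.sum_congr rfl fun j _ => by rw [one_pow, mul_one]
  have h2 : ∑ j ∈ range (m + 1), (x - 1) ^ j * (m.choose j : R) =
      ∑ j ∈ range (M + 1), (x - 1) ^ j * (m.choose j : R) := by
    refine Finset.sum_subset (by intro a; simp only [Finset.mem_range]; omega) fun j _ hj => ?_
    rw [Finset.mem_range, not_lt] at hj
    rw [Nat.choose_eq_zero_of_lt (by omega), Nat.cast_zero, mul_zero]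
  rw [h1, h2, Finset.sum_range]
  refine Finset.sum_congr rfl fun j _ => ?_
  exact ((Nat.cast_commute _ _).eq).symm

section Mu2

variable (K : Type*) [Field K] (N : ℕ)

theorem mu_pol {R : Type*} [Ring R] [Algebra K R] (x : R) (n : ExpN N) :
    x ^ ((N : ℤ) + n.1).toNat = ∑ j, mu K N n j • (x - 1) ^ (j : ℕ) := by
  have h0 := n.2
  rw [abs_le] at h0
  rw [pow_long x ((N : ℤ) + n.1).toNat (2 * N) (by omega)]
  refine Finset.sum_congr rfl fun j _ => ?_
  rw [mu, Nat.cast_smul_eq_nsmul, nsmul_eq_mul]

theorem exists_nu : ∃ ν : Fin (2 * N + 1) → ExpN N → K,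
    ∀ a a', ∑ b, mu K N a b * ν b a' = if a = a' then 1 else 0 := by
  classical
  let Λ : (ExpN N → K) →ₗ[K] (Fin (2 * N + 1) → K) :=
    { toFun := fun a j => ∑ n, a n * mu K N n j
      map_add' := by
        intro a b
        funext j
        simp [add_mul, Finset.sum_add_distrib]
      map_smul' := by
        intro c a
        funext j
        simp [mul_assoc, Finset.mul_sum] }
  have hker : LinearMap.ker Λ = ⊥ := by
    rw [LinearMap.ker_eq_bot']
    intro a ha
    have h1 : ∑ n : ExpN N, a n • ((Polynomial.X : Polynomial K) ^ ((N : ℤ) + n.1).toNat) = 0 := by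
      have h2 : ∀ n : ExpN N, a n • ((Polynomial.X : Polynomial K) ^ ((N : ℤ) + n.1).toNat) =
          ∑ j : Fin (2 * N + 1), (a n * mu K N n j) •
            ((Polynomial.X : Polynomial K) - 1) ^ (j : ℕ) := by
        intro n
        rw [mu_pol K N, Finset.smul_sum]
        exact Finset.sum_congr rfl fun j _ => smul_smul _ _ _
      rw [Finset.sum_congr rfl fun n _ => h2 n, Finset.sum_comm]
      refine Finset.sum_eq_zero fun j _ => ?_
      rw [← Finset.sum_smul]
      have h3 : ∑ n, a n * mu K N n j = 0 := congrFun ha j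
      rw [h3, zero_smul]
    funext m
    have h4 := congrArg (fun p => Polynomial.coeff p ((N : ℤ) + m.1).toNat) h1
    simp only [Polynomial.finsetSum_coeff, Polynomial.coeff_smul,
      Polynomial.coeff_X_pow, Polynomial.coeff_zero] at h4
    have hm := m.2
    rw [abs_le] at hm
    rw [Finset.sum_eq_single m] at h4
    · rw [if_pos rfl] at h4
      simpa using h4
    · intro n _ hn
      have hn2 := n.2
      rw [abs_le] at hn2
      have hn3 : n.1 ≠ m.1 := fun h => hn (Subtype.ext h)
      rw [if_neg (by omega)]
      simp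
    · intro h
      exact absurd (Finset.mem_univ _) h
  obtain ⟨G, hG⟩ := LinearMap.exists_leftInverse_of_injective Λ hker
  refine ⟨fun b a => G (Pi.single b 1) a, fun a a' => ?_⟩
  have h5 : Λ (Pi.single a 1) = mu K N a := by
    funext j
    show ∑ n, (Pi.single a (1 : K) : ExpN N → K) n * mu K N n j = _
    rw [Finset.sum_eq_single a]
    · simp
    · intro b _ hb
      rw [Pi.single_eq_of_ne hb, zero_mul]
    · intro h
      exact absurd (Finset.mem_univ _) h
  have h6 : G (mu K N a) = Pi.single a 1 := by
    rw [← h5]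
    exact congrArg (fun f => f (Pi.single a 1)) hG
  have h7 : mu K N a = ∑ b, mu K N a b • (Pi.single b 1 : Fin (2 * N + 1) → K) := by
    funext j
    simp [Finset.sum_apply, Pi.single_apply]
  have h8 : ∑ b, mu K N a b * G (Pi.single b 1) a' = G (mu K N a) a' := by
    conv_rhs => rw [h7, map_sum]
    simp
  rw [h8, h6, Pi.single_apply]
  by_cases h : a = a'
  · rw [if_pos h, if_pos h.symm]
  · rw [if_neg h, if_neg (fun h' => h h'.symm)]

end Mu2

end Pool.Agent.Cx2.Mg
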