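import Pool.Agent.Lib.MP_8f66f0_al_Cx.MgLead
import Pool.Agent.Lib.MP_8f66f0_al_Cx.MgWords

/-!
MP_8f66f0_al, Theorem 2D, module MgExpd (helper13): the beaded words are linearly independent in the
group algebra of the free group.
-/

set_option autoImplicit false

namespace Pool.Agent.Cx2.Mg

open Finset

section Expand

variable {C : Type*}

/-- Run-length decoding: `j + 1` copies of `c` for each `(c, j)`. -/
def expd {M : ℕ} (l : List (C × Fin M)) : List C :=
  l.flatMap fun x => List.replicate ((x.2 : ℕ) + 1) x.1

theorem expd_nil {M : ℕ} : expd ([] : List (C × Fin M)) = [] := rfl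

theorem expd_cons {M : ℕ} (x : C × Fin M) (l : List (C × Fin M)) :
    expd (x :: l) = List.replicate ((x.2 : ℕ) + 1) x.1 ++ expd l := by
  rw [expd, List.flatMap_cons, expd]

theorem expd_head {M : ℕ} (c : C) (l : List (C × Fin M)) (L : List C) (h : expd l = c :: L) :
    ∃ j l', l = (c, j) :: l' := by
  cases l with
  | nil => simp [expd_nil] at h
  | cons x l =>
    rw [expd_cons, List.replicate_succ, List.cons_append] at h
    obtain ⟨h1, -⟩ := List.cons.inj h
    exact ⟨x.2, l, by rw [← h1]⟩

theorem expd_inj {M : ℕ} (l l' : List (C × Fin M)) (h : (l.map Prod.fst).IsChain (· ≠ ·))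
    (h' : (l'.map Prod.fst).IsChain (· ≠ ·)) (he : expd l = expd l') : l = l' := by
  induction l generalizing l' with
  | nil =>
    cases l' with
    | nil => rfl
    | cons x l' =>
      rw [expd_nil, expd_cons, List.replicate_succ, List.cons_append] at he
      exact absurd he (by simp)
  | cons x l ih =>
    cases l' with
    | nil =>
      rw [expd_nil, expd_cons, List.replicate_succ, List.cons_append] at he
      exact absurd he (by simp)
    | cons y l' =>
      have hx : x.1 = y.1 := by
        rw [expd_cons, expd_cons, List.replicate_succ, List.replicate_succ, List.cons_append,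
          List.cons_append] at he
        exact (List.cons.inj he).1
      have key : ∀ (m : ℕ) (j j' : ℕ) (c : C) (t t' : List (C × Fin M)),
          ((c :: t'.map Prod.fst).IsChain (· ≠ ·)) → j ≤ j' →
          List.replicate j' c ++ expd t = List.replicate j c ++ expd t' → j = j' := by
        intro _ j j' c t t' hc hj hh
        by_contra hne
        obtain ⟨d, hd⟩ : ∃ d, j' = j + (d + 1) := ⟨j' - j - 1, by omega⟩
        rw [hd, List.replicate_add, List.append_assoc, List.append_cancel_left_eq,
          List.replicate_succ, List.cons_append] at hh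
        obtain ⟨i, t'', rfl⟩ := expd_head c t' _ hh.symm
        rw [List.map_cons, List.isChain_cons_cons] at hc
        exact hc.1 rfl
      rw [expd_cons, expd_cons, ← hx] at he
      rw [List.map_cons] at h h'
      have hj : ((x.2 : ℕ) + 1) = (y.2 : ℕ) + 1 := by
        rcases le_total ((x.2 : ℕ) + 1) ((y.2 : ℕ) + 1) with h1 | h1
        · exact key 0 _ _ x.1 l' l h h1 he.symm
        · rw [← hx] at h'
          exact (key 0 _ _ x.1 l l' h' h1 he).symm
      rw [hj, List.append_cancel_left_eq] at he
      have h2 := ih l' (List.IsChain.tail h) (List.IsChain.tail h') he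
      rw [h2]
      congr 1
      exact Prod.ext hx (Fin.ext (by omega))

end Expand

section Leading

variable {K : Type} [Field K] {E C : Type}

/-- The product of the values of the forms `f i`, `f (i + 1)`, … on the chains of `r c`. -/
noncomputable def lamL (r : C → FreeGroup E) (f : ℕ → E → K) : List C → ℕ → K
  | [], _ => 1
  | (c :: L), i => fv (f i) (chain K (r c)) * lamL r f L (i + 1)

theorem lamL_append (r : C → FreeGroup E) (f : ℕ → E → K) (L L' : List C) (i : ℕ) :
    lamL r f (L ++ L') i = lamL r f L i * lamL r f L' (i + L.length) := by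
  induction L generalizing i with
  | nil => simp [lamL]
  | cons c L ih =>
    rw [List.cons_append, lamL, lamL, ih, mul_assoc, List.length_cons]
    congr 3
    omega

theorem ld_pow (r : C → FreeGroup E) (n : ℕ) (f : ℕ → E → K) (c : C) (m : ℕ) :
    Ld m (lamL r f (List.replicate m c))
      (arep n f ((MonoidAlgebra.of K (FreeGroup E) (r c) - 1) ^ m)) := by
  induction m with
  | zero =>
    rw [pow_zero, map_one]
    exact ld_congr ld_one fun i => rfl
  | succ m ih =>
    rw [pow_succ', map_mul, add_comm m 1]
    refine ld_congr (ld_mul (ld_sub n f (r c)) ih) fun i => ?_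
    rw [add_comm 1 m, List.replicate_succ, lamL]

/-- The new beads. -/
noncomputable def vb (r : C → FreeGroup E) (N M : ℕ) (c : C) (j : Fin M) :
    MonoidAlgebra K (FreeGroup E) :=
  MonoidAlgebra.of K (FreeGroup E) (r c ^ (-(N : ℤ))) *
    (MonoidAlgebra.of K (FreeGroup E) (r c) - 1) ^ ((j : ℕ) + 1)

theorem ld_bt (r : C → FreeGroup E) (g : Option C → C → FreeGroup E) (β : Option C → FreeGroup E)
    (N M n : ℕ) (f : ℕ → E → K) (l : List (C × Fin M)) (s : Option C) :
    Ld (expd l).length (lamL r f (expd l))
      (arep n f (bt (fun s c => MonoidAlgebra.of K (FreeGroup E) (g s c))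
        (fun s => MonoidAlgebra.of K (FreeGroup E) (β s)) (vb r N M) s l)) := by
  induction l generalizing s with
  | nil =>
    rw [expd_nil, bt]
    exact ld_congr (ld_of n f _) fun i => rfl
  | cons x l ih =>
    rw [expd_cons, bt, vb, map_mul, map_mul, map_mul, List.length_append, List.length_replicate]
    have h1 := ld_mul (ld_mul (ld_of n f (g s x.1)) (ld_mul (ld_of n f (r x.1 ^ (-(N : ℤ))))
      (ld_pow r n f x.1 ((x.2 : ℕ) + 1)))) (ih (some x.1))
    rw [zero_add, zero_add] at h1
    refine ld_congr h1 fun i => ?_
    rw [lamL_append, List.length_replicate, one_mul, one_mul, add_zero, add_zero]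

end Leading

section Dual

variable {K : Type} [Field K] {E C : Type}

theorem fv_linear (ψ : (E →₀ K) →ₗ[K] K) (x : E →₀ K) :
    fv (fun e => ψ (Finsupp.single e 1)) x = ψ x := by
  unfold fv
  conv_rhs => rw [← Finsupp.sum_single x]
  rw [Finsupp.sum, Finsupp.sum, map_sum]
  refine Finset.sum_congr rfl fun e _ => ?_
  have h : (Finsupp.single e (x e) : E →₀ K) = x e • Finsupp.single e 1 := by
    rw [Finsupp.smul_single, smul_eq_mul, mul_one]
  rw [h, map_smul, smul_eq_mul]

theorem exists_dual [DecidableEq C] (w : C → E →₀ K) (h : LinearIndependent K w) :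
    ∃ φ : C → E → K, ∀ c c', fv (φ c) (w c') = if c = c' then 1 else 0 := by
  obtain ⟨G, hG⟩ := LinearMap.exists_leftInverse_of_injective (Finsupp.linearCombination K w)
    (LinearMap.ker_eq_bot.2 h)
  refine ⟨fun c e => (Finsupp.lapply c ∘ₗ G) (Finsupp.single e 1), fun c c' => ?_⟩
  rw [fv_linear]
  have h1 : G (w c') = Finsupp.single c' 1 := by
    have h2 := congrArg (fun f => f (Finsupp.single c' 1)) hG
    simpa using h2
  rw [LinearMap.comp_apply, h1, Finsupp.lapply_apply, Finsupp.single_apply]
  by_cases h3 : c = c'
  · rw [if_pos h3, if_pos h3.symm]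
  · rw [if_neg h3, if_neg (fun h' => h3 h'.symm)]

/-- The forms which belong to a list of letters. -/
def fL (φ : C → E → K) (L : List C) (i : ℕ) : E → K :=
  match L[i]? with
  | some c => φ c
  | none => fun _ => 0

theorem lamL_fL [DecidableEq C] (r : C → FreeGroup E) (φ : C → E → K)
    (hφ : ∀ c c', fv (φ c) (chain K (r c')) = if c = c' then 1 else 0) (L L1 L2 : List C)
    (hL : L.length = L2.length) :
    lamL r (fL φ (L1 ++ L2)) L L1.length = if L = L2 then 1 else 0 := by
  induction L generalizing L1 L2 with
  | nil =>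
    have : L2 = [] := List.length_eq_zero_iff.1 hL.symm
    rw [this, if_pos rfl]
    rfl
  | cons c L ih =>
    cases L2 with
    | nil => simp at hL
    | cons c2 L2 =>
      rw [lamL]
      have h1 : fL φ (L1 ++ c2 :: L2) L1.length = φ c2 := by
        unfold fL
        rw [List.getElem?_append_right le_rfl, Nat.sub_self]
        rfl
      have h2 : L1 ++ c2 :: L2 = (L1 ++ [c2]) ++ L2 := by simp
      have h3 : L1.length + 1 = (L1 ++ [c2]).length := by simp
      rw [h1, hφ, h2, h3, ih (L1 ++ [c2]) L2 (by simpa using hL)]
      by_cases h4 : c2 = c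
      · subst h4
        by_cases h5 : L = L2
        · subst h5
          simp
        · rw [if_pos rfl, if_neg h5, one_mul, if_neg]
          intro h6
          exact h5 (List.cons.inj h6).2
      · rw [if_neg h4, zero_mul, if_neg]
        intro h6
        exact h4 (List.cons.inj h6).1.symm

end Dual

section Main

variable {K : Type} [Field K] {E C : Type}

theorem vb_indep (r : C → FreeGroup E) (hr : LinearIndependent K (fun c => chain K (r c)))
    (g : Option C → C → FreeGroup E) (β : Option C → FreeGroup E) (N M : ℕ) (s : Option C)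
    (z : List (C × Fin M) →₀ K) (hz : ∀ l ∈ z.support, (l.map Prod.fst).IsChain (· ≠ ·))
    (h0 : Finsupp.linearCombination K (bt (fun s c => MonoidAlgebra.of K (FreeGroup E) (g s c))
        (fun s => MonoidAlgebra.of K (FreeGroup E) (β s)) (vb r N M) s) z = 0) : z = 0 := by
  classical
  by_contra hne
  have hs : z.support.Nonempty := Finsupp.support_nonempty_iff.2 hne
  obtain ⟨l0, hl0, hmin⟩ := Finset.exists_min_image z.support (fun l => (expd l).length) hs
  obtain ⟨φ, hφ⟩ := exists_dual _ hr
  set L0 := expd l0 with hL0
  set n := L0.length with hn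
  have h1 := congrArg (fun x => (arep n (fL φ L0) x) 0 (Fin.last n)) h0
  simp only [map_zero] at h1
  rw [Finsupp.linearCombination_apply, Finsupp.sum, map_sum, Matrix.sum_apply] at h1
  rw [Finset.sum_eq_single l0] at h1
  · rw [map_smul, Matrix.smul_apply, smul_eq_mul, (ld_bt r g β N M n (fL φ L0) l0 s 0
      (Fin.last n)).2 (by simp [hn, hL0])] at h1
    have h2 := lamL_fL r φ hφ L0 [] L0 rfl
    rw [List.nil_append, List.length_nil, if_pos rfl] at h2
    have h3 : lamL r (fL φ L0) (expd l0) (((0 : Fin (n + 1)) : ℕ)) = 1 := h2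
    rw [h3, mul_one] at h1
    exact (Finsupp.mem_support_iff.1 hl0) (by simpa using h1)
  · intro l hl hne'
    rw [map_smul, Matrix.smul_apply]
    have h2 := hmin l hl
    rcases lt_or_eq_of_le h2 with h3 | h3
    · rw [(ld_bt r g β N M n (fL φ L0) l s 0 (Fin.last n)).1 (by
        rw [Fin.val_last]
        simp only [Fin.coe_ofNat_eq_mod, Nat.zero_mod, zero_add]
        exact h3)]
      exact smul_zero _
    · rw [(ld_bt r g β N M n (fL φ L0) l s 0 (Fin.last n)).2 (by
        rw [Fin.val_last]
        simp only [Fin.coe_ofNat_eq_mod, Nat.zero_mod, zero_add]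
        exact h3)]
      have h4 := lamL_fL r φ hφ (expd l) [] L0 h3.symm
      rw [List.nil_append, List.length_nil, if_neg (fun h5 => hne' (expd_inj l l0 (hz l hl)
        (hz l0 hl0) h5))] at h4
      have h6 : lamL r (fL φ L0) (expd l) (((0 : Fin (n + 1)) : ℕ)) = 0 := h4
      rw [h6]
      exact smul_zero _
  · intro h
    exact absurd hl0 h

end Main

end Pool.Agent.Cx2.Mg
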