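import Pool.Agent.Lib.MP_8f66f0_al_Cx.Defs

/-!
MP_8f66f0_al, Theorem 2D, module MgLead (helper13): unitriangular representations of the free group
(the Magnus expansion), and the leading terms of products.
-/

set_option autoImplicit false

namespace Pool.Agent.Cx2.Mg

open Finset

theorem chain_one (k : Type) [CommRing k] {E : Type} : chain k (1 : FreeGroup E) = 0 := by
  simp [chain]

theorem chain_of (k : Type) [CommRing k] {E : Type} (e : E) :
    chain k (FreeGroup.of e) = Finsupp.single e 1 := by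
  simp [chain]

theorem chain_mul (k : Type) [CommRing k] {E : Type} (x y : FreeGroup E) :
    chain k (x * y) = chain k x + chain k y := by
  simp [chain]

theorem chain_inv (k : Type) [CommRing k] {E : Type} (x : FreeGroup E) :
    chain k x⁻¹ = - chain k x := by
  simp [chain]

section Lead

variable {K : Type} [CommRing K] {n : ℕ}

/-- The matrix is zero below the `s`-th diagonal, and its entries on this diagonal are `lam i`. -/
def Ld (s : ℕ) (lam : ℕ → K) (M : Matrix (Fin (n + 1)) (Fin (n + 1)) K) : Prop :=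
  ∀ i j : Fin (n + 1), ((j : ℕ) < i + s → M i j = 0) ∧ ((j : ℕ) = i + s → M i j = lam i)

theorem ld_one : Ld (n := n) 0 (fun _ => (1 : K)) 1 := by
  intro i j
  refine ⟨fun h => ?_, fun h => ?_⟩
  · exact Matrix.one_apply_ne (fun h' => by rw [h'] at h; omega)
  · have : i = j := Fin.ext (by omega)
    rw [this, Matrix.one_apply_eq]

theorem ld_mul {s t : ℕ} {lam mu : ℕ → K} {A B : Matrix (Fin (n + 1)) (Fin (n + 1)) K}
    (hA : Ld s lam A) (hB : Ld t mu B) : Ld (s + t) (fun i => lam i * mu (i + s)) (A * B) := by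
  intro i j
  refine ⟨fun h => ?_, fun h => ?_⟩
  · rw [Matrix.mul_apply]
    refine Finset.sum_eq_zero fun l _ => ?_
    by_cases hl : (l : ℕ) < i + s
    · rw [(hA i l).1 hl, zero_mul]
    · rw [(hB l j).1 (by omega), mul_zero]
  · rw [Matrix.mul_apply]
    have hj := j.2
    rw [Finset.sum_eq_single (⟨i + s, by omega⟩ : Fin (n + 1))]
    · rw [(hA i _).2 rfl, (hB _ j).2 (by simp; omega)]
    · intro l _ hl
      have hl' : (l : ℕ) ≠ i + s := fun h' => hl (Fin.ext h')
      by_cases h1 : (l : ℕ) < i + s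
      · rw [(hA i l).1 h1, zero_mul]
      · rw [(hB l j).1 (by omega), mul_zero]
    · intro h'
      exact absurd (Finset.mem_univ _) h'

theorem ld_congr {s : ℕ} {lam mu : ℕ → K} {A : Matrix (Fin (n + 1)) (Fin (n + 1)) K}
    (hA : Ld s lam A) (h : ∀ i, lam i = mu i) : Ld s mu A := by
  have : lam = mu := funext h
  rwa [← this]

theorem ld_add {s : ℕ} {lam mu : ℕ → K} {A B : Matrix (Fin (n + 1)) (Fin (n + 1)) K}
    (hA : Ld s lam A) (hB : Ld s mu B) : Ld s (fun i => lam i + mu i) (A + B) := by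
  intro i j
  refine ⟨fun h => ?_, fun h => ?_⟩
  · rw [Matrix.add_apply, (hA i j).1 h, (hB i j).1 h, add_zero]
  · rw [Matrix.add_apply, (hA i j).2 h, (hB i j).2 h]

theorem ld_sub' {s : ℕ} {lam mu : ℕ → K} {A B : Matrix (Fin (n + 1)) (Fin (n + 1)) K}
    (hA : Ld s lam A) (hB : Ld s mu B) : Ld s (fun i => lam i - mu i) (A - B) := by
  intro i j
  refine ⟨fun h => ?_, fun h => ?_⟩
  · rw [Matrix.sub_apply, (hA i j).1 h, (hB i j).1 h, sub_zero]
  · rw [Matrix.sub_apply, (hA i j).2 h, (hB i j).2 h]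

/-- A matrix which vanishes on and below the `s`-th diagonal vanishes in leading terms of
smaller degree. -/
theorem ld_zero_of {s t : ℕ} (h : t < s) {lam : ℕ → K}
    {A : Matrix (Fin (n + 1)) (Fin (n + 1)) K} (hA : Ld s lam A) : Ld t (fun _ => (0 : K)) A :=
  fun i j => ⟨fun h' => (hA i j).1 (by omega), fun h' => (hA i j).1 (by omega)⟩

end Lead

section Rep

variable {K : Type} [CommRing K] {E : Type}

/-- The nilpotent matrix of a letter. -/
def nm (n : ℕ) (f : ℕ → E → K) (e : E) : Matrix (Fin (n + 1)) (Fin (n + 1)) K :=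
  fun i j => if (j : ℕ) = i + 1 then f i e else 0

theorem ld_nm (n : ℕ) (f : ℕ → E → K) (e : E) : Ld 1 (fun i => f i e) (nm n f e) := by
  intro i j
  refine ⟨fun h => ?_, fun h => ?_⟩
  · unfold nm
    rw [if_neg (by omega)]
  · unfold nm
    rw [if_pos h]

theorem nm_nilpotent (n : ℕ) (f : ℕ → E → K) (e : E) : IsNilpotent (nm n f e) := by
  refine ⟨n + 1, ?_⟩
  have h : ∀ m : ℕ, ∃ lam : ℕ → K, Ld m lam ((nm n f e) ^ m) := by
    intro m
    induction m with
    | zero => exact ⟨_, by rw [pow_zero]; exact ld_one⟩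
    | succ m ih =>
      obtain ⟨lam, h⟩ := ih
      exact ⟨_, by rw [pow_succ]; exact ld_mul h (ld_nm n f e)⟩
  obtain ⟨lam, h⟩ := h (n + 1)
  ext i j
  exact (h i j).1 (by have := j.2; omega)

/-- The unipotent matrix `1 + nm` of a letter. -/
noncomputable def um (n : ℕ) (f : ℕ → E → K) (e : E) :
    (Matrix (Fin (n + 1)) (Fin (n + 1)) K)ˣ :=
  (IsNilpotent.isUnit_one_add (nm_nilpotent n f e)).unit

theorem um_val (n : ℕ) (f : ℕ → E → K) (e : E) : (um n f e).val = 1 + nm n f e := rfl

/-- The unitriangular representation of the free group. -/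
noncomputable def urep (n : ℕ) (f : ℕ → E → K) :
    FreeGroup E →* (Matrix (Fin (n + 1)) (Fin (n + 1)) K)ˣ :=
  FreeGroup.lift (um n f)

/-- the value of a linear form on a chain -/
noncomputable def fv (f : E → K) (x : E →₀ K) : K := x.sum fun e a => a * f e

theorem fv_zero (f : E → K) : fv f 0 = 0 := by
  simp [fv]

theorem fv_add (f : E → K) (x y : E →₀ K) : fv f (x + y) = fv f x + fv f y := by
  unfold fv
  exact Finsupp.sum_add_index' (by simp) (by intro a b c; ring)

theorem fv_single (f : E → K) (e : E) : fv f (Finsupp.single e 1) = f e := by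
  unfold fv
  rw [Finsupp.sum_single_index (by simp), one_mul]

theorem fv_neg (f : E → K) (x : E →₀ K) : fv f (-x) = - fv f x := by
  have h := fv_add f (-x) x
  rw [neg_add_cancel, fv_zero] at h
  linear_combination -h

/-- `u - 1` has its leading terms on the first diagonal. -/
def L1 {n : ℕ} (f : ℕ → E → K) (x : FreeGroup E) (M : Matrix (Fin (n + 1)) (Fin (n + 1)) K) :
    Prop :=
  Ld 1 (fun i => fv (f i) (chain K x)) (M - 1)

theorem l1_mul {n : ℕ} (f : ℕ → E → K) (x y : FreeGroup E)
    {A B : Matrix (Fin (n + 1)) (Fin (n + 1)) K} (hA : L1 f x A) (hB : L1 f y B) :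
    L1 f (x * y) (A * B) := by
  unfold L1 at *
  have h1 : A * B - 1 = (A - 1) * (B - 1) + ((A - 1) + (B - 1)) := by noncomm_ring
  rw [h1]
  refine ld_congr (ld_add (ld_zero_of (by norm_num) (ld_mul hA hB)) (ld_add hA hB)) fun i => ?_
  rw [chain_mul, fv_add, zero_add]

theorem urep_l1 (n : ℕ) (f : ℕ → E → K) (x : FreeGroup E) : L1 f x (urep n f x).val := by
  induction x using FreeGroup.induction_on with
  | C1 =>
    unfold L1
    rw [map_one, Units.val_one, sub_self, chain_one]
    intro i j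
    simp [fv_zero]
  | of e =>
    unfold L1
    rw [urep, FreeGroup.lift_apply_of, um_val, add_sub_cancel_left, chain_of]
    exact ld_congr (ld_nm n f e) fun i => (fv_single _ _).symm
  | inv_of e h =>
    unfold L1 at *
    set U := urep n f (FreeGroup.of e) with hU
    have hi : (urep n f (FreeGroup.of e)⁻¹) = U⁻¹ := by rw [map_inv]
    rw [hi, chain_inv]
    have h3 : ∀ m : ℕ, ∃ lam : ℕ → K, Ld m lam ((U.val - 1) ^ m) := by
      intro m
      induction m with
      | zero => exact ⟨_, by rw [pow_zero]; exact ld_one⟩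
      | succ m ih =>
        obtain ⟨lam, h'⟩ := ih
        exact ⟨_, by rw [pow_succ]; exact ld_mul h' h⟩
    set X := U.val - 1 with hX
    have hV : (U⁻¹).val = 1 - (U⁻¹).val * X := by
      rw [hX, mul_sub, Units.inv_mul, mul_one]
      abel
    have h4 : ∀ d m : ℕ, n + 1 ≤ m + d → ∃ lam : ℕ → K, Ld m lam ((U⁻¹).val * X ^ m) := by
      intro d
      induction d with
      | zero =>
        intro m hm
        obtain ⟨lam, h'⟩ := h3 m
        have h5 : X ^ m = 0 := by
          ext i j
          exact (h' i j).1 (by have := j.2; omega)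
        rw [h5, mul_zero]
        exact ⟨fun _ => 0, fun i j => ⟨fun _ => rfl, fun _ => rfl⟩⟩
      | succ d ih =>
        intro m hm
        obtain ⟨lam, h5⟩ := h3 m
        obtain ⟨mu, h6⟩ := ih (m + 1) (by omega)
        have h7 : (U⁻¹).val * X ^ m = X ^ m - (U⁻¹).val * X ^ (m + 1) := by
          calc (U⁻¹).val * X ^ m = (1 - (U⁻¹).val * X) * X ^ m := by rw [← hV]
            _ = X ^ m - (U⁻¹).val * X ^ (m + 1) := by
              rw [sub_mul, one_mul, mul_assoc, ← pow_succ']
        rw [h7]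
        exact ⟨_, ld_sub' h5 (ld_zero_of (by omega) h6)⟩
    obtain ⟨mu, h5⟩ := h4 (n + 1) 2 (by omega)
    have h6 : (U⁻¹).val - 1 = 0 - (X - (U⁻¹).val * X ^ 2) := by
      have h7 : (U⁻¹).val * X = X - (U⁻¹).val * X ^ 2 := by
        calc (U⁻¹).val * X = (1 - (U⁻¹).val * X) * X := by rw [← hV]
          _ = X - (U⁻¹).val * X ^ 2 := by rw [sub_mul, one_mul, mul_assoc, pow_two]
      rw [← h7]
      calc (U⁻¹).val - 1 = (1 - (U⁻¹).val * X) - 1 := by rw [← hV]
        _ = 0 - (U⁻¹).val * X := by abel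
    rw [h6]
    have h0 : Ld (n := n) 1 (fun _ => (0 : K)) 0 := fun i j => ⟨fun _ => rfl, fun _ => rfl⟩
    refine ld_congr (ld_sub' h0 (ld_sub' h (ld_zero_of (by norm_num) h5))) fun i => ?_
    rw [fv_neg]
    ring
  | mul x y hx hy =>
    rw [map_mul, Units.val_mul]
    exact l1_mul f x y hx hy

/-- The algebra homomorphism of the group algebra given by the representation. -/
noncomputable def arep (n : ℕ) (f : ℕ → E → K) :
    MonoidAlgebra K (FreeGroup E) →ₐ[K] Matrix (Fin (n + 1)) (Fin (n + 1)) K :=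
  MonoidAlgebra.lift K _ (FreeGroup E)
    ((Units.coeHom (Matrix (Fin (n + 1)) (Fin (n + 1)) K)).comp (urep n f))

theorem arep_of (n : ℕ) (f : ℕ → E → K) (x : FreeGroup E) :
    arep n f (MonoidAlgebra.of K (FreeGroup E) x) = (urep n f x).val := by
  unfold arep
  rw [MonoidAlgebra.lift_of]
  rfl

theorem ld_of (n : ℕ) (f : ℕ → E → K) (x : FreeGroup E) :
    Ld 0 (fun _ => (1 : K)) (arep n f (MonoidAlgebra.of K (FreeGroup E) x)) := by
  rw [arep_of]
  have h := urep_l1 n f x
  have h1 : (urep n f x).val = ((urep n f x).val - 1) + 1 := by abel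
  rw [h1]
  exact ld_congr (ld_add (ld_zero_of (by norm_num) h) ld_one) fun i => zero_add 1

theorem ld_sub (n : ℕ) (f : ℕ → E → K) (x : FreeGroup E) :
    Ld 1 (fun i => fv (f i) (chain K x))
      (arep n f (MonoidAlgebra.of K (FreeGroup E) x - 1)) := by
  rw [map_sub, map_one, arep_of]
  exact urep_l1 n f x

end Rep

end Pool.Agent.Cx2.Mg
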