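import Pool.Agent.Lib.MP_8f66f0_al_Cx.SpecC

/-! C1 (Pp). Formal properties of the products of beads. (helper57) -/

set_option autoImplicit false

namespace Pool.Agent.Cx2

open Pool.Agent.Wald Pool.Agent.Hier

section

variable {G V C : Type} [Group G] [MulAction G V] [MulAction G C] (X : Cx G V C) (γ : X.Geo)
  (k : Type) [CommRing k]

private theorem pp_gm (o : V) (c : C) (L : List (C × ℤ)) :
    Cx.gm γ o (L.head?.map Prod.fst) c = γ.γ (X.en o L) (X.bv c) := by
  cases L with
  | nil => rfl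
  | cons a L => rfl

private theorem pp_cons (o : V) (c : C) (n : ℤ) (L : List (C × ℤ)) :
    Cx.PP k γ o ((c, n) :: L) = Cx.PP k γ o L *
      (MonoidAlgebra.of k _ (γ.γ (X.en o L) (X.bv c)) * MonoidAlgebra.of k _ (X.r c ^ n) *
        (MonoidAlgebra.of k _ (X.r c) - 1)) := by
  change PM k X.r (Cx.gm γ o) ((c, n) :: L) = _
  rw [PM, pp_gm]
  rfl

private theorem pp_nil (o : V) : Cx.PP k γ o [] = 1 := rfl

private theorem pp_en (o : V) (L₁ L₂ : List (C × ℤ)) :
    X.en o (L₂ ++ L₁) = X.en (X.en o L₁) L₂ := by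
  cases L₂ with
  | nil => rfl
  | cons a L => rfl

private theorem pp_append (o : V) (L₁ L₂ : List (C × ℤ)) :
    Cx.PP k γ o (L₂ ++ L₁) = Cx.PP k γ o L₁ * Cx.PP k γ (X.en o L₁) L₂ := by
  induction L₂ with
  | nil => rw [List.nil_append, pp_nil, mul_one]
  | cons a L ih =>
    obtain ⟨c, n⟩ := a
    rw [List.cons_append, pp_cons, pp_cons, ih, pp_en, mul_assoc]

private theorem pp_of {H K : Type} [Group H] [Group K] (f : H →* K) (h : H) :
    MonoidAlgebra.mapDomainAlgHom k k f (MonoidAlgebra.of k H h) = MonoidAlgebra.of k K (f h) :=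
  MonoidAlgebra.mapDomain_single

private theorem pp_ac_of (g : G) (w : X.FG) :
    X.ac k g (MonoidAlgebra.of k _ w) = MonoidAlgebra.of k _ (X.φ g w) :=
  pp_of k _ w

private theorem pp_sm_en (g : G) (o : V) (L : List (C × ℤ)) :
    X.en (g • o) (sm g L) = g • X.en o L := by
  cases L with
  | nil => rfl
  | cons a L => exact X.bv_smul g a.1

private theorem pp_ac (g : G) (o : V) (L : List (C × ℤ)) :
    X.ac k g (Cx.PP k γ o L) = Cx.PP k γ (g • o) (sm g L) := by
  induction L with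
  | nil => exact map_one _
  | cons a L ih =>
    obtain ⟨c, n⟩ := a
    have h1 : sm g ((c, n) :: L) = (g • c, n) :: sm g L := rfl
    rw [h1, pp_cons, pp_cons, pp_sm_en, X.bv_smul, γ.smul, ← X.φ_r, ← ih, map_mul, map_mul,
      map_mul, map_sub, map_one, pp_ac_of, pp_ac_of, pp_ac_of, map_zpow]

private theorem pp_self (u : V) : γ.γ u u = 1 := by
  obtain ⟨p, h1, h2⟩ := γ.geo u u
  rw [SimpleGraph.dist_self] at h1
  have h3 : p = SimpleGraph.Walk.nil :=
    SimpleGraph.Walk.eq_nil_iff_nil.2 (SimpleGraph.Walk.length_eq_zero_iff.1 h1)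
  rw [← h2, h3, Cx.val_nil]

private theorem pp_isP (u v : V) : X.IsP u v (γ.γ u v) := by
  obtain ⟨p, -, h2⟩ := γ.geo u v
  exact ⟨p, h2⟩

private theorem pp_pow {u : V} {x : X.FG} (hx : X.IsP u u x) (n : ℕ) : X.IsP u u (x ^ n) := by
  induction n with
  | zero => rw [pow_zero]; exact X.isP_one u
  | succ n ih => rw [pow_succ]; exact ih.mul hx

private theorem pp_zpow {u : V} {x : X.FG} (hx : X.IsP u u x) (n : ℤ) :
    X.IsP u u (x ^ n) := by
  cases n with
  | ofNat n =>
    rw [Int.ofNat_eq_natCast, zpow_natCast]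
    exact pp_pow X hx n
  | negSucc n =>
    rw [zpow_negSucc]
    exact (pp_pow X hx (n + 1)).inv

private theorem pp_span_mul {u v w : V} {x : MonoidAlgebra k X.FG}
    (hx : x ∈ Submodule.span k ((fun w => MonoidAlgebra.of k X.FG w) '' {w | X.IsP u v w}))
    {y : X.FG} (hy : X.IsP v w y) :
    x * MonoidAlgebra.of k X.FG y ∈
      Submodule.span k ((fun w => MonoidAlgebra.of k X.FG w) '' {z | X.IsP u w z}) := by
  induction hx using Submodule.span_induction with
  | mem x hx =>
    obtain ⟨z, hz, rfl⟩ := hx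
    refine Submodule.subset_span ⟨z * y, Cx.IsP.mul hz hy, ?_⟩
    exact map_mul _ _ _
  | zero => rw [zero_mul]; exact Submodule.zero_mem _
  | add a b _ _ ha hb => rw [add_mul]; exact Submodule.add_mem _ ha hb
  | smul c a _ ha => rw [smul_mul_assoc]; exact Submodule.smul_mem _ c ha

private theorem pp_span (o : V) (L : List (C × ℤ)) :
    Cx.PP k γ o L ∈ Submodule.span k
      ((fun w => MonoidAlgebra.of k X.FG w) '' {w | X.IsP o (X.en o L) w}) := by
  induction L with
  | nil => exact Submodule.subset_span ⟨1, X.isP_one o, map_one _⟩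
  | cons a L ih =>
    obtain ⟨c, n⟩ := a
    rw [pp_cons]
    have h1 := pp_span_mul X k (w := X.bv c) ih (pp_isP X γ _ _)
    have h2 := pp_span_mul X k h1 (pp_zpow X (X.isP_r c) n)
    have h3 := pp_span_mul X k h2 (X.isP_r c)
    have h4 := Submodule.sub_mem _ h3 h2
    have h5 : Cx.PP k γ o L * (MonoidAlgebra.of k _ (γ.γ (X.en o L) (X.bv c)) *
        MonoidAlgebra.of k _ (X.r c ^ n) * (MonoidAlgebra.of k _ (X.r c) - 1)) =
        Cx.PP k γ o L * MonoidAlgebra.of k _ (γ.γ (X.en o L) (X.bv c)) *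
          MonoidAlgebra.of k _ (X.r c ^ n) * MonoidAlgebra.of k _ (X.r c) -
        Cx.PP k γ o L * MonoidAlgebra.of k _ (γ.γ (X.en o L) (X.bv c)) *
          MonoidAlgebra.of k _ (X.r c ^ n) := by
      rw [mul_sub, mul_sub, mul_one, mul_assoc, mul_assoc, mul_assoc, mul_assoc]
    rw [h5]
    exact h4

end

theorem pp : S_pp := by
  intro G V C _ _ _ X γ k _
  exact ⟨fun o c n L => pp_cons X γ k o c n L, fun o L₁ L₂ => pp_append X γ k o L₁ L₂,
    fun o L₁ L₂ => pp_en X o L₁ L₂, fun g o L => ⟨pp_ac X γ k g o L, pp_sm_en X g o L⟩,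
    fun u => pp_self X γ u, fun u v => pp_isP X γ u v, fun o L => pp_span X γ k o L⟩

end Pool.Agent.Cx2
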