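import Pool.Agent.Lib.MP_8f66f0_al_Cx.Lad

/-! # Complexes of small cancellation type (note 3347)

`Cx.Sc`: ladders, `H_2 = 0`, and an element which fixes two vertices fixes the geodesics between
them. -/

set_option autoImplicit false

namespace Pool.Agent.Cx2

/-- Small cancellation type: ladders, `H_2 = 0`, fixed geodesics. -/
structure Cx.Sc {G V C : Type} [Group G] [MulAction G V] [MulAction G C] (X : Cx G V C) :
    Prop where
  lad : X.LadP
  ind : ∀ (k : Type) [CommRing k], X.Ind k
  fix : ∀ (g : G) (o v : V), g • o = o → g • v = v → ∀ p : X.Γ.Walk o v,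
    p.length = X.Γ.dist o v → X.φ g (X.val p) = X.val p

section

variable {G V C : Type} [Group G] [MulAction G V] [MulAction G C] (X : Cx G V C)

private theorem sc_dist_le (g : G) (u v : V) : X.Γ.dist (g • u) (g • v) ≤ X.Γ.dist u v := by
  obtain ⟨p, hp⟩ := X.conn.exists_walk_length_eq_dist u v
  rw [← hp, ← X.sw_length g p]
  exact X.Γ.dist_le _

private theorem sc_dist (g : G) (u v : V) : X.Γ.dist (g • u) (g • v) = X.Γ.dist u v := by
  refine le_antisymm (sc_dist_le X g u v) ?_
  have h := sc_dist_le X g⁻¹ (g • u) (g • v)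
  rwa [inv_smul_smul, inv_smul_smul] at h

private theorem sc_tr (g : G) {u₀ v₀ u v : V} (h1 : g • u₀ = u) (h2 : g • v₀ = v)
    (p : X.Γ.Walk u₀ v₀) (hp : p.length = X.Γ.dist u₀ v₀) :
    ∃ q : X.Γ.Walk u v, q.length = X.Γ.dist u v ∧ X.val q = X.φ g (X.val p) := by
  subst h1 h2
  exact ⟨X.sw g p, by rw [X.sw_length, hp, sc_dist], X.val_sw g p⟩

end

/-- Equivariant geodesics exist if an element which fixes two vertices fixes the geodesics
between them. -/
theorem Cx.nonempty_geo_of_fix {G V C : Type} [Group G] [MulAction G V] [MulAction G C]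
    (X : Cx G V C) (hX : ∀ (g : G) (o v : V), g • o = o → g • v = v → ∀ p : X.Γ.Walk o v,
      p.length = X.Γ.dist o v → X.φ g (X.val p) = X.val p) : Nonempty X.Geo := by
  classical
  have hW : ∀ x : V × V, ∃ p : X.Γ.Walk x.1 x.2, p.length = X.Γ.dist x.1 x.2 :=
    fun x => X.conn.exists_walk_length_eq_dist x.1 x.2
  choose W hWl using hW
  obtain ⟨rep, hr1, hr2⟩ : ∃ rep : V × V → V × V, (∀ x, ∃ g : G, g • rep x = x) ∧
      ∀ (g : G) x, rep (g • x) = rep x := by
    refine ⟨fun x => (Quotient.mk (MulAction.orbitRel G (V × V)) x).out, fun x => ?_,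
      fun g x => ?_⟩
    · have h1 : (MulAction.orbitRel G (V × V))
          (Quotient.mk (MulAction.orbitRel G (V × V)) x).out x := Quotient.mk_out x
      obtain ⟨g, hg⟩ := MulAction.mem_orbit_iff.1 (MulAction.orbitRel_apply.1 h1)
      refine ⟨g⁻¹, ?_⟩
      change g⁻¹ • (Quotient.mk (MulAction.orbitRel G (V × V)) x).out = x
      rw [← hg, inv_smul_smul]
    · have h1 : Quotient.mk (MulAction.orbitRel G (V × V)) (g • x) =
          Quotient.mk (MulAction.orbitRel G (V × V)) x :=
        Quotient.sound (MulAction.orbitRel_apply.2 (MulAction.mem_orbit x g))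
      change (Quotient.mk (MulAction.orbitRel G (V × V)) (g • x)).out = _
      rw [h1]
  choose elt helt using hr1
  refine ⟨⟨fun u v => X.φ (elt (u, v)) (X.val (W (rep (u, v)))), fun u v => ?_,
    fun g u v => ?_⟩⟩
  · have h1 := helt (u, v)
    exact sc_tr X _ (congrArg Prod.fst h1) (congrArg Prod.snd h1) _ (hWl _)
  · have h0 : (g • u, g • v) = g • (u, v) := rfl
    change X.φ (elt (g • u, g • v)) (X.val (W (rep (g • u, g • v)))) =
      X.φ g (X.φ (elt (u, v)) (X.val (W (rep (u, v)))))
    have h1 := helt (g • (u, v))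
    rw [hr2] at h1
    rw [h0, hr2]
    have h2 := helt (u, v)
    have h3 : ((elt (g • (u, v)))⁻¹ * (g * elt (u, v))) • rep (u, v) = rep (u, v) := by
      rw [mul_smul, mul_smul, h2]
      nth_rewrite 2 [← h1]
      rw [inv_smul_smul]
    have h4 := hX _ _ _ (congrArg Prod.fst h3) (congrArg Prod.snd h3)
      (W (rep (u, v))) (hWl _)
    rw [map_mul, map_mul, map_inv, MulAut.mul_apply, MulAut.mul_apply] at h4
    have h5 := congrArg (X.φ (elt (g • (u, v)))) h4
    rw [MulAut.apply_inv_self] at h5
    exact h5.symm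

/-- Equivariant geodesics. -/
theorem Cx.Sc.geo {G V C : Type} [Group G] [MulAction G V] [MulAction G C] {X : Cx G V C}
    (h : X.Sc) : Nonempty X.Geo := X.nonempty_geo_of_fix h.fix

/-- Generation. -/
theorem Cx.Sc.genP {G V C : Type} [Group G] [MulAction G V] [MulAction G C] {X : Cx G V C}
    (h : X.Sc) : X.GenP := h.lad.genP

end Pool.Agent.Cx2
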