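import Pool.Agent.Lib.MP_8f66f0_al_Cx.Defs

/-! Part A: geometry. Statements with proofs.

`B o v` is an additive subgroup of a ring `R` for all `o`, `v`; the hypotheses say that it
contains a geodesic (`geo`) and is closed under `a, b ↦ a (ℓ - 1) b`, `ℓ = r_c^{±1}`
(`a` ends and `b` starts at the base corner of `c`). -/

set_option autoImplicit false

namespace Pool.Agent.Cx2

section Gen

variable {G V C : Type} [Group G] [MulAction G V] [MulAction G C] (X : Cx G V C) {R : Type}
  [Ring R] (j : X.FG →* R) (B : V → V → AddSubgroup R)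

/-- The closure properties of the family `B`. -/
structure Cx.Bd : Prop where
  geo : ∀ o v, ∃ p : X.Γ.Walk o v, p.length = X.Γ.dist o v ∧ j (X.val p) ∈ B o v
  cell : ∀ o c v a b, a ∈ B o (X.bv c) → b ∈ B (X.bv c) v → a * (j (X.r c) - 1) * b ∈ B o v
  cell' : ∀ o c v a b, a ∈ B o (X.bv c) → b ∈ B (X.bv c) v → a * (j (X.r c)⁻¹ - 1) * b ∈ B o v

/-- GENERATION, as a property of the complex: every family `B` with the closure properties
contains all walks. -/
def Cx.GenP {G V C : Type} [Group G] [MulAction G V] [MulAction G C] (X : Cx G V C) : Prop :=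
  ∀ (R : Type) [Ring R] (j : X.FG →* R) (B : V → V → AddSubgroup R), X.Bd j B →
    ∀ (o v : V) (p : X.Γ.Walk o v), j (X.val p) ∈ B o v

/-- All walks of length less than `n` are in `B`. -/
def Cx.Lt (n : ℕ) : Prop :=
  ∀ (o v : V) (p : X.Γ.Walk o v), p.length < n → j (X.val p) ∈ B o v

end Gen

/-- A1 (Mv). Three moves which do not change membership in `B`, given all shorter walks.

Proof. CROSSING: let `z = bv c`, `x` a path from `o` to `z`, `y` a path from `z` to `v`,
`ℓ = r_c` or `r_c⁻¹`. Then `j (x ℓ y) - j (x y) = j x (j ℓ - 1) j y`, so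
`j (x y) ∈ B ↔ j (x ℓ y) ∈ B` if `j x ∈ B o z` and `j y ∈ B z v`; if `x = 1` (`o = z`) the same
holds without hypothesis on `y` (`j 1 = 1 ∈ B z z` by `geo`, the geodesic walk from `z` to `z` has
length `0`; `j y ∈ B ⟹ j (ℓ y) = j y + (ℓ - 1) j y ∈ B`, and conversely with `ℓ⁻¹`); similarly if
`y = 1`.
(1) Triangle `a, b, m`, path `x ε(a,b) ε(b,m) y` of length `n` against `x ε(a,m) y`. If
`bv c = b`: factors `x ε(a,b)`, `ε(b,m) y`, both of length `< n`; if `bv c = a`: factors `x` and
`ε(a,m) y` of lengths `< n`; `bv c = m`: `x ε(a,m)` and `y`.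
(2) Square `a, b, m, b'`, `x ε(a,b) ε(b,m) y` against `x ε(a,b') ε(b',m) y`. `bv c = b`: factors
`x ε(a,b)`, `ε(b,m) y` of length `< n`; `b'` the same. `bv c = a`: factors `x` and
`ε(a,b) ε(b,m) y`: both of length `< n` if `x` has positive length, otherwise the trivial case;
`m` the same.
(3) Two triangles `c₁ = {a, b, m}`, `c₂ = {b, m, e}`; `f = x ε(a,b) ε(b,e) y` against
`f' = x ε(a,m) ε(m,e) y`. Through `z = x ε(a,m) ε(m,b) ε(b,e) y`: `f ~ z` crosses `c₁`
(`bv c₁ ∈ {a, b}`: factors are subpaths of `f`, or trivial case; `bv c₁ = m`: factors `x ε(a,m)`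
and `ε(m,b) ε(b,e) y`, the second has length `< n` iff `x` has positive length); `z ~ f'` crosses
`c₂` (`bv c₂ ∈ {m, e}`: subpaths of `f'`; `bv c₂ = b`: `x ε(a,m) ε(m,b)` and `ε(b,e) y`, fine iff
`y` has positive length). Through `z' = x ε(a,b) ε(b,m) ε(m,e) y` all factors are short unless
(`bv c₂ = m` and `y` has length 0) or (`bv c₁ = b` and `x` has length 0). Both ways fail only if
`x`, `y` have length `0` and `bv c₁ = bv c₂ ∈ {b, m}`. If both are `b`:
`f' = ε(a,b) ℓ₁ ℓ₂ ε(b,e)`, `ℓ_i = r_{c_i}^{±1}`,
`ℓ₁ ℓ₂ = 1 + (ℓ₁ - 1) + (ℓ₂ - 1) + (ℓ₁ - 1) (ℓ₂ - 1)`, and `j ε(a,b)`, `j ε(b,e)` are in `B`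
(length `1 < 2`), so `f' - f ∈ B` (for the last term use `cell` twice, with `1 ∈ B b b`). If both
are `m`: the same with `f`, `f'` exchanged. -/
def S_mv : Prop :=
  ∀ (G V C : Type) [Group G] [MulAction G V] [MulAction G C] (X : Cx G V C) (R : Type) [Ring R]
    (j : X.FG →* R) (B : V → V → AddSubgroup R), X.Bd j B → ∀ (n : ℕ), X.Lt j B n →
    (∀ (o a b m v : V) (c : C) (x : X.Γ.Walk o a) (y : X.Γ.Walk m v), X.IsTri c a b m →
      X.Γ.Adj a b → X.Γ.Adj b m → X.Γ.Adj a m → x.length + 2 + y.length = n →
      (j (X.val x * X.ε a b * X.ε b m * X.val y) ∈ B o v ↔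
        j (X.val x * X.ε a m * X.val y) ∈ B o v)) ∧
    (∀ (o a b m b' v : V) (c : C) (x : X.Γ.Walk o a) (y : X.Γ.Walk m v), X.IsSq c a b m b' →
      X.Γ.Adj a b → X.Γ.Adj b m → X.Γ.Adj a b' → X.Γ.Adj b' m → x.length + 2 + y.length = n →
      (j (X.val x * X.ε a b * X.ε b m * X.val y) ∈ B o v ↔
        j (X.val x * X.ε a b' * X.ε b' m * X.val y) ∈ B o v)) ∧
    (∀ (o a b m e v : V) (c c' : C) (x : X.Γ.Walk o a) (y : X.Γ.Walk e v), X.IsTri c a b m →
      X.IsTri c' b m e → X.Γ.Adj a b → X.Γ.Adj b e → X.Γ.Adj a m → X.Γ.Adj m e → X.Γ.Adj b m →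
      x.length + 2 + y.length = n →
      (j (X.val x * X.ε a b * X.ε b e * X.val y) ∈ B o v ↔
        j (X.val x * X.ε a m * X.ε m e * X.val y) ∈ B o v))

/-- A2 (Gd). Two geodesics from `o` to `u`, continued by the same walk, are both in `B` or both
not in `B`, given all shorter walks.

Proof. Induction on `dist o u`. Distance 0: both walks are `nil`. Let `p`, `p'` end with the edges
`(w, u)`, `(w', u)`; `w`, `w'` are down-neighbours of `u`. If `w = w'`: induction hypothesis for
the prefixes, with `y` replaced by `cons (w, u) y`. Otherwise let `x` be the common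
down-neighbour of `w`, `w'` from `Wm.qc` (a square `u w x w'`, or the triangles `u w w'` and
`x w w'`) and `q` a geodesic from `o` to `x` (`conn`, `exists_walk_length_eq_dist`; its
continuations to `w`, `w'` are geodesics). `p y ~ q (x,w) (w,u) y` (induction hypothesis for `w`),
`q (x,w) (w,u) y ~ q (x,w') (w',u) y` (S_mv (2) with `a, b, m, b' = x, w, u, w'`, or (3) with
`a, b, m, e = x, w, w', u`), and `q (x,w') (w',u) y ~ p' y`. (The list conditions of `IsTri`,
`IsSq` are invariant under the needed permutations: `IsTri` is symmetric in its three corners,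
`IsSq c a b m n → IsSq c m b a n`, `IsSq c b m n a`.) -/
def S_gd : Prop :=
  ∀ (G V C : Type) [Group G] [MulAction G V] [MulAction G C] (X : Cx G V C), X.Wm →
    ∀ (R : Type) [Ring R] (j : X.FG →* R) (B : V → V → AddSubgroup R), X.Bd j B →
    ∀ (n : ℕ), X.Lt j B n → ∀ (o u v : V) (p p' : X.Γ.Walk o u) (y : X.Γ.Walk u v),
      p.length = X.Γ.dist o u → p'.length = X.Γ.dist o u → p.length + y.length = n →
      (j (X.val p * X.val y) ∈ B o v ↔ j (X.val p' * X.val y) ∈ B o v)

/-- A3 (Gen). GENERATION: all walks are in `B`.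

Proof. Strong induction on the length: `Lt j B n`; let `f : Walk o v` have length `n`. If `f` is a
geodesic (`n = dist o v`): S_gd with `y = nil` and the geodesic of `Bd.geo`. Otherwise let `p` be
the longest prefix of `f` which is a geodesic, from `o` to `u`, `f = p (u,u') y`,
`dist o u' ≠ dist o u + 1` (prefix walks: induction on the walk, or `Walk.take`, `Walk.drop`).
Since `u`, `u'` are adjacent, `dist o u' = dist o u - 1` or `dist o u' = dist o u`.
First case: `u'` is a down-neighbour of `u`; let `q` be a geodesic from `o` to `u'`; by S_gd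
`f ~ q (u',u) (u,u') y`, whose value is that of `q y`, shorter than `n`.
Second case: `Wm.tc` gives a triangle cell `c` with corners `x, u, u'`, `x` a down-neighbour of
`u` and `u'`; `q` a geodesic from `o` to `x`; `f ~ q (x,u) (u,u') y` by S_gd, and S_mv (1) with
`a, b, m = x, u, u'` compares it with `q (x,u') y`, of length `n - 1`. -/
def S_gen : Prop :=
  ∀ (G V C : Type) [Group G] [MulAction G V] [MulAction G C] (X : Cx G V C), X.Wm → X.GenP

/-- A4 (Wm). `Met` implies `Wm`.

Proof. `tc` = `hor`. `qc`: `top` gives `c` with `Top o c v u u'`; if `PS`: left. If `PA`: the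
corners `u`, `u'` of the triangle are adjacent (`bd_adj`), and at the same distance from `o`, so
`hor` gives `c'`, `x`. -/
def S_wm : Prop :=
  ∀ (G V C : Type) [Group G] [MulAction G V] [MulAction G C] (X : Cx G V C), X.Met → X.Wm

/-- A5 (Fix). An element which fixes `o` and `v` fixes all geodesics from `o` to `v`, and
equivariant geodesics exist.

Proof. FIX: if `g • o = o`, `g • v = v` and `u` is a down-neighbour of `v` seen from `o`, then
`g • u = u`. Otherwise `u`, `g • u`, `g • (g • u)` are down-neighbours of `v`, so by `two`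
`g • g • u = u` (the other coincidences give `g • u = u`). `top` gives `c` with
`Top o c v u (g • u)`; `g • c` satisfies `Top o (g • c) v (g • u) (g • g • u)` (distances are
invariant), so `g • c = c` by `top_uniq`, hence `g` fixes `bv c` and all elements of `rs c`
(`rs_smul`), and `u` is one of them. By induction on `dist o v`, the value of every geodesic walk
from `o` to `v` is fixed by `φ g` (`φ_ε`). CHOICE: for `(u, v)` let `(u₀, v₀)` be the chosen
representative (`Quotient.out`) of its orbit in `V × V` and `(u, v) = g • (u₀, v₀)`;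
`γ u v = φ g (val p₀)`, `p₀` a geodesic walk from `u₀` to `v₀` chosen for the orbit. It does not
depend on `g` by FIX. -/
def S_geo : Prop :=
  ∀ (G V C : Type) [Group G] [MulAction G V] [MulAction G C] (X : Cx G V C), X.Met →
    Nonempty X.Geo

/-- A6 (Ch). The chains of the boundaries of the cells are linearly independent.

Proof. `chain_indep` (helper13): it suffices to find `lead : C → E` and `rank : C → ℕ` with
`chain (r c) (lead c) = ±1`, and `chain (r c') (lead c) ≠ 0`, `c ≠ c'` implies
`rank c < rank c'`. Fix `o` (`Γ` is connected, so `V` is nonempty). For every `v` which has a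
down-neighbour choose one, `p v`. Cells with a farthest corner `v` (`Top o c v u u'`): `lead c` =
the edge from `v` to the element of `{u, u'}` which is not `p v` (by `two`, `p v ∈ {u, u'}`), with
its orientation; `rank c = 2 dist o v - 1`. Cells with `PB o c x u u'`: `lead c` = the edge
`{u, u'}`, `rank c = 2 dist o u`. The chain of `r c` is the sum of `±` the edges of the boundary,
which are different (the corners of a cell are different: their distances from `o` differ or
`u ≠ u'` is part of the definition; `v ≠ x`), so the coefficient of an edge of the boundary is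
`±1` and the coefficient of any other edge is `0`. Let `c ≠ c'` and let `lead c` be an edge of
`c'`. (a) `lead c = {v, u}`, `v` farthest in `c`, `u` down from `v`. In `c'`: `v` is not the
farthest corner of `c'` with `Top` (`top_uniq`), so either `c'` is `PB o c' u v v'`, with rank
`2 dist o v`, or `c'` is a square with farthest corner `v'`, `v` down from `v'`, `u` down from
`v`, of rank `2 dist o v + 1`. (b) `lead c = {u, u'}` horizontal. `c'` is not `PB o c' x' u u'`
(`hor_uniq`; also with `u`, `u'` exchanged, `IsTri` is symmetric), so it is a triangle with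
farthest corner `v'` and `u`, `u'` down from `v'`, of rank `2 dist o u + 1`. -/
def S_ch : Prop :=
  ∀ (G V C : Type) [Group G] [MulAction G V] [MulAction G C] (X : Cx G V C), X.Met →
    ∀ (k : Type) [CommRing k], X.Ind k

end Pool.Agent.Cx2
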