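import Pool.Agent.Lib.MP_8f66f0_al_Cx.Defs
import Pool.Agent.Lib.MP_8f66f0_al_Tree.SpecF

/-! Part E: the group `G1` acts on the universal cover of the graph, a tree. -/

set_option autoImplicit false

namespace Pool.Agent.Cx2

open Pool.Agent.Wald Pool.Agent.TreeC

section Tree

variable {G V C : Type} [Group G] [MulAction G V] [MulAction G C] (X : Cx G V C) (o : V)

/-- The vertices of the tree: the paths which start at `o` (`(w, v)`: a path from `o` to `v`). -/
def Cx.W : Type := {x : X.FG × V // X.IsP o x.2 x.1}

instance : MulAction (X.G1 o) (X.W o) where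
  smul h x := ⟨(h.1.left * X.φ h.1.right x.1.1, h.1.right • x.1.2), by
    have h1 : X.IsP o (h.1.right • o) h.1.left := h.2
    exact h1.mul (Cx.IsP.smul x.2 h.1.right)⟩
  one_smul x := by
    refine Subtype.ext (Prod.ext ?_ (one_smul G _))
    change 1 * X.φ 1 x.1.1 = x.1.1
    rw [map_one, one_mul]
    rfl
  mul_smul h h' x := by
    refine Subtype.ext (Prod.ext ?_ (mul_smul _ _ _))
    change h.1.left * X.φ h.1.right h'.1.left * X.φ (h.1.right * h'.1.right) x.1.1 =
      h.1.left * X.φ h.1.right (h'.1.left * X.φ h'.1.right x.1.1)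
    rw [map_mul, map_mul, MulAut.mul_apply, mul_assoc]

/-- The tree. -/
def Cx.TG : SimpleGraph (X.W o) where
  Adj x y := X.Γ.Adj x.1.2 y.1.2 ∧ y.1.1 = x.1.1 * X.ε x.1.2 y.1.2
  symm := ⟨fun x y h => ⟨h.1.symm, by rw [h.2, X.ε_inv x.1.2 y.1.2, mul_inv_cancel_right]⟩⟩
  loopless := ⟨fun x h => X.Γ.loopless.irrefl _ h.1⟩

end Tree

/-- E1 (Nb). A walk without backtracking which is not trivial has a value `≠ 1`.

Proof. The value is `FreeGroup.mk L`, `L` the list of the letters `(e, sign)` of the edges; two
consecutive letters cancel only if the walk backtracks (`ori_anti`; an oriented edge is a pair of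
vertices), so `L` is reduced (`FreeGroup.IsReduced`) and not empty, hence `FreeGroup.mk L ≠ 1`. -/
def S_nb : Prop :=
  ∀ (G V C : Type) [Group G] [MulAction G V] [MulAction G C] (X : Cx G V C) (u v : V)
    (p : X.Γ.Walk u v), 0 < p.length →
    (∀ i, i + 2 ≤ p.length → p.getVert i ≠ p.getVert (i + 2)) → X.val p ≠ 1

/-- E2 (Tg). The graph `TG` is a tree.

Proof. Connected: `(w, v)` with `w = val p`, `p : Walk o v`; by induction on a walk
`q : Walk v v'` the vertices `(w, v)` and `(w * val q, v')` are joined; start at `(1, o)`.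
Acyclic: a cycle in `TG` projects to a closed walk `p` in `Γ` of the same length with
`val p = 1` (`x.1.1 * val p = x.1.1`). It does not backtrack: if `p.getVert i = p.getVert (i + 2)`
then the vertices number `i` and `i + 2` of the cycle are equal (their first components differ by
`ε(a,b) ε(b,a) = 1`), which is impossible in a cycle (length at least `3`, the vertices
`0, …, n - 1` are different: `IsCycle`; for `i + 2 = n` use `i ≠ 0`, and `n ≥ 3`). Contradiction
to S_nb. -/
def S_tg : Prop :=
  ∀ (G V C : Type) [Group G] [MulAction G V] [MulAction G C] (X : Cx G V C) (o : V),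
    (X.TG o).IsTree

/-- E3 (Act). The action on the tree.

Proof. Adjacency: `φ_ε`, `adj_smul`. No inversions: `h x = y`, `h y = x` would give
`g u = v`, `g v = u` for an edge `{u, v}` of `Γ`, impossible since the orientation is invariant.
The stabilizer of `x = (w, v)` in `G1 o` is isomorphic to the stabilizer of `v` in `G` by
`h ↦ h.right`: for `g v = v` the element `(w (φ g w)⁻¹, g)` is the only element of `G1 o` over `g`
which fixes `x`. -/
def S_act : Prop :=
  ∀ (G V C : Type) [Group G] [MulAction G V] [MulAction G C] (X : Cx G V C) (o : V),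
    (∀ (h : X.G1 o) (x y : X.W o), (X.TG o).Adj x y → (X.TG o).Adj (h • x) (h • y)) ∧
    (∀ (h : X.G1 o) (x y : X.W o), (X.TG o).Adj x y → ¬ (h • x = y ∧ h • y = x)) ∧
    ∀ x : X.W o, Nonempty (MulAction.stabilizer (X.G1 o) x ≃* MulAction.stabilizer G x.1.2)

/-- E4 (Go). A class which is closed under actions on trees contains `G1 o` if it contains the
stabilizers of the vertices.

Proof. `graph` (Tree/Graph.lean), `TClv.tree`, `TClv.iso`. -/
def S_go : Prop :=
  ∀ (P : (G : Type) → [Group G] → Prop), TClv P → ∀ (G V C : Type) [Group G] [MulAction G V]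
    [MulAction G C] (X : Cx G V C) (o : V), (∀ v : V, P (MulAction.stabilizer G v)) → P (X.G1 o)

end Pool.Agent.Cx2
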